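import Mathlib

/-!
MP_dd87f4 (helper50, for the proof of helper25): the entropy `Ent A` of a complex matrix, defined through
the roots of the characteristic polynomial; formulas through eigenvalues; Peierls inequality and midpoint
concavity on positive semidefinite matrices.
-/

set_option autoImplicit false

open Matrix
open scoped ComplexOrder

namespace Pool.Agent.H.MP_dd87f4_mp

variable {n : Type*} [Fintype n] [DecidableEq n]

/-- Entropy of a matrix, through the roots of its characteristic polynomial. -/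
noncomputable def Ent (A : Matrix n n ℂ) : ℝ :=
  (A.charpoly.roots.map (fun z : ℂ => Real.negMulLog z.re)).sum

theorem Ent_eq {A : Matrix n n ℂ} (hA : A.IsHermitian) :
    Ent A = ∑ i, Real.negMulLog (hA.eigenvalues i) := by
  unfold Ent
  rw [hA.roots_charpoly_eq_eigenvalues, Multiset.map_map, Finset.sum]
  congr 1

theorem Ent_congr {m : Type*} [Fintype m] [DecidableEq m] {A : Matrix n n ℂ} {B : Matrix m m ℂ}
    (h : A.charpoly = B.charpoly) : Ent A = Ent B := by
  unfold Ent
  rw [h]

theorem Ent_reindex {m : Type*} [Fintype m] [DecidableEq m] (e : n ≃ m) (A : Matrix n n ℂ) :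
    Ent (Matrix.reindex e e A) = Ent A :=
  Ent_congr (Matrix.charpoly_reindex e A)

theorem Ent_unitary_conj {U : Matrix n n ℂ} (hU : Uᴴ * U = 1) (A : Matrix n n ℂ) :
    Ent (U * A * Uᴴ) = Ent A := by
  apply Ent_congr
  rw [Matrix.charpoly_mul_comm, ← mul_assoc, hU, one_mul]

/-- `det (t + A) = ∏ (t + eigenvalues)`. -/
theorem det_add_eq {A : Matrix n n ℂ} (hA : A.IsHermitian) (t : ℂ) :
    (t • (1 : Matrix n n ℂ) + A).det = ∏ i, (t + (hA.eigenvalues i : ℂ)) := by
  have h1 := hA.spectral_theorem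
  rw [Unitary.conjStarAlgAut_apply] at h1
  set U : Matrix n n ℂ := (hA.eigenvectorUnitary : Matrix n n ℂ) with hU
  have hUU : U * star U = 1 := Unitary.mul_star_self_of_mem hA.eigenvectorUnitary.2
  have h2 : t • (1 : Matrix n n ℂ) + A
      = U * (diagonal (fun i => t + (hA.eigenvalues i : ℂ))) * star U := by
    have h3 : diagonal (fun i => t + (hA.eigenvalues i : ℂ))
        = t • (1 : Matrix n n ℂ) + diagonal (RCLike.ofReal ∘ hA.eigenvalues) := by
      rw [Matrix.smul_one_eq_diagonal, Matrix.diagonal_add]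
      rfl
    rw [h3, mul_add, add_mul, ← h1, mul_smul_comm, mul_one, smul_mul_assoc, hUU]
  rw [h2, Matrix.det_mul, Matrix.det_mul, mul_right_comm, ← Matrix.det_mul, hUU, Matrix.det_one,
    one_mul, Matrix.det_diagonal]

/-- Real form of `det_add_eq`. -/
theorem det_add_re {A : Matrix n n ℂ} (hA : A.IsHermitian) (t : ℝ) :
    ((t : ℂ) • (1 : Matrix n n ℂ) + A).det = ((∏ i, (t + hA.eigenvalues i) : ℝ) : ℂ) := by
  rw [det_add_eq hA]
  push_cast
  rfl

/-- Peierls inequality: the entropy is at most the entropy of the diagonal of `Vᴴ A V`. -/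
theorem Ent_le_diag {A : Matrix n n ℂ} (hA : A.PosSemidef) {V : Matrix n n ℂ} (hV : Vᴴ * V = 1) :
    Ent A ≤ ∑ i, Real.negMulLog ((Vᴴ * A * V) i i).re := by
  have hH := hA.isHermitian
  have h1 := hH.spectral_theorem
  rw [Unitary.conjStarAlgAut_apply] at h1
  set U : Matrix n n ℂ := (hH.eigenvectorUnitary : Matrix n n ℂ) with hU
  have hUU : U * star U = 1 := Unitary.mul_star_self_of_mem hH.eigenvectorUnitary.2
  have hUU' : star U * U = 1 := Unitary.star_mul_self_of_mem hH.eigenvectorUnitary.2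
  have hV' : V * Vᴴ = 1 := mul_eq_one_comm.mp hV
  set W : Matrix n n ℂ := Vᴴ * U with hW
  have hWW : W * Wᴴ = 1 := by
    rw [hW, Matrix.conjTranspose_mul, Matrix.conjTranspose_conjTranspose, mul_assoc,
      ← mul_assoc U, ← Matrix.star_eq_conjTranspose U, hUU, one_mul, hV]
  have hWW' : Wᴴ * W = 1 := mul_eq_one_comm.mp hWW
  have hconj : Vᴴ * A * V = W * diagonal (RCLike.ofReal ∘ hH.eigenvalues) * Wᴴ := by
    rw [hW, Matrix.conjTranspose_mul, Matrix.conjTranspose_conjTranspose,
      ← Matrix.star_eq_conjTranspose U]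
    conv_lhs => rw [h1]
    simp only [mul_assoc]
  have hentry : ∀ i, ((Vᴴ * A * V) i i).re = ∑ j, Complex.normSq (W i j) * hH.eigenvalues j := by
    intro i
    rw [hconj, Matrix.mul_apply, Complex.re_sum]
    apply Finset.sum_congr rfl
    intro j _
    rw [Matrix.mul_diagonal, Matrix.conjTranspose_apply, Function.comp_apply]
    have h3 : W i j * (RCLike.ofReal (hH.eigenvalues j) : ℂ) * star (W i j)
        = ((Complex.normSq (W i j) * hH.eigenvalues j : ℝ) : ℂ) := by
      rw [mul_right_comm, ← starRingEnd_apply, Complex.mul_conj]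
      push_cast
      rfl
    rw [h3, Complex.ofReal_re]
  have hrow : ∀ i, ∑ j, Complex.normSq (W i j) = 1 := by
    intro i
    have h3 : (W * Wᴴ) i i = 1 := by rw [hWW]; simp
    rw [Matrix.mul_apply] at h3
    have h4 := congrArg Complex.re h3
    rw [Complex.re_sum, Complex.one_re] at h4
    rw [← h4]
    apply Finset.sum_congr rfl
    intro j _
    rw [Matrix.conjTranspose_apply, ← starRingEnd_apply, Complex.mul_conj, Complex.ofReal_re]
  have hcol : ∀ j, ∑ i, Complex.normSq (W i j) = 1 := by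
    intro j
    have h3 : (Wᴴ * W) j j = 1 := by rw [hWW']; simp
    rw [Matrix.mul_apply] at h3
    have h4 := congrArg Complex.re h3
    rw [Complex.re_sum, Complex.one_re] at h4
    rw [← h4]
    apply Finset.sum_congr rfl
    intro i _
    rw [Matrix.conjTranspose_apply, mul_comm, ← starRingEnd_apply, Complex.mul_conj,
      Complex.ofReal_re]
  have hnn : ∀ j, 0 ≤ hH.eigenvalues j := fun j => hA.eigenvalues_nonneg j
  rw [Ent_eq hH]
  have hJ : ∀ i, ∑ j, Complex.normSq (W i j) * Real.negMulLog (hH.eigenvalues j)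
      ≤ Real.negMulLog ((Vᴴ * A * V) i i).re := by
    intro i
    rw [hentry i]
    have h5 := Real.concaveOn_negMulLog.le_map_sum (t := Finset.univ)
      (w := fun j => Complex.normSq (W i j)) (p := fun j => hH.eigenvalues j)
      (fun j _ => Complex.normSq_nonneg _) (hrow i) (fun j _ => Set.mem_Ici.mpr (hnn j))
    simpa [smul_eq_mul] using h5
  calc ∑ j, Real.negMulLog (hH.eigenvalues j)
      = ∑ j, (∑ i, Complex.normSq (W i j)) * Real.negMulLog (hH.eigenvalues j) := by
        apply Finset.sum_congr rfl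
        intro j _
        rw [hcol j, one_mul]
    _ = ∑ i, ∑ j, Complex.normSq (W i j) * Real.negMulLog (hH.eigenvalues j) := by
        rw [Finset.sum_comm]
        apply Finset.sum_congr rfl
        intro j _
        rw [Finset.sum_mul]
    _ ≤ _ := Finset.sum_le_sum fun i _ => hJ i

/-- Midpoint concavity of the entropy on positive semidefinite matrices. -/
theorem Ent_half {A B : Matrix n n ℂ} (hA : A.PosSemidef) (hB : B.PosSemidef) :
    (Ent A + Ent B) / 2 ≤ Ent ((1 / 2 : ℂ) • (A + B)) := by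
  have hAB : (A + B).PosSemidef := hA.add hB
  have hC : ((1 / 2 : ℂ) • (A + B)).PosSemidef := by
    apply hAB.smul
    rw [Complex.le_def]
    norm_num
  obtain ⟨C, hCdef⟩ : ∃ C : Matrix n n ℂ, C = (1 / 2 : ℂ) • (A + B) := ⟨_, rfl⟩
  rw [← hCdef] at hC ⊢
  have hH := hC.isHermitian
  have h1 := hH.spectral_theorem
  rw [Unitary.conjStarAlgAut_apply] at h1
  set U : Matrix n n ℂ := (hH.eigenvectorUnitary : Matrix n n ℂ) with hU
  have hUU' : Uᴴ * U = 1 := by
    rw [← Matrix.star_eq_conjTranspose]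
    exact Unitary.star_mul_self_of_mem hH.eigenvectorUnitary.2
  have hdiag : Uᴴ * C * U = diagonal (RCLike.ofReal ∘ hH.eigenvalues) := by
    conv_lhs => rw [h1]
    rw [Matrix.star_eq_conjTranspose]
    calc Uᴴ * (U * diagonal (RCLike.ofReal ∘ hH.eigenvalues) * Uᴴ) * U
        = (Uᴴ * U) * diagonal (RCLike.ofReal ∘ hH.eigenvalues) * (Uᴴ * U) := by
          simp only [mul_assoc]
      _ = _ := by rw [hUU', one_mul, mul_one]
  have hA1 := Ent_le_diag hA hUU'
  have hB1 := Ent_le_diag hB hUU'
  have hdA : ∀ i, 0 ≤ ((Uᴴ * A * U) i i).re := by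
    intro i
    have h2 : (Uᴴ * A * U).PosSemidef := hA.conjTranspose_mul_mul_same U
    have h3 := h2.diag_nonneg (i := i)
    exact (Complex.le_def.mp h3).1
  have hdB : ∀ i, 0 ≤ ((Uᴴ * B * U) i i).re := by
    intro i
    have h2 : (Uᴴ * B * U).PosSemidef := hB.conjTranspose_mul_mul_same U
    have h3 := h2.diag_nonneg (i := i)
    exact (Complex.le_def.mp h3).1
  have hev : ∀ i, hH.eigenvalues i
      = (1 / 2 : ℝ) * ((Uᴴ * A * U) i i).re + (1 / 2 : ℝ) * ((Uᴴ * B * U) i i).re := by
    intro i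
    have h2 : (Uᴴ * C * U) i i = (hH.eigenvalues i : ℂ) := by
      rw [hdiag, Matrix.diagonal_apply_eq]
      rfl
    have h3 : Uᴴ * C * U = (1 / 2 : ℂ) • (Uᴴ * A * U + Uᴴ * B * U) := by
      rw [hCdef, mul_smul_comm, smul_mul_assoc, mul_add, add_mul]
    rw [h3, Matrix.smul_apply, Matrix.add_apply, smul_eq_mul] at h2
    have h4 := congrArg Complex.re h2
    rw [Complex.ofReal_re] at h4
    rw [← h4]
    simp [Complex.mul_re]
    ring
  rw [Ent_eq hH]
  have hpt : ∀ i, (1 / 2 : ℝ) * Real.negMulLog ((Uᴴ * A * U) i i).re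
      + (1 / 2 : ℝ) * Real.negMulLog ((Uᴴ * B * U) i i).re ≤ Real.negMulLog (hH.eigenvalues i) := by
    intro i
    rw [hev i]
    exact Real.concaveOn_negMulLog.2 (Set.mem_Ici.mpr (hdA i)) (Set.mem_Ici.mpr (hdB i))
      (by norm_num) (by norm_num) (by norm_num)
  have hsum := Finset.sum_le_sum fun i (_ : i ∈ Finset.univ) => hpt i
  rw [Finset.sum_add_distrib, ← Finset.mul_sum, ← Finset.mul_sum] at hsum
  linarith

end Pool.Agent.H.MP_dd87f4_mp
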