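import Mathlib

/-!
# MP_dd87f4_mp: minimisers of the output determinant, entropies of 2x2 matrices through
trace and determinant.
-/

set_option autoImplicit false

open Matrix
open scoped ComplexOrder MatrixOrder Matrix.Norms.L2Operator

namespace Pool.Agent.H.MP_dd87f4_mp.MinDet

/-- entropy of a matrix through the roots of its characteristic polynomial -/
noncomputable def Ent {n : Type*} [Fintype n] [DecidableEq n] (A : Matrix n n ℂ) : ℝ :=
  (A.charpoly.roots.map (fun z : ℂ => Real.negMulLog z.re)).sum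

theorem Ent_eq_sum {n : Type*} [Fintype n] [DecidableEq n] {A : Matrix n n ℂ}
    (hA : A.IsHermitian) : Ent A = ∑ i, Real.negMulLog (hA.eigenvalues i) := by
  unfold Ent
  rw [hA.roots_charpoly_eq_eigenvalues, Multiset.map_map]
  rfl

/-- the two eigenvalues of a positive semidefinite 2x2 matrix -/
theorem exists_pair {A : Matrix (Fin 2) (Fin 2) ℂ} (hA : A.PosSemidef) :
    ∃ x y : ℝ, 0 ≤ x ∧ 0 ≤ y ∧ x + y = A.trace.re ∧ x * y = A.det.re ∧
      Ent A = Real.negMulLog x + Real.negMulLog y := by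
  refine ⟨hA.1.eigenvalues 0, hA.1.eigenvalues 1, hA.eigenvalues_nonneg 0,
    hA.eigenvalues_nonneg 1, ?_, ?_, ?_⟩
  · rw [hA.1.trace_eq_sum_eigenvalues]
    simp [Fin.sum_univ_two]
  · rw [hA.1.det_eq_prod_eigenvalues]
    simp [Fin.prod_univ_two]
  · rw [Ent_eq_sum hA.1, Fin.sum_univ_two]

/-- two pairs with the same sum, one with the larger product: the larger entropy -/
theorem pair_mono {x y a b : ℝ} (hx : 0 ≤ x) (hy : 0 ≤ y) (ha : 0 ≤ a) (hb : 0 ≤ b)
    (hs : x + y = 1) (hs' : a + b = 1) (hp : x * y ≤ a * b) :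
    Real.negMulLog x + Real.negMulLog y ≤ Real.negMulLog a + Real.negMulLog b := by
  -- wlog x ≤ y and a ≤ b
  have key : ∀ x y a b : ℝ, 0 ≤ x → 0 ≤ y → 0 ≤ a → 0 ≤ b → x + y = 1 → a + b = 1 →
      x * y ≤ a * b → x ≤ y → a ≤ b →
      Real.negMulLog x + Real.negMulLog y ≤ Real.negMulLog a + Real.negMulLog b := by
    intro x y a b hx hy ha hb hs hs' hp hxy hab
    have hy' : y = 1 - x := by linarith
    have hb' : b = 1 - a := by linarith
    subst hy' hb'
    rw [← Real.binEntropy_eq_negMulLog_add_negMulLog_one_sub,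
      ← Real.binEntropy_eq_negMulLog_add_negMulLog_one_sub]
    have hxa : x ≤ a := by
      by_contra h
      push Not at h
      nlinarith
    apply Real.binEntropy_strictMonoOn.monotoneOn _ _ hxa
    · constructor
      · exact hx
      · norm_num; linarith
    · constructor
      · exact ha
      · norm_num; linarith
  rcases le_total x y with h1 | h1 <;> rcases le_total a b with h2 | h2
  · exact key x y a b hx hy ha hb hs hs' hp h1 h2
  · have := key x y b a hx hy hb ha hs (by linarith) (by linarith [mul_comm a b]) h1 h2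
    linarith
  · have := key y x a b hy hx ha hb (by linarith) hs' (by linarith [mul_comm x y]) h1 h2
    linarith
  · have := key y x b a hy hx hb ha (by linarith) (by linarith)
      (by linarith [mul_comm a b, mul_comm x y]) h1 h2
    linarith

/-- homogeneous form of `pair_mono` -/
theorem pair_mono_hom {x y a b t : ℝ} (hx : 0 ≤ x) (hy : 0 ≤ y) (ha : 0 ≤ a) (hb : 0 ≤ b)
    (hs : x + y = 1) (hs' : a + b = t) (hp : t ^ 2 * (x * y) ≤ a * b) :
    t * (Real.negMulLog x + Real.negMulLog y) + Real.negMulLog t ≤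
      Real.negMulLog a + Real.negMulLog b := by
  have ht : 0 ≤ t := by linarith
  rcases ht.eq_or_lt with h0 | h0
  · have ha0 : a = 0 := by linarith
    have hb0 : b = 0 := by linarith
    rw [← h0, ha0, hb0]
    simp
  · have h1 := pair_mono hx hy (a := a / t) (b := b / t) (by positivity) (by positivity) hs
      (by rw [← add_div, hs', div_self h0.ne']) (by
        rw [div_mul_div_comm, le_div_iff₀ (by positivity)]
        nlinarith)
    have ea : a = t * (a / t) := by field_simp
    have eb : b = t * (b / t) := by field_simp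
    have e1 : Real.negMulLog a = (a / t) * Real.negMulLog t + t * Real.negMulLog (a / t) := by
      conv_lhs => rw [ea]
      rw [Real.negMulLog_mul]
    have e2 : Real.negMulLog b = (b / t) * Real.negMulLog t + t * Real.negMulLog (b / t) := by
      conv_lhs => rw [eb]
      rw [Real.negMulLog_mul]
    rw [e1, e2]
    have e3 : a / t + b / t = 1 := by rw [← add_div, hs', div_self h0.ne']
    have e4 : (a / t) * Real.negMulLog t + (b / t) * Real.negMulLog t = Real.negMulLog t := by
      rw [← add_mul, e3, one_mul]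
    nlinarith [mul_le_mul_of_nonneg_left h1 ht]

/-- entropy is monotone in the determinant for 2x2 density matrices -/
theorem ent_mono_det {A B : Matrix (Fin 2) (Fin 2) ℂ} (hA : A.PosSemidef) (hB : B.PosSemidef)
    (tA : A.trace = 1) (tB : B.trace = 1) (hd : A.det.re ≤ B.det.re) : Ent A ≤ Ent B := by
  obtain ⟨x, y, hx, hy, h1, h2, h3⟩ := exists_pair hA
  obtain ⟨a, b, ha, hb, k1, k2, k3⟩ := exists_pair hB
  rw [tA] at h1
  rw [tB] at k1
  rw [h3, k3]
  exact pair_mono hx hy ha hb (by simpa using h1) (by simpa using k1) (by rw [h2, k2]; exact hd)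

/-- homogeneous version: `A` a density matrix, `B` any positive semidefinite matrix of trace `t`
with determinant at least `t^2 det A` -/
theorem ent_hom_det {A B : Matrix (Fin 2) (Fin 2) ℂ} (hA : A.PosSemidef) (hB : B.PosSemidef)
    (tA : A.trace = 1) (hd : B.trace.re ^ 2 * A.det.re ≤ B.det.re) :
    B.trace.re * Ent A + Real.negMulLog B.trace.re ≤ Ent B := by
  obtain ⟨x, y, hx, hy, h1, h2, h3⟩ := exists_pair hA
  obtain ⟨a, b, ha, hb, k1, k2, k3⟩ := exists_pair hB
  rw [tA] at h1
  rw [h3, k3]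
  exact pair_mono_hom hx hy ha hb (by simpa using h1) k1 (by rw [h2, k2]; exact hd)

/-- numbers of sum one with product at least the determinant of a density matrix -/
theorem ent_le_pair {A : Matrix (Fin 2) (Fin 2) ℂ} (hA : A.PosSemidef)
    (tA : A.trace = 1) {a b : ℝ} (ha : 0 ≤ a) (hb : 0 ≤ b) (hab : a + b = 1)
    (hd : A.det.re ≤ a * b) :
    Ent A ≤ Real.negMulLog a + Real.negMulLog b := by
  obtain ⟨x, y, hx, hy, h1, h2, h3⟩ := exists_pair hA
  rw [tA] at h1
  rw [h3]
  exact pair_mono hx hy ha hb (by simpa using h1) hab (by rw [h2]; exact hd)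

/-! ### compactness of the set of density matrices -/

theorem isCompact_density (n : Type*) [Fintype n] [DecidableEq n] :
    IsCompact {σ : Matrix n n ℂ | σ.PosSemidef ∧ σ.trace = 1} := by
  have hcl : IsClosed {σ : Matrix n n ℂ | σ.PosSemidef ∧ σ.trace = 1} := by
    have e : {σ : Matrix n n ℂ | σ.PosSemidef ∧ σ.trace = 1} =
        {σ : Matrix n n ℂ | σᴴ = σ} ∩ (⋂ x : n → ℂ, {σ : Matrix n n ℂ | 0 ≤ star x ⬝ᵥ (σ *ᵥ x)}) ∩
          {σ : Matrix n n ℂ | σ.trace = 1} := by
      ext σ
      simp only [Set.mem_ofPred_eq, Set.mem_inter_iff, Set.mem_iInter,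
        posSemidef_iff_dotProduct_mulVec, Matrix.IsHermitian]
    rw [e]
    refine ((isClosed_eq (by fun_prop) (by fun_prop)).inter (isClosed_iInter fun x => ?_)).inter
      (isClosed_eq (by fun_prop) (by fun_prop))
    exact isClosed_le continuous_const (by fun_prop)
  have hK : IsCompact (Set.pi Set.univ (fun _ : n => Set.pi Set.univ
      (fun _ : n => Metric.closedBall (0 : ℂ) 1)) : Set (n → n → ℂ)) := by
    refine isCompact_univ_pi fun _ => isCompact_univ_pi fun _ => ?_
    exact isCompact_closedBall 0 1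
  have hsub : {σ : Matrix n n ℂ | σ.PosSemidef ∧ σ.trace = 1} ⊆
      (Set.pi Set.univ (fun _ : n => Set.pi Set.univ
      (fun _ : n => Metric.closedBall (0 : ℂ) 1)) : Set (n → n → ℂ)) := by
    rintro σ ⟨hσ, ht⟩ i - j -
    simp only [Metric.mem_closedBall, dist_zero_right]
    obtain ⟨B, hB⟩ := CStarAlgebra.nonneg_iff_eq_star_mul_self.mp hσ.nonneg
    rw [Matrix.star_eq_conjTranspose] at hB
    have hcol : ∀ l : n, ∑ k, ‖B k l‖ ^ 2 ≤ 1 := by
      intro l
      have h1 : ∑ l, ∑ k, ‖B k l‖ ^ 2 = 1 := by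
        have h2 : (σ.trace).re = 1 := by rw [ht]; simp
        rw [← h2, hB, Matrix.trace, Complex.re_sum]
        refine Finset.sum_congr rfl fun l _ => ?_
        rw [Matrix.diag_apply, Matrix.mul_apply, Complex.re_sum]
        refine Finset.sum_congr rfl fun k _ => ?_
        rw [Matrix.conjTranspose_apply, ← Complex.normSq_eq_norm_sq]
        simp [Complex.normSq_apply]
      rw [← h1]
      exact Finset.single_le_sum (f := fun l => ∑ k, ‖B k l‖ ^ 2)
        (fun l _ => Finset.sum_nonneg fun k _ => by positivity) (Finset.mem_univ l)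
    rw [hB, Matrix.mul_apply]
    refine (norm_sum_le _ _).trans ?_
    have h3 : ∀ k, ‖Bᴴ i k * B k j‖ ≤ (‖B k i‖ ^ 2 + ‖B k j‖ ^ 2) / 2 := by
      intro k
      rw [norm_mul, Matrix.conjTranspose_apply, norm_star]
      nlinarith [sq_nonneg (‖B k i‖ - ‖B k j‖)]
    refine (Finset.sum_le_sum fun k _ => h3 k).trans ?_
    rw [← Finset.sum_div, Finset.sum_add_distrib]
    linarith [hcol i, hcol j]
  exact hK.of_isClosed_subset hcl hsub

theorem exists_min_det {m : ℕ} (K : Fin m → Matrix (Fin 2) (Fin 2) ℂ) :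
    ∃ σ : Matrix (Fin 2) (Fin 2) ℂ, σ.PosSemidef ∧ σ.trace = 1 ∧
      ∀ σ' : Matrix (Fin 2) (Fin 2) ℂ, σ'.PosSemidef → σ'.trace = 1 →
        (∑ i, K i * σ * (K i)ᴴ).det.re ≤ (∑ i, K i * σ' * (K i)ᴴ).det.re := by
  have hne : ({σ : Matrix (Fin 2) (Fin 2) ℂ | σ.PosSemidef ∧ σ.trace = 1}).Nonempty := by
    refine ⟨Matrix.diagonal ![1, 0], ?_, ?_⟩
    · refine Matrix.PosSemidef.diagonal ?_
      intro i
      fin_cases i <;> simp
    · simp [Matrix.trace, Fin.sum_univ_two]
  have hc : ContinuousOn (fun σ : Matrix (Fin 2) (Fin 2) ℂ => (∑ i, K i * σ * (K i)ᴴ).det.re)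
      {σ : Matrix (Fin 2) (Fin 2) ℂ | σ.PosSemidef ∧ σ.trace = 1} := by
    apply Continuous.continuousOn
    apply Complex.continuous_re.comp
    apply Continuous.matrix_det
    fun_prop
  obtain ⟨σ, ⟨h1, h2⟩, h3⟩ := (isCompact_density (Fin 2)).exists_isMinOn hne hc
  exact ⟨σ, h1, h2, fun σ' a b => h3 ⟨a, b⟩⟩

end Pool.Agent.H.MP_dd87f4_mp.MinDet
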