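import Mathlib

/-!
MP_dd87f4 (helper68, for the proof of helper25): a weighted entropy comparison lemma and the
superadditivity of the function `GG r q u = eta r + eta q + eta u - eta mu_+ - eta mu_-`, where
`mu_+-` are the roots of `x^2 - (r+q+u) x + r q`.
-/

open Real Filter Topology

namespace Pool.Agent.H.MP_dd87f4_mp

/-- `(p+t) log (p+t) - (p+t) log t -> p`. -/
theorem ent_lim (p : ℝ) (hp : 0 ≤ p) :
    Tendsto (fun t : ℝ => (p + t) * log (p + t) - (p + t) * log t) atTop (𝓝 p) := by
  have h1 : Tendsto (fun t : ℝ => t * log (1 + p / t)) atTop (𝓝 p) :=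
    Real.tendsto_mul_log_one_add_div_atTop p
  have h2 : Tendsto (fun t : ℝ => log (1 + p / t)) atTop (𝓝 0) := by
    have h3 : Tendsto (fun t : ℝ => 1 + p / t) atTop (𝓝 (1 + 0)) :=
      tendsto_const_nhds.add (tendsto_const_nhds.div_atTop tendsto_id)
    have h4 := ((Real.continuousAt_log (by norm_num : (1 + 0 : ℝ) ≠ 0)).tendsto).comp h3
    have h5 : log (1 + 0) = 0 := by simp
    rw [h5] at h4
    exact h4
  have h5 : Tendsto (fun t : ℝ => p * log (1 + p / t) + t * log (1 + p / t)) atTop
      (𝓝 (p * 0 + p)) := (h2.const_mul p).add h1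
  have h6 : (p * 0 + p) = p := by ring
  rw [h6] at h5
  refine h5.congr' ?_
  filter_upwards [eventually_gt_atTop (0 : ℝ)] with t ht
  have h7 : 1 + p / t = (p + t) / t := by field_simp; ring
  rw [h7, Real.log_div (by positivity) (by positivity)]
  ring

/-- The weighted entropy comparison lemma. -/
theorem went {ι κ : Type*} (s : Finset ι) (s' : Finset κ) (w p : ι → ℝ) (w' n : κ → ℝ)
    (hp : ∀ i ∈ s, 0 ≤ p i) (hn : ∀ j ∈ s', 0 ≤ n j)
    (hW : ∑ i ∈ s, w i = ∑ j ∈ s', w' j) (hM : ∑ i ∈ s, w i * p i = ∑ j ∈ s', w' j * n j)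
    (hL : ∀ t : ℝ, 0 < t →
      ∑ j ∈ s', w' j * log (n j + t) ≤ ∑ i ∈ s, w i * log (p i + t)) :
    ∑ j ∈ s', w' j * negMulLog (n j) ≤ ∑ i ∈ s, w i * negMulLog (p i) := by
  set F : ℝ → ℝ := fun t => ∑ i ∈ s, w i * ((p i + t) * log (p i + t))
    - ∑ j ∈ s', w' j * ((n j + t) * log (n j + t)) with hF
  have hcont : Continuous F := by
    apply Continuous.sub
    · refine continuous_finsetSum _ fun i _ => continuous_const.mul ?_
      exact Real.continuous_mul_log.comp (continuous_const.add continuous_id)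
    · refine continuous_finsetSum _ fun i _ => continuous_const.mul ?_
      exact Real.continuous_mul_log.comp (continuous_const.add continuous_id)
  have hder1 : ∀ (c : ℝ), 0 ≤ c → ∀ t : ℝ, 0 < t →
      HasDerivAt (fun t : ℝ => (c + t) * log (c + t)) (log (c + t) + 1) t := by
    intro c hc t ht
    have h1 : HasDerivAt (fun x : ℝ => x * log x) (log (c + t) + 1) (c + t) :=
      Real.hasDerivAt_mul_log (by positivity)
    have h2 : HasDerivAt (fun t : ℝ => c + t) 1 t := by
      simpa using (hasDerivAt_id t).const_add c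
    have h3 := h1.comp t h2
    rw [mul_one] at h3
    exact h3
  have hder : ∀ t : ℝ, 0 < t → HasDerivAt F
      (∑ i ∈ s, w i * (log (p i + t) + 1) - ∑ j ∈ s', w' j * (log (n j + t) + 1)) t := by
    intro t ht
    apply HasDerivAt.sub
    · have := HasDerivAt.fun_sum (u := s) (A := fun i (t : ℝ) => w i * ((p i + t) * log (p i + t)))
        (A' := fun i => w i * (log (p i + t) + 1)) (x := t)
        (fun i hi => (hder1 (p i) (hp i hi) t ht).const_mul (w i))
      simpa using this
    · have := HasDerivAt.fun_sum (u := s')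
        (A := fun i (t : ℝ) => w' i * ((n i + t) * log (n i + t)))
        (A' := fun i => w' i * (log (n i + t) + 1)) (x := t)
        (fun i hi => (hder1 (n i) (hn i hi) t ht).const_mul (w' i))
      simpa using this
  have hder0 : ∀ t : ℝ, 0 < t → 0 ≤
      (∑ i ∈ s, w i * (log (p i + t) + 1) - ∑ j ∈ s', w' j * (log (n j + t) + 1)) := by
    intro t ht
    have h1 := hL t ht
    simp only [mul_add, mul_one, Finset.sum_add_distrib]
    linarith
  have hmono : MonotoneOn F (Set.Ici 0) := by
    apply monotoneOn_of_deriv_nonneg (convex_Ici 0) hcont.continuousOn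
    · intro t ht
      rw [interior_Ici] at ht
      exact (hder t ht).differentiableAt.differentiableWithinAt
    · intro t ht
      rw [interior_Ici] at ht
      rw [(hder t ht).deriv]
      exact hder0 t ht
  have hlim : Tendsto F atTop (𝓝 0) := by
    have h1 : Tendsto (fun t : ℝ => ∑ i ∈ s, w i * ((p i + t) * log (p i + t)
        - (p i + t) * log t) - ∑ j ∈ s', w' j * ((n j + t) * log (n j + t)
        - (n j + t) * log t)) atTop (𝓝 (∑ i ∈ s, w i * p i - ∑ j ∈ s', w' j * n j)) := by
      apply Tendsto.sub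
      · exact tendsto_finsetSum _ fun i hi => (ent_lim (p i) (hp i hi)).const_mul (w i)
      · exact tendsto_finsetSum _ fun i hi => (ent_lim (n i) (hn i hi)).const_mul (w' i)
    rw [hM, sub_self] at h1
    refine h1.congr ?_
    intro t
    have h2 : ∑ i ∈ s, w i * ((p i + t) * log (p i + t) - (p i + t) * log t)
        = ∑ i ∈ s, w i * ((p i + t) * log (p i + t))
          - (∑ i ∈ s, w i * p i + (∑ i ∈ s, w i) * t) * log t := by
      rw [Finset.sum_mul, ← Finset.sum_add_distrib, Finset.sum_mul, ← Finset.sum_sub_distrib]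
      exact Finset.sum_congr rfl fun i _ => by ring
    have h3 : ∑ i ∈ s', w' i * ((n i + t) * log (n i + t) - (n i + t) * log t)
        = ∑ i ∈ s', w' i * ((n i + t) * log (n i + t))
          - (∑ i ∈ s', w' i * n i + (∑ i ∈ s', w' i) * t) * log t := by
      rw [Finset.sum_mul, ← Finset.sum_add_distrib, Finset.sum_mul, ← Finset.sum_sub_distrib]
      exact Finset.sum_congr rfl fun i _ => by ring
    rw [h2, h3, hM, hW]
    simp only [hF]
    ring
  have h0 : F 0 ≤ 0 := by
    refine ge_of_tendsto hlim ?_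
    filter_upwards [eventually_ge_atTop (0 : ℝ)] with t ht
    exact hmono (Set.mem_Ici.2 le_rfl) (Set.mem_Ici.2 ht) ht
  simp only [hF, add_zero] at h0
  have h4 : ∑ i ∈ s, w i * negMulLog (p i) = - ∑ i ∈ s, w i * (p i * log (p i)) := by
    rw [← Finset.sum_neg_distrib]
    exact Finset.sum_congr rfl fun i _ => by simp [negMulLog]
  have h5 : ∑ i ∈ s', w' i * negMulLog (n i) = - ∑ i ∈ s', w' i * (n i * log (n i)) := by
    rw [← Finset.sum_neg_distrib]
    exact Finset.sum_congr rfl fun i _ => by simp [negMulLog]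
  rw [h4, h5]
  linarith

/-- The larger root of `x^2 - (r+q+u) x + r q`. -/
noncomputable def mup (r q u : ℝ) : ℝ := ((r + q + u) + √((r + q + u) ^ 2 - 4 * (r * q))) / 2

/-- The smaller root of `x^2 - (r+q+u) x + r q`. -/
noncomputable def mum (r q u : ℝ) : ℝ := ((r + q + u) - √((r + q + u) ^ 2 - 4 * (r * q))) / 2

/-- `G = eta r + eta q + eta u - eta mu_+ - eta mu_-`. -/
noncomputable def GG (r q u : ℝ) : ℝ :=
  negMulLog r + negMulLog q + negMulLog u - negMulLog (mup r q u) - negMulLog (mum r q u)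

theorem mu_add (r q u : ℝ) : mup r q u + mum r q u = r + q + u := by
  unfold mup mum; ring

theorem mu_disc {r q u : ℝ} (hr : 0 ≤ r) (hq : 0 ≤ q) (hu : 0 ≤ u) :
    0 ≤ (r + q + u) ^ 2 - 4 * (r * q) := by
  nlinarith [mul_nonneg hr hu, mul_nonneg hq hu, sq_nonneg (r - q), mul_nonneg hu hu]

theorem mu_mul {r q u : ℝ} (hr : 0 ≤ r) (hq : 0 ≤ q) (hu : 0 ≤ u) :
    mup r q u * mum r q u = r * q := by
  unfold mup mum
  have h := Real.mul_self_sqrt (mu_disc hr hq hu)
  nlinarith [h]

theorem mup_nonneg {r q u : ℝ} (hr : 0 ≤ r) (hq : 0 ≤ q) (hu : 0 ≤ u) : 0 ≤ mup r q u := by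
  unfold mup
  have := Real.sqrt_nonneg ((r + q + u) ^ 2 - 4 * (r * q))
  linarith

theorem mum_nonneg {r q u : ℝ} (hr : 0 ≤ r) (hq : 0 ≤ q) (hu : 0 ≤ u) : 0 ≤ mum r q u := by
  unfold mum
  have h : √((r + q + u) ^ 2 - 4 * (r * q)) ≤ r + q + u := by
    rw [Real.sqrt_le_left (by positivity)]
    nlinarith [mul_nonneg hr hq]
  linarith

theorem mu_log {r q u : ℝ} (hr : 0 ≤ r) (hq : 0 ≤ q) (hu : 0 ≤ u) {t : ℝ} (ht : 0 < t) :
    log (mup r q u + t) + log (mum r q u + t) = log ((r + t) * (q + t) + t * u) := by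
  rw [← Real.log_mul (by have := mup_nonneg hr hq hu; positivity)
    (by have := mum_nonneg hr hq hu; positivity)]
  congr 1
  have h1 := mu_mul hr hq hu
  have h2 := mu_add r q u
  nlinarith [h1, h2]

theorem mu_zero_u {r q : ℝ} : negMulLog (mup r q 0) + negMulLog (mum r q 0)
    = negMulLog r + negMulLog q := by
  have h : (r + q + 0) ^ 2 - 4 * (r * q) = (r - q) ^ 2 := by ring
  unfold mup mum
  rw [h, Real.sqrt_sq_eq_abs]
  rcases le_total q r with hqr | hqr
  · rw [abs_of_nonneg (by linarith)]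
    have h1 : (r + q + 0 + (r - q)) / 2 = r := by ring
    have h2 : (r + q + 0 - (r - q)) / 2 = q := by ring
    rw [h1, h2]
  · rw [abs_of_nonpos (by linarith)]
    have h1 : (r + q + 0 + -(r - q)) / 2 = q := by ring
    have h2 : (r + q + 0 - -(r - q)) / 2 = r := by ring
    rw [h1, h2]; ring

theorem GG_zero_u (r q : ℝ) : GG r q 0 = 0 := by
  unfold GG
  have := mu_zero_u (r := r) (q := q)
  simp only [negMulLog_zero]
  linarith

/-- Monotonicity of `G` in `r` and `q`. -/
theorem GG_mono {r q r' q' u : ℝ} (hr : 0 ≤ r) (hq : 0 ≤ q) (hu : 0 ≤ u) (hrr : r ≤ r')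
    (hqq : q ≤ q') : GG r q u ≤ GG r' q' u := by
  have hr' : 0 ≤ r' := hr.trans hrr
  have hq' : 0 ≤ q' := hq.trans hqq
  have key := went (Finset.univ : Finset (Fin 4)) (Finset.univ : Finset (Fin 4))
    (fun _ => 1) ![r', q', mup r q u, mum r q u] (fun _ => 1) ![r, q, mup r' q' u, mum r' q' u]
    (by
      intro i _
      fin_cases i
      · exact hr'
      · exact hq'
      · exact mup_nonneg hr hq hu
      · exact mum_nonneg hr hq hu)
    (by
      intro i _
      fin_cases i
      · exact hr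
      · exact hq
      · exact mup_nonneg hr' hq' hu
      · exact mum_nonneg hr' hq' hu)
    rfl
    (by
      simp only [Fin.sum_univ_four, one_mul]
      simp
      have h1 := mu_add r q u
      have h2 := mu_add r' q' u
      linarith)
    (by
      intro t ht
      simp only [Fin.sum_univ_four, one_mul]
      simp
      have h1 := mu_log hr hq hu ht
      have h2 := mu_log hr' hq' hu ht
      have e1 : 0 < r + t := by linarith
      have e2 : 0 < q + t := by linarith
      have e3 : 0 < r' + t := by linarith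
      have e4 : 0 < q' + t := by linarith
      have h3 : log (r + t) + log (q + t) + log ((r' + t) * (q' + t) + t * u)
          ≤ log (r' + t) + log (q' + t) + log ((r + t) * (q + t) + t * u) := by
        rw [← Real.log_mul (by positivity) (by positivity),
          ← Real.log_mul (by positivity) (by positivity),
          ← Real.log_mul (by positivity) (by positivity),
          ← Real.log_mul (by positivity) (by positivity)]
        apply Real.log_le_log (by positivity)
        have h4 : (r + t) * (q + t) ≤ (r' + t) * (q' + t) := by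
          apply mul_le_mul <;> linarith
        nlinarith [mul_le_mul_of_nonneg_right h4 (mul_nonneg ht.le hu)]
      linarith)
  simp only [Fin.sum_univ_four, one_mul] at key
  simp at key
  unfold GG
  linarith

/-- The pointwise inequality behind the concavity of `G(.,.,1)`. -/
theorem log_one_add_convex {x1 y1 x2 y2 t l1 l2 : ℝ} (hx1 : 0 < x1) (hy1 : 0 < y1)
    (hx2 : 0 < x2) (hy2 : 0 < y2) (ht : 0 < t) (hl1 : 0 ≤ l1) (hl2 : 0 ≤ l2)
    (hl : l1 + l2 = 1) :
    log (1 + t / ((l1 * x1 + l2 * x2) * (l1 * y1 + l2 * y2)))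
      ≤ l1 * log (1 + t / (x1 * y1)) + l2 * log (1 + t / (x2 * y2)) := by
  set c1 := t / (x1 * y1) with hc1
  set c2 := t / (x2 * y2) with hc2
  have hc1p : 0 < c1 := by positivity
  have hc2p : 0 < c2 := by positivity
  have hA : x1 ^ l1 * x2 ^ l2 ≤ l1 * x1 + l2 * x2 :=
    Real.geom_mean_le_arith_mean2_weighted hl1 hl2 hx1.le hx2.le hl
  have hB : y1 ^ l1 * y2 ^ l2 ≤ l1 * y1 + l2 * y2 :=
    Real.geom_mean_le_arith_mean2_weighted hl1 hl2 hy1.le hy2.le hl
  have hC : t / ((l1 * x1 + l2 * x2) * (l1 * y1 + l2 * y2)) ≤ c1 ^ l1 * c2 ^ l2 := by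
    have h1 : c1 ^ l1 * c2 ^ l2 = t / ((x1 ^ l1 * x2 ^ l2) * (y1 ^ l1 * y2 ^ l2)) := by
      rw [hc1, hc2, Real.div_rpow ht.le (by positivity), Real.div_rpow ht.le (by positivity),
        Real.mul_rpow hx1.le hy1.le, Real.mul_rpow hx2.le hy2.le]
      have h2 : t ^ l1 * t ^ l2 = t := by
        rw [← Real.rpow_add ht, hl, Real.rpow_one]
      rw [div_mul_div_comm, h2]
      congr 1
      ring
    rw [h1]
    apply div_le_div_of_nonneg_left ht.le (by positivity)
    exact mul_le_mul hA hB (by positivity) (le_trans (by positivity) hA)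
  have hD : 1 + c1 ^ l1 * c2 ^ l2 ≤ (1 + c1) ^ l1 * (1 + c2) ^ l2 := by
    have h1 : (1 / (1 + c1)) ^ l1 * (1 / (1 + c2)) ^ l2
        ≤ l1 * (1 / (1 + c1)) + l2 * (1 / (1 + c2)) :=
      Real.geom_mean_le_arith_mean2_weighted hl1 hl2 (by positivity) (by positivity) hl
    have h2 : (c1 / (1 + c1)) ^ l1 * (c2 / (1 + c2)) ^ l2
        ≤ l1 * (c1 / (1 + c1)) + l2 * (c2 / (1 + c2)) :=
      Real.geom_mean_le_arith_mean2_weighted hl1 hl2 (by positivity) (by positivity) hl
    rw [Real.div_rpow (by norm_num) (by positivity), Real.div_rpow (by norm_num) (by positivity),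
      Real.one_rpow, Real.one_rpow, div_mul_div_comm, one_mul] at h1
    rw [Real.div_rpow hc1p.le (by positivity), Real.div_rpow hc2p.le (by positivity),
      div_mul_div_comm] at h2
    have h3 : l1 * (1 / (1 + c1)) + l2 * (1 / (1 + c2))
        + (l1 * (c1 / (1 + c1)) + l2 * (c2 / (1 + c2))) = 1 := by
      have e1 : 1 / (1 + c1) + c1 / (1 + c1) = 1 := by field_simp
      have e2 : 1 / (1 + c2) + c2 / (1 + c2) = 1 := by field_simp
      linear_combination l1 * e1 + l2 * e2 + hl
    have h4 : (0 : ℝ) < (1 + c1) ^ l1 * (1 + c2) ^ l2 := by positivity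
    have h5 : (1 + c1 ^ l1 * c2 ^ l2) / ((1 + c1) ^ l1 * (1 + c2) ^ l2) ≤ 1 := by
      rw [add_div]
      linarith
    rwa [div_le_one h4] at h5
  calc log (1 + t / ((l1 * x1 + l2 * x2) * (l1 * y1 + l2 * y2)))
      ≤ log ((1 + c1) ^ l1 * (1 + c2) ^ l2) := by
        apply Real.log_le_log _ (by linarith)
        rcases hl1.lt_or_eq with h | h
        · positivity
        · have : 0 < l2 := by linarith
          positivity
    _ = l1 * log (1 + c1) + l2 * log (1 + c2) := by
        rw [Real.log_mul (by positivity) (by positivity), Real.log_rpow (by positivity),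
          Real.log_rpow (by positivity)]

/-- Homogeneity of `G`. -/
theorem GG_hom {r q u c : ℝ} (hr : 0 ≤ r) (hq : 0 ≤ q) (hu : 0 ≤ u) (hc : 0 < c) :
    GG (c * r) (c * q) (c * u) = c * GG r q u := by
  have h1 : mup (c * r) (c * q) (c * u) = c * mup r q u := by
    unfold mup
    have : (c * r + c * q + c * u) ^ 2 - 4 * (c * r * (c * q))
        = c ^ 2 * ((r + q + u) ^ 2 - 4 * (r * q)) := by ring
    rw [this, Real.sqrt_mul (by positivity), Real.sqrt_sq hc.le]
    ring
  have h2 : mum (c * r) (c * q) (c * u) = c * mum r q u := by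
    unfold mum
    have : (c * r + c * q + c * u) ^ 2 - 4 * (c * r * (c * q))
        = c ^ 2 * ((r + q + u) ^ 2 - 4 * (r * q)) := by ring
    rw [this, Real.sqrt_mul (by positivity), Real.sqrt_sq hc.le]
    ring
  unfold GG
  rw [h1, h2]
  have h3 := mu_add r q u
  simp only [Real.negMulLog_mul]
  have h4 : negMulLog c * (r + q + u - mup r q u - mum r q u) = 0 := by
    rw [show r + q + u - mup r q u - mum r q u = 0 by linarith, mul_zero]
  linarith

/-- Concavity of `G(.,.,1)` in a scaled form. -/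
theorem GG_conc {a1 b1 a2 b2 l1 l2 : ℝ} (ha1 : 0 ≤ a1) (hb1 : 0 ≤ b1) (ha2 : 0 ≤ a2)
    (hb2 : 0 ≤ b2) (hl1 : 0 ≤ l1) (hl2 : 0 ≤ l2) (hl : l1 + l2 = 1) :
    l1 * GG a1 b1 1 + l2 * GG a2 b2 1 ≤ GG (l1 * a1 + l2 * a2) (l1 * b1 + l2 * b2) 1 := by
  set a := l1 * a1 + l2 * a2 with ha
  set b := l1 * b1 + l2 * b2 with hb
  have ha0 : 0 ≤ a := by positivity
  have hb0 : 0 ≤ b := by positivity
  have h1' : (0 : ℝ) ≤ 1 := by norm_num
  have key := went (Finset.univ : Finset (Fin 6)) (Finset.univ : Finset (Fin 6))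
    ![1, 1, l1, l1, l2, l2] ![a, b, mup a1 b1 1, mum a1 b1 1, mup a2 b2 1, mum a2 b2 1]
    ![1, 1, l1, l1, l2, l2] ![mup a b 1, mum a b 1, a1, b1, a2, b2]
    (by
      intro i _
      fin_cases i
      · exact ha0
      · exact hb0
      · exact mup_nonneg ha1 hb1 h1'
      · exact mum_nonneg ha1 hb1 h1'
      · exact mup_nonneg ha2 hb2 h1'
      · exact mum_nonneg ha2 hb2 h1')
    (by
      intro i _
      fin_cases i
      · exact mup_nonneg ha0 hb0 h1'
      · exact mum_nonneg ha0 hb0 h1'
      · exact ha1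
      · exact hb1
      · exact ha2
      · exact hb2)
    rfl
    (by
      simp [Fin.sum_univ_six]
      have h1 := mu_add a b 1
      have h2 := mu_add a1 b1 1
      have h3 := mu_add a2 b2 1
      have h4 : l1 * mup a1 b1 1 + l1 * mum a1 b1 1 = l1 * (a1 + b1 + 1) := by
        rw [← h2]; ring
      have h5 : l2 * mup a2 b2 1 + l2 * mum a2 b2 1 = l2 * (a2 + b2 + 1) := by
        rw [← h3]; ring
      linarith)
    (by
      intro t ht
      simp [Fin.sum_univ_six]
      have h1 := mu_log ha0 hb0 h1' ht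
      have h2 := mu_log ha1 hb1 h1' ht
      have h3 := mu_log ha2 hb2 h1' ht
      have e1 : 0 < a1 + t := by linarith
      have e2 : 0 < b1 + t := by linarith
      have e3 : 0 < a2 + t := by linarith
      have e4 : 0 < b2 + t := by linarith
      have e5 : 0 < a + t := by linarith
      have e6 : 0 < b + t := by linarith
      have key2 := log_one_add_convex e1 e2 e3 e4 ht hl1 hl2 hl
      have e7 : l1 * (a1 + t) + l2 * (a2 + t) = a + t := by
        rw [ha]; linear_combination t * hl
      have e8 : l1 * (b1 + t) + l2 * (b2 + t) = b + t := by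
        rw [hb]; linear_combination t * hl
      rw [e7, e8] at key2
      have gen : ∀ x y : ℝ, 0 < x → 0 < y →
          log (1 + t / (x * y)) = log (x * y + t * 1) - log x - log y := by
        intro x y hx hy
        have : 1 + t / (x * y) = (x * y + t * 1) / (x * y) := by field_simp
        rw [this, Real.log_div (by positivity) (by positivity),
          Real.log_mul (by positivity) (by positivity)]
        ring
      rw [gen _ _ e5 e6, gen _ _ e1 e2, gen _ _ e3 e4, ← h1, ← h2, ← h3] at key2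
      linarith)
  simp [Fin.sum_univ_six] at key
  unfold GG
  simp only [negMulLog_one]
  linarith

/-- Superadditivity of `G`. -/
theorem GG_superadd {r1 q1 u1 r2 q2 u2 : ℝ} (hr1 : 0 ≤ r1) (hq1 : 0 ≤ q1) (hu1 : 0 ≤ u1)
    (hr2 : 0 ≤ r2) (hq2 : 0 ≤ q2) (hu2 : 0 ≤ u2) :
    GG r1 q1 u1 + GG r2 q2 u2 ≤ GG (r1 + r2) (q1 + q2) (u1 + u2) := by
  rcases hu1.eq_or_lt with h1 | h1
  · rw [← h1, GG_zero_u, zero_add, zero_add]
    exact GG_mono hr2 hq2 hu2 (by linarith) (by linarith)
  rcases hu2.eq_or_lt with h2 | h2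
  · rw [← h2, GG_zero_u, add_zero, add_zero]
    exact GG_mono hr1 hq1 hu1 (by linarith) (by linarith)
  set U := u1 + u2 with hU
  have hUp : 0 < U := by positivity
  have key := GG_conc (a1 := r1 / u1) (b1 := q1 / u1) (a2 := r2 / u2) (b2 := q2 / u2)
    (l1 := u1 / U) (l2 := u2 / U) (by positivity) (by positivity) (by positivity)
    (by positivity) (by positivity) (by positivity) (by rw [← add_div, hU]; field_simp)
  have k1 : GG r1 q1 u1 = u1 * GG (r1 / u1) (q1 / u1) 1 := by
    rw [← GG_hom (by positivity) (by positivity) (by norm_num) h1]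
    congr 1 <;> field_simp
  have k2 : GG r2 q2 u2 = u2 * GG (r2 / u2) (q2 / u2) 1 := by
    rw [← GG_hom (by positivity) (by positivity) (by norm_num) h2]
    congr 1 <;> field_simp
  have k3 : GG (r1 + r2) (q1 + q2) U = U * GG ((r1 + r2) / U) ((q1 + q2) / U) 1 := by
    rw [← GG_hom (by positivity) (by positivity) (by norm_num) hUp]
    congr 1 <;> field_simp
  have e1 : u1 / U * (r1 / u1) + u2 / U * (r2 / u2) = (r1 + r2) / U := by field_simp
  have e2 : u1 / U * (q1 / u1) + u2 / U * (q2 / u2) = (q1 + q2) / U := by field_simp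
  rw [e1, e2] at key
  rw [k1, k2, k3]
  have := mul_le_mul_of_nonneg_left key hUp.le
  calc u1 * GG (r1 / u1) (q1 / u1) 1 + u2 * GG (r2 / u2) (q2 / u2) 1
      = U * (u1 / U * GG (r1 / u1) (q1 / u1) 1 + u2 / U * GG (r2 / u2) (q2 / u2) 1) := by
        field_simp
    _ ≤ _ := this

end Pool.Agent.H.MP_dd87f4_mp
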