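import Mathlib
import Pool.Agent.H.MP_dd87f4_mp.SupG
import Pool.Agent.H.MP_dd87f4_mp.MinDet69
import Pool.Agent.H.MP_dd87f4_mp.EntConc

/-!
# MP_dd87f4_mp: final assembly (helper69), proof of helper25
-/

set_option autoImplicit false

open Matrix
open scoped ComplexOrder Kronecker

namespace Pool.Agent.H.MP_dd87f4_mp.Asm

open Pool.Agent.H.MP_dd87f4_mp

/-- apply the Kraus family `M` on the second factor -/
noncomputable def appR {n : ℕ} (M : Fin n → Matrix (Fin 2) (Fin 2) ℂ)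
    (ω : Matrix (Fin 2 × Fin 2) (Fin 2 × Fin 2) ℂ) : Matrix (Fin 2 × Fin 2) (Fin 2 × Fin 2) ℂ :=
  ∑ j, ((1 : Matrix (Fin 2) (Fin 2) ℂ) ⊗ₖ M j) * ω * ((1 : Matrix (Fin 2) (Fin 2) ℂ) ⊗ₖ M j)ᴴ

/-- apply the Kraus family `K` on the first factor -/
noncomputable def appL {m : ℕ} (K : Fin m → Matrix (Fin 2) (Fin 2) ℂ)
    (ρ : Matrix (Fin 2 × Fin 2) (Fin 2 × Fin 2) ℂ) : Matrix (Fin 2 × Fin 2) (Fin 2 × Fin 2) ℂ :=
  ∑ i, (K i ⊗ₖ (1 : Matrix (Fin 2) (Fin 2) ℂ)) * ρ * (K i ⊗ₖ (1 : Matrix (Fin 2) (Fin 2) ℂ))ᴴ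

/-- the channel of a Kraus family -/
noncomputable def ch {m : ℕ} (K : Fin m → Matrix (Fin 2) (Fin 2) ℂ)
    (σ : Matrix (Fin 2) (Fin 2) ℂ) : Matrix (Fin 2) (Fin 2) ℂ := ∑ i, K i * σ * (K i)ᴴ

/-- the block of index `j` of the second factor -/
def blk (j : Fin 2) (ω : Matrix (Fin 2 × Fin 2) (Fin 2 × Fin 2) ℂ) : Matrix (Fin 2) (Fin 2) ℂ :=
  ω.submatrix (fun i => (i, j)) (fun i => (i, j))

theorem joint_eq {m n : ℕ} (K : Fin m → Matrix (Fin 2) (Fin 2) ℂ)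
    (M : Fin n → Matrix (Fin 2) (Fin 2) ℂ) (ρ : Matrix (Fin 2 × Fin 2) (Fin 2 × Fin 2) ℂ) :
    ∑ p : Fin m × Fin n,
      Matrix.kronecker (K p.1) (M p.2) * ρ * (Matrix.kronecker (K p.1) (M p.2))ᴴ
      = appR M (appL K ρ) := by
  have h : ∀ (i : Fin m) (j : Fin n), Matrix.kronecker (K i) (M j)
      = ((1 : Matrix (Fin 2) (Fin 2) ℂ) ⊗ₖ M j) * (K i ⊗ₖ (1 : Matrix (Fin 2) (Fin 2) ℂ)) := by
    intro i j
    have := Matrix.mul_kronecker_mul (1 : Matrix (Fin 2) (Fin 2) ℂ) (K i) (M j)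
      (1 : Matrix (Fin 2) (Fin 2) ℂ)
    rw [one_mul, mul_one] at this
    exact this
  rw [Fintype.sum_prod_type_right]
  unfold appR appL
  refine Finset.sum_congr rfl fun j _ => ?_
  rw [Finset.mul_sum, Finset.sum_mul]
  refine Finset.sum_congr rfl fun i _ => ?_
  rw [h i j, Matrix.conjTranspose_mul]
  simp only [Matrix.mul_assoc]

theorem ch_psd {m : ℕ} (K : Fin m → Matrix (Fin 2) (Fin 2) ℂ) {σ : Matrix (Fin 2) (Fin 2) ℂ}
    (hσ : σ.PosSemidef) : (ch K σ).PosSemidef := by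
  unfold ch
  exact Matrix.posSemidef_sum _ fun i _ => hσ.mul_mul_conjTranspose_same (K i)

theorem ch_trace {m : ℕ} {K : Fin m → Matrix (Fin 2) (Fin 2) ℂ} (hK : ∑ i, (K i)ᴴ * K i = 1)
    (σ : Matrix (Fin 2) (Fin 2) ℂ) : (ch K σ).trace = σ.trace := by
  unfold ch
  rw [Matrix.trace_sum]
  have : ∀ i, (K i * σ * (K i)ᴴ).trace = ((K i)ᴴ * K i * σ).trace := by
    intro i
    rw [Matrix.trace_mul_comm, ← Matrix.mul_assoc]
  simp_rw [this]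
  rw [← Matrix.trace_sum, ← Finset.sum_mul, hK, one_mul]

theorem appL_psd {m : ℕ} (K : Fin m → Matrix (Fin 2) (Fin 2) ℂ)
    {ρ : Matrix (Fin 2 × Fin 2) (Fin 2 × Fin 2) ℂ}
    (hρ : ρ.PosSemidef) : (appL K ρ).PosSemidef := by
  unfold appL
  exact Matrix.posSemidef_sum _ fun i _ => hρ.mul_mul_conjTranspose_same _

theorem appR_psd {m : ℕ} (K : Fin m → Matrix (Fin 2) (Fin 2) ℂ)
    {ρ : Matrix (Fin 2 × Fin 2) (Fin 2 × Fin 2) ℂ}
    (hρ : ρ.PosSemidef) : (appR K ρ).PosSemidef := by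
  unfold appR
  exact Matrix.posSemidef_sum _ fun i _ => hρ.mul_mul_conjTranspose_same _

theorem blk_psd (j : Fin 2) {ω : Matrix (Fin 2 × Fin 2) (Fin 2 × Fin 2) ℂ}
    (h : ω.PosSemidef) : (blk j ω).PosSemidef := h.submatrix _

theorem trace_blk (ω : Matrix (Fin 2 × Fin 2) (Fin 2 × Fin 2) ℂ) :
    (blk 0 ω).trace + (blk 1 ω).trace = ω.trace := by
  simp only [blk, Matrix.trace, Fin.sum_univ_two, Matrix.diag_apply, Matrix.submatrix_apply,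
    Fintype.sum_prod_type]
  ring

theorem blk_appL {m : ℕ} (K : Fin m → Matrix (Fin 2) (Fin 2) ℂ)
    (ρ : Matrix (Fin 2 × Fin 2) (Fin 2 × Fin 2) ℂ) (j : Fin 2) :
    blk j (appL K ρ) = ch K (blk j ρ) := by
  unfold appL ch
  ext x y
  rw [blk, Matrix.submatrix_apply, Matrix.sum_apply, Matrix.sum_apply]
  refine Finset.sum_congr rfl fun i _ => ?_
  fin_cases j <;>
  simp [blk, Matrix.mul_apply, Matrix.conjTranspose_apply, Matrix.kroneckerMap_apply,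
    Fintype.sum_prod_type, Fin.sum_univ_two, Matrix.one_apply]

theorem det_ge {m : ℕ} {K : Fin m → Matrix (Fin 2) (Fin 2) ℂ} {σ₀ : Matrix (Fin 2) (Fin 2) ℂ}
    (hmin : ∀ σ' : Matrix (Fin 2) (Fin 2) ℂ, σ'.PosSemidef → σ'.trace = 1 →
        (ch K σ₀).det.re ≤ (ch K σ').det.re)
    {τ : Matrix (Fin 2) (Fin 2) ℂ} (hτ : τ.PosSemidef) :
    τ.trace.re ^ 2 * (ch K σ₀).det.re ≤ (ch K τ).det.re := by
  have ht := hτ.trace_nonneg
  have ht' := Complex.le_def.1 ht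
  simp only [Complex.zero_re, Complex.zero_im] at ht'
  rcases ht'.1.eq_or_lt with h0 | h0
  · rw [← h0]
    have h1 := (ch_psd K hτ).det_nonneg
    have := (Complex.le_def.1 h1).1
    simpa using this
  · set t := τ.trace.re with hst
    have htr : τ.trace = (t : ℂ) := by
      apply Complex.ext
      · simp [hst]
      · simp [← ht'.2]
    have hτ' : ((t⁻¹ : ℝ) : ℂ) • τ = (((t⁻¹ : ℝ) : ℂ) • τ) := rfl
    have h2 := hmin (((t⁻¹ : ℝ) : ℂ) • τ)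
      (hτ.smul (by rw [Complex.zero_le_real]; positivity)) (by
        rw [Matrix.trace_smul, htr, smul_eq_mul, ← Complex.ofReal_mul, inv_mul_cancel₀ h0.ne',
          Complex.ofReal_one])
    have h3 : ch K (((t⁻¹ : ℝ) : ℂ) • τ) = ((t⁻¹ : ℝ) : ℂ) • ch K τ := by
      unfold ch
      rw [Finset.smul_sum]
      refine Finset.sum_congr rfl fun i _ => ?_
      rw [Matrix.mul_smul, Matrix.smul_mul]
    rw [h3, Matrix.det_smul, Fintype.card_fin, ← Complex.ofReal_pow, Complex.re_ofReal_mul] at h2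
    calc t ^ 2 * (ch K σ₀).det.re ≤ t ^ 2 * (t⁻¹ ^ 2 * (ch K τ).det.re) :=
          mul_le_mul_of_nonneg_left h2 (by positivity)
      _ = (ch K τ).det.re := by field_simp

/-! ### columns -/

/-- the matrix with columns `M j *ᵥ a` -/
noncomputable def col {n : ℕ} (M : Fin n → Matrix (Fin 2) (Fin 2) ℂ) (a : Fin 2 → ℂ) :
    Matrix (Fin 2) (Fin n) ℂ := Matrix.of fun x j => (M j *ᵥ a) x

theorem col_mul {n : ℕ} (M : Fin n → Matrix (Fin 2) (Fin 2) ℂ) (a b : Fin 2 → ℂ) :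
    col M a * (col M b)ᴴ = ∑ j, M j * (Matrix.vecMulVec a (star b)) * (M j)ᴴ := by
  ext x y
  rw [Matrix.sum_apply, Matrix.mul_apply]
  refine Finset.sum_congr rfl fun j _ => ?_
  simp only [col, Matrix.of_apply, Matrix.conjTranspose_apply, Matrix.mulVec, dotProduct,
    Fin.sum_univ_two, Matrix.mul_apply, Matrix.vecMulVec_apply, Pi.star_apply, star_add, star_mul']
  ring

/-- the index equivalence -/
def eqv : Fin 2 ⊕ Fin 2 ≃ Fin 2 × Fin 2 where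
  toFun := Sum.elim (fun x => (0, x)) (fun x => (1, x))
  invFun := fun p => if p.1 = 0 then Sum.inl p.2 else Sum.inr p.2
  left_inv := by rintro (x | x) <;> simp
  right_inv := by
    rintro ⟨i, x⟩
    fin_cases i <;> simp

theorem appR_Z {n : ℕ} (M : Fin n → Matrix (Fin 2) (Fin 2) ℂ) (a b c : Fin 2 → ℂ)
    (Z : Matrix (Fin 2 × Fin 2) (Fin 2 × Fin 2) ℂ)
    (h00 : ∀ j k, Z (0, j) (0, k) = a j * star (a k) + b j * star (b k))
    (h01 : ∀ j k, Z (0, j) (1, k) = b j * star (c k))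
    (h10 : ∀ j k, Z (1, j) (0, k) = c j * star (b k))
    (h11 : ∀ j k, Z (1, j) (1, k) = c j * star (c k)) :
    appR M Z = Matrix.reindex eqv eqv (Matrix.fromBlocks
      (col M a * (col M a)ᴴ + col M b * (col M b)ᴴ) (col M b * (col M c)ᴴ)
      (col M c * (col M b)ᴴ) (col M c * (col M c)ᴴ)) := by
  have hone : (1 : Matrix (Fin 2) (Fin 2) ℂ) 0 1 = 0 := by simp
  ext ⟨i, x⟩ ⟨i', y⟩
  rw [Matrix.reindex_apply, Matrix.submatrix_apply, appR, Matrix.sum_apply]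
  fin_cases i <;> fin_cases i'
  · simp only [eqv, Equiv.coe_fn_symm_mk, Fin.zero_eta, Fin.isValue, if_true,
      Matrix.fromBlocks_apply₁₁, Matrix.add_apply, Matrix.mul_apply, ← Finset.sum_add_distrib]
    refine Finset.sum_congr rfl fun j _ => ?_
    simp [Matrix.conjTranspose_apply, Matrix.kroneckerMap_apply, col, Matrix.mulVec, dotProduct,
      Fintype.sum_prod_type, Fin.sum_univ_two, h00]
    ring
  · simp only [eqv, Equiv.coe_fn_symm_mk, Fin.zero_eta, Fin.mk_one, Fin.isValue, if_true,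
      one_ne_zero, if_false, Matrix.fromBlocks_apply₁₂, Matrix.mul_apply]
    refine Finset.sum_congr rfl fun j _ => ?_
    simp [Matrix.conjTranspose_apply, Matrix.kroneckerMap_apply, col, Matrix.mulVec, dotProduct,
      Fintype.sum_prod_type, Fin.sum_univ_two, h01]
    ring
  · simp only [eqv, Equiv.coe_fn_symm_mk, Fin.zero_eta, Fin.mk_one, Fin.isValue, if_true,
      one_ne_zero, if_false, Matrix.fromBlocks_apply₂₁, Matrix.mul_apply]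
    refine Finset.sum_congr rfl fun j _ => ?_
    simp [Matrix.conjTranspose_apply, Matrix.kroneckerMap_apply, col, Matrix.mulVec, dotProduct,
      Fintype.sum_prod_type, Fin.sum_univ_two, h10]
    ring
  · simp only [eqv, Equiv.coe_fn_symm_mk, Fin.mk_one, Fin.isValue,
      one_ne_zero, if_false, Matrix.fromBlocks_apply₂₂, Matrix.mul_apply]
    refine Finset.sum_congr rfl fun j _ => ?_
    simp [Matrix.conjTranspose_apply, Matrix.kroneckerMap_apply, col, Matrix.mulVec, dotProduct,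
      Fintype.sum_prod_type, Fin.sum_univ_two, h11]
    ring

theorem appR_conj {n : ℕ} (M : Fin n → Matrix (Fin 2) (Fin 2) ℂ) (V : Matrix (Fin 2) (Fin 2) ℂ)
    (Z : Matrix (Fin 2 × Fin 2) (Fin 2 × Fin 2) ℂ) :
    appR M ((V ⊗ₖ (1 : Matrix (Fin 2) (Fin 2) ℂ)) * Z * (V ⊗ₖ (1 : Matrix (Fin 2) (Fin 2) ℂ))ᴴ)
      = (V ⊗ₖ (1 : Matrix (Fin 2) (Fin 2) ℂ)) * appR M Z *
        (V ⊗ₖ (1 : Matrix (Fin 2) (Fin 2) ℂ))ᴴ := by
  have hcomm : ∀ j, ((1 : Matrix (Fin 2) (Fin 2) ℂ) ⊗ₖ M j) * (V ⊗ₖ (1 : Matrix (Fin 2) (Fin 2) ℂ))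
      = (V ⊗ₖ (1 : Matrix (Fin 2) (Fin 2) ℂ)) * ((1 : Matrix (Fin 2) (Fin 2) ℂ) ⊗ₖ M j) := by
    intro j
    rw [← Matrix.mul_kronecker_mul, ← Matrix.mul_kronecker_mul]
    simp
  unfold appR
  rw [Finset.mul_sum, Finset.sum_mul]
  refine Finset.sum_congr rfl fun j _ => ?_
  have h2 := congrArg Matrix.conjTranspose (hcomm j)
  rw [Matrix.conjTranspose_mul, Matrix.conjTranspose_mul] at h2
  calc (1 : Matrix (Fin 2) (Fin 2) ℂ) ⊗ₖ M j * (V ⊗ₖ 1 * Z * (V ⊗ₖ 1)ᴴ) * (1 ⊗ₖ M j)ᴴ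
      = ((1 : Matrix (Fin 2) (Fin 2) ℂ) ⊗ₖ M j * V ⊗ₖ 1) * Z * ((V ⊗ₖ 1)ᴴ * (1 ⊗ₖ M j)ᴴ) := by
        simp only [Matrix.mul_assoc]
    _ = _ := by
        rw [hcomm j, h2]
        simp only [Matrix.mul_assoc]

/-- The inequality (NC), as a proposition. -/
def NCprop : Prop := ∀ (n : ℕ) (A B C : Matrix (Fin 2) (Fin n) ℂ),
  (Ent (A * Aᴴ) - Real.negMulLog (A * Aᴴ).trace.re)
    + (Ent (B * Bᴴ) - Real.negMulLog (B * Bᴴ).trace.re)
    + (Ent (C * Cᴴ) - Real.negMulLog (C * Cᴴ).trace.re)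
    + (Real.negMulLog (mup (A * Aᴴ).trace.re (C * Cᴴ).trace.re (B * Bᴴ).trace.re)
      + Real.negMulLog (mum (A * Aᴴ).trace.re (C * Cᴴ).trace.re (B * Bᴴ).trace.re))
    ≤ Ent (Matrix.fromBlocks (A * Aᴴ + B * Bᴴ) (B * Cᴴ) (C * Bᴴ) (C * Cᴴ))

/-- The averaging of the off-diagonal contraction. -/
def HalvesProp : Prop := ∀ ω : Matrix (Fin 2 × Fin 2) (Fin 2 × Fin 2) ℂ, ω.PosSemidef →
  ∃ X Y : Matrix (Fin 2 × Fin 2) (Fin 2) ℂ, ω = (1 / 2 : ℂ) • (X * Xᴴ + Y * Yᴴ) ∧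
    ∀ i i' j, (X * Xᴴ) (i, j) (i', j) = ω (i, j) (i', j) ∧
      (Y * Yᴴ) (i, j) (i', j) = ω (i, j) (i', j)

/-- The block triangular form. -/
def TriProp : Prop := ∀ X : Matrix (Fin 2 × Fin 2) (Fin 2) ℂ,
  ∃ (V : Matrix (Fin 2) (Fin 2) ℂ) (a b c : Fin 2 → ℂ)
    (Z : Matrix (Fin 2 × Fin 2) (Fin 2 × Fin 2) ℂ), Vᴴ * V = 1 ∧
    X * Xᴴ = (V ⊗ₖ (1 : Matrix (Fin 2) (Fin 2) ℂ)) * Z * (V ⊗ₖ (1 : Matrix (Fin 2) (Fin 2) ℂ))ᴴ ∧
    (∀ j k, Z (0, j) (0, k) = a j * star (a k) + b j * star (b k)) ∧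
    (∀ j k, Z (0, j) (1, k) = b j * star (c k)) ∧
    (∀ j k, Z (1, j) (0, k) = c j * star (b k)) ∧
    (∀ j k, Z (1, j) (1, k) = c j * star (c k)) ∧
    (∀ j, (blk j (X * Xᴴ)).det = ((‖a j‖ ^ 2 * ‖c j‖ ^ 2 : ℝ) : ℂ)) ∧
    (X * Xᴴ).trace = ((∑ j, ‖a j‖ ^ 2 + ∑ j, ‖b j‖ ^ 2 + ∑ j, ‖c j‖ ^ 2 : ℝ) : ℂ)

theorem trace_vecMulVec_self (a : Fin 2 → ℂ) :
    (Matrix.vecMulVec a (star a)).trace = ((∑ j, ‖a j‖ ^ 2 : ℝ) : ℂ) := by
  rw [Matrix.trace, Complex.ofReal_sum]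
  refine Finset.sum_congr rfl fun j _ => ?_
  rw [Matrix.diag_apply, Matrix.vecMulVec_apply, Pi.star_apply, ← Complex.normSq_eq_norm_sq]
  exact Complex.mul_conj _

/-- the piece for one column vector -/
theorem col_piece {n : ℕ} {M : Fin n → Matrix (Fin 2) (Fin 2) ℂ} (hM : ∑ j, (M j)ᴴ * M j = 1)
    {τ₀ : Matrix (Fin 2) (Fin 2) ℂ} (hτ₀ : τ₀.PosSemidef) (hτ₀t : τ₀.trace = 1)
    (hmin : ∀ σ' : Matrix (Fin 2) (Fin 2) ℂ, σ'.PosSemidef → σ'.trace = 1 →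
        (ch M τ₀).det.re ≤ (ch M σ').det.re) (a : Fin 2 → ℂ) :
    (col M a * (col M a)ᴴ).trace.re = ∑ j, ‖a j‖ ^ 2 ∧
    (∑ j, ‖a j‖ ^ 2) * Ent (ch M τ₀) ≤ Ent (col M a * (col M a)ᴴ)
      - Real.negMulLog (col M a * (col M a)ᴴ).trace.re := by
  have hP : (Matrix.vecMulVec a (star a)).PosSemidef := Matrix.posSemidef_vecMulVec_self_star a
  have h1 : col M a * (col M a)ᴴ = ch M (Matrix.vecMulVec a (star a)) := col_mul M a a
  have h2 : (ch M (Matrix.vecMulVec a (star a))).trace.re = ∑ j, ‖a j‖ ^ 2 := by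
    rw [ch_trace hM, trace_vecMulVec_self, Complex.ofReal_re]
  have h3 := det_ge hmin hP
  rw [trace_vecMulVec_self, Complex.ofReal_re] at h3
  have h4 := MinDet.ent_hom_det (ch_psd M hτ₀) (ch_psd M hP) (by rw [ch_trace hM, hτ₀t])
    (by rw [h2]; exact h3)
  rw [h1]
  refine ⟨h2, ?_⟩
  have h5 : (∑ j, ‖a j‖ ^ 2) * Ent (ch M τ₀) + Real.negMulLog
      (ch M (Matrix.vecMulVec a (star a))).trace.re ≤ Ent (ch M (Matrix.vecMulVec a (star a))) := by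
    have h6 := h4
    rw [h2] at h6
    rw [h2]
    exact h6
  linarith

/-- the rank two case -/
theorem rank_two (hNC : NCprop) (hTri : TriProp) {m n : ℕ}
    {K : Fin m → Matrix (Fin 2) (Fin 2) ℂ} {M : Fin n → Matrix (Fin 2) (Fin 2) ℂ}
    (hK : ∑ i, (K i)ᴴ * K i = 1) (hM : ∑ j, (M j)ᴴ * M j = 1)
    {σ₀ τ₀ : Matrix (Fin 2) (Fin 2) ℂ} (hσ₀ : σ₀.PosSemidef) (hσ₀t : σ₀.trace = 1)
    (hτ₀ : τ₀.PosSemidef) (hτ₀t : τ₀.trace = 1)
    (hminM : ∀ σ' : Matrix (Fin 2) (Fin 2) ℂ, σ'.PosSemidef → σ'.trace = 1 →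
        (ch M τ₀).det.re ≤ (ch M σ').det.re)
    (X : Matrix (Fin 2 × Fin 2) (Fin 2) ℂ) (hX : (X * Xᴴ).trace = 1)
    (hdet : ∀ j, (blk j (X * Xᴴ)).trace.re ^ 2 * (ch K σ₀).det.re ≤ (blk j (X * Xᴴ)).det.re) :
    Ent (ch K σ₀) + Ent (ch M τ₀) ≤ Ent (appR M (X * Xᴴ)) := by
  obtain ⟨V, a, b, c, Z, hV, hXZ, h00, h01, h10, h11, hdetac, htr⟩ := hTri X
  obtain ⟨ta, ea⟩ := col_piece hM hτ₀ hτ₀t hminM a
  obtain ⟨tb, eb⟩ := col_piece hM hτ₀ hτ₀t hminM b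
  obtain ⟨tc, ec⟩ := col_piece hM hτ₀ hτ₀t hminM c
  have hnc := hNC n (col M a) (col M b) (col M c)
  have hEq : Ent (appR M (X * Xᴴ)) = Ent (Matrix.fromBlocks
      (col M a * (col M a)ᴴ + col M b * (col M b)ᴴ) (col M b * (col M c)ᴴ)
      (col M c * (col M b)ᴴ) (col M c * (col M c)ᴴ)) := by
    rw [hXZ, appR_conj, Ent_unitary_conj, appR_Z M a b c Z h00 h01 h10 h11, Ent_reindex]
    rw [Matrix.conjTranspose_kronecker, ← Matrix.mul_kronecker_mul, hV]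
    simp
  set α := ∑ j, ‖a j‖ ^ 2 with hα
  set β := ∑ j, ‖b j‖ ^ 2 with hβ
  set γ := ∑ j, ‖c j‖ ^ 2 with hγ
  have hα0 : 0 ≤ α := Finset.sum_nonneg fun j _ => by positivity
  have hβ0 : 0 ≤ β := Finset.sum_nonneg fun j _ => by positivity
  have hγ0 : 0 ≤ γ := Finset.sum_nonneg fun j _ => by positivity
  have hsum : α + β + γ = 1 := by
    rw [hX] at htr
    have := congrArg Complex.re htr
    rw [Complex.ofReal_re, Complex.one_re] at this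
    linarith
  -- the determinant bound
  have hD0 : 0 ≤ (ch K σ₀).det.re := by
    have := (Complex.le_def.1 (ch_psd K hσ₀).det_nonneg).1
    simpa using this
  set D := (ch K σ₀).det.re with hD
  have hblk : ∀ j, (blk j (X * Xᴴ)).trace.re * √D ≤ ‖a j‖ * ‖c j‖ := by
    intro j
    have h1 := hdet j
    rw [hdetac j, Complex.ofReal_re] at h1
    have h2 : ((blk j (X * Xᴴ)).trace.re * √D) ^ 2 ≤ (‖a j‖ * ‖c j‖) ^ 2 := by
      rw [mul_pow, mul_pow, Real.sq_sqrt hD0]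
      exact h1
    exact (abs_le_of_sq_le_sq' h2 (by positivity)).2
  have htr2 : (blk 0 (X * Xᴴ)).trace.re + (blk 1 (X * Xᴴ)).trace.re = 1 := by
    rw [← Complex.add_re, trace_blk, hX, Complex.one_re]
  have hDac : D ≤ α * γ := by
    have h1 : √D ≤ ‖a 0‖ * ‖c 0‖ + ‖a 1‖ * ‖c 1‖ := by
      have h2 := hblk 0
      have h3 := hblk 1
      calc √D = ((blk 0 (X * Xᴴ)).trace.re + (blk 1 (X * Xᴴ)).trace.re) * √D := by
            rw [htr2, one_mul]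
        _ ≤ _ := by linarith
    have h4 : D ≤ (‖a 0‖ * ‖c 0‖ + ‖a 1‖ * ‖c 1‖) ^ 2 := by
      rw [← Real.sq_sqrt hD0]
      exact pow_le_pow_left₀ (Real.sqrt_nonneg _) h1 2
    refine h4.trans ?_
    rw [hα, hγ, Fin.sum_univ_two, Fin.sum_univ_two]
    nlinarith [sq_nonneg (‖a 0‖ * ‖c 1‖ - ‖a 1‖ * ‖c 0‖)]
  have hmp := mup_nonneg hα0 hγ0 hβ0
  have hmm := mum_nonneg hα0 hγ0 hβ0
  have hmadd := mu_add α γ β
  have hmmul := mu_mul hα0 hγ0 hβ0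
  have h1 : Ent (ch K σ₀) ≤ Real.negMulLog (mup α γ β) + Real.negMulLog (mum α γ β) :=
    MinDet.ent_le_pair (ch_psd K hσ₀) (by rw [ch_trace hK, hσ₀t]) hmp hmm
      (by rw [hmadd]; linarith) (by rw [hmmul]; exact hDac)
  rw [ta] at hnc ea
  rw [tb] at hnc eb
  rw [tc] at hnc ec
  rw [hEq]
  have h2 : α * Ent (ch M τ₀) + β * Ent (ch M τ₀) + γ * Ent (ch M τ₀) = Ent (ch M τ₀) := by
    rw [← add_mul, ← add_mul, hsum, one_mul]
  linarith

/-- The main theorem from the three ingredients. -/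
theorem main_of (hNC : NCprop) (hHalf : HalvesProp) (hTri : TriProp) :
    ∀ (m n : ℕ) (K : Fin m → Matrix (Fin 2) (Fin 2) ℂ) (M : Fin n → Matrix (Fin 2) (Fin 2) ℂ),
      ∑ i, (K i)ᴴ * K i = 1 → ∑ j, (M j)ᴴ * M j = 1 →
      ∀ ρ : Matrix (Fin 2 × Fin 2) (Fin 2 × Fin 2) ℂ, ρ.PosSemidef → ρ.trace = 1 →
        ∃ σ τ : Matrix (Fin 2) (Fin 2) ℂ,
          σ.PosSemidef ∧ σ.trace = 1 ∧ τ.PosSemidef ∧ τ.trace = 1 ∧
          (((∑ i, K i * σ * (K i)ᴴ).charpoly.roots.map (fun z : ℂ => Real.negMulLog z.re)).sum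
            + ((∑ j, M j * τ * (M j)ᴴ).charpoly.roots.map (fun z : ℂ => Real.negMulLog z.re)).sum
            ≤ ((∑ p : Fin m × Fin n,
                  Matrix.kronecker (K p.1) (M p.2) * ρ * (Matrix.kronecker (K p.1) (M p.2))ᴴ).charpoly.roots.map
                (fun z : ℂ => Real.negMulLog z.re)).sum) := by
  intro m n K M hK hM ρ hρ hρt
  obtain ⟨σ₀, hσ₀, hσ₀t, hminK⟩ := MinDet.exists_min_det K
  obtain ⟨τ₀, hτ₀, hτ₀t, hminM⟩ := MinDet.exists_min_det M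
  refine ⟨σ₀, τ₀, hσ₀, hσ₀t, hτ₀, hτ₀t, ?_⟩
  rw [joint_eq]
  change Ent (ch K σ₀) + Ent (ch M τ₀) ≤ Ent (appR M (appL K ρ))
  set ω := appL K ρ with hω
  have hωp : ω.PosSemidef := appL_psd K hρ
  obtain ⟨X, Y, hXY, hd⟩ := hHalf ω hωp
  have hbX : ∀ j, blk j (X * Xᴴ) = blk j ω := by
    intro j
    ext i i'
    exact (hd i i' j).1
  have hbY : ∀ j, blk j (Y * Yᴴ) = blk j ω := by
    intro j
    ext i i'
    exact (hd i i' j).2
  have hωt : ω.trace = 1 := by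
    rw [← trace_blk, hω, blk_appL, blk_appL, ch_trace hK, ch_trace hK, trace_blk, hρt]
  have hωdet : ∀ j, (blk j ω).trace.re ^ 2 * (ch K σ₀).det.re ≤ (blk j ω).det.re := by
    intro j
    rw [hω, blk_appL, ch_trace hK]
    exact det_ge hminK (blk_psd j hρ)
  have hX := rank_two hNC hTri hK hM hσ₀ hσ₀t hτ₀ hτ₀t hminM X
    (by rw [← trace_blk, hbX, hbX, trace_blk, hωt]) (fun j => by rw [hbX j]; exact hωdet j)
  have hY := rank_two hNC hTri hK hM hσ₀ hσ₀t hτ₀ hτ₀t hminM Y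
    (by rw [← trace_blk, hbY, hbY, trace_blk, hωt]) (fun j => by rw [hbY j]; exact hωdet j)
  have hsplit : appR M ω = (1 / 2 : ℂ) • (appR M (X * Xᴴ) + appR M (Y * Yᴴ)) := by
    rw [hXY]
    unfold appR
    rw [← Finset.sum_add_distrib, Finset.smul_sum]
    refine Finset.sum_congr rfl fun j _ => ?_
    rw [Matrix.mul_smul, Matrix.smul_mul, Matrix.mul_add, Matrix.add_mul]
  have hhalf := Ent_half (appR_psd M (Matrix.posSemidef_self_mul_conjTranspose X))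
    (appR_psd M (Matrix.posSemidef_self_mul_conjTranspose Y))
  rw [hsplit]
  linarith

end Pool.Agent.H.MP_dd87f4_mp.Asm
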