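import Mathlib

/-!
# Definitions for the additivity of the minimum output entropy of qubit channels
-/

set_option autoImplicit false

open Matrix
open scoped ComplexOrder

namespace QA

/-- Sum of `-x log x` over the eigenvalues of a matrix (roots of the characteristic polynomial). -/
noncomputable def ent {ι : Type*} [Fintype ι] [DecidableEq ι] (A : Matrix ι ι ℂ) : ℝ :=
  (A.charpoly.roots.map (fun z : ℂ => Real.negMulLog z.re)).sum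

/-- larger root of `x ^ 2 - p x + d` -/
noncomputable def mup (p d : ℝ) : ℝ := (p + √(p ^ 2 - 4 * d)) / 2

/-- smaller root of `x ^ 2 - p x + d` -/
noncomputable def mum (p d : ℝ) : ℝ := (p - √(p ^ 2 - 4 * d)) / 2

/-- `-x log x` summed over the two roots of `x ^ 2 - p x + d` -/
noncomputable def ee (p d : ℝ) : ℝ := Real.negMulLog (mup p d) + Real.negMulLog (mum p d)

/-- entropy of a `2 × 2` density matrix of determinant `d` -/
noncomputable def hh (d : ℝ) : ℝ := ee 1 d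

/-- `G r q u = η r + η q + η u - (η μ₊ + η μ₋)`, `μ±` the roots of `x ^ 2 - (r + q + u) x + r q` -/
noncomputable def GG (r q u : ℝ) : ℝ :=
  Real.negMulLog r + Real.negMulLog q + Real.negMulLog u - ee (r + q + u) (r * q)

/-- The block matrix `Y Yᴴ` for `Y = [[A, B], [0, C]]`. -/
noncomputable def Om {n : ℕ} (A B C : Matrix (Fin 2) (Fin n) ℂ) :
    Matrix (Fin 2 ⊕ Fin 2) (Fin 2 ⊕ Fin 2) ℂ :=
  Matrix.fromBlocks (A * Aᴴ + B * Bᴴ) (B * Cᴴ) (C * Bᴴ) (C * Cᴴ)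

/-- Schur complement part. -/
noncomputable def gm {n : ℕ} (B C : Matrix (Fin 2) (Fin n) ℂ) (t : ℝ) :
    Matrix (Fin 2) (Fin 2) ℂ :=
  B * Bᴴ - B * Cᴴ * ((t : ℂ) • (1 : Matrix (Fin 2) (Fin 2) ℂ) + C * Cᴴ)⁻¹ * (C * Bᴴ)

/-- diagonal entries of `A Aᴴ` -/
noncomputable def rr {n : ℕ} (A : Matrix (Fin 2) (Fin n) ℂ) (i : Fin 2) : ℝ := ((A * Aᴴ) i i).re

/-- `q_i = (∑ k |(B Cᴴ)_ik|²) / (B Bᴴ)_ii` (zero when the denominator is zero) -/
noncomputable def qq {n : ℕ} (B C : Matrix (Fin 2) (Fin n) ℂ) (i : Fin 2) : ℝ :=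
  (∑ k, ‖(B * Cᴴ) i k‖ ^ 2) / rr B i

/-- squared norm -/
noncomputable def nrm (a : Fin 2 → ℂ) : ℝ := ∑ j, ‖a j‖ ^ 2

/-- real trace -/
noncomputable def rtr {ι : Type*} [Fintype ι] (A : Matrix ι ι ℂ) : ℝ := (A.trace).re

/-- the output `∑ M_j X M_jᴴ` -/
noncomputable def out {n : ℕ} (M : Fin n → Matrix (Fin 2) (Fin 2) ℂ) (X : Matrix (Fin 2) (Fin 2) ℂ) :
    Matrix (Fin 2) (Fin 2) ℂ := ∑ j, M j * X * (M j)ᴴ

/-- the matrix with columns `M_j x` -/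
noncomputable def TT {n : ℕ} (M : Fin n → Matrix (Fin 2) (Fin 2) ℂ) (x : Fin 2 → ℂ) :
    Matrix (Fin 2) (Fin n) ℂ := fun r j => (M j *ᵥ x) r

/-- channel on the first factor -/
noncomputable def outL {m : ℕ} (K : Fin m → Matrix (Fin 2) (Fin 2) ℂ)
    (ω : Matrix (Fin 2 × Fin 2) (Fin 2 × Fin 2) ℂ) : Matrix (Fin 2 × Fin 2) (Fin 2 × Fin 2) ℂ :=
  ∑ i, Matrix.kronecker (K i) (1 : Matrix (Fin 2) (Fin 2) ℂ) * ω *
    (Matrix.kronecker (K i) (1 : Matrix (Fin 2) (Fin 2) ℂ))ᴴ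

/-- channel on the second factor -/
noncomputable def outR {n : ℕ} (M : Fin n → Matrix (Fin 2) (Fin 2) ℂ)
    (ω : Matrix (Fin 2 × Fin 2) (Fin 2 × Fin 2) ℂ) : Matrix (Fin 2 × Fin 2) (Fin 2 × Fin 2) ℂ :=
  ∑ j, Matrix.kronecker (1 : Matrix (Fin 2) (Fin 2) ℂ) (M j) * ω *
    (Matrix.kronecker (1 : Matrix (Fin 2) (Fin 2) ℂ) (M j))ᴴ

/-- diagonal block of a matrix on `ℂ² ⊗ ℂ²` (second index fixed) -/
def blk (ω : Matrix (Fin 2 × Fin 2) (Fin 2 × Fin 2) ℂ) (j : Fin 2) : Matrix (Fin 2) (Fin 2) ℂ :=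
  fun i i' => ω (i, j) (i', j)

/-- `x xᴴ + y yᴴ` with `x = u₀ ⊗ a`, `y = u₀ ⊗ b + u₁ ⊗ c`, `u₀, u₁` the columns of `U` -/
noncomputable def tri (U : Matrix (Fin 2) (Fin 2) ℂ) (a b c : Fin 2 → ℂ) :
    Matrix (Fin 2 × Fin 2) (Fin 2 × Fin 2) ℂ :=
  fun p p' => (U p.1 0 * a p.2) * star (U p'.1 0 * a p'.2) +
    (U p.1 0 * b p.2 + U p.1 1 * c p.2) * star (U p'.1 0 * b p'.2 + U p'.1 1 * c p'.2)

end QA
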