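import Mathlib

/-! MP_dd87f4 (helper68): the scalar 2x2 determinant inequality. -/

namespace Pool.Agent.H.MP_dd87f4_mp

theorem det2 {P1 P2 G1 G2 x1 x2 : ℝ} {p g : ℂ} (hP1 : 0 < P1) (hP2 : 0 < P2)
    (hp : ‖p‖ ^ 2 ≤ P1 * P2) (hx1 : 0 ≤ x1) (hx2 : 0 ≤ x2) (h1 : x1 ≤ G1) (h2 : x2 ≤ G2)
    (hg1 : ‖g‖ ^ 2 ≤ (G1 - x1) * G2) :
    (P1 * P2 - ‖p‖ ^ 2) * ((1 + x1 / P1) * (1 + x2 / P2))
      ≤ (P1 + G1) * (P2 + G2) - ‖p + g‖ ^ 2 := by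
  set a := ‖p‖ with ha
  set b := ‖g‖ with hb
  have ha0 : 0 ≤ a := norm_nonneg _
  have hb0 : 0 ≤ b := norm_nonneg _
  have hpg : ‖p + g‖ ^ 2 ≤ (a + b) ^ 2 := by
    have := norm_add_le p g
    exact pow_le_pow_left₀ (norm_nonneg _) this 2
  set y1 := G1 - x1 with hy1
  set y2 := G2 - x2 with hy2
  have hy10 : 0 ≤ y1 := by linarith
  have hy20 : 0 ≤ y2 := by linarith
  have hG1 : G1 = x1 + y1 := by ring
  have hG2 : G2 = x2 + y2 := by ring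
  -- 2 a b <= P2 y1 + a^2 G2 / P2
  have hab : 2 * (a * b) ≤ P2 * y1 + a ^ 2 * G2 / P2 := by
    have hG20 : 0 ≤ G2 := by linarith
    have h3 : (a * b) ^ 2 ≤ (P2 * y1) * (a ^ 2 * G2 / P2) := by
      have : (P2 * y1) * (a ^ 2 * G2 / P2) = a ^ 2 * (y1 * G2) := by
        field_simp
      rw [this, mul_pow]
      exact mul_le_mul_of_nonneg_left hg1 (sq_nonneg a)
    have h4 : 0 ≤ P2 * y1 := by positivity
    have h5 : 0 ≤ a ^ 2 * G2 / P2 := by positivity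
    have h6 : (2 * (a * b)) ^ 2 ≤ (P2 * y1 + a ^ 2 * G2 / P2) ^ 2 := by
      nlinarith [sq_nonneg (P2 * y1 - a ^ 2 * G2 / P2)]
    exact (pow_le_pow_iff_left₀ (by positivity) (by positivity) (by norm_num)).1 h6
  -- P1 y2 >= a^2 y2 / P2
  have h7 : a ^ 2 * y2 / P2 ≤ P1 * y2 := by
    rw [div_le_iff₀ hP2]
    nlinarith [mul_le_mul_of_nonneg_right hp hy20]
  have h8 : a ^ 2 * G2 / P2 = a ^ 2 * x2 / P2 + a ^ 2 * y2 / P2 := by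
    rw [hG2]; ring
  have h9 : (P1 * P2 - a ^ 2) * ((1 + x1 / P1) * (1 + x2 / P2))
      = P1 * P2 - a ^ 2 + x1 * P2 - a ^ 2 * x1 / P1 + x2 * P1 - a ^ 2 * x2 / P2
        + x1 * x2 - a ^ 2 * (x1 * x2) / (P1 * P2) := by
    field_simp
    ring
  have h10 : 0 ≤ a ^ 2 * x1 / P1 := by positivity
  have h11 : 0 ≤ a ^ 2 * (x1 * x2) / (P1 * P2) := by positivity
  have h12 : b ^ 2 ≤ y1 * x2 + y1 * y2 := by
    rw [hG2] at hg1; linarith [hg1]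
  rw [h9]
  have h13 : (P1 + G1) * (P2 + G2) - (a + b) ^ 2
      ≤ (P1 + G1) * (P2 + G2) - ‖p + g‖ ^ 2 := by linarith
  refine le_trans ?_ h13
  have h14 : (P1 + G1) * (P2 + G2) - (a + b) ^ 2
      = P1 * P2 - a ^ 2 + x1 * P2 + x2 * P1 + x1 * x2
        + (P2 * y1 - 2 * (a * b)) + P1 * y2 + (x1 * y2 + y1 * x2 + y1 * y2 - b ^ 2) := by
    rw [hG1, hG2]; ring
  rw [h14]
  have h15 : 0 ≤ x1 * y2 := by positivity
  linarith

end Pool.Agent.H.MP_dd87f4_mp
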