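import Mathlib
import Pool.Agent.H.MP_dd87f4_mp.Det2

/-! MP_dd87f4 (helper68, for the proof of helper25): the determinant inequality (i). -/

open Matrix
open scoped ComplexOrder

namespace Pool.Agent.H.MP_dd87f4_mp

theorem cs_sum {ν : Type*} [Fintype ν] (a b : ν → ℂ) :
    ‖∑ k, a k * b k‖ ^ 2 ≤ (∑ k, ‖a k‖ ^ 2) * (∑ k, ‖b k‖ ^ 2) := by
  have h1 : ‖∑ k, a k * b k‖ ≤ ∑ k, ‖a k‖ * ‖b k‖ :=
    (norm_sum_le _ _).trans (by simp)
  calc ‖∑ k, a k * b k‖ ^ 2 ≤ (∑ k, ‖a k‖ * ‖b k‖) ^ 2 :=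
        pow_le_pow_left₀ (norm_nonneg _) h1 2
    _ ≤ _ := Finset.sum_mul_sq_le_sq_mul_sq _ _ _

theorem dot_self_re {ν : Type*} [Fintype ν] (v : ν → ℂ) :
    star v ⬝ᵥ v = ((∑ k, ‖v k‖ ^ 2 : ℝ) : ℂ) := by
  simp only [dotProduct, Pi.star_apply, Complex.ofReal_sum]
  refine Finset.sum_congr rfl fun k _ => ?_
  rw [Complex.star_def, Complex.conj_mul']
  simp

theorem two_term {a1 a2 v y t : ℝ} (ht : 0 < t) :
    (a1 * v + a2 * y) ^ 2 ≤ (a1 ^ 2 + a2 ^ 2 / t) * (v ^ 2 + t * y ^ 2) := by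
  have h : (a1 ^ 2 + a2 ^ 2 / t) * (v ^ 2 + t * y ^ 2) - (a1 * v + a2 * y) ^ 2
      = (a1 * t * y - a2 * v) ^ 2 / t := by
    field_simp
    ring
  have h2 : 0 ≤ (a1 * t * y - a2 * v) ^ 2 / t := by positivity
  linarith

/-- The quadratic form of `G = B B^* - B C^* (t + C C^*)^{-1} C B^*`. -/
theorem quadG {ν : Type*} [Fintype ν] (B C : Matrix (Fin 2) ν ℂ) (m q : Fin 2 → ℝ) (t : ℝ)
    (ht : 0 < t) (hB : B * Bᴴ = diagonal (fun i => (m i : ℂ))) (hq : ∀ i, 0 ≤ q i)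
    (hmq : ∀ i, m i * q i = ∑ k, ‖(B * Cᴴ) i k‖ ^ 2)
    (N : Matrix (Fin 2) (Fin 2) ℂ) (hN : N = (t : ℂ) • (1 : Matrix (Fin 2) (Fin 2) ℂ) + C * Cᴴ)
    (hNu : IsUnit N.det) (w : Fin 2 → ℂ) :
    ∃ S : ℝ, star w ⬝ᵥ ((B * Bᴴ - B * Cᴴ * N⁻¹ * (C * Bᴴ)) *ᵥ w) = (S : ℂ) ∧ 0 ≤ S ∧
      ∀ i, m i * t / (t + q i) * ‖w i‖ ^ 2 ≤ S := by
  set u : ν → ℂ := Bᴴ *ᵥ w with hu
  set y : Fin 2 → ℂ := N⁻¹ *ᵥ (C *ᵥ u) with hy
  set v : ν → ℂ := u - Cᴴ *ᵥ y with hv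
  have hNy : N *ᵥ y = C *ᵥ u := by
    rw [hy, mulVec_mulVec, Matrix.mul_nonsing_inv _ hNu, one_mulVec]
  have hCv : C *ᵥ v = (t : ℂ) • y := by
    rw [hN, add_mulVec, smul_mulVec, one_mulVec] at hNy
    have h1 : C *ᵥ (Cᴴ *ᵥ y) = (C * Cᴴ) *ᵥ y := mulVec_mulVec y C Cᴴ
    rw [hv, mulVec_sub, ← hNy, h1]
    abel
  have hG : (B * Bᴴ - B * Cᴴ * N⁻¹ * (C * Bᴴ)) *ᵥ w = B *ᵥ v := by
    rw [sub_mulVec, hv, mulVec_sub, hy, hu]
    simp only [mulVec_mulVec, Matrix.mul_assoc]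
  have hu2 : u = v + Cᴴ *ᵥ y := by rw [hv]; abel
  set Sv : ℝ := ∑ k, ‖v k‖ ^ 2 with hSv
  set Sy : ℝ := ∑ k, ‖y k‖ ^ 2 with hSy
  have hSv0 : 0 ≤ Sv := Finset.sum_nonneg fun k _ => sq_nonneg _
  have hSy0 : 0 ≤ Sy := Finset.sum_nonneg fun k _ => sq_nonneg _
  have hq1 : star w ⬝ᵥ (B *ᵥ v) = star u ⬝ᵥ v := by
    rw [dotProduct_mulVec, hu, star_mulVec, conjTranspose_conjTranspose]
  have hq2 : star u ⬝ᵥ v = ((Sv + t * Sy : ℝ) : ℂ) := by
    conv_lhs => rw [hu2]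
    rw [star_add, add_dotProduct, star_mulVec, conjTranspose_conjTranspose,
      ← dotProduct_mulVec, hCv, dotProduct_smul, dot_self_re, dot_self_re, smul_eq_mul,
      ← hSv, ← hSy]
    push_cast
    ring
  refine ⟨Sv + t * Sy, ?_, by positivity, ?_⟩
  · rw [hG, hq1, hq2]
  · intro i
    have hm : m i = ∑ k, ‖B i k‖ ^ 2 := by
      have h1 := congrFun (congrFun hB i) i
      rw [diagonal_apply_eq, mul_apply] at h1
      have h2 : ∑ j, B i j * Bᴴ j i = ((∑ k, ‖B i k‖ ^ 2 : ℝ) : ℂ) := by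
        rw [Complex.ofReal_sum]
        refine Finset.sum_congr rfl fun k _ => ?_
        rw [conjTranspose_apply, Complex.star_def, Complex.mul_conj']
        simp
      rw [h2] at h1
      exact_mod_cast h1.symm
    have hm0 : 0 ≤ m i := by rw [hm]; exact Finset.sum_nonneg fun k _ => sq_nonneg _
    have hw : (m i : ℂ) * w i = (∑ k, B i k * v k) + ∑ k, (B * Cᴴ) i k * y k := by
      have h1 : (B * Bᴴ) *ᵥ w = B *ᵥ v + (B * Cᴴ) *ᵥ y := by
        rw [← mulVec_mulVec, ← hu]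
        conv_lhs => rw [hu2]
        rw [mulVec_add, mulVec_mulVec]
      have h2 := congrFun h1 i
      rw [hB, mulVec_diagonal] at h2
      rw [h2]
      rfl
    have hcs1 : ‖∑ k, B i k * v k‖ ≤ √(m i) * √Sv := by
      rw [← Real.sqrt_mul hm0]
      apply Real.le_sqrt_of_sq_le
      rw [hm]
      exact cs_sum _ _
    have hcs2 : ‖∑ k, (B * Cᴴ) i k * y k‖ ≤ √(m i * q i) * √Sy := by
      rw [← Real.sqrt_mul (mul_nonneg hm0 (hq i))]
      apply Real.le_sqrt_of_sq_le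
      rw [hmq]
      exact cs_sum _ _
    have h3 : m i * ‖w i‖ ≤ √(m i) * √Sv + √(m i * q i) * √Sy := by
      have h4 : ‖(m i : ℂ) * w i‖ = m i * ‖w i‖ := by
        rw [norm_mul, Complex.norm_real, Real.norm_of_nonneg hm0]
      rw [← h4, hw]
      exact (norm_add_le _ _).trans (add_le_add hcs1 hcs2)
    have h5 : (m i * ‖w i‖) ^ 2 ≤ (m i + m i * q i / t) * (Sv + t * Sy) := by
      calc (m i * ‖w i‖) ^ 2 ≤ (√(m i) * √Sv + √(m i * q i) * √Sy) ^ 2 :=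
            pow_le_pow_left₀ (by positivity) h3 2
        _ ≤ (√(m i) ^ 2 + √(m i * q i) ^ 2 / t) * (√Sv ^ 2 + t * √Sy ^ 2) := two_term ht
        _ = _ := by
          rw [Real.sq_sqrt hm0, Real.sq_sqrt (mul_nonneg hm0 (hq i)), Real.sq_sqrt hSv0,
            Real.sq_sqrt hSy0]
    rcases hm0.eq_or_lt with h0 | h0
    · rw [← h0]
      simp only [zero_mul, zero_div]
      positivity
    · have hqi := hq i
      have hS : 0 ≤ Sv + t * Sy := by positivity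
      have h6 : m i * ‖w i‖ ^ 2 ≤ (1 + q i / t) * (Sv + t * Sy) := by
        have h7 : (m i * ‖w i‖) ^ 2 = m i * (m i * ‖w i‖ ^ 2) := by ring
        have h8 : (m i + m i * q i / t) * (Sv + t * Sy)
            = m i * ((1 + q i / t) * (Sv + t * Sy)) := by ring
        rw [h7, h8] at h5
        exact le_of_mul_le_mul_left h5 h0
      have h9 : (1 + q i / t) = (t + q i) / t := by field_simp
      rw [h9] at h6
      have h10 : m i * t / (t + q i) * ‖w i‖ ^ 2 = (m i * ‖w i‖ ^ 2) * (t / (t + q i)) := by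
        field_simp
      rw [h10]
      calc (m i * ‖w i‖ ^ 2) * (t / (t + q i))
          ≤ ((t + q i) / t * (Sv + t * Sy)) * (t / (t + q i)) :=
            mul_le_mul_of_nonneg_right h6 (by positivity)
        _ = Sv + t * Sy := by field_simp

/-- A Hermitian 2x2 matrix with nonnegative quadratic form. -/
theorem psd2 {a b : ℝ} {g : ℂ} (h : ∀ z w : ℂ,
    0 ≤ a * ‖z‖ ^ 2 + b * ‖w‖ ^ 2 + 2 * (star z * g * w).re) : ‖g‖ ^ 2 ≤ a * b := by
  have ha : 0 ≤ a := by simpa using h 1 0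
  have hb : 0 ≤ b := by simpa using h 0 1
  have h1 : ∀ s : ℝ, 0 ≤ a * ‖g‖ ^ 2 + b * s ^ 2 - 2 * s * ‖g‖ ^ 2 := by
    intro s
    have h2 := h g (-(s : ℂ))
    have h3 : (star g * g * (-(s : ℂ))).re = - s * ‖g‖ ^ 2 := by
      rw [Complex.star_def, Complex.conj_mul']
      have : ((‖g‖ : ℂ) ^ 2 * (-(s : ℂ))) = ((‖g‖ ^ 2 * (-s) : ℝ) : ℂ) := by push_cast; ring
      rw [this, Complex.ofReal_re]
      ring
    rw [h3] at h2
    have h4 : ‖(-(s : ℂ))‖ ^ 2 = s ^ 2 := by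
      rw [norm_neg, Complex.norm_real, Real.norm_eq_abs, sq_abs]
    rw [h4] at h2
    linarith
  rcases hb.eq_or_lt with h0 | h0
  · rw [← h0] at h1 ⊢
    by_contra hcon
    rw [mul_zero] at hcon
    push Not at hcon
    have h5 := h1 (a + 1)
    nlinarith
  · rcases (sq_nonneg ‖g‖).eq_or_lt with h6 | h6
    · rw [← h6]; positivity
    · have h7 := h1 (‖g‖ ^ 2 / b)
      have h8 : a * ‖g‖ ^ 2 + b * (‖g‖ ^ 2 / b) ^ 2 - 2 * (‖g‖ ^ 2 / b) * ‖g‖ ^ 2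
          = ‖g‖ ^ 2 * (a - ‖g‖ ^ 2 / b) := by
        field_simp
        ring
      rw [h8] at h7
      have h9 : 0 ≤ a - ‖g‖ ^ 2 / b := by
        by_contra hcon
        push Not at hcon
        nlinarith
      have h10 : ‖g‖ ^ 2 / b ≤ a := by linarith
      rwa [div_le_iff₀ h0] at h10

/-- The determinant inequality (i). -/
theorem det_ineq {ν : Type*} [Fintype ν] (A B C : Matrix (Fin 2) ν ℂ) (m q r : Fin 2 → ℝ)
    (t : ℝ) (ht : 0 < t) (hB : B * Bᴴ = diagonal (fun i => (m i : ℂ))) (hq : ∀ i, 0 ≤ q i)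
    (hr : ∀ i, (A * Aᴴ) i i = (r i : ℂ))
    (hmq : ∀ i, m i * q i = ∑ k, ‖(B * Cᴴ) i k‖ ^ 2) :
    ((t : ℂ) • (1 : Matrix (Fin 2) (Fin 2) ℂ) + A * Aᴴ).det.re
        * ((t : ℂ) • (1 : Matrix (Fin 2) (Fin 2) ℂ) + C * Cᴴ).det.re
        * (((r 0 + t) * (q 0 + t) + t * m 0) * ((r 1 + t) * (q 1 + t) + t * m 1))
      ≤ ((t : ℂ) • (1 : Matrix (Fin 2 ⊕ Fin 2) (Fin 2 ⊕ Fin 2) ℂ)
          + fromBlocks (A * Aᴴ + B * Bᴴ) (B * Cᴴ) (C * Bᴴ) (C * Cᴴ)).det.re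
        * (((r 0 + t) * (q 0 + t)) * ((r 1 + t) * (q 1 + t))) := by
  set P : Matrix (Fin 2) (Fin 2) ℂ := (t : ℂ) • (1 : Matrix (Fin 2) (Fin 2) ℂ) + A * Aᴴ with hP
  set N : Matrix (Fin 2) (Fin 2) ℂ := (t : ℂ) • (1 : Matrix (Fin 2) (Fin 2) ℂ) + C * Cᴴ with hN
  have htc : (0 : ℂ) < (t : ℂ) := by exact_mod_cast ht
  have hPpd : P.PosDef := by
    rw [hP]
    exact (PosDef.one.smul htc).add_posSemidef (posSemidef_self_mul_conjTranspose A)
  have hNpd : N.PosDef := by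
    rw [hN]
    exact (PosDef.one.smul htc).add_posSemidef (posSemidef_self_mul_conjTranspose C)
  have hNdet : 0 < N.det := hNpd.det_pos
  have hNu : IsUnit N.det := hNdet.ne'.isUnit
  set G : Matrix (Fin 2) (Fin 2) ℂ := B * Bᴴ - B * Cᴴ * N⁻¹ * (C * Bᴴ) with hG
  have hGh : G.IsHermitian := by
    rw [hG]
    apply IsHermitian.sub (isHermitian_mul_conjTranspose_self B)
    have h1 : (B * Cᴴ * N⁻¹ * (C * Bᴴ)) = (B * Cᴴ) * N⁻¹ * (B * Cᴴ)ᴴ := by
      rw [conjTranspose_mul, conjTranspose_conjTranspose]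
    rw [h1]
    exact isHermitian_mul_mul_conjTranspose _ hNpd.isHermitian.inv
  have hPh : P.IsHermitian := hPpd.isHermitian
  -- Schur complement
  have hdet : ((t : ℂ) • (1 : Matrix (Fin 2 ⊕ Fin 2) (Fin 2 ⊕ Fin 2) ℂ)
          + fromBlocks (A * Aᴴ + B * Bᴴ) (B * Cᴴ) (C * Bᴴ) (C * Cᴴ)).det
        = N.det * (P + G).det := by
    have h1 : ((t : ℂ) • (1 : Matrix (Fin 2 ⊕ Fin 2) (Fin 2 ⊕ Fin 2) ℂ)
          + fromBlocks (A * Aᴴ + B * Bᴴ) (B * Cᴴ) (C * Bᴴ) (C * Cᴴ))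
        = fromBlocks (P + B * Bᴴ) (B * Cᴴ) (C * Bᴴ) N := by
      rw [← fromBlocks_one, fromBlocks_smul, fromBlocks_add, smul_zero, zero_add,
        zero_add, ← add_assoc]
    have : Invertible N := invertibleOfIsUnitDet N hNu
    rw [h1, det_fromBlocks₂₂, invOf_eq_nonsing_inv]
    congr 2
    rw [hG]
    abel
  -- entries
  set p : ℂ := P 0 1 with hp
  set g : ℂ := G 0 1 with hg
  set G1 : ℝ := (G 0 0).re with hG1
  set G2 : ℝ := (G 1 1).re with hG2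
  have hG00 : G 0 0 = (G1 : ℂ) := (Complex.conj_eq_iff_re.1 (hGh.apply 0 0)).symm
  have hG11 : G 1 1 = (G2 : ℂ) := (Complex.conj_eq_iff_re.1 (hGh.apply 1 1)).symm
  have hG10 : G 1 0 = star g := (hGh.apply 1 0).symm
  have hP10 : P 1 0 = star p := (hPh.apply 1 0).symm
  have hP00 : P 0 0 = ((r 0 + t : ℝ) : ℂ) := by
    rw [hP, Matrix.add_apply, hr 0]; simp [add_comm]
  have hP11 : P 1 1 = ((r 1 + t : ℝ) : ℂ) := by
    rw [hP, Matrix.add_apply, hr 1]; simp [add_comm]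
  have hr0 : ∀ i, 0 ≤ r i := by
    intro i
    have h1 := (posSemidef_self_mul_conjTranspose A).diag_nonneg (i := i)
    rw [hr i] at h1
    exact_mod_cast h1
  have hPdet : P.det = (((r 0 + t) * (r 1 + t) - ‖p‖ ^ 2 : ℝ) : ℂ) := by
    rw [det_fin_two, hP00, hP11, hP10, ← hp, Complex.star_def, Complex.mul_conj']
    push_cast
    ring
  have hPGdet : (P + G).det
      = (((r 0 + t + G1) * (r 1 + t + G2) - ‖p + g‖ ^ 2 : ℝ) : ℂ) := by
    rw [det_fin_two, Matrix.add_apply, Matrix.add_apply, Matrix.add_apply, Matrix.add_apply,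
      hP00, hP11, hP10, hG00, hG11, hG10, ← hp, ← hg, ← star_add, Complex.star_def,
      Complex.mul_conj']
    push_cast
    ring
  have hp2 : ‖p‖ ^ 2 ≤ (r 0 + t) * (r 1 + t) := by
    have h1 := hPpd.det_pos
    rw [hPdet] at h1
    have h2 : 0 < (r 0 + t) * (r 1 + t) - ‖p‖ ^ 2 := by exact_mod_cast h1
    linarith
  have hquad : ∀ (z w : ℂ) (i : Fin 2), m i * t / (t + q i) * ‖(![z, w] : Fin 2 → ℂ) i‖ ^ 2
      ≤ G1 * ‖z‖ ^ 2 + G2 * ‖w‖ ^ 2 + 2 * (star z * g * w).re := by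
    intro z w i
    obtain ⟨S, hS1, -, hS2⟩ := quadG B C m q t ht hB hq hmq N hN hNu ![z, w]
    rw [← hG] at hS1
    have h1 : star (![z, w] : Fin 2 → ℂ) ⬝ᵥ (G *ᵥ ![z, w])
        = ((G1 * ‖z‖ ^ 2 + G2 * ‖w‖ ^ 2 + 2 * (star z * g * w).re : ℝ) : ℂ) := by
      have h2 : star (![z, w] : Fin 2 → ℂ) ⬝ᵥ (G *ᵥ ![z, w])
          = star z * (G 0 0 * z + G 0 1 * w) + star w * (G 1 0 * z + G 1 1 * w) := by
        simp [dotProduct, mulVec, Fin.sum_univ_two]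
      rw [h2, hG00, hG11, hG10, ← hg]
      have h3 : star z * ((G1 : ℂ) * z + g * w) + star w * (star g * z + (G2 : ℂ) * w)
          = (G1 : ℂ) * (star z * z) + (G2 : ℂ) * (star w * w)
            + (star z * g * w + star (star z * g * w)) := by
        simp only [star_mul, star_star]
        ring
      rw [h3, Complex.star_def, Complex.conj_mul',
        Complex.conj_mul', Complex.add_conj]
      push_cast
      ring
    rw [h1] at hS1
    have h4 : G1 * ‖z‖ ^ 2 + G2 * ‖w‖ ^ 2 + 2 * (star z * g * w).re = S := by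
      exact_mod_cast hS1
    rw [h4]
    exact hS2 i
  set x1 : ℝ := m 0 * t / (t + q 0) with hx1
  set x2 : ℝ := m 1 * t / (t + q 1) with hx2
  have hm0 : ∀ i, 0 ≤ m i := by
    intro i
    have h1 := (posSemidef_self_mul_conjTranspose B).diag_nonneg (i := i)
    rw [hB, diagonal_apply_eq] at h1
    exact_mod_cast h1
  have hq0 := hq 0
  have hq1 := hq 1
  have hm00 := hm0 0
  have hm01 := hm0 1
  have hr00 := hr0 0
  have hr01 := hr0 1
  have hx10 : 0 ≤ x1 := by positivity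
  have hx20 : 0 ≤ x2 := by positivity
  have hxG1 : x1 ≤ G1 := by
    have h1 := hquad 1 0 0
    simpa using h1
  have hxG2 : x2 ≤ G2 := by
    have h1 := hquad 0 1 1
    simpa using h1
  have hg1 : ‖g‖ ^ 2 ≤ (G1 - x1) * G2 := by
    apply psd2
    intro z w
    have h1 := hquad z w 0
    simp only [Matrix.cons_val_zero] at h1
    linarith
  have key := det2 (P1 := r 0 + t) (P2 := r 1 + t) (p := p) (g := g) (by positivity)
    (by positivity) hp2 hx10 hx20 hxG1 hxG2 hg1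
  have e1 : 1 + x1 / (r 0 + t)
      = ((r 0 + t) * (q 0 + t) + t * m 0) / ((r 0 + t) * (q 0 + t)) := by
    rw [hx1]
    field_simp
    ring
  have e2 : 1 + x2 / (r 1 + t)
      = ((r 1 + t) * (q 1 + t) + t * m 1) / ((r 1 + t) * (q 1 + t)) := by
    rw [hx2]
    field_simp
    ring
  rw [e1, e2] at key
  have hNre : 0 ≤ N.det.re := by
    have := hNdet.le
    exact (Complex.le_def.1 this).1
  have hNim : N.det.im = 0 := ((Complex.le_def.1 hNdet.le).2).symm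
  rw [hdet, hPGdet, hPdet, Complex.mul_re, hNim, Complex.ofReal_re, Complex.ofReal_re, zero_mul,
    sub_zero]
  have hD0 : 0 < (r 0 + t) * (q 0 + t) := by positivity
  have hD1 : 0 < (r 1 + t) * (q 1 + t) := by positivity
  have key2 := mul_le_mul_of_nonneg_left
    (mul_le_mul_of_nonneg_right key (mul_pos hD0 hD1).le) hNre
  have e3 : N.det.re * (((r 0 + t) * (r 1 + t) - ‖p‖ ^ 2)
        * (((r 0 + t) * (q 0 + t) + t * m 0) / ((r 0 + t) * (q 0 + t))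
          * (((r 1 + t) * (q 1 + t) + t * m 1) / ((r 1 + t) * (q 1 + t))))
        * ((r 0 + t) * (q 0 + t) * ((r 1 + t) * (q 1 + t))))
      = ((r 0 + t) * (r 1 + t) - ‖p‖ ^ 2) * N.det.re
        * (((r 0 + t) * (q 0 + t) + t * m 0) * ((r 1 + t) * (q 1 + t) + t * m 1)) := by
    field_simp
  rw [e3] at key2
  refine key2.trans (le_of_eq ?_)
  ring

end Pool.Agent.H.MP_dd87f4_mp
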