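import Mathlib
import Pool.Agent.H.MP_dd87f4_mp.SupG
import Pool.Agent.H.MP_dd87f4_mp.DetIneq
import Pool.Agent.H.MP_dd87f4_mp.EntConc
import Pool.Agent.H.MP_dd87f4_mp.Defs

/-! MP_dd87f4 (helper68, for the proof of helper25): the entropic norm compression inequality
for block triangular matrices. -/

open Matrix Real
open scoped ComplexOrder

namespace Pool.Agent.H.MP_dd87f4_mp

/-- `det (t + H) = prod (t + eigenvalues)`. -/
theorem nc_det {n : Type*} [Fintype n] [DecidableEq n] {H : Matrix n n ℂ} (hH : H.IsHermitian)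
    (t : ℝ) : ((t : ℂ) • (1 : Matrix n n ℂ) + H).det
      = ((∏ i, (hH.eigenvalues i + t) : ℝ) : ℂ) := by
  have h1 : (-((t : ℂ) • (1 : Matrix n n ℂ) + H)).det
      = H.charpoly.eval (-(t : ℂ)) := by
    rw [eval_charpoly]
    congr 1
    rw [neg_add, sub_eq_add_neg, ← neg_smul]
    congr 1
    rw [scalar_apply, ← smul_one_eq_diagonal]
  rw [det_neg, hH.charpoly_eq, Polynomial.eval_prod] at h1
  have h2 : ∏ i, Polynomial.eval (-(t : ℂ)) (Polynomial.X - Polynomial.C (hH.eigenvalues i : ℂ))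
      = (-1) ^ Fintype.card n * ∏ i, ((hH.eigenvalues i : ℂ) + t) := by
    rw [← Finset.card_univ, ← Finset.prod_const, ← Finset.prod_mul_distrib]
    refine Finset.prod_congr rfl fun i _ => ?_
    simp
    ring
  have h3 : ((-1 : ℂ) ^ Fintype.card n) ≠ 0 := pow_ne_zero _ (by norm_num)
  have h4 := mul_left_cancel₀ h3 (h1.trans h2)
  rw [h4]
  push_cast
  rfl

/-- `BB^*` diagonal: its entropy. -/
theorem Ent_diagonal (m : Fin 2 → ℝ) :
    Ent (diagonal (fun i => (m i : ℂ))) = negMulLog (m 0) + negMulLog (m 1) := by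
  unfold Ent
  rw [charpoly_diagonal, Polynomial.roots_prod _ _ (by
    simp [Polynomial.X_sub_C_ne_zero])]
  simp

theorem trace_block {ν : Type*} [Fintype ν] (A B C : Matrix (Fin 2) ν ℂ) :
    (fromBlocks (A * Aᴴ + B * Bᴴ) (B * Cᴴ) (C * Bᴴ) (C * Cᴴ)).trace
      = (A * Aᴴ).trace + (B * Bᴴ).trace + (C * Cᴴ).trace := by
  simp [Matrix.trace, Fintype.sum_sum_type, Finset.sum_add_distrib]

theorem tr_eig {n : Type*} [Fintype n] [DecidableEq n] {H : Matrix n n ℂ} (hH : H.IsHermitian)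
    (a : ℝ) (h : H.trace = (a : ℂ)) : ∑ i, hH.eigenvalues i = a := by
  have h1 := hH.trace_eq_sum_eigenvalues
  rw [h] at h1
  have h2 : ((a : ℝ) : ℂ) = ((∑ i, hH.eigenvalues i : ℝ) : ℂ) := by
    rw [h1]; push_cast; rfl
  exact (Complex.ofReal_injective h2).symm

theorem det_re {n : Type*} [Fintype n] [DecidableEq n] {H : Matrix n n ℂ} (hH : H.IsHermitian)
    (t : ℝ) : ((t : ℂ) • (1 : Matrix n n ℂ) + H).det.re = ∏ i, (hH.eigenvalues i + t) := by
  rw [nc_det hH, Complex.ofReal_re]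

theorem q_sum {ν : Type*} [Fintype ν] (B C : Matrix (Fin 2) ν ℂ) (m : Fin 2 → ℝ)
    (hB : B * Bᴴ = diagonal (fun i => (m i : ℂ))) (γ : ℝ) (hγ : (C * Cᴴ).trace = (γ : ℂ)) :
    (∑ k, ‖(B * Cᴴ) 0 k‖ ^ 2) / m 0 + (∑ k, ‖(B * Cᴴ) 1 k‖ ^ 2) / m 1 ≤ γ := by
  set D : Matrix (Fin 2) (Fin 2) ℂ := diagonal (fun i => ((m i)⁻¹ : ℂ)) with hD
  set W : Matrix (Fin 2) ν ℂ := C - C * Bᴴ * D * B with hW
  have hDh : Dᴴ = D := by
    rw [hD, diagonal_conjTranspose]
    congr 1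
    funext i
    simp
  have hDMD : D * (B * Bᴴ) * D = D := by
    rw [hB, hD, diagonal_mul_diagonal, diagonal_mul_diagonal]
    congr 1
    funext i
    by_cases h : (m i : ℂ) = 0
    · simp [h]
    · field_simp
  have hWW : W * Wᴴ = C * Cᴴ - C * Bᴴ * D * (B * Cᴴ) := by
    have h1 : Wᴴ = Cᴴ - Bᴴ * D * (B * Cᴴ) := by
      rw [hW, conjTranspose_sub, conjTranspose_mul, conjTranspose_mul, conjTranspose_mul,
        conjTranspose_conjTranspose, hDh]
      simp only [Matrix.mul_assoc]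
    have h2 : C * Bᴴ * D * B * (Bᴴ * D * (B * Cᴴ)) = C * Bᴴ * D * (B * Cᴴ) := by
      calc C * Bᴴ * D * B * (Bᴴ * D * (B * Cᴴ)) = C * Bᴴ * (D * (B * Bᴴ) * D) * (B * Cᴴ) := by
            simp only [Matrix.mul_assoc]
        _ = _ := by rw [hDMD]
    rw [h1, hW, Matrix.sub_mul, Matrix.mul_sub, Matrix.mul_sub, h2]
    simp only [Matrix.mul_assoc]
    abel
  have hps := (posSemidef_self_mul_conjTranspose W).trace_nonneg
  rw [hWW, trace_sub, hγ] at hps
  have htr : (C * Bᴴ * D * (B * Cᴴ)).trace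
      = (((∑ k, ‖(B * Cᴴ) 0 k‖ ^ 2) / m 0 + (∑ k, ‖(B * Cᴴ) 1 k‖ ^ 2) / m 1 : ℝ) : ℂ) := by
    have h1 : C * Bᴴ * D * (B * Cᴴ) = (B * Cᴴ)ᴴ * (D * (B * Cᴴ)) := by
      rw [conjTranspose_mul, conjTranspose_conjTranspose]
      simp only [Matrix.mul_assoc]
    rw [h1, trace_mul_comm, Matrix.mul_assoc, trace_fin_two, hD]
    rw [diagonal_mul, diagonal_mul, mul_apply, mul_apply]
    have h2 : ∀ i, ∑ j, (B * Cᴴ) i j * (B * Cᴴ)ᴴ j i
        = ((∑ k, ‖(B * Cᴴ) i k‖ ^ 2 : ℝ) : ℂ) := by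
      intro i
      rw [Complex.ofReal_sum]
      refine Finset.sum_congr rfl fun k _ => ?_
      rw [conjTranspose_apply, Complex.star_def, Complex.mul_conj']
      simp
    rw [h2, h2]
    push_cast
    ring
  rw [htr] at hps
  have h3 : (0 : ℝ) ≤ γ - ((∑ k, ‖(B * Cᴴ) 0 k‖ ^ 2) / m 0
      + (∑ k, ‖(B * Cᴴ) 1 k‖ ^ 2) / m 1) := by exact_mod_cast hps
  linarith

theorem block_psd {ν : Type*} [Fintype ν] (A B C : Matrix (Fin 2) ν ℂ) :
    (fromBlocks (A * Aᴴ + B * Bᴴ) (B * Cᴴ) (C * Bᴴ) (C * Cᴴ)).PosSemidef := by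
  have h : fromBlocks (A * Aᴴ + B * Bᴴ) (B * Cᴴ) (C * Bᴴ) (C * Cᴴ)
      = (fromBlocks A B 0 C) * (fromBlocks A B 0 C)ᴴ := by
    rw [fromBlocks_conjTranspose, fromBlocks_multiply]
    simp
  rw [h]
  exact posSemidef_self_mul_conjTranspose _

/-- (NC) when `B B^*` is diagonal. -/
theorem nc_diag {ν : Type*} [Fintype ν] (A B C : Matrix (Fin 2) ν ℂ) (m : Fin 2 → ℝ)
    (hB : B * Bᴴ = diagonal (fun i => (m i : ℂ))) (α β γ : ℝ) (hα : (A * Aᴴ).trace = (α : ℂ))
    (hβ : (B * Bᴴ).trace = (β : ℂ)) (hγ : (C * Cᴴ).trace = (γ : ℂ)) :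
    Ent (A * Aᴴ) + Ent (B * Bᴴ) + Ent (C * Cᴴ) - GG α γ β
      ≤ Ent (fromBlocks (A * Aᴴ + B * Bᴴ) (B * Cᴴ) (C * Bᴴ) (C * Cᴴ)) := by
  have hAp := posSemidef_self_mul_conjTranspose A
  have hBp := posSemidef_self_mul_conjTranspose B
  have hCp := posSemidef_self_mul_conjTranspose C
  have hOp := block_psd A B C
  set Om := fromBlocks (A * Aᴴ + B * Bᴴ) (B * Cᴴ) (C * Bᴴ) (C * Cᴴ) with hOm
  -- the numbers
  set r : Fin 2 → ℝ := fun i => ((A * Aᴴ) i i).re with hr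
  have hrr : ∀ i, (A * Aᴴ) i i = (r i : ℂ) := fun i =>
    (Complex.conj_eq_iff_re.1 (hAp.isHermitian.apply i i)).symm
  have hr0 : ∀ i, 0 ≤ r i := by
    intro i
    have h1 := hAp.diag_nonneg (i := i)
    rw [hrr i] at h1
    exact_mod_cast h1
  have hm0 : ∀ i, 0 ≤ m i := by
    intro i
    have h1 := hBp.diag_nonneg (i := i)
    rw [hB, diagonal_apply_eq] at h1
    exact_mod_cast h1
  set q : Fin 2 → ℝ := fun i => (∑ k, ‖(B * Cᴴ) i k‖ ^ 2) / m i with hqd
  have hq0 : ∀ i, 0 ≤ q i := fun i =>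
    div_nonneg (Finset.sum_nonneg fun k _ => sq_nonneg _) (hm0 i)
  -- rows of B
  have hBrow : ∀ i, m i = ∑ k, ‖B i k‖ ^ 2 := by
    intro i
    have h1 := congrFun (congrFun hB i) i
    rw [diagonal_apply_eq, mul_apply] at h1
    have h2 : ∑ j, B i j * Bᴴ j i = ((∑ k, ‖B i k‖ ^ 2 : ℝ) : ℂ) := by
      rw [Complex.ofReal_sum]
      refine Finset.sum_congr rfl fun k _ => ?_
      rw [conjTranspose_apply, Complex.star_def, Complex.mul_conj']
      simp
    rw [h2] at h1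
    exact_mod_cast h1.symm
  have hmq : ∀ i, m i * q i = ∑ k, ‖(B * Cᴴ) i k‖ ^ 2 := by
    intro i
    simp only [hqd]
    rcases (hm0 i).eq_or_lt with h0 | h0
    · have h1 : ∀ k, B i k = 0 := by
        intro k
        have h2 := hBrow i
        rw [← h0] at h2
        have h3 := (Finset.sum_eq_zero_iff_of_nonneg (fun k _ => sq_nonneg ‖B i k‖)).1 h2.symm
          k (Finset.mem_univ k)
        simpa using h3
      have h4 : ∀ k, (B * Cᴴ) i k = 0 := by
        intro k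
        rw [mul_apply]
        exact Finset.sum_eq_zero fun j _ => by rw [h1 j, zero_mul]
      rw [← h0, zero_mul]
      symm
      exact Finset.sum_eq_zero fun k _ => by rw [h4 k]; simp
    · field_simp
  -- sum of q at most gamma
  have hqsum : q 0 + q 1 ≤ γ := q_sum B C m hB γ hγ
  have hαr : r 0 + r 1 = α := by
    have h1 : (A * Aᴴ).trace = ((r 0 + r 1 : ℝ) : ℂ) := by
      rw [trace_fin_two, hrr 0, hrr 1]; push_cast; rfl
    rw [hα] at h1
    exact_mod_cast h1.symm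
  have hβm : m 0 + m 1 = β := by
    have h1 : (B * Bᴴ).trace = ((m 0 + m 1 : ℝ) : ℂ) := by
      rw [trace_fin_two, hB, diagonal_apply_eq, diagonal_apply_eq]; push_cast; rfl
    rw [hβ] at h1
    exact_mod_cast h1.symm
  have hγ0 : 0 ≤ γ := by linarith [hq0 0, hq0 1]
  set eA := hAp.isHermitian.eigenvalues with heA
  set eC := hCp.isHermitian.eigenvalues with heC
  set eO := hOp.isHermitian.eigenvalues with heO
  have heA0 : ∀ i, 0 ≤ eA i := hAp.eigenvalues_nonneg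
  have heC0 : ∀ i, 0 ≤ eC i := hCp.eigenvalues_nonneg
  have heO0 : ∀ i, 0 ≤ eO i := hOp.eigenvalues_nonneg
  have htA : ∑ i, eA i = α := tr_eig _ α hα
  have htC : ∑ i, eC i = γ := tr_eig _ γ hγ
  have htO : ∑ i, eO i = α + β + γ := by
    apply tr_eig
    rw [hOm, trace_block, hα, hβ, hγ]
    push_cast
    rfl
  have key := went (Finset.univ : Finset ((Fin 2 ⊕ Fin 2) ⊕ (Fin 2 ⊕ Fin 2)))
    (Finset.univ : Finset ((Fin 2 ⊕ Fin 2) ⊕ (Fin 2 ⊕ Fin 2)))
    (fun _ => 1) (Sum.elim eO (Sum.elim r q)) (fun _ => 1)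
    (Sum.elim (Sum.elim eA eC) (Sum.elim (fun i => mup (r i) (q i) (m i))
      (fun i => mum (r i) (q i) (m i))))
    (by
      rintro (i | i | i) _
      · exact heO0 i
      · exact hr0 i
      · exact hq0 i)
    (by
      rintro ((i | i) | i | i) _
      · exact heA0 i
      · exact heC0 i
      · exact mup_nonneg (hr0 i) (hq0 i) (hm0 i)
      · exact mum_nonneg (hr0 i) (hq0 i) (hm0 i))
    rfl
    (by
      simp only [one_mul, Fintype.sum_sum_type, Sum.elim_inl, Sum.elim_inr]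
      rw [htA, htC]
      rw [Fintype.sum_sum_type] at htO
      rw [htO, Fin.sum_univ_two, Fin.sum_univ_two, Fin.sum_univ_two, Fin.sum_univ_two]
      have h1 := mu_add (r 0) (q 0) (m 0)
      have h2 := mu_add (r 1) (q 1) (m 1)
      linarith)
    (by
      intro t ht
      have h1 := det_ineq A B C m q r t ht hB hq0 hrr hmq
      rw [← hOm, det_re hAp.isHermitian, det_re hCp.isHermitian, det_re hOp.isHermitian,
        ← heA, ← heC, ← heO] at h1
      simp only [one_mul]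
      rw [Fintype.sum_sum_type, Fintype.sum_sum_type]
      simp only [Sum.elim_inl, Sum.elim_inr]
      rw [Fintype.sum_sum_type, Fintype.sum_sum_type]
      simp only [Sum.elim_inl, Sum.elim_inr]
      rw [Fintype.sum_sum_type (f := fun x => log (Sum.elim r q x + t))]
      simp only [Sum.elim_inl, Sum.elim_inr]
      have pA : ∀ i, 0 < eA i + t := fun i => by have := heA0 i; linarith
      have pC : ∀ i, 0 < eC i + t := fun i => by have := heC0 i; linarith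
      have pO : ∀ i, 0 < eO i + t := fun i => by have := heO0 i; linarith
      have pr : ∀ i, 0 < r i + t := fun i => by have := hr0 i; linarith
      have pq : ∀ i, 0 < q i + t := fun i => by have := hq0 i; linarith
      have pm : ∀ i, 0 < (r i + t) * (q i + t) + t * m i := fun i => by
        have h2 := mul_pos (pr i) (pq i)
        have h3 := mul_nonneg ht.le (hm0 i)
        linarith
      have PA : 0 < ∏ i, (eA i + t) := Finset.prod_pos fun i _ => pA i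
      have PC : 0 < ∏ i, (eC i + t) := Finset.prod_pos fun i _ => pC i
      have PO : 0 < ∏ i, (eO i + t) := Finset.prod_pos fun i _ => pO i
      have h4 := Real.log_le_log
        (mul_pos (mul_pos PA PC) (mul_pos (pm 0) (pm 1))) h1
      rw [Real.log_mul (mul_pos PA PC).ne' (mul_pos (pm 0) (pm 1)).ne',
        Real.log_mul PA.ne' PC.ne', Real.log_mul (pm 0).ne' (pm 1).ne',
        Real.log_mul PO.ne' (mul_pos (mul_pos (pr 0) (pq 0)) (mul_pos (pr 1) (pq 1))).ne',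
        Real.log_mul (mul_pos (pr 0) (pq 0)).ne' (mul_pos (pr 1) (pq 1)).ne',
        Real.log_mul (pr 0).ne' (pq 0).ne', Real.log_mul (pr 1).ne' (pq 1).ne',
        Real.log_prod (fun i _ => (pA i).ne'), Real.log_prod (fun i _ => (pC i).ne'),
        Real.log_prod (fun i _ => (pO i).ne'),
        ← mu_log (hr0 0) (hq0 0) (hm0 0) ht, ← mu_log (hr0 1) (hq0 1) (hm0 1) ht] at h4
      rw [Fin.sum_univ_two (f := fun i => log (mup (r i) (q i) (m i) + t)),
        Fin.sum_univ_two (f := fun i => log (mum (r i) (q i) (m i) + t)),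
        Fin.sum_univ_two (f := fun i => log (r i + t)),
        Fin.sum_univ_two (f := fun i => log (q i + t))]
      linarith)
  simp only [one_mul, Fintype.sum_sum_type, Sum.elim_inl, Sum.elim_inr, Fin.sum_univ_two] at key
  rw [Ent_eq hAp.isHermitian, Ent_eq hCp.isHermitian, Ent_eq hOp.isHermitian, hB, Ent_diagonal,
    ← heA, ← heC, ← heO]
  have hs := GG_superadd (hr0 0) (hq0 0) (hm0 0) (hr0 1) (hq0 1) (hm0 1)
  have hmn := GG_mono (r := r 0 + r 1) (q := q 0 + q 1) (r' := α) (q' := γ) (u := m 0 + m 1)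
    (add_nonneg (hr0 0) (hr0 1)) (add_nonneg (hq0 0) (hq0 1)) (add_nonneg (hm0 0) (hm0 1))
    hαr.le hqsum
  rw [hβm] at hmn hs
  rw [Fintype.sum_sum_type, Fin.sum_univ_two, Fin.sum_univ_two, Fin.sum_univ_two,
    Fin.sum_univ_two]
  have hg0 : GG (r 0) (q 0) (m 0) = negMulLog (r 0) + negMulLog (q 0) + negMulLog (m 0)
    - negMulLog (mup (r 0) (q 0) (m 0)) - negMulLog (mum (r 0) (q 0) (m 0)) := rfl
  have hg1 : GG (r 1) (q 1) (m 1) = negMulLog (r 1) + negMulLog (q 1) + negMulLog (m 1)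
    - negMulLog (mup (r 1) (q 1) (m 1)) - negMulLog (mum (r 1) (q 1) (m 1)) := rfl
  linarith

/-- (NC), the entropic norm compression inequality for block triangular matrices. -/
theorem nc {ν : Type*} [Fintype ν] (A B C : Matrix (Fin 2) ν ℂ) (α β γ : ℝ)
    (hα : (A * Aᴴ).trace = (α : ℂ)) (hβ : (B * Bᴴ).trace = (β : ℂ))
    (hγ : (C * Cᴴ).trace = (γ : ℂ)) :
    Ent (A * Aᴴ) - negMulLog α + (Ent (B * Bᴴ) - negMulLog β) + (Ent (C * Cᴴ) - negMulLog γ)
        + (negMulLog (mup α γ β) + negMulLog (mum α γ β))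
      ≤ Ent (fromBlocks (A * Aᴴ + B * Bᴴ) (B * Cᴴ) (C * Bᴴ) (C * Cᴴ)) := by
  have hBh : (B * Bᴴ).IsHermitian := isHermitian_mul_conjTranspose_self B
  set U : Matrix (Fin 2) (Fin 2) ℂ := (hBh.eigenvectorUnitary : Matrix (Fin 2) (Fin 2) ℂ)ᴴ with hU
  have hUU : Uᴴ * U = 1 := by
    rw [hU, conjTranspose_conjTranspose]
    exact Unitary.mul_star_self_of_mem hBh.eigenvectorUnitary.2
  have hUU' : U * Uᴴ = 1 := by
    rw [hU, conjTranspose_conjTranspose]
    exact Unitary.star_mul_self_of_mem hBh.eigenvectorUnitary.2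
  have hdiag : U * (B * Bᴴ) * Uᴴ = diagonal (fun i => (hBh.eigenvalues i : ℂ)) := by
    have h1 := hBh.spectral_theorem
    rw [Unitary.conjStarAlgAut_apply] at h1
    have h2 : (star (hBh.eigenvectorUnitary : Matrix (Fin 2) (Fin 2) ℂ)) = U := rfl
    have h3 : (hBh.eigenvectorUnitary : Matrix (Fin 2) (Fin 2) ℂ) = Uᴴ := by
      rw [hU, conjTranspose_conjTranspose]
    conv_lhs => rw [h1]
    rw [h2, h3]
    calc U * (Uᴴ * diagonal (RCLike.ofReal ∘ hBh.eigenvalues) * U) * Uᴴ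
        = (U * Uᴴ) * diagonal (RCLike.ofReal ∘ hBh.eigenvalues) * (U * Uᴴ) := by
          simp only [Matrix.mul_assoc]
      _ = _ := by rw [hUU', Matrix.one_mul, Matrix.mul_one]; rfl
  have hconj : ∀ X Y : Matrix (Fin 2) ν ℂ, (U * X) * (U * Y)ᴴ = U * (X * Yᴴ) * Uᴴ := by
    intro X Y
    rw [conjTranspose_mul]
    simp only [Matrix.mul_assoc]
  have htr : ∀ X : Matrix (Fin 2) ν ℂ, ((U * X) * (U * X)ᴴ).trace = (X * Xᴴ).trace := by
    intro X
    rw [hconj, trace_mul_comm, ← Matrix.mul_assoc, hUU, Matrix.one_mul]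
  have hEnt : ∀ X : Matrix (Fin 2) ν ℂ, Ent ((U * X) * (U * X)ᴴ) = Ent (X * Xᴴ) := by
    intro X
    rw [hconj]
    exact Ent_unitary_conj hUU _
  have key := nc_diag (U * A) (U * B) (U * C) hBh.eigenvalues (by rw [hconj, hdiag]) α β γ
    (by rw [htr, hα]) (by rw [htr, hβ]) (by rw [htr, hγ])
  rw [hEnt, hEnt, hEnt] at key
  set V : Matrix (Fin 2 ⊕ Fin 2) (Fin 2 ⊕ Fin 2) ℂ := fromBlocks U 0 0 U with hV
  have hVV : Vᴴ * V = 1 := by
    rw [hV, fromBlocks_conjTranspose, fromBlocks_multiply]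
    simp [hUU]
  have hblock : fromBlocks ((U * A) * (U * A)ᴴ + (U * B) * (U * B)ᴴ) ((U * B) * (U * C)ᴴ)
      ((U * C) * (U * B)ᴴ) ((U * C) * (U * C)ᴴ)
      = V * fromBlocks (A * Aᴴ + B * Bᴴ) (B * Cᴴ) (C * Bᴴ) (C * Cᴴ) * Vᴴ := by
    rw [hV, fromBlocks_conjTranspose, fromBlocks_multiply, fromBlocks_multiply]
    simp only [hconj, Matrix.zero_mul, Matrix.mul_zero, add_zero, zero_add,
      conjTranspose_zero, Matrix.mul_add, Matrix.add_mul]
  rw [hblock, Ent_unitary_conj hVV] at key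
  unfold GG at key
  linarith

end Pool.Agent.H.MP_dd87f4_mp

namespace QA

open Pool.Agent.H.MP_dd87f4_mp in
/-- (NC) in the form used by the skeleton of helper25. -/
theorem nc {n : ℕ} (A B C : Matrix (Fin 2) (Fin n) ℂ) :
    ent (A * Aᴴ) + ent (B * Bᴴ) + ent (C * Cᴴ) - GG (rtr (A * Aᴴ)) (rtr (C * Cᴴ)) (rtr (B * Bᴴ)) ≤
      ent (Om A B C) := by
  have hre : ∀ X : Matrix (Fin 2) (Fin n) ℂ, (X * Xᴴ).trace = ((rtr (X * Xᴴ) : ℝ) : ℂ) := by
    intro X
    have h1 := (posSemidef_self_mul_conjTranspose X).trace_nonneg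
    have h2 := (Complex.le_def.1 h1).2
    apply Complex.ext
    · simp [rtr]
    · rw [← h2]; simp
  have h := Pool.Agent.H.MP_dd87f4_mp.nc A B C _ _ _ (hre A) (hre B) (hre C)
  have e1 : ∀ X : Matrix (Fin 2) (Fin n) ℂ, Ent (X * Xᴴ) = ent (X * Xᴴ) := fun X => rfl
  have e2 : Ent (fromBlocks (A * Aᴴ + B * Bᴴ) (B * Cᴴ) (C * Bᴴ) (C * Cᴴ)) = ent (Om A B C) := rfl
  rw [e1, e1, e1, e2] at h
  unfold GG ee
  have e3 : Pool.Agent.H.MP_dd87f4_mp.mup (rtr (A * Aᴴ)) (rtr (C * Cᴴ)) (rtr (B * Bᴴ))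
      = mup (rtr (A * Aᴴ) + rtr (C * Cᴴ) + rtr (B * Bᴴ)) (rtr (A * Aᴴ) * rtr (C * Cᴴ)) := rfl
  have e4 : Pool.Agent.H.MP_dd87f4_mp.mum (rtr (A * Aᴴ)) (rtr (C * Cᴴ)) (rtr (B * Bᴴ))
      = mum (rtr (A * Aᴴ) + rtr (C * Cᴴ) + rtr (B * Bᴴ)) (rtr (A * Aᴴ) * rtr (C * Cᴴ)) := rfl
  rw [e3, e4] at h
  linarith

end QA
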