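import Pool.Agent.H.MP_dd87f4_mp.Asm
import Pool.Agent.H.MP_dd87f4_mp.NC

set_option autoImplicit false

open Matrix
open scoped ComplexOrder

namespace Pool.Agent.H.MP_dd87f4_mp.Asm

theorem ncprop : NCprop := by
  intro n A B C
  have hre : ∀ X : Matrix (Fin 2) (Fin n) ℂ,
      (X * Xᴴ).trace = (((X * Xᴴ).trace.re : ℝ) : ℂ) := by
    intro X
    have h1 := isHermitian_mul_conjTranspose_self X
    apply Complex.ext
    · simp
    · have h2 : star (X * Xᴴ).trace = (X * Xᴴ).trace := by
        rw [← trace_conjTranspose, h1]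
      have h3 := congrArg Complex.im h2
      rw [Complex.star_def, Complex.conj_im] at h3
      rw [Complex.ofReal_im]
      linarith
  have h := Pool.Agent.H.MP_dd87f4_mp.nc A B C _ _ _ (hre A) (hre B) (hre C)
  linarith

end Pool.Agent.H.MP_dd87f4_mp.Asm
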