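import Mathlib

set_option autoImplicit false
open Matrix
open scoped ComplexOrder

namespace QA

/-- `log M - log m ≤ (M - m) / √(m M)` : with `s = √(M / m) ≥ 1`, `2 log s ≤ s - 1 / s`
(`Real.self_le_sinh_iff` at `x = log s`). -/
theorem log_mean {m M : ℝ} (hm : 0 < m) (h : m ≤ M) : (Real.log M - Real.log m) * √(m * M) ≤ M - m := by
  have hM : 0 < M := lt_of_lt_of_le hm h
  obtain ⟨a, ha, rfl⟩ : ∃ a : ℝ, 0 < a ∧ a ^ 2 = m := ⟨√m, Real.sqrt_pos.mpr hm, Real.sq_sqrt hm.le⟩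
  obtain ⟨b, hb, rfl⟩ : ∃ b : ℝ, 0 < b ∧ b ^ 2 = M := ⟨√M, Real.sqrt_pos.mpr hM, Real.sq_sqrt hM.le⟩
  have hab : a ≤ b := (pow_le_pow_iff_left₀ ha.le hb.le two_ne_zero).mp h
  have hs : √(a ^ 2 * b ^ 2) = a * b := by
    rw [← mul_pow, Real.sqrt_sq (mul_pos ha hb).le]
  rw [hs, Real.log_pow, Real.log_pow]
  set x := Real.log (b / a) with hx
  have hba : 1 ≤ b / a := (one_le_div ha).mpr hab
  have hx0 : 0 ≤ x := Real.log_nonneg hba
  have h1 : x ≤ Real.sinh x := Real.self_le_sinh_iff.mpr hx0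
  have hpos : 0 < b / a := lt_of_lt_of_le one_pos hba
  have h2 : Real.sinh x = (b / a - a / b) / 2 := by
    rw [hx, Real.sinh_eq, Real.exp_neg, Real.exp_log hpos, inv_div]
  have h3 : x = Real.log b - Real.log a := Real.log_div hb.ne' ha.ne'
  rw [h2] at h1
  have h4 : (b / a - a / b) * (a * b) = b ^ 2 - a ^ 2 := by
    field_simp
  have h5 : 2 * x * (a * b) ≤ (b / a - a / b) * (a * b) := by
    apply mul_le_mul_of_nonneg_right _ (mul_pos ha hb).le
    linarith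
  rw [h4, h3] at h5
  push_cast
  linarith

end QA
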