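import Pool.Agent.H.MP_dd87f4_mp.CalcLine

set_option autoImplicit false
open Matrix
open scoped ComplexOrder

namespace QA

private theorem calc2_mup_smul {c p d : ℝ} (hc : 0 ≤ c) : mup (c * p) (c ^ 2 * d) = c * mup p d := by
  unfold mup
  have : (c * p) ^ 2 - 4 * (c ^ 2 * d) = c ^ 2 * (p ^ 2 - 4 * d) := by ring
  rw [this, Real.sqrt_mul (sq_nonneg c), Real.sqrt_sq hc]
  ring

private theorem calc2_mum_smul {c p d : ℝ} (hc : 0 ≤ c) : mum (c * p) (c ^ 2 * d) = c * mum p d := by
  unfold mum
  have : (c * p) ^ 2 - 4 * (c ^ 2 * d) = c ^ 2 * (p ^ 2 - 4 * d) := by ring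
  rw [this, Real.sqrt_mul (sq_nonneg c), Real.sqrt_sq hc]
  ring

private theorem calc2_sum (p d : ℝ) : mup p d + mum p d = p := by
  unfold mup mum; ring

private theorem calc2_ee_smul {c p d : ℝ} (hc : 0 ≤ c) :
    ee (c * p) (c ^ 2 * d) = c * ee p d + p * Real.negMulLog c := by
  unfold ee
  rw [calc2_mup_smul hc, calc2_mum_smul hc, Real.negMulLog_mul, Real.negMulLog_mul]
  have := calc2_sum p d
  linear_combination (Real.negMulLog c) * this

/-- homogeneity -/
theorem GG_smul {c r q u : ℝ} (hc : 0 < c) (hr : 0 ≤ r) (hq : 0 ≤ q) (hu : 0 ≤ u) :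
    GG (c * r) (c * q) (c * u) = c * GG r q u := by
  unfold GG
  have h1 : c * r + c * q + c * u = c * (r + q + u) := by ring
  have h2 : c * r * (c * q) = c ^ 2 * (r * q) := by ring
  rw [h1, h2, calc2_ee_smul hc.le, Real.negMulLog_mul, Real.negMulLog_mul, Real.negMulLog_mul]
  ring

theorem GG_zero {q : ℝ} (hq : 0 ≤ q) : GG 0 q 0 = 0 := by
  unfold GG ee mup mum
  have h : (0 + q + 0) ^ 2 - 4 * (0 * q) = q ^ 2 := by ring
  rw [h, Real.sqrt_sq hq]
  simp [Real.negMulLog_zero]

private theorem calc2_pos {r q u r' q' u' : ℝ} (hr : 0 < r) (hq : 0 < q) (hu : 0 < u)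
    (hr' : 0 < r') (hq' : 0 < q') (hu' : 0 < u') :
    GG r q u + GG r' q' u' ≤ GG (r + r') (q + q') (u + u') := by
  have hU : 0 < u + u' := by positivity
  have hl := GG_line (x0 := r / u) (y0 := q / u) (x1 := r' / u') (y1 := q' / u') (by positivity) (by positivity)
    (by positivity) (by positivity)
  have h := hl.2 (show (0 : ℝ) ∈ Set.Icc (0 : ℝ) 1 by constructor <;> norm_num)
    (show (1 : ℝ) ∈ Set.Icc (0 : ℝ) 1 by constructor <;> norm_num)
    (show 0 ≤ u / (u + u') by positivity) (show 0 ≤ u' / (u + u') by positivity)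
    (show u / (u + u') + u' / (u + u') = 1 by field_simp)
  simp only [smul_eq_mul, mul_zero, mul_one, zero_add, zero_mul, add_zero, one_mul] at h
  have e0 : GG r q u = u * GG (r / u) (q / u) 1 := by
    rw [← GG_smul hu (by positivity) (by positivity) zero_le_one]
    congr 1 <;> field_simp
  have e1 : GG r' q' u' = u' * GG (r' / u') (q' / u') 1 := by
    rw [← GG_smul hu' (by positivity) (by positivity) zero_le_one]
    congr 1 <;> field_simp
  have e2 : GG (r + r') (q + q') (u + u') = (u + u') * GG ((r + r') / (u + u')) ((q + q') / (u + u')) 1 := by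
    rw [← GG_smul hU (by positivity) (by positivity) zero_le_one]
    congr 1 <;> field_simp
  have a1 : r / u + u' / (u + u') * (r' / u' - r / u) = (r + r') / (u + u') := by
    field_simp
    ring
  have a2 : q / u + u' / (u + u') * (q' / u' - q / u) = (q + q') / (u + u') := by
    field_simp
    ring
  rw [a1, a2] at h
  have a3 : r / u + (r' / u' - r / u) = r' / u' := by ring
  have a4 : q / u + (q' / u' - q / u) = q' / u' := by ring
  rw [a3, a4] at h
  rw [e0, e1, e2]
  have h2 := mul_le_mul_of_nonneg_left h hU.le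
  have h3 : (u + u') * (u / (u + u') * GG (r / u) (q / u) 1 + u' / (u + u') * GG (r' / u') (q' / u') 1) =
      u * GG (r / u) (q / u) 1 + u' * GG (r' / u') (q' / u') 1 := by
    field_simp
  linarith

private theorem calc2_cont : Continuous (fun x : ℝ × ℝ × ℝ => GG x.1 x.2.1 x.2.2) := by
  unfold GG ee mup mum
  have := Real.continuous_negMulLog
  fun_prop

/-- From `GG_line` (at `u = 1`), `GG_smul` (perspective), then continuity of `GG` to reach the boundary. -/
theorem GG_super {r q u r' q' u' : ℝ} (hr : 0 ≤ r) (hq : 0 ≤ q) (hu : 0 ≤ u)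
    (hr' : 0 ≤ r') (hq' : 0 ≤ q') (hu' : 0 ≤ u') :
    GG r q u + GG r' q' u' ≤ GG (r + r') (q + q') (u + u') := by
  have hc := calc2_cont
  let L : ℝ → ℝ := fun e => GG (r + e) (q + e) (u + e) + GG (r' + e) (q' + e) (u' + e)
  let R : ℝ → ℝ := fun e => GG (r + e + (r' + e)) (q + e + (q' + e)) (u + e + (u' + e))
  have hL : Continuous L := by
    have h1 : Continuous (fun e : ℝ => ((r + e, q + e, u + e) : ℝ × ℝ × ℝ)) := by fun_prop
    have h2 : Continuous (fun e : ℝ => ((r' + e, q' + e, u' + e) : ℝ × ℝ × ℝ)) := by fun_prop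
    exact (hc.comp h1).add (hc.comp h2)
  have hR : Continuous R := by
    have h1 : Continuous (fun e : ℝ => ((r + e + (r' + e), q + e + (q' + e), u + e + (u' + e)) : ℝ × ℝ × ℝ)) := by
      fun_prop
    exact hc.comp h1
  have tL : Filter.Tendsto L (nhdsWithin 0 (Set.Ioi 0)) (nhds (L 0)) := (hL.tendsto 0).mono_left nhdsWithin_le_nhds
  have tR : Filter.Tendsto R (nhdsWithin 0 (Set.Ioi 0)) (nhds (R 0)) := (hR.tendsto 0).mono_left nhdsWithin_le_nhds
  have hle : L 0 ≤ R 0 := by
    refine le_of_tendsto_of_tendsto tL tR ?_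
    filter_upwards [self_mem_nhdsWithin] with e he
    have he' : 0 < e := he
    exact calc2_pos (by linarith) (by linarith) (by linarith) (by linarith) (by linarith) (by linarith)
  simpa [L, R] using hle

end QA
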