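import Mathlib

/-!
The calculus lemma with constant `3/2`: comparison of the entropy of a four-point distribution with
the entropy of a product distribution, in terms of elementary symmetric polynomials.
-/

set_option autoImplicit false

open Real Filter Topology

namespace Pool.Agent.H.MP_dd87f4_mp.Calc32

/-- A quadratic lower bound for the logarithm. -/
theorem log_lower {u : ℝ} (hu : -(5 / 8) ≤ u) : u - 3 / 2 * u ^ 2 ≤ log (1 + u) := by
  rcases le_total 0 u with h | h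
  · have h1 := Real.le_log_one_add_of_nonneg h
    refine le_trans ?_ h1
    rw [le_div_iff₀ (by linarith)]
    nlinarith [sq_nonneg u, mul_nonneg h (sq_nonneg u)]
  · obtain ⟨w, rfl⟩ : ∃ w, u = -w := ⟨-u, by ring⟩
    have hw0 : 0 ≤ w := by linarith
    have hw1 : w ≤ 5 / 8 := by linarith
    have hs : 0 < 1 + w / 2 := by linarith
    have hρ : 0 < 1 - 3 / 4 * w ^ 2 - w ^ 3 / 4 := by
      nlinarith [mul_nonneg hw0 hw0, mul_nonneg (mul_nonneg hw0 hw0) hw0,
        mul_nonneg (mul_nonneg hw0 hw0) (sub_nonneg.2 hw1), mul_nonneg hw0 (sub_nonneg.2 hw1)]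
    have h1 : log (1 + -w) = log (1 - 3 / 4 * w ^ 2 - w ^ 3 / 4) - 2 * log (1 + w / 2) := by
      have h2 : (1 - 3 / 4 * w ^ 2 - w ^ 3 / 4) = (1 + -w) * (1 + w / 2) ^ 2 := by ring
      rw [h2, Real.log_mul (by linarith) (by positivity), Real.log_pow]
      push_cast
      ring
    have h3 : log (1 + w / 2) ≤ w / 2 := by
      have := Real.log_le_sub_one_of_pos hs
      linarith
    have h4 := Real.one_sub_inv_le_log_of_pos hρ
    have h5 : (1 - 3 / 4 * w ^ 2 - w ^ 3 / 4)⁻¹ ≤ 1 + 3 / 2 * w ^ 2 := by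
      rw [inv_le_comm₀ hρ (by positivity), inv_le_comm₀ (by positivity) hρ]
      rw [inv_le_iff_one_le_mul₀ hρ]
      nlinarith [mul_nonneg hw0 hw0, mul_nonneg (mul_nonneg hw0 hw0) hw0,
        mul_nonneg (mul_nonneg hw0 hw0) (sub_nonneg.2 hw1), mul_nonneg hw0 (sub_nonneg.2 hw1),
        mul_nonneg (mul_nonneg (mul_nonneg hw0 hw0) hw0) (sub_nonneg.2 hw1),
        mul_nonneg (mul_nonneg (mul_nonneg hw0 hw0) (mul_nonneg hw0 hw0)) (sub_nonneg.2 hw1)]
    rw [h1]
    nlinarith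

/-- The tangent inequality of the logarithm. -/
theorem log_tangent {x y : ℝ} (hx : 0 < x) (hy : 0 < y) : log y ≤ log x + (y - x) / x := by
  have h1 := Real.log_le_sub_one_of_pos (div_pos hy hx)
  rw [Real.log_div hy.ne' hx.ne'] at h1
  have h2 : (y - x) / x = y / x - 1 := by
    field_simp
  rw [h2]
  linarith

/-- Concavity of the logarithm. -/
theorem log_theta {θ X : ℝ} (h0 : 0 ≤ θ) (h1 : θ ≤ 1) (hX : 0 < 1 + X) :
    θ * log (1 + X) ≤ log (1 + θ * X) := by
  have h2 := strictConcaveOn_log_Ioi.concaveOn.2 (Set.mem_Ioi.2 hX)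
    (Set.mem_Ioi.2 (zero_lt_one' ℝ)) h0 (sub_nonneg.2 h1) (by ring)
  simp only [smul_eq_mul, Real.log_one, mul_zero, add_zero] at h2
  refine h2.trans (le_of_eq ?_)
  congr 1
  ring

/-- `h(z)`, `z = a + 1/a`. -/
noncomputable def hz (L M z : ℝ) : ℝ := (L + M) / ((z + L) * (z + M))

/-- The cubic controlling the sign of the derivative. -/
noncomputable def CC (L M z : ℝ) : ℝ :=
  3 / 2 * (z - 3) * ((z + L) * (z + M)) - (L + M) * z * (3 / 2 * z - 13 / 4)

theorem CC_eq (L M z : ℝ) : CC L M z = 3 / 2 * z ^ 2 * (z - 3)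
    + (3 / 2 * (L * M) - 5 / 4 * (L + M)) * z - 9 / 2 * (L * M) := by
  unfold CC
  ring

theorem hz_pos {L M z : ℝ} (hL : 2 ≤ L) (hM : 2 ≤ M) (hz0 : 0 ≤ z) : 0 < hz L M z := by
  unfold hz
  apply div_pos (by linarith)
  apply mul_pos <;> linarith

/-- `h ≤ 1 / (z + 2)` for `z ≥ 2`. -/
theorem hz_le {L M z : ℝ} (hL : 2 ≤ L) (hM : 2 ≤ M) (h2 : 2 ≤ z) : hz L M z ≤ 1 / (z + 2) := by
  unfold hz
  rw [div_le_div_iff₀ (mul_pos (by linarith) (by linarith)) (by linarith)]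
  nlinarith [mul_nonneg (sub_nonneg.2 hL) (sub_nonneg.2 hM),
    mul_nonneg (sub_nonneg.2 h2) (sub_nonneg.2 h2)]

/-- Existence of the crossing point. -/
theorem exists_z1 {L M : ℝ} (hL : 2 ≤ L) (hM : 2 ≤ M) :
    ∃ z1 : ℝ, 2 ≤ z1 ∧ z1 ≤ 36 / 7 ∧ (∀ z, 0 ≤ z → z ≤ z1 → CC L M z ≤ 0) ∧
      (∀ z, z1 ≤ z → 0 ≤ CC L M z) := by
  have hQ : 0 ≤ (L - 2) * (M - 2) := mul_nonneg (by linarith) (by linarith)
  have hLM : L + M ≤ L * M := by nlinarith
  have hcont : Continuous (CC L M) := by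
    unfold CC
    fun_prop
  have h3 : CC L M 3 ≤ 0 := by
    rw [CC_eq]
    nlinarith
  have h36 : 0 ≤ CC L M (36 / 7) := by
    unfold CC
    nlinarith
  obtain ⟨z1, hz1, hz2⟩ := intermediate_value_Icc (show (3 : ℝ) ≤ 36 / 7 by norm_num)
    hcont.continuousOn ⟨h3, h36⟩
  have hmono : ∀ u v : ℝ, 3 ≤ u → u ≤ v → CC L M u ≤ CC L M v := by
    intro u v hu huv
    rw [CC_eq, CC_eq]
    have h4 : 0 ≤ (3 / 2 * (L * M) - 5 / 4 * (L + M)) * (v - u) :=
      mul_nonneg (by nlinarith) (by linarith)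
    have h5 : u ^ 2 * (u - 3) ≤ v ^ 2 * (v - 3) := by
      apply mul_le_mul _ (by linarith) (by linarith) (by positivity)
      nlinarith
    nlinarith
  refine ⟨z1, by linarith [hz1.1], hz1.2, ?_, ?_⟩
  · intro z hz0 hzz
    rcases le_total z 3 with h | h
    · rw [CC_eq]
      have h4 : 0 ≤ (3 / 2 * (L * M) - 5 / 4 * (L + M)) * (3 - z) :=
        mul_nonneg (by nlinarith) (by linarith)
      have h5 : z ^ 2 * (z - 3) ≤ 0 := mul_nonpos_of_nonneg_of_nonpos (by positivity) (by linarith)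
      nlinarith
    · rw [← hz2]
      exact hmono z z1 h hzz
  · intro z hzz
    rw [← hz2]
    exact hmono z1 z hz1.1 hzz

/-- The monotonicity of `h / h0`. -/
theorem ratio_mono {L M z w : ℝ} (hL : 2 ≤ L) (hM : 2 ≤ M) (hz0 : 0 ≤ z) (hzw : z ≤ w) :
    hz L M z * (z + 2) ^ 2 ≤ hz L M w * (w + 2) ^ 2 := by
  unfold hz
  have h1 : (z + 2) / (z + L) ≤ (w + 2) / (w + L) := by
    rw [div_le_div_iff₀ (by linarith) (by linarith)]
    nlinarith
  have h2 : (z + 2) / (z + M) ≤ (w + 2) / (w + M) := by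
    rw [div_le_div_iff₀ (by linarith) (by linarith)]
    nlinarith
  have e : ∀ t : ℝ, 0 ≤ t → (L + M) / ((t + L) * (t + M)) * (t + 2) ^ 2
      = (L + M) * ((t + 2) / (t + L) * ((t + 2) / (t + M))) := by
    intro t ht
    have h3 : t + L ≠ 0 := by linarith
    have h4 : t + M ≠ 0 := by linarith
    field_simp
  rw [e z hz0, e w (hz0.trans hzw)]
  apply mul_le_mul_of_nonneg_left _ (by linarith)
  apply mul_le_mul h1 h2
  · apply div_nonneg <;> linarith
  · apply div_nonneg <;> linarith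

/-- The comparison with the reference function. -/
theorem P_compare {L M a y : ℝ} (hL : 2 ≤ L) (hM : 2 ≤ M) (ha : 1 ≤ a)
    (hy1 : 0 < 1 + (2 / 3 - 1 / a) * y) (hy2 : 0 < 1 + (2 / 3 - a) * y)
    (hsign : (y - hz L M (a + 1 / a)) * CC L M (a + 1 / a) ≤ 0) :
    log (1 + (2 / 3 - 1 / a) * y) + 1 / a ^ 2 * log (1 + (2 / 3 - a) * y) ≤
      log (1 + (2 / 3 - 1 / a) * hz L M (a + 1 / a))
        + 1 / a ^ 2 * log (1 + (2 / 3 - a) * hz L M (a + 1 / a)) := by
  have ha0 : 0 < a := by linarith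
  have hz2 : 2 ≤ a + 1 / a := by
    have h1 : a + 1 / a - 2 = (a - 1) ^ 2 / a := by field_simp; ring
    have h2 : 0 ≤ (a - 1) ^ 2 / a := by positivity
    linarith
  set z := a + 1 / a with hz
  set h := Calc32.hz L M z with hh
  have hpos : 0 < h := hz_pos hL hM (by linarith)
  have hle : h ≤ 1 / (z + 2) := hz_le hL hM hz2
  have hle2 : h * (a + 1) ^ 2 ≤ a := by
    have h1 : 1 / (z + 2) = a / (a + 1) ^ 2 := by
      rw [hz]
      field_simp
      ring
    rw [h1, le_div_iff₀ (by positivity)] at hle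
    exact hle
  have hx1 : 0 < 1 + (2 / 3 - 1 / a) * h := by
    have h1 : 1 / a ≤ 1 := by
      rw [div_le_one ha0]
      exact ha
    have h2 : h ≤ 1 / 4 := by
      refine hle.trans ?_
      apply one_div_le_one_div_of_le (by norm_num)
      linarith
    have h3 : (1 / a - 2 / 3) * h ≤ 1 / 3 * h := mul_le_mul_of_nonneg_right (by linarith) hpos.le
    nlinarith
  have hx2 : 0 < 1 + (2 / 3 - a) * h := by nlinarith
  have t1 := log_tangent hx1 hy1
  have t2 := log_tangent hx2 hy2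
  have hA : 0 < (z + L) * (z + M) := mul_pos (by linarith) (by linarith)
  have key : (1 + (2 / 3 - 1 / a) * y - (1 + (2 / 3 - 1 / a) * h)) / (1 + (2 / 3 - 1 / a) * h)
      + 1 / a ^ 2 * ((1 + (2 / 3 - a) * y - (1 + (2 / 3 - a) * h)) / (1 + (2 / 3 - a) * h))
      = ((y - h) * CC L M z) * (4 / (9 * a) / ((z + L) * (z + M))
        / ((1 + (2 / 3 - 1 / a) * h) * (1 + (2 / 3 - a) * h))) := by
    have hCC : CC L M z / ((z + L) * (z + M)) = 3 / 2 * (z - 3) - h * z * (3 / 2 * z - 13 / 4) := by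
      rw [hh, CC, Calc32.hz]
      field_simp
    have h5 : ((y - h) * CC L M z) * (4 / (9 * a) / ((z + L) * (z + M))
        / ((1 + (2 / 3 - 1 / a) * h) * (1 + (2 / 3 - a) * h)))
        = (y - h) * (4 / (9 * a)) * (CC L M z / ((z + L) * (z + M)))
          / ((1 + (2 / 3 - 1 / a) * h) * (1 + (2 / 3 - a) * h)) := by
      field_simp
    rw [h5, hCC]
    have e3 : (2 / 3 - 1 / a) * (1 + (2 / 3 - a) * h)
        + 1 / a ^ 2 * ((2 / 3 - a) * (1 + (2 / 3 - 1 / a) * h))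
        = 4 / (9 * a) * (3 / 2 * (z - 3) - h * z * (3 / 2 * z - 13 / 4)) := by
      rw [hz]
      field_simp
      ring
    have e4 : (y - h) * (4 / (9 * a)) * (3 / 2 * (z - 3) - h * z * (3 / 2 * z - 13 / 4))
        = (y - h) * ((2 / 3 - 1 / a) * (1 + (2 / 3 - a) * h)
        + 1 / a ^ 2 * ((2 / 3 - a) * (1 + (2 / 3 - 1 / a) * h))) := by
      rw [e3]
      ring
    rw [e4]
    generalize 2 / 3 - 1 / a = ε at *
    generalize 2 / 3 - a = η at *
    generalize 1 / a ^ 2 = b at *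
    have e1 : (1 + ε * h) ≠ 0 := hx1.ne'
    have e2 : (1 + η * h) ≠ 0 := hx2.ne'
    rw [eq_div_iff (mul_ne_zero e1 e2)]
    have e5 : (1 + ε * y - (1 + ε * h)) / (1 + ε * h) * (1 + ε * h) = ε * (y - h) := by
      rw [div_mul_cancel₀ _ e1]
      ring
    have e6 : (1 + η * y - (1 + η * h)) / (1 + η * h) * (1 + η * h) = η * (y - h) := by
      rw [div_mul_cancel₀ _ e2]
      ring
    linear_combination (1 + η * h) * e5 + b * (1 + ε * h) * e6
  have h6 : (1 + (2 / 3 - 1 / a) * y - (1 + (2 / 3 - 1 / a) * h)) / (1 + (2 / 3 - 1 / a) * h)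
      + 1 / a ^ 2 * ((1 + (2 / 3 - a) * y - (1 + (2 / 3 - a) * h)) / (1 + (2 / 3 - a) * h)) ≤ 0 := by
    rw [key]
    apply mul_nonpos_of_nonpos_of_nonneg hsign
    positivity
  have h7 : 0 ≤ 1 / a ^ 2 := by positivity
  have h8 := mul_le_mul_of_nonneg_left t2 h7
  rw [mul_add] at h8
  linarith

/-- The reference perturbation. -/
noncomputable def uu (lam a : ℝ) : ℝ := 4 * lam * (2 / 3 * a ^ 2 - a) / (a + 1) ^ 4

theorem uu_ge {lam a : ℝ} (h0 : 0 ≤ lam) (h1 : lam ≤ 25 / 14) (ha : 0 ≤ a) :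
    -(5 / 8) ≤ uu lam a := by
  unfold uu
  rw [le_div_iff₀ (by positivity)]
  rcases le_total 0 (2 / 3 * a ^ 2 - a) with h | h
  · have h2 : 0 ≤ 4 * lam * (2 / 3 * a ^ 2 - a) := by positivity
    have h3 : 0 ≤ (a + 1) ^ 4 := by positivity
    linarith
  · have h2 : 25 / 14 * (2 / 3 * a ^ 2 - a) ≤ lam * (2 / 3 * a ^ 2 - a) :=
      mul_le_mul_of_nonpos_right h1 h
    have h3 : 0 ≤ (a - 1 / 4) ^ 2 * (a + 1 / 2) := by positivity
    have h4 : 0 ≤ (a - 701.25 / 2860) ^ 2 := sq_nonneg _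
    have h5 : 0 ≤ a ^ 4 := by positivity
    nlinarith

/-- The antiderivative of the lower bound in the variable `1 / (a + 1)`. -/
noncomputable def WW (lam x : ℝ) : ℝ :=
  4 * lam * (-(2 / 3) * x + 7 / 6 * x ^ 2 - 5 / 9 * x ^ 3)
    - 8 / 3 * lam ^ 2 * (-(4 / 3) * x ^ 3 + 7 * x ^ 4 - 69 / 5 * x ^ 5 + 35 / 3 * x ^ 6
      - 25 / 7 * x ^ 7)

theorem WW_deriv (lam x : ℝ) : HasDerivAt (WW lam)
    (4 * lam * (-(2 / 3) + 7 / 3 * x - 5 / 3 * x ^ 2)
    - 8 / 3 * lam ^ 2 * (-4 * x ^ 2 + 28 * x ^ 3 - 69 * x ^ 4 + 70 * x ^ 5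
      - 25 * x ^ 6)) x := by
  have h1 : HasDerivAt (fun x : ℝ => x) 1 x := hasDerivAt_id x
  have h2 := hasDerivAt_pow 2 x
  have h3 := hasDerivAt_pow 3 x
  have h4 := hasDerivAt_pow 4 x
  have h5 := hasDerivAt_pow 5 x
  have h6 := hasDerivAt_pow 6 x
  have h7 := hasDerivAt_pow 7 x
  have e1 := ((((h1.const_mul (-(2 / 3))).add (h2.const_mul (7 / 6))).sub
    (h3.const_mul (5 / 9))).const_mul (4 * lam)).sub
    ((((((h3.const_mul (-(4 / 3))).add (h4.const_mul 7)).sub (h5.const_mul (69 / 5))).add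
      (h6.const_mul (35 / 3))).sub (h7.const_mul (25 / 7))).const_mul (8 / 3 * lam ^ 2))
  refine HasDerivAt.congr_deriv (HasDerivAt.congr_of_eventuallyEq e1 ?_) ?_
  · exact Filter.Eventually.of_forall fun y => by
      simp only [WW, Pi.add_apply, Pi.sub_apply]
  · push_cast
    ring

theorem W1_deriv {lam a : ℝ} (ha : 0 < a) : HasDerivAt (fun a => WW lam (1 / (a + 1)))
    (uu lam a - 3 / 2 * uu lam a ^ 2) a := by
  have h1 : HasDerivAt (fun a : ℝ => 1 / (a + 1)) (-1 / (a + 1) ^ 2) a := by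
    have h2 : HasDerivAt (fun a : ℝ => a + 1) 1 a := (hasDerivAt_id a).add_const 1
    have h3 := h2.inv (by linarith)
    refine HasDerivAt.congr_of_eventuallyEq h3 ?_
    exact Filter.Eventually.of_forall fun y => by
      simp only [one_div, Pi.inv_apply]
  have h2 := (WW_deriv lam (1 / (a + 1))).comp a h1
  refine HasDerivAt.congr_deriv h2 ?_
  unfold uu
  have h4 : a + 1 ≠ 0 := by linarith
  field_simp
  ring

theorem W2_deriv {lam a : ℝ} (ha : 0 < a) : HasDerivAt (fun a => WW lam (a / (a + 1)))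
    (-(1 / a ^ 2 * (uu lam (1 / a) - 3 / 2 * uu lam (1 / a) ^ 2))) a := by
  have h1 : HasDerivAt (fun a : ℝ => a / (a + 1)) (1 / (a + 1) ^ 2) a := by
    have h2 : HasDerivAt (fun a : ℝ => a + 1) 1 a := (hasDerivAt_id a).add_const 1
    have h3 := (hasDerivAt_id a).div h2 (by linarith)
    refine HasDerivAt.congr_deriv h3 ?_
    simp only [id]
    congr 1
    ring
  have h2 := (WW_deriv lam (a / (a + 1))).comp a h1
  refine HasDerivAt.congr_deriv h2 ?_
  unfold uu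
  have h4 : a + 1 ≠ 0 := by linarith
  have h5 : 1 / a + 1 ≠ 0 := by positivity
  have h6 : 1 / a + 1 = (a + 1) / a := by
    field_simp
    ring
  rw [h6]
  field_simp
  ring

/-- The polynomial of the product distribution. -/
noncomputable def Dp (r L M t : ℝ) : ℝ :=
  (t ^ 2 + r * L * t + r ^ 2) * (t ^ 2 + r * M * t + r ^ 2)

theorem logGD {r L M e2 e3 e4 : ℝ} (hr : 0 < r) (hL : 2 ≤ L) (hM : 2 ≤ M)
    (hrLM : r * (L + M) = 1) (h2 : 2 * r ^ 2 + r ^ 2 * (L * M) ≤ e2) (h4 : r ^ 4 ≤ e4)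
    {θ : ℝ} (hθ0 : 0 ≤ θ) (hθ1 : θ ≤ 1) (hθ2 : 2 / 3 * r * θ ≤ e2 - (2 * r ^ 2 + r ^ 2 * (L * M)))
    (hθ3 : -(r ^ 2 * θ) ≤ e3 - r ^ 2) {a : ℝ} (ha : 0 < a) :
    θ * log (1 + (2 / 3 - 1 / a) * hz L M (a + 1 / a)) ≤
      log ((r * a) ^ 4 + (r * a) ^ 3 + e2 * (r * a) ^ 2 + e3 * (r * a) + e4)
        - log (Dp r L M (r * a)) := by
  have hz2 : 2 ≤ a + 1 / a := by
    have h1 : a + 1 / a - 2 = (a - 1) ^ 2 / a := by field_simp; ring
    have h2 : 0 ≤ (a - 1) ^ 2 / a := by positivity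
    linarith
  have hzL : 0 < a + 1 / a + L := by linarith
  have hzM : 0 < a + 1 / a + M := by linarith
  have hpos : 0 < hz L M (a + 1 / a) := hz_pos hL hM (by linarith)
  have hle := hz_le hL hM hz2
  have hX : 0 < 1 + (2 / 3 - 1 / a) * hz L M (a + 1 / a) := by
    have h1 : 1 / (a + 1 / a + 2) = a / (a + 1) ^ 2 := by
      field_simp
      ring
    rw [h1] at hle
    have h5 : 1 / a * hz L M (a + 1 / a) ≤ 1 / a * (a / (a + 1) ^ 2) :=
      mul_le_mul_of_nonneg_left hle (by positivity)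
    have h6 : 1 / a * (a / (a + 1) ^ 2) = 1 / (a + 1) ^ 2 := by
      field_simp
    have h7 : 1 / (a + 1) ^ 2 < 1 := by
      rw [div_lt_one (by positivity)]
      nlinarith
    nlinarith
  have hD : Dp r L M (r * a) = r ^ 4 * a ^ 2 * ((a + 1 / a + L) * (a + 1 / a + M)) := by
    unfold Dp
    field_simp
    ring
  have hDpos : 0 < Dp r L M (r * a) := by
    rw [hD]
    positivity
  have hθX : 0 < 1 + θ * ((2 / 3 - 1 / a) * hz L M (a + 1 / a)) := by
    rcases hθ1.lt_or_eq with h1 | h1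
    · have h5 := mul_nonneg hθ0 hX.le
      linarith
    · rw [h1, one_mul]
      exact hX
  have hmul : Dp r L M (r * a) * (1 + θ * ((2 / 3 - 1 / a) * hz L M (a + 1 / a)))
      = Dp r L M (r * a) + θ * r ^ 3 * (2 / 3 * a ^ 2 - a) := by
    have h5 : r ^ 4 * (L + M) = r ^ 3 := by
      calc r ^ 4 * (L + M) = r ^ 3 * (r * (L + M)) := by ring
        _ = r ^ 3 := by rw [hrLM, mul_one]
    have h6 : Dp r L M (r * a) * hz L M (a + 1 / a) = r ^ 3 * a ^ 2 := by
      rw [hD, hz]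
      have h7 : r ^ 4 * a ^ 2 * ((a + 1 / a + L) * (a + 1 / a + M))
          * ((L + M) / ((a + 1 / a + L) * (a + 1 / a + M))) = r ^ 4 * (L + M) * a ^ 2 := by
        field_simp
      rw [h7, h5]
    calc Dp r L M (r * a) * (1 + θ * ((2 / 3 - 1 / a) * hz L M (a + 1 / a)))
        = Dp r L M (r * a)
          + θ * (2 / 3 - 1 / a) * (Dp r L M (r * a) * hz L M (a + 1 / a)) := by ring
      _ = Dp r L M (r * a) + θ * (2 / 3 - 1 / a) * (r ^ 3 * a ^ 2) := by rw [h6]
      _ = Dp r L M (r * a) + θ * r ^ 3 * (2 / 3 * a ^ 2 - a) := by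
          field_simp
  have hDexp : Dp r L M (r * a) = (r * a) ^ 4 + (r * a) ^ 3
      + (2 * r ^ 2 + r ^ 2 * (L * M)) * (r * a) ^ 2 + r ^ 2 * (r * a) + r ^ 4 := by
    have h5 : Dp r L M (r * a) = (r * a) ^ 4 + (r * (L + M)) * (r * a) ^ 3
      + (2 * r ^ 2 + r ^ 2 * (L * M)) * (r * a) ^ 2 + (r * (L + M)) * r ^ 2 * (r * a) + r ^ 4 := by
      unfold Dp
      ring
    rw [h5, hrLM]
    ring
  have hGD : Dp r L M (r * a) * (1 + θ * ((2 / 3 - 1 / a) * hz L M (a + 1 / a))) ≤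
      (r * a) ^ 4 + (r * a) ^ 3 + e2 * (r * a) ^ 2 + e3 * (r * a) + e4 := by
    rw [hmul, hDexp]
    have h5 := mul_le_mul_of_nonneg_right hθ2 (sq_nonneg (r * a))
    have h6 := mul_le_mul_of_nonneg_right hθ3 (mul_nonneg hr.le ha.le)
    nlinarith
  have h8 := Real.log_le_log (mul_pos hDpos hθX) hGD
  rw [Real.log_mul hDpos.ne' hθX.ne'] at h8
  have h9 := log_theta hθ0 hθ1 hX
  linarith

/-- The core comparison. -/
theorem core {r L M e2 e3 e4 K : ℝ} (hr : 0 < r) (hL : 2 ≤ L) (hM : 2 ≤ M)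
    (hrLM : r * (L + M) = 1) (h2 : 2 * r ^ 2 + r ^ 2 * (L * M) ≤ e2) (h4 : r ^ 4 ≤ e4)
    (h3 : r ^ 2 - 3 / 2 * r * (e2 - (2 * r ^ 2 + r ^ 2 * (L * M))) ≤ e3) (he3 : 0 ≤ e3)
    {F : ℝ → ℝ} (hFc : Continuous F)
    (hF : ∀ t, 0 < t → HasDerivAt F (log (t ^ 4 + t ^ 3 + e2 * t ^ 2 + e3 * t + e4)
      - log (Dp r L M t)) t)
    (hFK : ∀ t, 0 < t → F t ≤ K / t) : F 0 ≤ 0 := by
  obtain ⟨z1, hz1, hz1', hC1, hC2⟩ := exists_z1 hL hM
  set lam := hz L M z1 * (z1 + 2) ^ 2 / 4 with hlam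
  have hlam0 : 0 ≤ lam := by
    have := hz_pos hL hM (show 0 ≤ z1 by linarith)
    positivity
  have hlam1 : lam ≤ 25 / 14 := by
    have h5 := hz_le hL hM hz1
    rw [le_div_iff₀ (by linarith)] at h5
    nlinarith
  -- the parameter theta
  obtain ⟨θ, hθ0, hθ1, hθ2, hθ3⟩ : ∃ θ : ℝ, 0 ≤ θ ∧ θ ≤ 1 ∧
      2 / 3 * r * θ ≤ e2 - (2 * r ^ 2 + r ^ 2 * (L * M)) ∧ -(r ^ 2 * θ) ≤ e3 - r ^ 2 := by
    rcases le_total (e2 - (2 * r ^ 2 + r ^ 2 * (L * M))) (2 / 3 * r) with h | h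
    · refine ⟨(e2 - (2 * r ^ 2 + r ^ 2 * (L * M))) / (2 / 3 * r), ?_, ?_, ?_, ?_⟩
      · apply div_nonneg <;> linarith
      · rw [div_le_one (by positivity)]
        exact h
      · rw [mul_div_cancel₀ _ (by positivity : (2 / 3 * r) ≠ 0)]
      · have h5 : r ^ 2 * ((e2 - (2 * r ^ 2 + r ^ 2 * (L * M))) / (2 / 3 * r))
            = 3 / 2 * r * (e2 - (2 * r ^ 2 + r ^ 2 * (L * M))) := by
          field_simp
        rw [h5]
        linarith
    · exact ⟨1, zero_le_one, le_refl _, by linarith, by linarith⟩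
  -- the inequality of derivatives
  have hder : ∀ a : ℝ, 1 ≤ a →
      θ * ((uu lam a - 3 / 2 * uu lam a ^ 2)
        + 1 / a ^ 2 * (uu lam (1 / a) - 3 / 2 * uu lam (1 / a) ^ 2)) ≤
      (log ((r * a) ^ 4 + (r * a) ^ 3 + e2 * (r * a) ^ 2 + e3 * (r * a) + e4)
        - log (Dp r L M (r * a)))
      + 1 / a ^ 2 * (log ((r * (1 / a)) ^ 4 + (r * (1 / a)) ^ 3 + e2 * (r * (1 / a)) ^ 2
        + e3 * (r * (1 / a)) + e4) - log (Dp r L M (r * (1 / a)))) := by
    intro a ha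
    have ha0 : 0 < a := by linarith
    have hz2 : 2 ≤ a + 1 / a := by
      have h1 : a + 1 / a - 2 = (a - 1) ^ 2 / a := by field_simp; ring
      have h2 : 0 ≤ (a - 1) ^ 2 / a := by positivity
      linarith
    have g1 := logGD hr hL hM hrLM h2 h4 hθ0 hθ1 hθ2 hθ3 ha0
    have g2 := logGD hr hL hM hrLM h2 h4 hθ0 hθ1 hθ2 hθ3 (show 0 < 1 / a by positivity)
    have hsym : 1 / a + 1 / (1 / a) = a + 1 / a := by
      rw [one_div_one_div]
      ring
    rw [hsym, one_div_one_div] at g2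
    obtain ⟨y, hy⟩ : ∃ y, y = 4 * lam * a ^ 2 / (a + 1) ^ 4 := ⟨_, rfl⟩
    have hyz : y * (a + 1 / a + 2) ^ 2 = hz L M z1 * (z1 + 2) ^ 2 := by
      have h5 : (a + 1 / a + 2) ^ 2 = (a + 1) ^ 4 / a ^ 2 := by
        field_simp
        ring
      rw [h5, hy, hlam]
      field_simp
    have hy0 : 0 ≤ y := by
      rw [hy]
      positivity
    have hu1 : (2 / 3 - 1 / a) * y = uu lam a := by
      rw [hy]
      unfold uu
      field_simp
    have hu2 : (2 / 3 - a) * y = uu lam (1 / a) := by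
      rw [hy]
      unfold uu
      have h6 : 1 / a + 1 = (a + 1) / a := by
        field_simp
        ring
      rw [h6]
      field_simp
    have b1 := uu_ge hlam0 hlam1 ha0.le
    have b2 := uu_ge hlam0 hlam1 (show 0 ≤ 1 / a by positivity)
    have hsq : 0 < (a + 1 / a + 2) ^ 2 := by positivity
    have hsign : (y - hz L M (a + 1 / a)) * CC L M (a + 1 / a) ≤ 0 := by
      rcases le_total (a + 1 / a) z1 with h | h
      · have c1 := hC1 _ (by linarith) h
        have c2 := ratio_mono hL hM (show 0 ≤ a + 1 / a by linarith) h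
        rw [← hyz] at c2
        have c3 : hz L M (a + 1 / a) ≤ y := le_of_mul_le_mul_right c2 hsq
        exact mul_nonpos_of_nonneg_of_nonpos (by linarith) c1
      · have c1 := hC2 _ h
        have c2 := ratio_mono hL hM (show 0 ≤ z1 by linarith) h
        rw [← hyz] at c2
        have c3 : y ≤ hz L M (a + 1 / a) := le_of_mul_le_mul_right c2 hsq
        exact mul_nonpos_of_nonpos_of_nonneg (by linarith) c1
    have P := P_compare hL hM ha (y := y) (by rw [hu1]; linarith) (by rw [hu2]; linarith) hsign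
    rw [hu1, hu2] at P
    have l1 := log_lower b1
    have l2 := log_lower b2
    have hia : 0 ≤ 1 / a ^ 2 := by positivity
    have m1 := mul_le_mul_of_nonneg_left l2 hia
    have m2 := mul_le_mul_of_nonneg_left g2 hia
    have m3 := mul_le_mul_of_nonneg_left (add_le_add l1 m1 |>.trans P) hθ0
    refine m3.trans ?_
    rw [mul_add]
    have m4 : θ * (1 / a ^ 2 * log (1 + (2 / 3 - a) * hz L M (a + 1 / a)))
        = 1 / a ^ 2 * (θ * log (1 + (2 / 3 - a) * hz L M (a + 1 / a))) := by ring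
    rw [m4]
    exact add_le_add g1 m2
  -- the monotone function
  let Θ : ℝ → ℝ := fun a => F (r * a) - F (r * (1 / a))
    - r * θ * (WW lam (1 / (a + 1)) - WW lam (a / (a + 1)))
  have hΘ : ∀ a : ℝ, 0 < a → HasDerivAt Θ
      ((log ((r * a) ^ 4 + (r * a) ^ 3 + e2 * (r * a) ^ 2 + e3 * (r * a) + e4)
        - log (Dp r L M (r * a))) * r
      - (log ((r * (1 / a)) ^ 4 + (r * (1 / a)) ^ 3 + e2 * (r * (1 / a)) ^ 2
        + e3 * (r * (1 / a)) + e4) - log (Dp r L M (r * (1 / a)))) * (r * (-1 / a ^ 2))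
      - r * θ * ((uu lam a - 3 / 2 * uu lam a ^ 2)
        - -(1 / a ^ 2 * (uu lam (1 / a) - 3 / 2 * uu lam (1 / a) ^ 2)))) a := by
    intro a ha
    have d1 : HasDerivAt (fun a : ℝ => r * a) r a := by
      simpa using (hasDerivAt_id a).const_mul r
    have d2 : HasDerivAt (fun a : ℝ => r * (1 / a)) (r * (-1 / a ^ 2)) a := by
      have h5 := (hasDerivAt_id a).inv ha.ne'
      refine (HasDerivAt.congr_of_eventuallyEq h5 ?_).const_mul r
      exact Filter.Eventually.of_forall fun y => by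
        simp only [one_div, id, Pi.inv_apply]
    have f1 := (hF (r * a) (by positivity)).comp a d1
    have f2 := (hF (r * (1 / a)) (by positivity)).comp a d2
    exact (f1.sub f2).sub (((W1_deriv ha).sub (W2_deriv ha)).const_mul (r * θ))
  have hΘmono : MonotoneOn Θ (Set.Ici 1) := by
    apply monotoneOn_of_deriv_nonneg (convex_Ici 1)
    · intro a ha
      have ha1 : (1 : ℝ) ≤ a := ha
      exact (hΘ a (by linarith)).continuousAt.continuousWithinAt
    · intro a ha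
      rw [interior_Ici] at ha
      have ha1 : (1 : ℝ) < a := ha
      exact (hΘ a (by linarith)).differentiableAt.differentiableWithinAt
    · intro a ha
      rw [interior_Ici] at ha
      have ha1 : (1 : ℝ) < a := ha
      rw [(hΘ a (by linarith)).deriv]
      have h5 := mul_le_mul_of_nonneg_left (hder a ha1.le) hr.le
      have h6 : r * (-1 / a ^ 2) = -(r * (1 / a ^ 2)) := by ring
      rw [h6]
      nlinarith
  have hmain : ∀ a : ℝ, 1 ≤ a →
      r * θ * (WW lam (1 / (a + 1)) - WW lam (a / (a + 1))) - K / (r * a) ≤ -F (r * (1 / a)) := by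
    intro a ha
    have h5 := hΘmono (Set.mem_Ici.2 (le_refl (1 : ℝ))) (Set.mem_Ici.2 ha) ha
    have h6 : Θ 1 = 0 := by
      simp only [Θ]
      norm_num
    have h7 := hFK (r * a) (by positivity)
    rw [h6] at h5
    simp only [Θ] at h5
    linarith
  -- limits
  have t1 : Tendsto (fun a : ℝ => 1 / (a + 1)) atTop (𝓝 0) := by
    have : Tendsto (fun a : ℝ => a + 1) atTop atTop := tendsto_atTop_add_const_right _ _ tendsto_id
    exact (tendsto_inv_atTop_zero.comp this).congr fun a => by simp [one_div]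
  have t2 : Tendsto (fun a : ℝ => a / (a + 1)) atTop (𝓝 1) := by
    have h5 : Tendsto (fun a : ℝ => 1 - 1 / (a + 1)) atTop (𝓝 (1 - 0)) := tendsto_const_nhds.sub t1
    rw [sub_zero] at h5
    refine h5.congr' ?_
    filter_upwards [eventually_gt_atTop 0] with a ha
    have : a + 1 ≠ 0 := by linarith
    field_simp
    ring
  have hWc : Continuous (WW lam) := by
    unfold WW
    fun_prop
  have t3 : Tendsto (fun a : ℝ => r * (1 / a)) atTop (𝓝 0) := by
    have h5 : Tendsto (fun a : ℝ => r * a⁻¹) atTop (𝓝 (r * 0)) :=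
      tendsto_inv_atTop_zero.const_mul r
    simpa [one_div] using h5
  have t4 : Tendsto (fun a : ℝ => K / (r * a)) atTop (𝓝 0) := by
    have h5 : Tendsto (fun a : ℝ => K / r * a⁻¹) atTop (𝓝 (K / r * 0)) :=
      tendsto_inv_atTop_zero.const_mul (K / r)
    rw [mul_zero] at h5
    refine h5.congr' ?_
    filter_upwards [eventually_gt_atTop 0] with a ha
    field_simp
  have t5 : Tendsto (fun a : ℝ => r * θ * (WW lam (1 / (a + 1)) - WW lam (a / (a + 1)))
      - K / (r * a)) atTop (𝓝 (r * θ * (WW lam 0 - WW lam 1) - 0)) :=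
    ((((hWc.tendsto 0).comp t1).sub ((hWc.tendsto 1).comp t2)).const_mul (r * θ)).sub t4
  have t6 : Tendsto (fun a : ℝ => -F (r * (1 / a))) atTop (𝓝 (-F 0)) :=
    ((hFc.tendsto 0).comp t3).neg
  have h5 := le_of_tendsto_of_tendsto t5 t6 (by
    filter_upwards [eventually_ge_atTop 1] with a ha
    exact hmain a ha)
  have h6 : 0 ≤ WW lam 0 - WW lam 1 := by
    unfold WW
    nlinarith
  have h7 : 0 ≤ r * θ * (WW lam 0 - WW lam 1) := by positivity
  linarith

/-- Derivative of `(t + g) log (t + g)`. -/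
theorem hasDerivAt_shift {g t : ℝ} (h : 0 < t + g) :
    HasDerivAt (fun s : ℝ => (s + g) * log (s + g)) (log (t + g) + 1) t := by
  have h1 : HasDerivAt (fun s : ℝ => s + g) 1 t := (hasDerivAt_id t).add_const g
  have h2 := (Real.hasDerivAt_mul_log h.ne').comp t h1
  rw [mul_one] at h2
  exact h2

theorem upper_shift {g t : ℝ} (hg : 0 ≤ g) (ht : 0 < t) :
    (t + g) * log (t + g) ≤ (t + g) * log t + g + g ^ 2 / t := by
  have h1 : log (t + g) ≤ log t + (t + g - t) / t := log_tangent ht (by linarith)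
  have h2 := mul_le_mul_of_nonneg_left h1 (show 0 ≤ t + g by linarith)
  have h3 : (t + g) * (log t + (t + g - t) / t) = (t + g) * log t + g + g ^ 2 / t := by
    field_simp
    ring
  linarith

theorem lower_shift {g t : ℝ} (hg : 0 ≤ g) (ht : 0 < t) :
    (t + g) * log t + g ≤ (t + g) * log (t + g) := by
  have h1 : log t ≤ log (t + g) + (t - (t + g)) / (t + g) := log_tangent (by linarith) ht
  have h2 := mul_le_mul_of_nonneg_left h1 (show 0 ≤ t + g by linarith)
  have h4 : t + g ≠ 0 := by linarith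
  have h3 : (t + g) * (log (t + g) + (t - (t + g)) / (t + g)) = (t + g) * log (t + g) - g := by
    field_simp
    ring
  linarith

/-- The calculus lemma with constant `3 / 2`. -/
theorem calc32 {g1 g2 g3 g4 p1 q1 p2 q2 : ℝ} (hg1 : 0 ≤ g1) (hg2 : 0 ≤ g2) (hg3 : 0 ≤ g3)
    (hg4 : 0 ≤ g4) (hg : g1 + g2 + g3 + g4 = 1)
    (hp1 : 0 < p1) (hq1 : 0 < q1) (h1 : p1 + q1 = 1)
    (hp2 : 0 < p2) (hq2 : 0 < q2) (h2 : p2 + q2 = 1)
    (E2 : p1 * q1 + p2 * q2 - 2 * (p1 * q1) * (p2 * q2)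
      ≤ g1 * g2 + g1 * g3 + g1 * g4 + g2 * g3 + g2 * g4 + g3 * g4)
    (E3 : (p1 * q1) * (p2 * q2) - 3 / 2 * √((p1 * q1) * (p2 * q2)) *
      ((g1 * g2 + g1 * g3 + g1 * g4 + g2 * g3 + g2 * g4 + g3 * g4)
        - (p1 * q1 + p2 * q2 - 2 * (p1 * q1) * (p2 * q2)))
      ≤ g1 * g2 * g3 + g1 * g2 * g4 + g1 * g3 * g4 + g2 * g3 * g4)
    (E4 : ((p1 * q1) * (p2 * q2)) ^ 2 ≤ g1 * g2 * g3 * g4) :
    negMulLog p1 + negMulLog q1 + (negMulLog p2 + negMulLog q2)
      ≤ negMulLog g1 + negMulLog g2 + negMulLog g3 + negMulLog g4 := by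
  set r := √((p1 * q1) * (p2 * q2)) with hrdef
  have hrpos : 0 < r := Real.sqrt_pos.2 (by positivity)
  have hr2 : r ^ 2 = (p1 * q1) * (p2 * q2) := Real.sq_sqrt (by positivity)
  obtain ⟨L, hLdef⟩ : ∃ L : ℝ, L = (p1 * p2 + q1 * q2) / r := ⟨_, rfl⟩
  obtain ⟨M, hMdef⟩ : ∃ M : ℝ, M = (p1 * q2 + q1 * p2) / r := ⟨_, rfl⟩
  have hrL : r * L = p1 * p2 + q1 * q2 := by
    rw [hLdef]; field_simp
  have hrM : r * M = p1 * q2 + q1 * p2 := by
    rw [hMdef]; field_simp
  have hL : 2 ≤ L := by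
    rw [hLdef, le_div_iff₀ hrpos]
    have h5 : r ≤ (p1 * p2 + q1 * q2) / 2 := by
      apply Real.sqrt_le_iff.2
      constructor
      · positivity
      · nlinarith [sq_nonneg (p1 * p2 - q1 * q2)]
    linarith
  have hM : 2 ≤ M := by
    rw [hMdef, le_div_iff₀ hrpos]
    have h5 : r ≤ (p1 * q2 + q1 * p2) / 2 := by
      apply Real.sqrt_le_iff.2
      constructor
      · positivity
      · nlinarith [sq_nonneg (p1 * q2 - q1 * p2)]
    linarith
  have hrLM : r * (L + M) = 1 := by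
    have : r * (L + M) = (p1 + q1) * (p2 + q2) := by
      rw [mul_add, hrL, hrM]; ring
    rw [this, h1, h2, mul_one]
  have hE2 : 2 * r ^ 2 + r ^ 2 * (L * M) = p1 * q1 + p2 * q2 - 2 * (p1 * q1) * (p2 * q2) := by
    have h5 : r ^ 2 * (L * M) = (p1 * p2 + q1 * q2) * (p1 * q2 + q1 * p2) := by
      rw [← hrL, ← hrM]; ring
    have hq1' : q1 = 1 - p1 := by linarith
    have hq2' : q2 = 1 - p2 := by linarith
    rw [h5, hr2, hq1', hq2']
    ring
  have hr4 : r ^ 4 = ((p1 * q1) * (p2 * q2)) ^ 2 := by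
    rw [← hr2]; ring
  set e2 := g1 * g2 + g1 * g3 + g1 * g4 + g2 * g3 + g2 * g4 + g3 * g4 with he2
  set e3 := g1 * g2 * g3 + g1 * g2 * g4 + g1 * g3 * g4 + g2 * g3 * g4 with he3
  set e4 := g1 * g2 * g3 * g4 with he4
  let F : ℝ → ℝ := fun t => ((t + g1) * log (t + g1) + (t + g2) * log (t + g2)
    + (t + g3) * log (t + g3) + (t + g4) * log (t + g4))
    - ((t + p1 * p2) * log (t + p1 * p2) + (t + p1 * q2) * log (t + p1 * q2)
    + (t + q1 * p2) * log (t + q1 * p2) + (t + q1 * q2) * log (t + q1 * q2))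
  have hFc : Continuous F := by
    have hc : ∀ g : ℝ, Continuous fun t : ℝ => (t + g) * log (t + g) := fun g =>
      Real.continuous_mul_log.comp (continuous_id.add continuous_const)
    exact ((((hc g1).add (hc g2)).add (hc g3)).add (hc g4)).sub
      ((((hc (p1 * p2)).add (hc (p1 * q2))).add (hc (q1 * p2))).add (hc (q1 * q2)))
  have hF : ∀ t, 0 < t → HasDerivAt F (log (t ^ 4 + t ^ 3 + e2 * t ^ 2 + e3 * t + e4)
      - log (Dp r L M t)) t := by
    intro t ht
    have a1 : 0 < t + g1 := by linarith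
    have a2 : 0 < t + g2 := by linarith
    have a3 : 0 < t + g3 := by linarith
    have a4 : 0 < t + g4 := by linarith
    have b1 : 0 < t + p1 * p2 := by positivity
    have b2 : 0 < t + p1 * q2 := by positivity
    have b3 : 0 < t + q1 * p2 := by positivity
    have b4 : 0 < t + q1 * q2 := by positivity
    have hd := (((((hasDerivAt_shift a1).add (hasDerivAt_shift a2)).add
      (hasDerivAt_shift a3)).add (hasDerivAt_shift a4))).sub
      (((((hasDerivAt_shift b1).add (hasDerivAt_shift b2)).add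
      (hasDerivAt_shift b3)).add (hasDerivAt_shift b4)))
    have hG : t ^ 4 + t ^ 3 + e2 * t ^ 2 + e3 * t + e4
        = (t + g1) * (t + g2) * (t + g3) * (t + g4) := by
      have h5 : t ^ 3 = t ^ 3 * (g1 + g2 + g3 + g4) := by rw [hg, mul_one]
      have h6 : t ^ 4 + t ^ 3 + e2 * t ^ 2 + e3 * t + e4
        = t ^ 4 + t ^ 3 * (g1 + g2 + g3 + g4) + e2 * t ^ 2 + e3 * t + e4 := by rw [← h5]
      rw [h6, he2, he3, he4]
      ring
    have hDD : Dp r L M t = (t + p1 * p2) * (t + p1 * q2) * (t + q1 * p2) * (t + q1 * q2) := by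
      have h5 : Dp r L M t = (t ^ 2 + (r * L) * t + r ^ 2) * (t ^ 2 + (r * M) * t + r ^ 2) := rfl
      rw [h5, hrL, hrM, hr2]
      ring
    rw [hG, hDD, Real.log_mul (by positivity) a4.ne', Real.log_mul (by positivity) a3.ne',
      Real.log_mul a1.ne' a2.ne', Real.log_mul (by positivity) b4.ne',
      Real.log_mul (by positivity) b3.ne', Real.log_mul b1.ne' b2.ne']
    refine hd.congr_deriv ?_
    ring
  have hFK : ∀ t, 0 < t → F t ≤ (g1 ^ 2 + g2 ^ 2 + g3 ^ 2 + g4 ^ 2) / t := by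
    intro t ht
    have u1 := upper_shift hg1 ht
    have u2 := upper_shift hg2 ht
    have u3 := upper_shift hg3 ht
    have u4 := upper_shift hg4 ht
    have l1 := lower_shift (show 0 ≤ p1 * p2 by positivity) ht
    have l2 := lower_shift (show 0 ≤ p1 * q2 by positivity) ht
    have l3 := lower_shift (show 0 ≤ q1 * p2 by positivity) ht
    have l4 := lower_shift (show 0 ≤ q1 * q2 by positivity) ht
    have hlm : p1 * p2 + p1 * q2 + q1 * p2 + q1 * q2 = 1 := by
      have : p1 * p2 + p1 * q2 + q1 * p2 + q1 * q2 = (p1 + q1) * (p2 + q2) := by ring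
      rw [this, h1, h2, mul_one]
    have e1 : (g1 ^ 2 + g2 ^ 2 + g3 ^ 2 + g4 ^ 2) / t
        = g1 ^ 2 / t + g2 ^ 2 / t + g3 ^ 2 / t + g4 ^ 2 / t := by ring
    have e2' : (t + g1) * log t + (t + g2) * log t + (t + g3) * log t + (t + g4) * log t
        = (4 * t + 1) * log t := by rw [← hg]; ring
    have e3' : (t + p1 * p2) * log t + (t + p1 * q2) * log t + (t + q1 * p2) * log t
        + (t + q1 * q2) * log t = (4 * t + 1) * log t := by rw [← hlm]; ring
    rw [e1]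
    simp only [F]
    linarith
  have he3n : 0 ≤ e3 := by rw [he3]; positivity
  have hmain := core (K := g1 ^ 2 + g2 ^ 2 + g3 ^ 2 + g4 ^ 2) hrpos hL hM hrLM (hE2 ▸ E2)
    (hr4 ▸ E4) (by rw [hE2, hr2]; exact E3) he3n hFc hF hFK
  simp only [F, zero_add] at hmain
  rw [Real.log_mul hp1.ne' hp2.ne', Real.log_mul hp1.ne' hq2.ne', Real.log_mul hq1.ne' hp2.ne',
    Real.log_mul hq1.ne' hq2.ne'] at hmain
  have hkey : p1 * p2 * (log p1 + log p2) + p1 * q2 * (log p1 + log q2)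
      + q1 * p2 * (log q1 + log p2) + q1 * q2 * (log q1 + log q2)
      = p1 * log p1 + q1 * log q1 + (p2 * log p2 + q2 * log q2) := by
    have : p1 * p2 * (log p1 + log p2) + p1 * q2 * (log p1 + log q2)
      + q1 * p2 * (log q1 + log p2) + q1 * q2 * (log q1 + log q2)
      = (p2 + q2) * (p1 * log p1 + q1 * log q1) + (p1 + q1) * (p2 * log p2 + q2 * log q2) := by
      ring
    rw [this, h1, h2, one_mul, one_mul]
  simp only [negMulLog]
  linarith

end Pool.Agent.H.MP_dd87f4_mp.Calc32
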