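import Pool.Agent.H.MP_dd87f4_mp.Defs
import Pool.Agent.H.MP_dd87f4_mp.Calc1

set_option autoImplicit false
open Matrix
open scoped ComplexOrder

namespace QA

private theorem CalcLine_ineq {x y a b k : ℝ} (hx : 0 < x) (hy : 0 < y) (hk : 0 ≤ k)
    (hq : k * (√x * √y) ≤ 1) :
    0 ≤ (x + y + 1 - 2 * (x * y) * k) * (a ^ 2 * y + b ^ 2 * x) +
      2 * ((x + y + 1) * k - 2) * (a * b) * (x * y) := by
  obtain ⟨s, hs, hsx⟩ : ∃ s : ℝ, 0 < s ∧ s ^ 2 = x := ⟨√x, Real.sqrt_pos.2 hx, Real.sq_sqrt hx.le⟩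
  obtain ⟨t, ht, hty⟩ : ∃ t : ℝ, 0 < t ∧ t ^ 2 = y := ⟨√y, Real.sqrt_pos.2 hy, Real.sq_sqrt hy.le⟩
  rw [← hsx, ← hty, Real.sqrt_sq hs.le, Real.sqrt_sq ht.le] at hq
  rw [← hsx, ← hty]
  have h1 : 0 ≤ (s ^ 2 + t ^ 2 + 1 - 2 * (s * t)) * (1 + s * t * k) := by
    apply mul_nonneg
    · nlinarith [sq_nonneg (s - t)]
    · positivity
  have h2 : 0 ≤ (s ^ 2 + t ^ 2 + 1 + 2 * (s * t)) * (1 - s * t * k) := by
    apply mul_nonneg
    · positivity
    · nlinarith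
  have h3 : (s ^ 2 + t ^ 2 + 1 - 2 * (s ^ 2 * t ^ 2) * k) * (a ^ 2 * t ^ 2 + b ^ 2 * s ^ 2) +
      2 * ((s ^ 2 + t ^ 2 + 1) * k - 2) * (a * b) * (s ^ 2 * t ^ 2) =
      (1 / 2) * ((s ^ 2 + t ^ 2 + 1 - 2 * (s * t)) * (1 + s * t * k)) * (a * t + b * s) ^ 2 +
      (1 / 2) * ((s ^ 2 + t ^ 2 + 1 + 2 * (s * t)) * (1 - s * t * k)) * (a * t - b * s) ^ 2 := by
    ring
  rw [h3]
  positivity

private theorem CalcLine_alg {x y a b k D : ℝ} (hx : 0 < x) (hy : 0 < y) (hD : 0 < D)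
    (hD2 : D ^ 2 = (x + y + 1) ^ 2 - 4 * (x * y)) (hm : 0 < x + y + 1 - D) :
    (-(a ^ 2 / x) - b ^ 2 / y + (k * D) * ((((a - b) ^ 2 * D -
      ((x + y + 1) * (a + b) - 2 * (a * y + b * x)) ^ 2 / D) / D ^ 2) / 2) +
      (((a + b) + ((x + y + 1) * (a + b) - 2 * (a * y + b * x)) / D) / 2) ^ 2 /
        ((x + y + 1 + D) / 2) +
      (((a + b) - ((x + y + 1) * (a + b) - 2 * (a * y + b * x)) / D) / 2) ^ 2 /
        ((x + y + 1 - D) / 2)) * (D ^ 2 * (x * y)) =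
    -((x + y + 1 - 2 * (x * y) * k) * (a ^ 2 * y + b ^ 2 * x) +
      2 * ((x + y + 1) * k - 2) * (a * b) * (x * y)) := by
  have hp : 0 < x + y + 1 + D := by positivity
  have h1 : ∀ A : ℝ, A / ((x + y + 1 + D) / 2) = A * (x + y + 1 - D) / (2 * (x * y)) := by
    intro A
    rw [div_eq_div_iff (by positivity) (by positivity)]
    linear_combination (A / 2) * hD2
  have h2 : ∀ A : ℝ, A / ((x + y + 1 - D) / 2) = A * (x + y + 1 + D) / (2 * (x * y)) := by
    intro A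
    rw [div_eq_div_iff (by positivity) (by positivity)]
    linear_combination (A / 2) * hD2
  rw [h1, h2]
  have e1 : (a - b) ^ 2 * D ^ 2 - ((x + y + 1) * (a + b) - 2 * (a * y + b * x)) ^ 2 =
      4 * (a ^ 2 * y + b ^ 2 * x - a * b * (x + y + 1)) := by
    rw [hD2]; ring
  have e2 : (x + y + 1) * ((a + b) ^ 2 * D ^ 2 + ((x + y + 1) * (a + b) - 2 * (a * y + b * x)) ^ 2) -
      2 * (a + b) * ((x + y + 1) * (a + b) - 2 * (a * y + b * x)) * D ^ 2 =
      4 * (a ^ 2 * y + b ^ 2 * x) * (D ^ 2 - (x + y + 1)) + 16 * (a * b) * (x * y) := by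
    rw [hD2]; ring
  have e3 : (k * D) * ((((a - b) ^ 2 * D -
      ((x + y + 1) * (a + b) - 2 * (a * y + b * x)) ^ 2 / D) / D ^ 2) / 2) =
      k * (4 * (a ^ 2 * y + b ^ 2 * x - a * b * (x + y + 1))) / (2 * D ^ 2) := by
    rw [← e1]
    field_simp
  have e4 : (((a + b) + ((x + y + 1) * (a + b) - 2 * (a * y + b * x)) / D) / 2) ^ 2 *
        (x + y + 1 - D) / (2 * (x * y)) +
      (((a + b) - ((x + y + 1) * (a + b) - 2 * (a * y + b * x)) / D) / 2) ^ 2 *
        (x + y + 1 + D) / (2 * (x * y)) =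
      (4 * (a ^ 2 * y + b ^ 2 * x) * (D ^ 2 - (x + y + 1)) + 16 * (a * b) * (x * y)) /
        (4 * D ^ 2 * (x * y)) := by
    rw [← e2]
    generalize (x + y + 1) * (a + b) - 2 * (a * y + b * x) = c
    field_simp
    ring
  rw [e3, add_assoc, e4]
  field_simp
  ring

private theorem CalcLine_pos {u v s : ℝ} (hu : 0 < u) (hv : 0 < v) (hs : s ∈ Set.Icc (0 : ℝ) 1) :
    0 < u + s * (v - u) := by
  rcases hs with ⟨h0, h1⟩
  rcases eq_or_lt_of_le h0 with h | h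
  · rw [← h]; linarith
  · nlinarith [mul_pos h hv, mul_nonneg (sub_nonneg.2 h1) hu.le]

/-- Concavity along segments for `u = 1`.  See the module docstring of the job: with `x, y` affine in `s`, `p = x + y + 1`,
`δ = x y`, `Δ = p² - 4 δ > 0`, `D = √Δ`, `μ± = (p ± D) / 2`,
`G' = μ₊' log μ₊ + μ₋' log μ₋ - a log x - b log y`,
`G'' = (D''/2) (log μ₊ - log μ₋) + μ₊'²/μ₊ + μ₋'²/μ₋ - a²/x - b²/y
     = -(1/Δ) [(p - 2 δ κ)(a²/x + b²/y) + 2 (p κ - 2) a b]`, `κ = (log μ₊ - log μ₋)/D`, `0 ≤ κ ≤ 1/√δ`. -/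
theorem GG_line {x0 y0 x1 y1 : ℝ} (hx0 : 0 < x0) (hy0 : 0 < y0) (hx1 : 0 < x1) (hy1 : 0 < y1) :
    ConcaveOn ℝ (Set.Icc (0 : ℝ) 1)
      (fun s => GG (x0 + s * (x1 - x0)) (y0 + s * (y1 - y0)) 1) := by
  set a : ℝ := x1 - x0 with ha
  set b : ℝ := y1 - y0 with hb
  let X : ℝ → ℝ := fun s => x0 + s * a
  let Y : ℝ → ℝ := fun s => y0 + s * b
  let P : ℝ → ℝ := fun s => X s + Y s + 1
  let E : ℝ → ℝ := fun s => P s ^ 2 - 4 * (X s * Y s)
  let D : ℝ → ℝ := fun s => √(E s)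
  let c : ℝ → ℝ := fun s => P s * (a + b) - 2 * (a * Y s + b * X s)
  have hX : ∀ s ∈ Set.Icc (0 : ℝ) 1, 0 < X s := fun s hs => CalcLine_pos hx0 hx1 hs
  have hY : ∀ s ∈ Set.Icc (0 : ℝ) 1, 0 < Y s := fun s hs => CalcLine_pos hy0 hy1 hs
  have hE : ∀ s ∈ Set.Icc (0 : ℝ) 1, 0 < E s := by
    intro s hs
    have h1 := hX s hs
    have h2 := hY s hs
    have h3 : E s = (X s - Y s) ^ 2 + 2 * (X s + Y s) + 1 := by
      show (X s + Y s + 1) ^ 2 - 4 * (X s * Y s) = _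
      ring
    rw [h3]
    positivity
  have hD : ∀ s ∈ Set.Icc (0 : ℝ) 1, 0 < D s := fun s hs => Real.sqrt_pos.2 (hE s hs)
  have hD2 : ∀ s ∈ Set.Icc (0 : ℝ) 1, D s ^ 2 = P s ^ 2 - 4 * (X s * Y s) :=
    fun s hs => Real.sq_sqrt (hE s hs).le
  have hP : ∀ s ∈ Set.Icc (0 : ℝ) 1, 0 < P s := by
    intro s hs
    have h1 := hX s hs
    have h2 := hY s hs
    show 0 < X s + Y s + 1
    positivity
  have hm : ∀ s ∈ Set.Icc (0 : ℝ) 1, 0 < P s - D s := by
    intro s hs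
    have h1 := hX s hs
    have h2 := hY s hs
    have h3 := hD2 s hs
    have h4 := hP s hs
    have h5 := hD s hs
    have h6 : 0 < X s * Y s := mul_pos h1 h2
    nlinarith
  have dX : ∀ s, HasDerivAt X a s := by
    intro s
    exact (hasDerivAt_mul_const a).const_add x0
  have dY : ∀ s, HasDerivAt Y b s := by
    intro s
    exact (hasDerivAt_mul_const b).const_add y0
  have dP : ∀ s, HasDerivAt P (a + b) s := fun s => ((dX s).add (dY s)).add_const 1
  have dE : ∀ s, HasDerivAt E (2 * c s) s := by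
    intro s
    have h : HasDerivAt E _ s := ((dP s).pow 2).sub (((dX s).mul (dY s)).const_mul 4)
    refine h.congr_deriv ?_
    show _ = 2 * (P s * (a + b) - 2 * (a * Y s + b * X s))
    push_cast
    ring
  have dc : ∀ s, HasDerivAt c ((a - b) ^ 2) s := by
    intro s
    have h : HasDerivAt c _ s :=
      ((dP s).mul_const (a + b)).sub ((((dY s).const_mul a).add ((dX s).const_mul b)).const_mul 2)
    refine h.congr_deriv ?_
    ring
  have dD : ∀ s ∈ Set.Icc (0 : ℝ) 1, HasDerivAt D (c s / D s) s := by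
    intro s hs
    have h : HasDerivAt D _ s := (dE s).sqrt (hE s hs).ne'
    refine h.congr_deriv ?_
    show _ = c s / √(E s)
    have h1 : √(E s) ≠ 0 := (hD s hs).ne'
    field_simp
  have dq : ∀ s ∈ Set.Icc (0 : ℝ) 1, HasDerivAt (fun s => c s / D s)
      (((a - b) ^ 2 * D s - c s ^ 2 / D s) / D s ^ 2) s := by
    intro s hs
    have h := (dc s).div (dD s hs) (hD s hs).ne'
    refine h.congr_deriv ?_
    ring
  have dmp : ∀ s ∈ Set.Icc (0 : ℝ) 1, HasDerivAt (fun s => (P s + D s) / 2)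
      (((a + b) + c s / D s) / 2) s := fun s hs => ((dP s).add (dD s hs)).div_const 2
  have dmm : ∀ s ∈ Set.Icc (0 : ℝ) 1, HasDerivAt (fun s => (P s - D s) / 2)
      (((a + b) - c s / D s) / 2) s := fun s hs => ((dP s).sub (dD s hs)).div_const 2
  have hmp : ∀ s ∈ Set.Icc (0 : ℝ) 1, 0 < (P s + D s) / 2 := fun s hs =>
    half_pos (add_pos (hP s hs) (hD s hs))
  have hmm : ∀ s ∈ Set.Icc (0 : ℝ) 1, 0 < (P s - D s) / 2 := fun s hs => half_pos (hm s hs)
  have hint : interior (Set.Icc (0 : ℝ) 1) ⊆ Set.Icc 0 1 := interior_subset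
  have df : ∀ s ∈ Set.Icc (0 : ℝ) 1, HasDerivAt
      (fun s => GG (x0 + s * a) (y0 + s * b) 1)
      (((a + b) + c s / D s) / 2 * Real.log ((P s + D s) / 2) +
        ((a + b) - c s / D s) / 2 * Real.log ((P s - D s) / 2) - a * Real.log (X s) -
        b * Real.log (Y s)) s := by
    intro s hs
    have h1 := (Real.hasDerivAt_negMulLog (hX s hs).ne').comp s (dX s)
    have h2 := (Real.hasDerivAt_negMulLog (hY s hs).ne').comp s (dY s)
    have h3 := (Real.hasDerivAt_negMulLog (hmp s hs).ne').comp s (dmp s hs)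
    have h4 := (Real.hasDerivAt_negMulLog (hmm s hs).ne').comp s (dmm s hs)
    have h : HasDerivAt (fun s => GG (x0 + s * a) (y0 + s * b) 1) _ s :=
      ((h1.add h2).add_const (Real.negMulLog 1)).sub (h3.add h4)
    refine h.congr_deriv ?_
    ring
  have ddf : ∀ s ∈ Set.Icc (0 : ℝ) 1, HasDerivAt
      (fun s => (((a + b) + c s / D s) / 2 * Real.log ((P s + D s) / 2) +
        ((a + b) - c s / D s) / 2 * Real.log ((P s - D s) / 2) - a * Real.log (X s) -
        b * Real.log (Y s)))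
      (-(a ^ 2 / X s) - b ^ 2 / Y s + (Real.log ((P s + D s) / 2) - Real.log ((P s - D s) / 2)) *
        ((((a - b) ^ 2 * D s - c s ^ 2 / D s) / D s ^ 2) / 2) +
        (((a + b) + c s / D s) / 2) ^ 2 / ((P s + D s) / 2) +
        (((a + b) - c s / D s) / 2) ^ 2 / ((P s - D s) / 2)) s := by
    intro s hs
    have h1 := (dX s).log (hX s hs).ne'
    have h2 := (dY s).log (hY s hs).ne'
    have h3 := (dmp s hs).log (hmp s hs).ne'
    have h4 := (dmm s hs).log (hmm s hs).ne'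
    have h5 : HasDerivAt (fun s => ((a + b) + c s / D s) / 2)
        ((((a - b) ^ 2 * D s - c s ^ 2 / D s) / D s ^ 2) / 2) s :=
      ((dq s hs).const_add (a + b)).div_const 2
    have h6 : HasDerivAt (fun s => ((a + b) - c s / D s) / 2)
        (-(((a - b) ^ 2 * D s - c s ^ 2 / D s) / D s ^ 2) / 2) s :=
      ((dq s hs).const_sub (a + b)).div_const 2
    have h := (((h5.mul h3).add (h6.mul h4)).sub (h1.const_mul a)).sub (h2.const_mul b)
    refine h.congr_deriv ?_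
    ring
  refine concaveOn_of_hasDerivWithinAt2_nonpos (convex_Icc 0 1)
    (fun s hs => (df s hs).continuousAt.continuousWithinAt)
    (fun s hs => (df s (hint hs)).hasDerivWithinAt)
    (fun s hs => (ddf s (hint hs)).hasDerivWithinAt) ?_
  intro s hs
  replace hs := hint hs
  have hLq : 0 ≤ Real.log ((P s + D s) / 2) - Real.log ((P s - D s) / 2) := by
    rw [sub_nonneg]
    apply Real.log_le_log (hmm s hs)
    linarith [hD s hs]
  have hprod : (P s - D s) / 2 * ((P s + D s) / 2) = X s * Y s := by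
    linear_combination (-1 / 4) * hD2 s hs
  have hlm := log_mean (hmm s hs) (by linarith [hD s hs] : (P s - D s) / 2 ≤ (P s + D s) / 2)
  rw [hprod, Real.sqrt_mul (hX s hs).le] at hlm
  obtain ⟨k, hk⟩ : ∃ k : ℝ, Real.log ((P s + D s) / 2) - Real.log ((P s - D s) / 2) = k * D s :=
    ⟨(Real.log ((P s + D s) / 2) - Real.log ((P s - D s) / 2)) / D s,
      (div_mul_cancel₀ _ (hD s hs).ne').symm⟩
  rw [hk] at hLq hlm ⊢
  have hk0 : 0 ≤ k := nonneg_of_mul_nonneg_left hLq (hD s hs)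
  have hk1 : k * (√(X s) * √(Y s)) ≤ 1 := by
    have h1 : (k * (√(X s) * √(Y s))) * D s ≤ 1 * D s := by linarith
    exact le_of_mul_le_mul_right h1 (hD s hs)
  have halg := CalcLine_alg (a := a) (b := b) (k := k) (hX s hs) (hY s hs) (hD s hs) (hD2 s hs)
    (hm s hs)
  have hine := CalcLine_ineq (a := a) (b := b) (hX s hs) (hY s hs) hk0 hk1
  have hpos : 0 < D s ^ 2 * (X s * Y s) :=
    mul_pos (pow_pos (hD s hs) 2) (mul_pos (hX s hs) (hY s hs))
  by_contra hcon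
  have hcon' := mul_pos (not_le.1 hcon) hpos
  have : (-(a ^ 2 / X s) - b ^ 2 / Y s + (k * D s) *
        ((((a - b) ^ 2 * D s - c s ^ 2 / D s) / D s ^ 2) / 2) +
        (((a + b) + c s / D s) / 2) ^ 2 / ((P s + D s) / 2) +
        (((a + b) - c s / D s) / 2) ^ 2 / ((P s - D s) / 2)) * (D s ^ 2 * (X s * Y s)) =
      -((X s + Y s + 1 - 2 * (X s * Y s) * k) * (a ^ 2 * Y s + b ^ 2 * X s) +
      2 * ((X s + Y s + 1) * k - 2) * (a * b) * (X s * Y s)) := halg
  rw [this] at hcon'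
  linarith

end QA
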