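import Pool.Agent.H.MP_dd87f4_mp.Dec1a

set_option autoImplicit false
open Matrix
open scoped ComplexOrder

namespace QA

section
open scoped MatrixOrder Matrix.Norms.L2Operator

private theorem Dec1b_fac {ω : Matrix (Fin 2 × Fin 2) (Fin 2 × Fin 2) ℂ} (hω : ω.PosSemidef) :
    ∃ B : Matrix (Fin 2 × Fin 2) (Fin 2 × Fin 2) ℂ, ω = Bᴴ * B := by
  obtain ⟨B, hB'⟩ := CStarAlgebra.nonneg_iff_eq_star_mul_self.mp hω.nonneg
  exact ⟨B, by rw [hB', Matrix.star_eq_conjTranspose]⟩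

end

/-- A PSD matrix on `ℂ² ⊗ ℂ²` : blocks `ω_jk = N_j W_jk N_kᴴ` with `W = V₀ V₁ᴴ` a contraction.
`ω = Y Yᴴ` (square root), `Y_j` the rows `(·, j)`, `Y_j = N_j V_j` by `rq_dec`, `W = V₀ V₁ᴴ`;
`1 - Wᴴ W = V₁ (1 - V₀ᴴ V₀) V₁ᴴ` is PSD as `1 - V₀ᴴ V₀` is an orthogonal projection. -/
theorem block_dec {ω : Matrix (Fin 2 × Fin 2) (Fin 2 × Fin 2) ℂ} (hω : ω.PosSemidef) :
    ∃ (N : Fin 2 → Matrix (Fin 2) (Fin 2) ℂ) (W : Matrix (Fin 2) (Fin 2) ℂ),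
      (1 - Wᴴ * W).PosSemidef ∧ (∀ j, blk ω j = N j * (N j)ᴴ) ∧
      (∀ i i', ω (i, 0) (i', 1) = (N 0 * W * (N 1)ᴴ) i i') ∧
      (∀ i i', ω (i, 1) (i', 0) = (N 1 * Wᴴ * (N 0)ᴴ) i i') := by
  obtain ⟨B, hB⟩ := Dec1b_fac hω
  let Y : Fin 2 → Matrix (Fin 2) (Fin 2 × Fin 2) ℂ := fun j i k => star (B k (i, j))
  have hY : ∀ i j i' j', ω (i, j) (i', j') = (Y j * (Y j')ᴴ) i i' := by
    intro i j i' j'
    rw [hB, Matrix.mul_apply, Matrix.mul_apply]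
    refine Finset.sum_congr rfl fun k _ => ?_
    simp [Y, Matrix.conjTranspose_apply]
  choose N V hV hN using fun j => rq_dec (Y j)
  have hprod : ∀ j j', Y j * (Y j')ᴴ = N j * (V j * (V j')ᴴ) * (N j')ᴴ := by
    intro j j'
    rw [hN j, hN j', Matrix.conjTranspose_mul]
    simp only [Matrix.mul_assoc]
  refine ⟨N, V 0 * (V 1)ᴴ, ?_, ?_, ?_, ?_⟩
  · have hP : (V 1 * (1 - (V 0)ᴴ * V 0)) * (V 1 * (1 - (V 0)ᴴ * V 0))ᴴ
        = 1 - (V 0 * (V 1)ᴴ)ᴴ * (V 0 * (V 1)ᴴ) := by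
      have h0 : (1 - (V 0)ᴴ * V 0) * (1 - (V 0)ᴴ * V 0)ᴴ = 1 - (V 0)ᴴ * V 0 := by
        rw [Matrix.conjTranspose_sub, Matrix.conjTranspose_one, Matrix.conjTranspose_mul,
          Matrix.conjTranspose_conjTranspose, Matrix.mul_sub, Matrix.sub_mul, Matrix.sub_mul,
          Matrix.mul_one, Matrix.one_mul, Matrix.mul_one]
        have : (V 0)ᴴ * V 0 * ((V 0)ᴴ * V 0) = (V 0)ᴴ * V 0 := by
          calc (V 0)ᴴ * V 0 * ((V 0)ᴴ * V 0) = (V 0)ᴴ * (V 0 * (V 0)ᴴ) * V 0 := by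
                simp only [Matrix.mul_assoc]
            _ = (V 0)ᴴ * V 0 := by rw [hV 0, Matrix.mul_one]
        rw [this]
        abel
      calc (V 1 * (1 - (V 0)ᴴ * V 0)) * (V 1 * (1 - (V 0)ᴴ * V 0))ᴴ
          = V 1 * ((1 - (V 0)ᴴ * V 0) * (1 - (V 0)ᴴ * V 0)ᴴ) * (V 1)ᴴ := by
            rw [Matrix.conjTranspose_mul]
            simp only [Matrix.mul_assoc]
        _ = V 1 * (1 - (V 0)ᴴ * V 0) * (V 1)ᴴ := by rw [h0]
        _ = 1 - (V 0 * (V 1)ᴴ)ᴴ * (V 0 * (V 1)ᴴ) := by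
            rw [Matrix.mul_sub, Matrix.sub_mul, Matrix.mul_one, hV 1, Matrix.conjTranspose_mul,
              Matrix.conjTranspose_conjTranspose]
            simp only [Matrix.mul_assoc]
    rw [← hP]
    exact Matrix.posSemidef_self_mul_conjTranspose _
  · intro j
    ext i i'
    change ω (i, j) (i', j) = _
    rw [hY, hprod, hV j, Matrix.mul_one]
  · intro i i'
    rw [hY, hprod]
  · intro i i'
    rw [hY, hprod, Matrix.conjTranspose_mul, Matrix.conjTranspose_conjTranspose]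

end QA
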