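import Pool.Agent.H.MP_dd87f4_mp.Defs

set_option autoImplicit false
open Matrix
open scoped ComplexOrder

namespace QA

/-- `Y = N V` with `V Vᴴ = 1` : pick an orthonormal pair `v₀, v₁` in `ℂ^4` whose span contains the two rows of `Y`. -/
theorem rq_dec (Y : Matrix (Fin 2) (Fin 2 × Fin 2) ℂ) :
    ∃ (N : Matrix (Fin 2) (Fin 2) ℂ) (V : Matrix (Fin 2) (Fin 2 × Fin 2) ℂ), V * Vᴴ = 1 ∧ Y = N * V := by
  let y : Fin 2 → EuclideanSpace ℂ (Fin 2 × Fin 2) := fun i => WithLp.toLp 2 (Y i)
  let f : Fin 4 → EuclideanSpace ℂ (Fin 2 × Fin 2) := ![y 0, y 1, 0, 0]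
  have hfr : Module.finrank ℂ (EuclideanSpace ℂ (Fin 2 × Fin 2)) = Fintype.card (Fin 4) := by
    simp
  let b := InnerProductSpace.gramSchmidtOrthonormalBasis hfr f
  have h0 : ∀ j : Fin 4, 0 < j → inner ℂ (b j) (y 0) = 0 := fun j hj =>
    InnerProductSpace.gramSchmidtOrthonormalBasis_inv_triangular hfr f (i := 0) (j := j) hj
  have h1 : ∀ j : Fin 4, 1 < j → inner ℂ (b j) (y 1) = 0 := fun j hj =>
    InnerProductSpace.gramSchmidtOrthonormalBasis_inv_triangular hfr f (i := 1) (j := j) hj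
  have hy : ∀ i : Fin 2, y i = inner ℂ (b 0) (y i) • b 0 + inner ℂ (b 1) (y i) • b 1 := by
    intro i
    have h2 := b.sum_repr' (y i)
    rw [Fin.sum_univ_four] at h2
    have h3 : inner ℂ (b 2) (y i) = 0 := by
      fin_cases i
      · exact h0 2 (by decide)
      · exact h1 2 (by decide)
    have h4 : inner ℂ (b 3) (y i) = 0 := by
      fin_cases i
      · exact h0 3 (by decide)
      · exact h1 3 (by decide)
    rw [h3, h4, zero_smul, zero_smul, add_zero, add_zero] at h2
    exact h2.symm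
  let e : Fin 2 → Fin 4 := ![0, 1]
  have he : Function.Injective e := by decide
  refine ⟨Matrix.of fun i k => inner ℂ (b (e k)) (y i), Matrix.of fun k j => (b (e k)) j, ?_, ?_⟩
  · ext k l
    rw [Matrix.mul_apply]
    have h2 : inner ℂ (b (e l)) (b (e k)) = ∑ j, (b (e k)) j * star ((b (e l)) j) := by
      rw [PiLp.inner_apply]
      rfl
    have h3 := (orthonormal_iff_ite.1 b.orthonormal) (e l) (e k)
    rw [h2] at h3
    simp only [Matrix.of_apply, Matrix.conjTranspose_apply]
    rw [h3, Matrix.one_apply]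
    by_cases hkl : k = l
    · subst hkl
      simp
    · rw [if_neg hkl, if_neg (fun h => hkl (he h).symm)]
  · ext i j
    rw [Matrix.mul_apply, Fin.sum_univ_two]
    simp only [Matrix.of_apply]
    have h2 := congrArg (fun v : EuclideanSpace ℂ (Fin 2 × Fin 2) => v j) (hy i)
    exact h2

end QA
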