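import Pool.Agent.H.MP_dd87f4_mp.Defs

set_option autoImplicit false
open Matrix
open scoped ComplexOrder

namespace QA

/-- If the columns of `X` are orthogonal and of norm at most one, then `X = U diag s`. -/
private theorem Dec2_polar (X : Matrix (Fin 2) (Fin 2) ℂ) (l : Fin 2 → ℝ)
    (hX : Xᴴ * X = Matrix.diagonal (fun i => (l i : ℂ))) :
    ∃ (U : Matrix (Fin 2) (Fin 2) ℂ) (s : Fin 2 → ℝ), Uᴴ * U = 1 ∧ (∀ i, 0 ≤ s i) ∧
      (∀ i, s i ^ 2 = l i) ∧ X = U * Matrix.diagonal (fun i => (s i : ℂ)) := by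
  let f : Fin 2 → EuclideanSpace ℂ (Fin 2) := fun i => WithLp.toLp 2 (fun r => X r i)
  have hin : ∀ i j, inner ℂ (f i) (f j) = (Xᴴ * X) i j := by
    intro i j
    rw [PiLp.inner_apply, Matrix.mul_apply]
    refine Finset.sum_congr rfl fun r _ => ?_
    rw [Matrix.conjTranspose_apply, mul_comm]
    rfl
  have hf : Pairwise (fun i j => inner ℂ (f i) (f j) = 0) := by
    intro i j hij
    show inner ℂ (f i) (f j) = 0
    rw [hin, hX, Matrix.diagonal_apply_ne _ hij]
  have hfr : Module.finrank ℂ (EuclideanSpace ℂ (Fin 2)) = Fintype.card (Fin 2) := by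
    simp
  let b := InnerProductSpace.gramSchmidtOrthonormalBasis hfr f
  refine ⟨Matrix.of fun r i => (b i) r, fun i => ‖f i‖, ?_, fun i => norm_nonneg _, ?_, ?_⟩
  · ext i j
    rw [Matrix.mul_apply]
    have h2 : inner ℂ (b i) (b j) = ∑ r, (b j) r * star ((b i) r) := by
      rw [PiLp.inner_apply]
      rfl
    have h3 := (orthonormal_iff_ite.1 b.orthonormal) i j
    rw [h2] at h3
    simp only [Matrix.of_apply, Matrix.conjTranspose_apply]
    rw [Matrix.one_apply]
    rw [← h3]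
    refine Finset.sum_congr rfl fun r _ => ?_
    rw [mul_comm]
  · intro i
    have h2 := inner_self_eq_norm_sq_to_K (𝕜 := ℂ) (f i)
    rw [hin, hX, Matrix.diagonal_apply_eq] at h2
    show ‖f i‖ ^ 2 = l i
    have h3 : ((‖f i‖ ^ 2 : ℝ) : ℂ) = (l i : ℂ) := by
      rw [Complex.ofReal_pow]
      exact h2.symm
    exact Complex.ofReal_injective h3
  · ext r i
    rw [Matrix.mul_diagonal, Matrix.of_apply]
    show X r i = (b i) r * ((‖f i‖ : ℝ) : ℂ)
    by_cases h0 : f i = 0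
    · have h1 : X r i = 0 := congrArg (fun v : EuclideanSpace ℂ (Fin 2) => v r) h0
      rw [h1, h0, norm_zero]
      simp
    · have h1 := InnerProductSpace.gramSchmidtOrthonormalBasis_apply_of_orthogonal hfr hf h0
      have h2 : (b i) r = ((‖f i‖⁻¹ : ℝ) : ℂ) * X r i := by
        have := congrArg (fun v : EuclideanSpace ℂ (Fin 2) => v r) h1
        simpa using this
      have h3 : ((‖f i‖ : ℝ) : ℂ) ≠ 0 := by
        rw [Complex.ofReal_ne_zero]
        exact norm_ne_zero_iff.2 h0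
      rw [h2, Complex.ofReal_inv]
      field_simp

/-- A `2 × 2` contraction is the average of two unitaries.  `Wᴴ W = R diag(λ) Rᴴ` (spectral theorem), `0 ≤ λ_i ≤ 1`, `s_i = √λ_i`.
The columns `w_i` of `W R` are orthogonal with `|w_i|² = λ_i`, so there is a unitary `U` with `W R = U diag(s)`
(if `w_i ≠ 0` take `u_i = w_i / s_i`; complete to an orthonormal basis of `ℂ²` with `(a, b)^⊥ = (-conj b, conj a)`).
`W± = U diag (s_i ± I √(1 - s_i²)) Rᴴ`. -/
theorem avg_unitary {W : Matrix (Fin 2) (Fin 2) ℂ} (hW : (1 - Wᴴ * W).PosSemidef) :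
    ∃ W₁ W₂ : Matrix (Fin 2) (Fin 2) ℂ, W₁ᴴ * W₁ = 1 ∧ W₂ᴴ * W₂ = 1 ∧ W = (1 / 2 : ℂ) • (W₁ + W₂) := by
  have hH : (Wᴴ * W).IsHermitian := Matrix.isHermitian_conjTranspose_mul_self W
  set R : Matrix (Fin 2) (Fin 2) ℂ := (hH.eigenvectorUnitary : Matrix (Fin 2) (Fin 2) ℂ) with hR
  have hRR : Rᴴ * R = 1 := by
    have := (Matrix.mem_unitaryGroup_iff' (A := R)).1 hH.eigenvectorUnitary.2
    exact this
  have hRR' : R * Rᴴ = 1 := by
    have := (Matrix.mem_unitaryGroup_iff (A := R)).1 hH.eigenvectorUnitary.2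
    exact this
  set l : Fin 2 → ℝ := hH.eigenvalues with hl
  have hspec : Wᴴ * W = R * Matrix.diagonal (fun i => (l i : ℂ)) * Rᴴ := by
    have := hH.spectral_theorem
    exact this
  set X : Matrix (Fin 2) (Fin 2) ℂ := W * R with hXd
  have hX : Xᴴ * X = Matrix.diagonal (fun i => (l i : ℂ)) := by
    rw [hXd, Matrix.conjTranspose_mul]
    calc Rᴴ * Wᴴ * (W * R) = Rᴴ * (Wᴴ * W) * R := by simp only [Matrix.mul_assoc]
      _ = (Rᴴ * R) * Matrix.diagonal (fun i => (l i : ℂ)) * (Rᴴ * R) := by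
          rw [hspec]; simp only [Matrix.mul_assoc]
      _ = _ := by rw [hRR, Matrix.one_mul, Matrix.mul_one]
  obtain ⟨U, s, hU, hs0, hs, hXU⟩ := Dec2_polar X l hX
  have hl1 : ∀ i, l i ≤ 1 := by
    intro i
    have h1 := (hW.conjTranspose_mul_mul_same R).diag_nonneg (i := i)
    have h2 : Rᴴ * (1 - Wᴴ * W) * R = 1 - Matrix.diagonal (fun i => (l i : ℂ)) := by
      rw [Matrix.mul_sub, Matrix.sub_mul, Matrix.mul_one, hRR, ← hX, hXd,
        Matrix.conjTranspose_mul]
      simp only [Matrix.mul_assoc]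
    rw [h2, Matrix.sub_apply, Matrix.one_apply_eq, Matrix.diagonal_apply_eq] at h1
    have h3 : (0 : ℂ) ≤ ((1 - l i : ℝ) : ℂ) := by
      push_cast
      exact h1
    have h4 := Complex.zero_le_real.1 h3
    linarith
  set c : Fin 2 → ℝ := fun i => √(1 - s i ^ 2) with hc
  have hc2 : ∀ i, s i ^ 2 + c i ^ 2 = 1 := by
    intro i
    have h1 : 0 ≤ 1 - s i ^ 2 := by rw [hs]; linarith [hl1 i]
    rw [hc]
    simp only
    rw [Real.sq_sqrt h1]
    ring
  have key : ∀ e : ℂ, e ^ 2 = -1 → star e = -e →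
      (U * Matrix.diagonal (fun i => (s i : ℂ) + e * (c i : ℂ)) * Rᴴ)ᴴ *
        (U * Matrix.diagonal (fun i => (s i : ℂ) + e * (c i : ℂ)) * Rᴴ) = 1 := by
    intro e he he'
    have h1 : (Matrix.diagonal (fun i => (s i : ℂ) + e * (c i : ℂ)))ᴴ *
        Matrix.diagonal (fun i => (s i : ℂ) + e * (c i : ℂ)) = 1 := by
      rw [Matrix.diagonal_conjTranspose, Matrix.diagonal_mul_diagonal, ← Matrix.diagonal_one]
      congr 1
      funext i
      have h2 : star ((s i : ℂ) + e * (c i : ℂ)) = (s i : ℂ) - e * (c i : ℂ) := by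
        rw [star_add, star_mul', he', Complex.star_def, Complex.conj_ofReal,
          Complex.conj_ofReal]
        ring
      rw [Pi.star_apply, h2]
      have h3 : ((s i : ℂ)) ^ 2 + ((c i : ℂ)) ^ 2 = 1 := by exact_mod_cast hc2 i
      linear_combination h3 - (c i : ℂ) ^ 2 * he
    rw [Matrix.conjTranspose_mul, Matrix.conjTranspose_mul, Matrix.conjTranspose_conjTranspose]
    calc R * ((Matrix.diagonal (fun i => (s i : ℂ) + e * (c i : ℂ)))ᴴ * Uᴴ) *
          (U * Matrix.diagonal (fun i => (s i : ℂ) + e * (c i : ℂ)) * Rᴴ)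
        = R * ((Matrix.diagonal (fun i => (s i : ℂ) + e * (c i : ℂ)))ᴴ * (Uᴴ * U) *
          Matrix.diagonal (fun i => (s i : ℂ) + e * (c i : ℂ))) * Rᴴ := by
          simp only [Matrix.mul_assoc]
      _ = 1 := by rw [hU, Matrix.mul_one, h1, Matrix.mul_one, hRR']
  refine ⟨_, _, key Complex.I (by rw [Complex.I_sq]) (by simp),
    key (-Complex.I) (by rw [neg_sq, Complex.I_sq]) (by simp), ?_⟩
  have h5 : U * Matrix.diagonal (fun i => (s i : ℂ) + Complex.I * (c i : ℂ)) * Rᴴ +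
      U * Matrix.diagonal (fun i => (s i : ℂ) + -Complex.I * (c i : ℂ)) * Rᴴ = (2 : ℂ) • W := by
    rw [← Matrix.add_mul, ← Matrix.mul_add, Matrix.diagonal_add]
    have h6 : (fun i => (s i : ℂ) + Complex.I * (c i : ℂ) + ((s i : ℂ) + -Complex.I * (c i : ℂ))) =
        (2 : ℂ) • (fun i => (s i : ℂ)) := by
      funext i
      simp only [Pi.smul_apply, smul_eq_mul]
      ring
    rw [h6, Matrix.diagonal_smul, Matrix.mul_smul, Matrix.smul_mul, ← hXU, hXd, Matrix.mul_assoc,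
      hRR', Matrix.mul_one]
  rw [h5, smul_smul]
  norm_num

end QA
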