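import Pool.Agent.H.MP_dd87f4_mp.Defs

set_option autoImplicit false
open Matrix
open scoped ComplexOrder

namespace QA

/-- the matrix `∑_k x_k x_kᴴ`, `x_k (i, j) = X_j i k` -/
noncomputable def gram2 (X : Fin 2 → Matrix (Fin 2) (Fin 2) ℂ) :
    Matrix (Fin 2 × Fin 2) (Fin 2 × Fin 2) ℂ := fun p p' => (X p.2 * (X p'.2)ᴴ) p.1 p'.1

theorem Dec3_quad (α β γ : ℂ) :
    ∃ v0 v1 : ℂ, (v0 ≠ 0 ∨ v1 ≠ 0) ∧ α * v0 ^ 2 + β * v0 * v1 + γ * v1 ^ 2 = 0 := by
  by_cases h : α = 0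
  · exact ⟨1, 0, Or.inl one_ne_zero, by rw [h]; ring⟩
  · obtain ⟨s, hs⟩ := IsAlgClosed.exists_pow_nat_eq (discrim α β γ) (n := 2) (by norm_num)
    obtain ⟨x, hx⟩ := exists_quadratic_eq_zero (a := α) (b := β) (c := γ) h
      ⟨s, by rw [← hs]; ring⟩
    exact ⟨x, 1, Or.inr one_ne_zero, by linear_combination hx⟩

/-- normalisation of a nonzero vector of `ℂ²` -/
theorem Dec3_norm (v0 v1 : ℂ) (h : v0 ≠ 0 ∨ v1 ≠ 0) :
    ∃ N w0 w1 : ℂ, N ≠ 0 ∧ v0 = N * w0 ∧ v1 = N * w1 ∧ w0 * star w0 + w1 * star w1 = 1 := by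
  have hpos : 0 < Complex.normSq v0 + Complex.normSq v1 := by
    rcases h with h | h
    · have h1 := Complex.normSq_pos.2 h
      have h2 := Complex.normSq_nonneg v1
      linarith
    · have h1 := Complex.normSq_pos.2 h
      have h2 := Complex.normSq_nonneg v0
      linarith
  set r : ℝ := √(Complex.normSq v0 + Complex.normSq v1) with hr
  have hr0 : 0 < r := Real.sqrt_pos.2 hpos
  have hrC : (r : ℂ) ≠ 0 := by exact_mod_cast hr0.ne'
  have hr2 : (r : ℂ) ^ 2 = v0 * star v0 + v1 * star v1 := by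
    have h1 : r ^ 2 = Complex.normSq v0 + Complex.normSq v1 := Real.sq_sqrt hpos.le
    have h2 : ∀ z : ℂ, z * star z = (Complex.normSq z : ℂ) := fun z => Complex.mul_conj z
    rw [h2, h2, ← Complex.ofReal_add, ← h1, Complex.ofReal_pow]
  refine ⟨r, v0 / r, v1 / r, hrC, ?_, ?_, ?_⟩
  · field_simp
  · field_simp
  · have h3 : star (r : ℂ) = r := Complex.conj_ofReal r
    simp only [star_div₀, h3]
    field_simp
    rw [hr2]

/-- two parallel vectors are multiples of one unit vector -/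
theorem Dec3_par (x0 x1 y0 y1 : ℂ) (h : x0 * y1 - x1 * y0 = 0) :
    ∃ f0 f1 a b : ℂ, f0 * star f0 + f1 * star f1 = 1 ∧ x0 = a * f0 ∧ x1 = a * f1 ∧
      y0 = b * f0 ∧ y1 = b * f1 := by
  by_cases hx : x0 ≠ 0 ∨ x1 ≠ 0
  · obtain ⟨N, w0, w1, hN, h0, h1, hw⟩ := Dec3_norm x0 x1 hx
    have h2 : w0 * y1 - w1 * y0 = 0 := by
      have h3 : N * (w0 * y1 - w1 * y0) = 0 := by
        rw [h0, h1] at h
        linear_combination h
      exact (mul_eq_zero.1 h3).resolve_left hN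
    refine ⟨w0, w1, N, star w0 * y0 + star w1 * y1, hw, h0, h1, ?_, ?_⟩
    · linear_combination (-y0) * hw - star w1 * h2
    · linear_combination (-y1) * hw + star w0 * h2
  · push Not at hx
    obtain ⟨hx0, hx1⟩ := hx
    by_cases hy : y0 ≠ 0 ∨ y1 ≠ 0
    · obtain ⟨N, w0, w1, hN, h0, h1, hw⟩ := Dec3_norm y0 y1 hy
      exact ⟨w0, w1, 0, N, hw, by rw [hx0]; ring, by rw [hx1]; ring, h0, h1⟩
    · push Not at hy
      obtain ⟨hy0, hy1⟩ := hy
      refine ⟨1, 0, 0, 0, by simp, ?_, ?_, ?_, ?_⟩ <;> simp [hx0, hx1, hy0, hy1]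

/-- Triangular form of a rank two PSD matrix on `ℂ² ⊗ ℂ²`.
(1) there is a unit vector `v` with `det [X₀ v, X₁ v] = 0` (a binary quadratic form over `ℂ` has a nonzero root);
(2) complete `v` to a unitary `R = [v, v^⊥]`; `gram2 X = gram2 (X_j R)`;
(3) `X₀ v, X₁ v` are parallel: `X_j v = a_j f` for a unit vector `f` (if both vanish any `f`, `a = 0`);
(4) complete `f` to a unitary `U = [f, f']` and let `X_j v^⊥ = b_j f + c_j f'`. -/
theorem tri_form (X : Fin 2 → Matrix (Fin 2) (Fin 2) ℂ) :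
    ∃ (U : Matrix (Fin 2) (Fin 2) ℂ) (a b c : Fin 2 → ℂ), Uᴴ * U = 1 ∧ gram2 X = tri U a b c := by
  obtain ⟨u0, u1, hu, huq⟩ := Dec3_quad
    (X 0 0 0 * X 1 1 0 - X 0 1 0 * X 1 0 0)
    (X 0 0 0 * X 1 1 1 + X 0 0 1 * X 1 1 0 - X 0 1 0 * X 1 0 1 - X 0 1 1 * X 1 0 0)
    (X 0 0 1 * X 1 1 1 - X 0 1 1 * X 1 0 1)
  obtain ⟨N, v0, v1, hN, h0, h1, hv⟩ := Dec3_norm u0 u1 hu
  have hq : (X 0 0 0 * v0 + X 0 0 1 * v1) * (X 1 1 0 * v0 + X 1 1 1 * v1) -
      (X 0 1 0 * v0 + X 0 1 1 * v1) * (X 1 0 0 * v0 + X 1 0 1 * v1) = 0 := by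
    have h3 : N ^ 2 * ((X 0 0 0 * v0 + X 0 0 1 * v1) * (X 1 1 0 * v0 + X 1 1 1 * v1) -
      (X 0 1 0 * v0 + X 0 1 1 * v1) * (X 1 0 0 * v0 + X 1 0 1 * v1)) = 0 := by
      rw [h0, h1] at huq
      linear_combination huq
    exact (mul_eq_zero.1 h3).resolve_left (pow_ne_zero 2 hN)
  obtain ⟨f0, f1, a0, a1, hf, hx0, hx1, hy0, hy1⟩ := Dec3_par _ _ _ _ hq
  set z : Fin 2 → Fin 2 → ℂ := fun j i => X j i 0 * (-star v1) + X j i 1 * star v0 with hz
  set f : Fin 2 → ℂ := ![f0, f1] with hfdef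
  set f' : Fin 2 → ℂ := ![-star f1, star f0] with hf'def
  have hyy : ∀ j i : Fin 2, X j i 0 * v0 + X j i 1 * v1 = f i * (![a0, a1] : Fin 2 → ℂ) j := by
    intro j i
    fin_cases j <;> fin_cases i
    · simpa [hfdef, mul_comm] using hx0
    · simpa [hfdef, mul_comm] using hx1
    · simpa [hfdef, mul_comm] using hy0
    · simpa [hfdef, mul_comm] using hy1
  have hzz : ∀ j i : Fin 2, z j i = f i * (star f0 * z j 0 + star f1 * z j 1) +
      f' i * (-f1 * z j 0 + f0 * z j 1) := by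
    intro j i
    fin_cases i
    · change z j 0 = f0 * (star f0 * z j 0 + star f1 * z j 1) +
        (-star f1) * (-f1 * z j 0 + f0 * z j 1)
      linear_combination (-z j 0) * hf
    · change z j 1 = f1 * (star f0 * z j 0 + star f1 * z j 1) +
        (star f0) * (-f1 * z j 0 + f0 * z j 1)
      linear_combination (-z j 1) * hf
  refine ⟨!![f0, -star f1; f1, star f0], ![a0, a1],
    fun j => star f0 * z j 0 + star f1 * z j 1, fun j => -f1 * z j 0 + f0 * z j 1, ?_, ?_⟩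
  · ext i j
    fin_cases i <;> fin_cases j
    · simp [Matrix.mul_apply, Fin.sum_univ_two]
      have h := hf
      simp only [RCLike.star_def] at h
      linear_combination h
    · simp [Matrix.mul_apply, Fin.sum_univ_two]
      ring
    · simp [Matrix.mul_apply, Fin.sum_univ_two]
      ring
    · simp [Matrix.mul_apply, Fin.sum_univ_two]
      have h := hf
      simp only [RCLike.star_def] at h
      linear_combination h
  · funext p p'
    obtain ⟨i, j⟩ := p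
    obtain ⟨i', j'⟩ := p'
    have hU0 : ∀ i : Fin 2, (!![f0, -star f1; f1, star f0] : Matrix (Fin 2) (Fin 2) ℂ) i 0 = f i := by
      intro i; fin_cases i <;> rfl
    have hU1 : ∀ i : Fin 2, (!![f0, -star f1; f1, star f0] : Matrix (Fin 2) (Fin 2) ℂ) i 1 = f' i := by
      intro i; fin_cases i <;> rfl
    simp only [gram2, tri, hU0, hU1]
    rw [← hyy j i, ← hyy j' i', ← hzz j i, ← hzz j' i', Matrix.mul_apply, Fin.sum_univ_two]
    simp only [Matrix.conjTranspose_apply, hz, star_add, star_mul', star_neg, star_star]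
    linear_combination (-(X j i 0 * star (X j' i' 0)) - X j i 1 * star (X j' i' 1)) * hv

end QA
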