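import Pool.Agent.H.MP_dd87f4_mp.Dec1
import Pool.Agent.H.MP_dd87f4_mp.Dec2
import Pool.Agent.H.MP_dd87f4_mp.Dec3

set_option autoImplicit false
open Matrix
open scoped ComplexOrder

namespace QA

private theorem Decomp_gram (N : Fin 2 → Matrix (Fin 2) (Fin 2) ℂ) {V : Matrix (Fin 2) (Fin 2) ℂ}
    (hV : Vᴴ * V = 1) (i i' : Fin 2) :
    gram2 ![N 0, N 1 * Vᴴ] (i, 0) (i', 0) = (N 0 * (N 0)ᴴ) i i' ∧
    gram2 ![N 0, N 1 * Vᴴ] (i, 0) (i', 1) = (N 0 * V * (N 1)ᴴ) i i' ∧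
    gram2 ![N 0, N 1 * Vᴴ] (i, 1) (i', 0) = (N 1 * Vᴴ * (N 0)ᴴ) i i' ∧
    gram2 ![N 0, N 1 * Vᴴ] (i, 1) (i', 1) = (N 1 * (N 1)ᴴ) i i' := by
  have e1 : (N 1 * Vᴴ)ᴴ = V * (N 1)ᴴ := by
    rw [conjTranspose_mul, conjTranspose_conjTranspose]
  refine ⟨rfl, ?_, rfl, ?_⟩
  · show (N 0 * (N 1 * Vᴴ)ᴴ) i i' = _
    rw [e1, Matrix.mul_assoc]
  · show ((N 1 * Vᴴ) * (N 1 * Vᴴ)ᴴ) i i' = _
    have e2 : (N 1 * Vᴴ) * (V * (N 1)ᴴ) = N 1 * (Vᴴ * V) * (N 1)ᴴ := by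
      simp only [Matrix.mul_assoc]
    rw [e1, e2, hV, Matrix.mul_one]

private theorem Decomp_blk {ω : Matrix (Fin 2 × Fin 2) (Fin 2 × Fin 2) ℂ}
    (N : Fin 2 → Matrix (Fin 2) (Fin 2) ℂ) (hN : ∀ j, blk ω j = N j * (N j)ᴴ)
    {V : Matrix (Fin 2) (Fin 2) ℂ} (hV : Vᴴ * V = 1) (j : Fin 2) :
    blk (gram2 ![N 0, N 1 * Vᴴ]) j = blk ω j := by
  ext i i'
  rw [hN j]
  fin_cases j
  · exact (Decomp_gram N hV i i').1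
  · exact (Decomp_gram N hV i i').2.2.2

/-- `block_dec`, `avg_unitary` and `tri_form` with `X₀ = N₀`, `X₁ = N₁ W_kᴴ`. -/
theorem decomp {ω : Matrix (Fin 2 × Fin 2) (Fin 2 × Fin 2) ℂ} (hω : ω.PosSemidef) :
    ∃ (U₁ U₂ : Matrix (Fin 2) (Fin 2) ℂ) (a₁ b₁ c₁ a₂ b₂ c₂ : Fin 2 → ℂ),
      U₁ᴴ * U₁ = 1 ∧ U₂ᴴ * U₂ = 1 ∧
      ω = (1 / 2 : ℂ) • (tri U₁ a₁ b₁ c₁ + tri U₂ a₂ b₂ c₂) ∧
      (∀ j, blk (tri U₁ a₁ b₁ c₁) j = blk ω j) ∧ (∀ j, blk (tri U₂ a₂ b₂ c₂) j = blk ω j) := by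
  obtain ⟨N, W, hW, hN, h01, h10⟩ := block_dec hω
  obtain ⟨W1, W2, hW1, hW2, hWs⟩ := avg_unitary hW
  obtain ⟨U₁, a₁, b₁, c₁, hU₁, ht₁⟩ := tri_form ![N 0, N 1 * W1ᴴ]
  obtain ⟨U₂, a₂, b₂, c₂, hU₂, ht₂⟩ := tri_form ![N 0, N 1 * W2ᴴ]
  have hWh : Wᴴ = (1 / 2 : ℂ) • (W1ᴴ + W2ᴴ) := by
    rw [hWs, conjTranspose_smul, conjTranspose_add]
    congr 1
    simp
  refine ⟨U₁, U₂, a₁, b₁, c₁, a₂, b₂, c₂, hU₁, hU₂, ?_, ?_, ?_⟩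
  · rw [← ht₁, ← ht₂]
    have hdiag : ∀ j i i', ω (i, j) (i', j) = (N j * (N j)ᴴ) i i' := fun j i i' => by
      rw [← hN j]
      rfl
    ext ⟨i, j⟩ ⟨i', j'⟩
    rw [Matrix.smul_apply, Matrix.add_apply, smul_eq_mul]
    obtain ⟨g1, g2, g3, g4⟩ := Decomp_gram N hW1 i i'
    obtain ⟨k1, k2, k3, k4⟩ := Decomp_gram N hW2 i i'
    fin_cases j <;> fin_cases j'
    · show ω (i, 0) (i', 0) = _
      refine (hdiag 0 i i').trans ?_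
      show _ = (1 / 2 : ℂ) * (gram2 ![N 0, N 1 * W1ᴴ] (i, 0) (i', 0) +
        gram2 ![N 0, N 1 * W2ᴴ] (i, 0) (i', 0))
      rw [g1, k1]
      ring
    · show ω (i, 0) (i', 1) = (1 / 2 : ℂ) * (gram2 ![N 0, N 1 * W1ᴴ] (i, 0) (i', 1) +
        gram2 ![N 0, N 1 * W2ᴴ] (i, 0) (i', 1))
      rw [g2, k2, h01, hWs, Matrix.mul_smul, Matrix.smul_mul, Matrix.mul_add, Matrix.add_mul,
        Matrix.smul_apply, Matrix.add_apply, smul_eq_mul]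
    · show ω (i, 1) (i', 0) = (1 / 2 : ℂ) * (gram2 ![N 0, N 1 * W1ᴴ] (i, 1) (i', 0) +
        gram2 ![N 0, N 1 * W2ᴴ] (i, 1) (i', 0))
      rw [g3, k3, h10, hWh, Matrix.mul_smul, Matrix.smul_mul, Matrix.mul_add, Matrix.add_mul,
        Matrix.smul_apply, Matrix.add_apply, smul_eq_mul]
    · show ω (i, 1) (i', 1) = _
      refine (hdiag 1 i i').trans ?_
      show _ = (1 / 2 : ℂ) * (gram2 ![N 0, N 1 * W1ᴴ] (i, 1) (i', 1) +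
        gram2 ![N 0, N 1 * W2ᴴ] (i, 1) (i', 1))
      rw [g4, k4]
      ring
  · intro j
    rw [← ht₁]
    exact Decomp_blk N hN hW1 j
  · intro j
    rw [← ht₂]
    exact Decomp_blk N hN hW2 j

end QA
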