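import Pool.Agent.H.MP_dd87f4_mp.DetB2

set_option autoImplicit false
open Matrix
open scoped ComplexOrder

namespace QA

theorem detb1_cs {m : ℕ} (a b : Fin m → ℂ) :
    ‖∑ k, a k * b k‖ ^ 2 ≤ (∑ k, ‖a k‖ ^ 2) * ∑ k, ‖b k‖ ^ 2 := by
  have h1 : ‖∑ k, a k * b k‖ ≤ ∑ k, ‖a k‖ * ‖b k‖ := by
    refine (norm_sum_le _ _).trans (le_of_eq ?_)
    exact Finset.sum_congr rfl fun k _ => norm_mul _ _
  refine (pow_le_pow_left₀ (norm_nonneg _) h1 2).trans ?_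
  exact Finset.sum_mul_sq_le_sq_mul_sq _ _ _

theorem detb1_re {m : ℕ} (z : Fin m → ℂ) : (star z ⬝ᵥ z).re = ∑ k, ‖z k‖ ^ 2 := by
  rw [dotProduct, Complex.re_sum]
  refine Finset.sum_congr rfl fun k _ => ?_
  rw [Pi.star_apply, Complex.star_def, ← Complex.normSq_eq_conj_mul_self, Complex.ofReal_re,
    Complex.normSq_eq_norm_sq]

theorem detb1_diag {n : ℕ} (B : Matrix (Fin 2) (Fin n) ℂ) (i : Fin 2) :
    (B * Bᴴ) i i = ((∑ k, ‖B i k‖ ^ 2 : ℝ) : ℂ) := by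
  rw [Matrix.mul_apply, Complex.ofReal_sum]
  refine Finset.sum_congr rfl fun k _ => ?_
  rw [Matrix.conjTranspose_apply, Complex.star_def, Complex.mul_conj, Complex.normSq_eq_norm_sq]

theorem detb1_rr {n : ℕ} (B : Matrix (Fin 2) (Fin n) ℂ) (i : Fin 2) :
    rr B i = ∑ k, ‖B i k‖ ^ 2 := by
  rw [rr, detb1_diag, Complex.ofReal_re]

theorem detb1_pd {n : ℕ} (A : Matrix (Fin 2) (Fin n) ℂ) (t : ℝ) (ht : 0 < t) :
    ((t : ℂ) • (1 : Matrix (Fin 2) (Fin 2) ℂ) + A * Aᴴ).PosDef := by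
  have h1 : ((t : ℂ) • (1 : Matrix (Fin 2) (Fin 2) ℂ)).PosDef :=
    Matrix.PosDef.one.smul (by exact_mod_cast ht)
  exact h1.add_posSemidef (posSemidef_self_mul_conjTranspose A)

/-- `G = gm B C t ≥ x_i e_i e_iᴴ` with `x_i = t m_i / (q_i + t)`.
Proof.  Let `y = (t + C Cᴴ)⁻¹ C Bᴴ w`.  Then `wᴴ G w = |Bᴴ w - Cᴴ y|² + t |y|²` (expand, using `(t + C Cᴴ) y = C Bᴴ w`).
As the rows of `B` are orthogonal (`hB`), `m_i w_i = <Bᴴ e_i, Bᴴ w> = <Bᴴ e_i, Bᴴ w - Cᴴ y> + <C Bᴴ e_i, y>`, and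
`|Bᴴ e_i|² = m_i`, `|C Bᴴ e_i|² = m_i q_i`; so by Cauchy-Schwarz twice
`m_i ^ 2 |w_i|² ≤ (m_i + m_i q_i / t) (|Bᴴ w - Cᴴ y|² + t |y|²)`.  If `m_i = 0` the claim is `0 ≤ wᴴ G w`. -/
theorem gm_lower {n : ℕ} (B C : Matrix (Fin 2) (Fin n) ℂ) (hB : (B * Bᴴ) 0 1 = 0) (t : ℝ) (ht : 0 < t)
    (w : Fin 2 → ℂ) (i : Fin 2) :
    t * rr B i / (qq B C i + t) * ‖w i‖ ^ 2 ≤ (star w ⬝ᵥ (gm B C t *ᵥ w)).re := by
  set T : Matrix (Fin 2) (Fin 2) ℂ := (t : ℂ) • (1 : Matrix (Fin 2) (Fin 2) ℂ) + C * Cᴴ with hT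
  have hTu : IsUnit T.det := (Matrix.isUnit_iff_isUnit_det _).mp (detb1_pd C t ht).isUnit
  set y : Fin 2 → ℂ := T⁻¹ *ᵥ ((C * Bᴴ) *ᵥ w) with hy
  set z : Fin n → ℂ := Bᴴ *ᵥ w - Cᴴ *ᵥ y with hz
  have hTy : T *ᵥ y = (C * Bᴴ) *ᵥ w := by
    rw [hy, Matrix.mulVec_mulVec, Matrix.mul_nonsing_inv _ hTu, Matrix.one_mulVec]
  have hgw : gm B C t *ᵥ w = B *ᵥ z := by
    have e0 : (B * Cᴴ) *ᵥ y = (B * Cᴴ * T⁻¹) *ᵥ ((C * Bᴴ) *ᵥ w) := by
      rw [hy]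
      exact Matrix.mulVec_mulVec _ _ _
    have e1 : (B * Cᴴ * T⁻¹ * (C * Bᴴ)) *ᵥ w = (B * Cᴴ * T⁻¹) *ᵥ ((C * Bᴴ) *ᵥ w) :=
      (Matrix.mulVec_mulVec _ _ _).symm
    have e2 : B *ᵥ z = (B * Bᴴ) *ᵥ w - (B * Cᴴ) *ᵥ y := by
      rw [hz, Matrix.mulVec_sub, Matrix.mulVec_mulVec, Matrix.mulVec_mulVec]
    rw [gm, Matrix.sub_mulVec, ← hT, e1, e2, e0]
  have hCz : C *ᵥ z = (t : ℂ) • y := by
    rw [hz, Matrix.mulVec_sub, Matrix.mulVec_mulVec, Matrix.mulVec_mulVec, ← hTy, hT,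
      Matrix.add_mulVec, Matrix.smul_mulVec, Matrix.one_mulVec, add_sub_cancel_right]
  have hF : (star w ⬝ᵥ (gm B C t *ᵥ w)).re = ∑ k, ‖z k‖ ^ 2 + t * ∑ k, ‖y k‖ ^ 2 := by
    have e1 : star w ⬝ᵥ (gm B C t *ᵥ w) = star z ⬝ᵥ z + (t : ℂ) * (star y ⬝ᵥ y) := by
      rw [hgw, Matrix.dotProduct_mulVec]
      have e2 : star w ᵥ* B = star (Bᴴ *ᵥ w) := by
        rw [Matrix.star_mulVec, Matrix.conjTranspose_conjTranspose]
      have e3 : Bᴴ *ᵥ w = z + Cᴴ *ᵥ y := by rw [hz, sub_add_cancel]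
      have e4 : star (Cᴴ *ᵥ y) = star y ᵥ* C := by
        rw [Matrix.star_mulVec, Matrix.conjTranspose_conjTranspose]
      rw [e2, e3, star_add, add_dotProduct, e4, ← Matrix.dotProduct_mulVec, hCz,
        dotProduct_smul, smul_eq_mul]
    rw [e1, Complex.add_re, Complex.re_ofReal_mul, detb1_re, detb1_re]
  rw [hF]
  set F : ℝ := ∑ k, ‖z k‖ ^ 2 + t * ∑ k, ‖y k‖ ^ 2 with hFdef
  set Z : ℝ := ∑ k, ‖z k‖ ^ 2 with hZ
  set Y : ℝ := ∑ k, ‖y k‖ ^ 2 with hY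
  have hZ0 : 0 ≤ Z := Finset.sum_nonneg fun k _ => by positivity
  have hY0 : 0 ≤ Y := Finset.sum_nonneg fun k _ => by positivity
  have hF0 : 0 ≤ F := by positivity
  have hq0 : 0 ≤ qq B C i := qq_nonneg B C i
  have hm0 : 0 ≤ rr B i := rr_nonneg B i
  rcases hm0.eq_or_lt with hm | hm
  · rw [← hm, mul_zero, zero_div, zero_mul]
    exact hF0
  -- the main case
  have hrow : (rr B i : ℂ) * w i = (B *ᵥ z) i + ((B * Cᴴ) *ᵥ y) i := by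
    have e1 : B *ᵥ z + (B * Cᴴ) *ᵥ y = (B * Bᴴ) *ᵥ w := by
      rw [hz, Matrix.mulVec_sub, Matrix.mulVec_mulVec, Matrix.mulVec_mulVec, sub_add_cancel]
    have e2 : (B *ᵥ z) i + ((B * Cᴴ) *ᵥ y) i = ((B * Bᴴ) *ᵥ w) i := by
      rw [← e1]
      rfl
    have hB' : (B * Bᴴ) 1 0 = 0 := by
      have h1 : ((B * Bᴴ)ᴴ) 1 0 = star ((B * Bᴴ) 0 1) := Matrix.conjTranspose_apply _ _ _
      rw [Matrix.conjTranspose_mul, Matrix.conjTranspose_conjTranspose, hB, star_zero] at h1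
      exact h1
    rw [e2, detb1_rr, ← detb1_diag, Matrix.mulVec, dotProduct, Fin.sum_univ_two]
    fin_cases i
    · show _ = (B * Bᴴ) 0 0 * w 0 + (B * Bᴴ) 0 1 * w 1
      rw [hB, zero_mul, add_zero]
      rfl
    · show _ = (B * Bᴴ) 1 0 * w 0 + (B * Bᴴ) 1 1 * w 1
      rw [hB', zero_mul, zero_add]
      rfl
  have h1 : ‖(B *ᵥ z) i‖ ^ 2 ≤ rr B i * Z := by
    rw [detb1_rr]
    exact detb1_cs (fun k => B i k) z
  have h2 : ‖((B * Cᴴ) *ᵥ y) i‖ ^ 2 ≤ rr B i * qq B C i * Y := by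
    have e1 : rr B i * qq B C i = ∑ k, ‖(B * Cᴴ) i k‖ ^ 2 := by
      rw [qq]
      field_simp
    rw [e1]
    exact detb1_cs (fun k => (B * Cᴴ) i k) y
  have h3 : rr B i * ‖w i‖ ≤ ‖(B *ᵥ z) i‖ + ‖((B * Cᴴ) *ᵥ y) i‖ := by
    have e1 : ‖(rr B i : ℂ) * w i‖ = rr B i * ‖w i‖ := by
      rw [norm_mul, Complex.norm_real, Real.norm_eq_abs, abs_of_pos hm]
    rw [← e1, hrow]
    exact norm_add_le _ _
  set a : ℝ := ‖(B *ᵥ z) i‖ with ha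
  set b : ℝ := ‖((B * Cᴴ) *ᵥ y) i‖ with hb
  have ha0 : 0 ≤ a := norm_nonneg _
  have hb0 : 0 ≤ b := norm_nonneg _
  set q : ℝ := qq B C i with hq
  set M : ℝ := rr B i with hM
  have h4 : (M * ‖w i‖) ^ 2 ≤ (a + b) ^ 2 :=
    pow_le_pow_left₀ (mul_nonneg hm.le (norm_nonneg _)) h3 2
  -- `t (a + b)^2 ≤ (t + q) M F`
  have h5 : t * (a + b) ^ 2 ≤ (q + t) * (M * F) := by
    rcases hq0.eq_or_lt with hq1 | hq1
    · have hb1 : b ^ 2 ≤ 0 := by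
        have := h2
        rw [← hq1, mul_zero, zero_mul] at this
        exact this
      have hb2 : b = 0 := by nlinarith
      rw [hb2, ← hq1]
      have : M * Z ≤ M * F := by
        refine mul_le_mul_of_nonneg_left ?_ hm.le
        rw [hFdef]
        nlinarith [mul_nonneg ht.le hY0]
      nlinarith
    · -- `(a + b)^2 ≤ (1 + q / t) (a^2 + t / q b^2)`
      have e1 : t * (a + b) ^ 2 ≤ (q + t) * (a ^ 2 + t / q * b ^ 2) := by
        have e2 : (q + t) * (a ^ 2 + t / q * b ^ 2) - t * (a + b) ^ 2 =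
            (q * a - t * b) ^ 2 / q := by
          field_simp
          ring
        have e3 : 0 ≤ (q * a - t * b) ^ 2 / q := by positivity
        linarith
      refine e1.trans (mul_le_mul_of_nonneg_left ?_ (by positivity))
      have e4 : t / q * b ^ 2 ≤ t / q * (M * q * Y) :=
        mul_le_mul_of_nonneg_left h2 (by positivity)
      have e5 : t / q * (M * q * Y) = M * (t * Y) := by
        field_simp
      rw [e5] at e4
      rw [hFdef, mul_add]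
      linarith
  have h6 : t * M * ‖w i‖ ^ 2 * M ≤ (q + t) * F * M := by
    have e1 : t * M * ‖w i‖ ^ 2 * M = t * (M * ‖w i‖) ^ 2 := by ring
    have e2 : (q + t) * F * M = (q + t) * (M * F) := by ring
    rw [e1, e2]
    exact (mul_le_mul_of_nonneg_left h4 ht.le).trans h5
  have h7 : t * M * ‖w i‖ ^ 2 ≤ (q + t) * F := le_of_mul_le_mul_right h6 hm
  have h8 : 0 < q + t := by positivity
  rw [div_mul_eq_mul_div, div_le_iff₀ h8]
  linarith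

theorem gm_herm {n : ℕ} (B C : Matrix (Fin 2) (Fin n) ℂ) (t : ℝ) : (gm B C t).IsHermitian := by
  have hT : ((t : ℂ) • (1 : Matrix (Fin 2) (Fin 2) ℂ) + C * Cᴴ)ᴴ =
      (t : ℂ) • (1 : Matrix (Fin 2) (Fin 2) ℂ) + C * Cᴴ := by
    rw [Matrix.conjTranspose_add, Matrix.conjTranspose_smul, Matrix.conjTranspose_one,
      Matrix.conjTranspose_mul, Matrix.conjTranspose_conjTranspose, Complex.star_def,
      Complex.conj_ofReal]
  unfold Matrix.IsHermitian gm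
  simp only [Matrix.conjTranspose_sub, Matrix.conjTranspose_mul,
    Matrix.conjTranspose_conjTranspose, Matrix.conjTranspose_nonsing_inv, hT, Matrix.mul_assoc]

end QA
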