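import Pool.Agent.H.MP_dd87f4_mp.Defs

set_option autoImplicit false
open Matrix
open scoped ComplexOrder

namespace QA

private theorem DetB2_diag {n m : ℕ} (A : Matrix (Fin m) (Fin n) ℂ) (i : Fin m) :
    ((A * Aᴴ) i i).re = ∑ j, ‖A i j‖ ^ 2 := by
  rw [Matrix.mul_apply, Complex.re_sum]
  refine Finset.sum_congr rfl fun j _ => ?_
  rw [Matrix.conjTranspose_apply, Complex.star_def, Complex.mul_conj, Complex.ofReal_re,
    Complex.normSq_eq_norm_sq]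

theorem rr_nonneg {n : ℕ} (A : Matrix (Fin 2) (Fin n) ℂ) (i : Fin 2) : 0 ≤ rr A i := by
  unfold rr
  rw [DetB2_diag]
  positivity

theorem qq_nonneg {n : ℕ} (B C : Matrix (Fin 2) (Fin n) ℂ) (i : Fin 2) : 0 ≤ qq B C i := by
  unfold qq
  exact div_nonneg (Finset.sum_nonneg fun k _ => sq_nonneg _) (rr_nonneg B i)

theorem rr_sum {n : ℕ} (A : Matrix (Fin 2) (Fin n) ℂ) : ∑ i, rr A i = rtr (A * Aᴴ) := by
  unfold rr rtr Matrix.trace
  rw [Complex.re_sum]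
  rfl

private theorem DetB2_cs {n : ℕ} (b c : EuclideanSpace ℂ (Fin n)) :
    ‖inner ℂ c b‖ ^ 2 / ‖b‖ ^ 2 ≤ ‖c‖ ^ 2 := by
  apply div_le_of_le_mul₀ (sq_nonneg _) (sq_nonneg _)
  rw [← mul_pow]
  exact pow_le_pow_left₀ (norm_nonneg _) (norm_inner_le_norm c b) 2

private theorem DetB2_bessel {n : ℕ} (b0 b1 c : EuclideanSpace ℂ (Fin n))
    (h : inner ℂ b0 b1 = 0) :
    ‖inner ℂ c b0‖ ^ 2 / ‖b0‖ ^ 2 + ‖inner ℂ c b1‖ ^ 2 / ‖b1‖ ^ 2 ≤ ‖c‖ ^ 2 := by
  by_cases hb : b0 = 0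
  · rw [hb, inner_zero_right, norm_zero]
    simpa using DetB2_cs b1 c
  · have hn : ‖b0‖ ≠ 0 := norm_ne_zero_iff.2 hb
    have hn' : (‖b0‖ : ℂ) ≠ 0 := Complex.ofReal_ne_zero.2 hn
    set t : ℂ := inner ℂ b0 c / (‖b0‖ : ℂ) ^ 2 with ht
    set r := c - t • b0 with hr
    have h1 : inner ℂ b0 r = 0 := by
      rw [hr, inner_sub_right, inner_smul_right, inner_self_eq_norm_sq_to_K, ht]
      simp only [Complex.coe_algebraMap]
      field_simp
      simp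
    have h2 : inner ℂ r b1 = inner ℂ c b1 := by
      rw [hr, inner_sub_left, inner_smul_left, h, mul_zero, sub_zero]
    have h3 : c = t • b0 + r := by rw [hr]; abel
    have h4 : ‖c‖ ^ 2 = ‖t • b0‖ ^ 2 + ‖r‖ ^ 2 := by
      have h5 := norm_add_sq_eq_norm_sq_add_norm_sq_of_inner_eq_zero (𝕜 := ℂ) (t • b0) r
        (by rw [inner_smul_left, h1, mul_zero])
      rw [← h3] at h5
      rw [sq, sq, sq]
      exact h5
    have h6 : ‖t • b0‖ ^ 2 = ‖inner ℂ c b0‖ ^ 2 / ‖b0‖ ^ 2 := by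
      rw [norm_smul, ht, norm_div, norm_pow, Complex.norm_real, norm_norm, ← norm_inner_symm]
      field_simp
    have h7 := DetB2_cs b1 r
    rw [h2] at h7
    rw [h4, h6]
    linarith

/-- Bessel's inequality: the rows of `B` are orthogonal (`hB`), so for every row `C_k` of `C`
`∑ i |<B_i, C_k>|² / |B_i|² ≤ |C_k|²` (terms with `B_i = 0` are zero); sum over `k`. -/
theorem qq_sum {n : ℕ} (B C : Matrix (Fin 2) (Fin n) ℂ) (hB : (B * Bᴴ) 0 1 = 0) :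
    ∑ i, qq B C i ≤ rtr (C * Cᴴ) := by
  let bv : Fin 2 → EuclideanSpace ℂ (Fin n) := fun i => WithLp.toLp 2 (B i)
  let cv : Fin 2 → EuclideanSpace ℂ (Fin n) := fun i => WithLp.toLp 2 (C i)
  have hin : ∀ A A' : Matrix (Fin 2) (Fin n) ℂ, ∀ i k, (A * A'ᴴ) i k =
      inner ℂ (WithLp.toLp 2 (A' k) : EuclideanSpace ℂ (Fin n)) (WithLp.toLp 2 (A i)) := by
    intro A A' i k
    rw [Matrix.mul_apply, PiLp.inner_apply]
    refine Finset.sum_congr rfl fun j _ => ?_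
    rw [Matrix.conjTranspose_apply, RCLike.inner_apply]
    rfl
  have hnorm : ∀ A : Matrix (Fin 2) (Fin n) ℂ, ∀ i,
      ‖(WithLp.toLp 2 (A i) : EuclideanSpace ℂ (Fin n))‖ ^ 2 = rr A i := by
    intro A i
    unfold rr
    rw [DetB2_diag, EuclideanSpace.norm_sq_eq]
  have h0 : inner ℂ (bv 0) (bv 1) = 0 := by
    have h := hin B B 0 1
    rw [hB] at h
    exact inner_eq_zero_symm.1 h.symm
  have h1 : ∀ i, qq B C i = ∑ k, ‖inner ℂ (cv k) (bv i)‖ ^ 2 / ‖bv i‖ ^ 2 := by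
    intro i
    unfold qq
    rw [← hnorm B i, Finset.sum_div]
    refine Finset.sum_congr rfl fun k _ => ?_
    rw [hin]
  rw [← rr_sum, Fin.sum_univ_two, h1, h1, ← Finset.sum_add_distrib]
  refine Finset.sum_le_sum fun k _ => ?_
  rw [← hnorm C k]
  exact DetB2_bessel (bv 0) (bv 1) (cv k) h0

end QA
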