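import Mathlib

set_option autoImplicit false
open Matrix
open scoped ComplexOrder

namespace QA

/-- real `2 × 2` determinant inequality (`P12`, `G12` are the absolute values of the off-diagonal entries).
With `y_i = G_ii - x_i ≥ 0`: `det G - x1 x2 ≥ 0` (`G11 G22 - G12 ^ 2 ≥ G11 G22 - (G11 - x1) G22 = x1 G22 ≥ x1 x2`);
`P11 y2 ≥ P12² y2 / P22`, so `P11 y2 + P12² x2 / P22 ≥ P12² G22 / P22`; and
`P22 y1 + P12² G22 / P22 ≥ 2 P12 √(y1 G22) ≥ 2 P12 G12`. -/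
theorem det_two_real {P11 P22 P12 G11 G22 G12 x1 x2 : ℝ} (hP11 : 0 < P11) (hP22 : 0 < P22)
    (hP12 : 0 ≤ P12) (hP : P12 ^ 2 ≤ P11 * P22) (hx1 : 0 ≤ x1) (hx2 : 0 ≤ x2) (h1 : x1 ≤ G11) (h2 : x2 ≤ G22)
    (hG12 : 0 ≤ G12) (hg1 : G12 ^ 2 ≤ (G11 - x1) * G22) (hg2 : G12 ^ 2 ≤ G11 * (G22 - x2)) :
    (P11 * P22 - P12 ^ 2) * ((1 + x1 / P11) * (1 + x2 / P22)) ≤
      (P11 + G11) * (P22 + G22) - (P12 + G12) ^ 2 := by
  have hG22 : 0 ≤ G22 := le_trans hx2 h2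
  have hG11 : 0 ≤ G11 := le_trans hx1 h1
  have hPP : 0 < P11 * P22 := mul_pos hP11 hP22
  -- rewrite the left side
  have hL : (P11 * P22 - P12 ^ 2) * ((1 + x1 / P11) * (1 + x2 / P22)) =
      (P11 * P22 - P12 ^ 2) * ((P11 + x1) * (P22 + x2)) / (P11 * P22) := by
    field_simp
  rw [hL, div_le_iff₀ hPP]
  -- difference
  have e1 : 0 ≤ G11 * G22 - G12 ^ 2 - x1 * x2 := by
    nlinarith [mul_nonneg hx1 (sub_nonneg.mpr h2)]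
  have e2 : 0 ≤ (G11 * G22 - G12 ^ 2 - x1 * x2) * (P11 * P22) := mul_nonneg e1 hPP.le
  have e3 : 0 ≤ x1 * x2 * P12 ^ 2 := by positivity
  -- second bracket times P22: A = P12^2 G22, B = P22^2 y1
  set y1 := G11 - x1 with hy1
  set y2 := G22 - x2 with hy2
  have hy1' : 0 ≤ y1 := sub_nonneg.mpr h1
  have hy2' : 0 ≤ y2 := sub_nonneg.mpr h2
  have k1 : P12 ^ 2 * y2 ≤ P11 * P22 * y2 := mul_le_mul_of_nonneg_right hP hy2'
  have k2 : 2 * P12 * G12 * P22 ≤ P12 ^ 2 * G22 + P22 ^ 2 * y1 := by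
    have hAB : (2 * P12 * G12 * P22) ^ 2 ≤ (P12 ^ 2 * G22 + P22 ^ 2 * y1) ^ 2 := by
      have : (P12 ^ 2 * P22 ^ 2) * G12 ^ 2 ≤ (P12 ^ 2 * P22 ^ 2) * (y1 * G22) :=
        mul_le_mul_of_nonneg_left hg1 (by positivity)
      nlinarith [sq_nonneg (P12 ^ 2 * G22 - P22 ^ 2 * y1)]
    have h0 : 0 ≤ P12 ^ 2 * G22 + P22 ^ 2 * y1 := by positivity
    exact abs_le_of_sq_le_sq' hAB h0 |>.2
  have k3 : 0 ≤ (P11 * P22 * y2 + P22 ^ 2 * y1 + P12 ^ 2 * x2 - 2 * P12 * G12 * P22) * P11 := by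
    apply mul_nonneg _ hP11.le
    have : P12 ^ 2 * G22 = P12 ^ 2 * y2 + P12 ^ 2 * x2 := by rw [hy2]; ring
    linarith
  have k4 : 0 ≤ P12 ^ 2 * x1 * P22 := by positivity
  have key : ((P11 + G11) * (P22 + G22) - (P12 + G12) ^ 2) * (P11 * P22)
      - (P11 * P22 - P12 ^ 2) * ((P11 + x1) * (P22 + x2))
      = (G11 * G22 - G12 ^ 2 - x1 * x2) * (P11 * P22) + x1 * x2 * P12 ^ 2
        + (P11 * P22 * y2 + P22 ^ 2 * y1 + P12 ^ 2 * x2 - 2 * P12 * G12 * P22) * P11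
        + P12 ^ 2 * x1 * P22 := by
    rw [hy1, hy2]; ring
  linarith

end QA
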