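import Pool.Agent.H.MP_dd87f4_mp.DetS
import Pool.Agent.H.MP_dd87f4_mp.DetB
import Pool.Agent.H.MP_dd87f4_mp.DetT

set_option autoImplicit false
open Matrix
open scoped ComplexOrder

namespace QA

private theorem DetI_re {H : Matrix (Fin 2) (Fin 2) ℂ} (hH : H.IsHermitian) (i : Fin 2) :
    (H i i).im = 0 := by
  have h := hH.apply i i
  have h2 := congrArg Complex.im h
  rw [Complex.star_def, Complex.conj_im] at h2
  linarith

private theorem DetI_quad {H : Matrix (Fin 2) (Fin 2) ℂ} (hH : H.IsHermitian) (a b : ℂ) :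
    (star ![a, b] ⬝ᵥ (H *ᵥ ![a, b])).re =
      (H 0 0).re * ‖a‖ ^ 2 + (H 1 1).re * ‖b‖ ^ 2 + 2 * (star a * H 0 1 * b).re := by
  have h0 := DetI_re hH 0
  have h1 := DetI_re hH 1
  have h10 : H 1 0 = star (H 0 1) := (hH.apply 1 0).symm
  simp only [dotProduct, mulVec, Fin.sum_univ_two, Pi.star_apply, Matrix.cons_val_zero,
    Matrix.cons_val_one, h10, Complex.sq_norm, Complex.normSq_apply, Complex.star_def,
    Complex.add_re, Complex.mul_re, Complex.conj_re, Complex.conj_im, Complex.mul_im,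
    Complex.add_im, h0, h1]
  ring

private theorem DetI_det {H : Matrix (Fin 2) (Fin 2) ℂ} (hH : H.IsHermitian) :
    H.det.re = (H 0 0).re * (H 1 1).re - ‖H 0 1‖ ^ 2 ∧ H.det.im = 0 := by
  have h0 := DetI_re hH 0
  have h1 := DetI_re hH 1
  have h10 : H 1 0 = star (H 0 1) := (hH.apply 1 0).symm
  rw [Matrix.det_fin_two, h10]
  constructor
  · simp only [Complex.sq_norm, Complex.normSq_apply, Complex.star_def, Complex.sub_re,
      Complex.mul_re, Complex.conj_re, Complex.conj_im, h0, h1]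
    ring
  · simp only [Complex.star_def, Complex.sub_im, Complex.mul_im, Complex.conj_re,
      Complex.conj_im, h0, h1]
    ring

private theorem DetI_scal {c g h : ℝ} (hg : 0 ≤ g) (hh : 0 ≤ h)
    (H : ∀ α β : ℝ, 0 ≤ c * α ^ 2 + g * (β ^ 2 * h ^ 2) - 2 * (α * β * h ^ 2)) :
    h ^ 2 ≤ c * g := by
  have hc : 0 ≤ c := by
    have := H 1 0
    linarith
  rcases hg.lt_or_eq with h0 | h0
  · have h1 := H g 1
    have h2 : 0 ≤ g * (c * g - h ^ 2) := by nlinarith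
    have h3 : 0 ≤ c * g - h ^ 2 := by
      by_contra h4
      push Not at h4
      have := mul_neg_of_pos_of_neg h0 h4
      linarith
    linarith
  · subst h0
    have h1 := H (h ^ 2) (c + 1)
    have h2 : c * (h ^ 2) ^ 2 + 0 * ((c + 1) ^ 2 * h ^ 2) -
        2 * (h ^ 2 * (c + 1) * h ^ 2) = - ((h ^ 2) ^ 2 * (c + 2)) := by
      ring
    rw [h2] at h1
    by_contra h4
    push Not at h4
    rw [mul_zero] at h4
    have h5 : 0 < (h ^ 2) ^ 2 * (c + 2) := by positivity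
    linarith

private theorem DetI_low0 {H : Matrix (Fin 2) (Fin 2) ℂ} (hH : H.IsHermitian) {x : ℝ}
    (hx : 0 ≤ x) (hq : ∀ w : Fin 2 → ℂ, x * ‖w 0‖ ^ 2 ≤ (star w ⬝ᵥ (H *ᵥ w)).re) :
    x ≤ (H 0 0).re ∧ 0 ≤ (H 1 1).re ∧ ‖H 0 1‖ ^ 2 ≤ ((H 0 0).re - x) * (H 1 1).re := by
  have h1 : x ≤ (H 0 0).re := by
    have := hq ![1, 0]
    rw [DetI_quad hH] at this
    simpa using this
  have h2 : 0 ≤ (H 1 1).re := by
    have := hq ![0, 1]
    rw [DetI_quad hH] at this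
    simpa using this
  refine ⟨h1, h2, DetI_scal h2 (norm_nonneg _) ?_⟩
  intro α β
  have h3 := hq ![(α : ℂ), -(β : ℂ) * star (H 0 1)]
  rw [DetI_quad hH] at h3
  simp only [Matrix.cons_val_zero, norm_mul, norm_neg, Complex.norm_real, norm_star,
    Real.norm_eq_abs, mul_pow, sq_abs] at h3
  have h4 : (star (α : ℂ) * H 0 1 * (-(β : ℂ) * star (H 0 1))).re = -(α * β * ‖H 0 1‖ ^ 2) := by
    have h5 : H 0 1 * star (H 0 1) = ((‖H 0 1‖ ^ 2 : ℝ) : ℂ) := by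
      rw [Complex.star_def, Complex.mul_conj, Complex.normSq_eq_norm_sq]
    have h6 : star (α : ℂ) * H 0 1 * (-(β : ℂ) * star (H 0 1)) =
        ((-(α * β * ‖H 0 1‖ ^ 2) : ℝ) : ℂ) := by
      simp only [Complex.star_def, Complex.conj_ofReal]
      rw [Complex.star_def] at h5
      push_cast
      have h5' := h5
      push_cast at h5'
      linear_combination (-(α : ℂ) * (β : ℂ)) * h5'
    rw [h6, Complex.ofReal_re]
  rw [h4] at h3
  nlinarith

private theorem DetI_low1 {H : Matrix (Fin 2) (Fin 2) ℂ} (hH : H.IsHermitian) {x : ℝ}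
    (hx : 0 ≤ x) (hq : ∀ w : Fin 2 → ℂ, x * ‖w 1‖ ^ 2 ≤ (star w ⬝ᵥ (H *ᵥ w)).re) :
    x ≤ (H 1 1).re ∧ 0 ≤ (H 0 0).re ∧ ‖H 0 1‖ ^ 2 ≤ (H 0 0).re * ((H 1 1).re - x) := by
  have h1 : x ≤ (H 1 1).re := by
    have := hq ![0, 1]
    rw [DetI_quad hH] at this
    simpa using this
  have h2 : 0 ≤ (H 0 0).re := by
    have := hq ![1, 0]
    rw [DetI_quad hH] at this
    simpa using this
  rw [mul_comm]
  refine ⟨h1, h2, DetI_scal h2 (norm_nonneg _) ?_⟩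
  intro α β
  have h3 := hq ![-(β : ℂ) * H 0 1, (α : ℂ)]
  rw [DetI_quad hH] at h3
  have hw1 : (![-(β : ℂ) * H 0 1, (α : ℂ)] : Fin 2 → ℂ) 1 = (α : ℂ) := rfl
  rw [hw1] at h3
  simp only [norm_mul, norm_neg, Complex.norm_real,
    Real.norm_eq_abs, mul_pow, sq_abs] at h3
  have h4 : (star (-(β : ℂ) * H 0 1) * H 0 1 * (α : ℂ)).re = -(α * β * ‖H 0 1‖ ^ 2) := by
    have h5 : H 0 1 * star (H 0 1) = ((‖H 0 1‖ ^ 2 : ℝ) : ℂ) := by
      rw [Complex.star_def, Complex.mul_conj, Complex.normSq_eq_norm_sq]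
    have h6 : star (-(β : ℂ) * H 0 1) * H 0 1 * (α : ℂ) =
        ((-(α * β * ‖H 0 1‖ ^ 2) : ℝ) : ℂ) := by
      rw [star_mul, star_neg]
      simp only [Complex.star_def, Complex.conj_ofReal]
      rw [Complex.star_def] at h5
      push_cast
      have h5' := h5
      push_cast at h5'
      linear_combination (-(α : ℂ) * (β : ℂ)) * h5'
    rw [h6, Complex.ofReal_re]
  rw [h4] at h3
  nlinarith

/-- The determinant inequality.  `det_schur`, then `det (P + G) ≥ det P ∏ (1 + x_i / P_ii)` by `det_two_real`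
with `P = t • 1 + A Aᴴ` (`P_ii = r_i + t`), `G = gm B C t`, `x_i = t m_i / (q_i + t)`; the hypotheses on `G` follow from `gm_lower`
(a Hermitian `2 × 2` matrix whose quadratic form is `≥ x |w_i|²`: the matrix `G - x e_i e_iᴴ` is PSD, so its diagonal entries and its
determinant are nonnegative). -/
theorem det_ineq {n : ℕ} (A B C : Matrix (Fin 2) (Fin n) ℂ) (hB : (B * Bᴴ) 0 1 = 0) (t : ℝ) (ht : 0 < t) :
    (((t : ℂ) • (1 : Matrix (Fin 2) (Fin 2) ℂ) + A * Aᴴ).det).re *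
      (((t : ℂ) • (1 : Matrix (Fin 2) (Fin 2) ℂ) + C * Cᴴ).det).re *
        ∏ i, ((rr A i + t) * (qq B C i + t) + t * rr B i) ≤
    (((t : ℂ) • (1 : Matrix (Fin 2 ⊕ Fin 2) (Fin 2 ⊕ Fin 2) ℂ) + Om A B C).det).re *
        ∏ i, ((rr A i + t) * (qq B C i + t)) := by
  have hPd := posDef_t A t ht
  have hCd := posDef_t C t ht
  have hPh : ((t : ℂ) • (1 : Matrix (Fin 2) (Fin 2) ℂ) + A * Aᴴ).IsHermitian := hPd.isHermitian
  have hGh := gm_herm B C t
  have hm : ∀ i, 0 ≤ rr B i := rr_nonneg B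
  have hq : ∀ i, 0 ≤ qq B C i := qq_nonneg B C
  have hr : ∀ i, 0 ≤ rr A i := rr_nonneg A
  have hx : ∀ i, 0 ≤ t * rr B i / (qq B C i + t) := fun i =>
    div_nonneg (mul_nonneg ht.le (hm i)) (by have := hq i; linarith)
  obtain ⟨g1, g2, g3⟩ := DetI_low0 hGh (hx 0) (fun w => gm_lower B C hB t ht w 0)
  obtain ⟨g4, g5, g6⟩ := DetI_low1 hGh (hx 1) (fun w => gm_lower B C hB t ht w 1)
  have hdP := DetI_det hPh
  have hdS := DetI_det (hPh.add hGh)
  have hdC := DetI_det hCd.isHermitian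
  have e0 : (((t : ℂ) • (1 : Matrix (Fin 2) (Fin 2) ℂ) + A * Aᴴ) 0 0).re = rr A 0 + t := by
    simp [rr, Matrix.add_apply, Matrix.smul_apply]
    ring
  have e1 : (((t : ℂ) • (1 : Matrix (Fin 2) (Fin 2) ℂ) + A * Aᴴ) 1 1).re = rr A 1 + t := by
    simp [rr, Matrix.add_apply, Matrix.smul_apply]
    ring
  have hP0 : 0 < rr A 0 + t := by have := hr 0; linarith
  have hP1 : 0 < rr A 1 + t := by have := hr 1; linarith
  have hdet0 : 0 ≤ ((t : ℂ) • (1 : Matrix (Fin 2) (Fin 2) ℂ) + A * Aᴴ).det.re :=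
    (Complex.le_def.1 hPd.posSemidef.det_nonneg).1
  have hdetC : 0 ≤ ((t : ℂ) • (1 : Matrix (Fin 2) (Fin 2) ℂ) + C * Cᴴ).det.re :=
    (Complex.le_def.1 hCd.posSemidef.det_nonneg).1
  have hPP : ‖((t : ℂ) • (1 : Matrix (Fin 2) (Fin 2) ℂ) + A * Aᴴ) 0 1‖ ^ 2 ≤
      (rr A 0 + t) * (rr A 1 + t) := by
    have h := hdP.1
    rw [e0, e1] at h
    linarith
  have key := det_two_real hP0 hP1 (norm_nonneg _) hPP (hx 0) (hx 1) g1 g4 (norm_nonneg _) g3 g6
  have hS : ((rr A 0 + t) + (gm B C t 0 0).re) * ((rr A 1 + t) + (gm B C t 1 1).re) -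
      (‖((t : ℂ) • (1 : Matrix (Fin 2) (Fin 2) ℂ) + A * Aᴴ) 0 1‖ + ‖gm B C t 0 1‖) ^ 2 ≤
      ((t : ℂ) • (1 : Matrix (Fin 2) (Fin 2) ℂ) + A * Aᴴ + gm B C t).det.re := by
    have s0 : (((t : ℂ) • (1 : Matrix (Fin 2) (Fin 2) ℂ) + A * Aᴴ + gm B C t) 0 0).re =
        (rr A 0 + t) + (gm B C t 0 0).re := by
      rw [← e0, ← Complex.add_re]
      rfl
    have s1 : (((t : ℂ) • (1 : Matrix (Fin 2) (Fin 2) ℂ) + A * Aᴴ + gm B C t) 1 1).re =
        (rr A 1 + t) + (gm B C t 1 1).re := by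
      rw [← e1, ← Complex.add_re]
      rfl
    have s2 : ((t : ℂ) • (1 : Matrix (Fin 2) (Fin 2) ℂ) + A * Aᴴ + gm B C t) 0 1 =
        ((t : ℂ) • (1 : Matrix (Fin 2) (Fin 2) ℂ) + A * Aᴴ) 0 1 + gm B C t 0 1 := rfl
    rw [hdS.1, s0, s1, s2]
    have h := norm_add_le (((t : ℂ) • (1 : Matrix (Fin 2) (Fin 2) ℂ) + A * Aᴴ) 0 1) (gm B C t 0 1)
    have h2 := pow_le_pow_left₀ (norm_nonneg _) h 2
    linarith
  have hdPe : ((t : ℂ) • (1 : Matrix (Fin 2) (Fin 2) ℂ) + A * Aᴴ).det.re =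
      (rr A 0 + t) * (rr A 1 + t) -
        ‖((t : ℂ) • (1 : Matrix (Fin 2) (Fin 2) ℂ) + A * Aᴴ) 0 1‖ ^ 2 := by
    rw [hdP.1, e0, e1]
  rw [← hdPe] at key
  have key2 := key.trans hS
  rw [det_schur A B C t ht, Complex.mul_re, hdC.2, zero_mul, sub_zero, Fin.prod_univ_two,
    Fin.prod_univ_two]
  have hq0 : 0 < qq B C 0 + t := by have := hq 0; linarith
  have hq1 : 0 < qq B C 1 + t := by have := hq 1; linarith
  have f0 : (rr A 0 + t) * (qq B C 0 + t) + t * rr B 0 =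
      (rr A 0 + t) * (qq B C 0 + t) * (1 + t * rr B 0 / (qq B C 0 + t) / (rr A 0 + t)) := by
    field_simp
  have f1 : (rr A 1 + t) * (qq B C 1 + t) + t * rr B 1 =
      (rr A 1 + t) * (qq B C 1 + t) * (1 + t * rr B 1 / (qq B C 1 + t) / (rr A 1 + t)) := by
    field_simp
  rw [f0, f1]
  have hprod : 0 ≤ ((t : ℂ) • (1 : Matrix (Fin 2) (Fin 2) ℂ) + C * Cᴴ).det.re *
      (((rr A 0 + t) * (qq B C 0 + t)) * ((rr A 1 + t) * (qq B C 1 + t))) :=
    mul_nonneg hdetC (by positivity)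
  have := mul_le_mul_of_nonneg_left key2 hprod
  calc _ = ((t : ℂ) • (1 : Matrix (Fin 2) (Fin 2) ℂ) + C * Cᴴ).det.re *
      (((rr A 0 + t) * (qq B C 0 + t)) * ((rr A 1 + t) * (qq B C 1 + t))) *
      (((t : ℂ) • (1 : Matrix (Fin 2) (Fin 2) ℂ) + A * Aᴴ).det.re *
        ((1 + t * rr B 0 / (qq B C 0 + t) / (rr A 0 + t)) *
          (1 + t * rr B 1 / (qq B C 1 + t) / (rr A 1 + t)))) := by ring
    _ ≤ _ := this
    _ = _ := by ring

end QA
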