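import Pool.Agent.H.MP_dd87f4_mp.Defs

set_option autoImplicit false
open Matrix
open scoped ComplexOrder

namespace QA

/-- `t • 1 + A Aᴴ` is positive definite for `t > 0`. -/
theorem posDef_t {n : ℕ} (A : Matrix (Fin 2) (Fin n) ℂ) (t : ℝ) (ht : 0 < t) :
    ((t : ℂ) • (1 : Matrix (Fin 2) (Fin 2) ℂ) + A * Aᴴ).PosDef := by
  have h1 : ((t : ℂ) • (1 : Matrix (Fin 2) (Fin 2) ℂ)).PosDef :=
    Matrix.PosDef.one.smul (by exact_mod_cast ht)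
  exact h1.add_posSemidef (posSemidef_self_mul_conjTranspose A)

/-- Schur complement formula: `Matrix.det_fromBlocks₂₂` applied to
`t • 1 + Om = fromBlocks (t•1 + A Aᴴ + B Bᴴ) (B Cᴴ) (C Bᴴ) (t•1 + C Cᴴ)` (`t•1 + C Cᴴ` is positive definite, hence invertible). -/
theorem det_schur {n : ℕ} (A B C : Matrix (Fin 2) (Fin n) ℂ) (t : ℝ) (ht : 0 < t) :
    ((t : ℂ) • (1 : Matrix (Fin 2 ⊕ Fin 2) (Fin 2 ⊕ Fin 2) ℂ) + Om A B C).det =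
      ((t : ℂ) • (1 : Matrix (Fin 2) (Fin 2) ℂ) + C * Cᴴ).det *
        ((t : ℂ) • (1 : Matrix (Fin 2) (Fin 2) ℂ) + A * Aᴴ + gm B C t).det := by
  have h1 : (t : ℂ) • (1 : Matrix (Fin 2 ⊕ Fin 2) (Fin 2 ⊕ Fin 2) ℂ) + Om A B C =
      Matrix.fromBlocks ((t : ℂ) • (1 : Matrix (Fin 2) (Fin 2) ℂ) + (A * Aᴴ + B * Bᴴ)) (B * Cᴴ)
        (C * Bᴴ) ((t : ℂ) • (1 : Matrix (Fin 2) (Fin 2) ℂ) + C * Cᴴ) := by
    rw [← Matrix.fromBlocks_one, Matrix.fromBlocks_smul, Om, Matrix.fromBlocks_add]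
    simp only [smul_zero, zero_add]
  have hu : IsUnit ((t : ℂ) • (1 : Matrix (Fin 2) (Fin 2) ℂ) + C * Cᴴ) :=
    (posDef_t C t ht).isUnit
  letI : Invertible ((t : ℂ) • (1 : Matrix (Fin 2) (Fin 2) ℂ) + C * Cᴴ) := hu.invertible
  rw [h1, Matrix.det_fromBlocks₂₂, Matrix.invOf_eq_nonsing_inv]
  congr 2
  rw [gm]
  abel

end QA
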