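import Pool.Agent.H.MP_dd87f4_mp.EntB1

set_option autoImplicit false
open Matrix
open scoped ComplexOrder

namespace QA

theorem entb2_det {A : Matrix (Fin 2) (Fin 2) ℂ} (hA : A.IsHermitian) :
    (A.det).re = hA.eigenvalues 0 * hA.eigenvalues 1 := by
  rw [hA.det_eq_prod_eigenvalues, Fin.prod_univ_two]
  have : ((hA.eigenvalues 0 : ℂ) * (hA.eigenvalues 1 : ℂ)) =
      ((hA.eigenvalues 0 * hA.eigenvalues 1 : ℝ) : ℂ) := by push_cast; ring
  exact (congrArg Complex.re this).trans (Complex.ofReal_re _)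

theorem entb2_tr {A : Matrix (Fin 2) (Fin 2) ℂ} (hA : A.IsHermitian) :
    rtr A = hA.eigenvalues 0 + hA.eigenvalues 1 := by
  rw [← sum_eig hA, Fin.sum_univ_two]

/-- `2 × 2` case: entropy in terms of trace and determinant -/
theorem ent_two {A : Matrix (Fin 2) (Fin 2) ℂ} (hA : A.PosSemidef) :
    ent A = ee (rtr A) (A.det).re := by
  rw [ent_eq hA.1, Fin.sum_univ_two, entb2_det hA.1, entb2_tr hA.1]
  unfold ee mup mum
  set x := hA.1.eigenvalues 0
  set y := hA.1.eigenvalues 1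
  have h : (x + y) ^ 2 - 4 * (x * y) = (x - y) ^ 2 := by ring
  rw [h, Real.sqrt_sq_eq_abs]
  rcases le_total y x with hxy | hxy
  · rw [abs_of_nonneg (sub_nonneg.2 hxy)]
    have e1 : (x + y + (x - y)) / 2 = x := by ring
    have e2 : (x + y - (x - y)) / 2 = y := by ring
    rw [e1, e2]
  · rw [abs_of_nonpos (sub_nonpos.2 hxy)]
    have e1 : (x + y + -(x - y)) / 2 = y := by ring
    have e2 : (x + y - -(x - y)) / 2 = x := by ring
    rw [e1, e2, add_comm]

/-- `2 × 2` PSD: `0 ≤ det` and `4 det ≤ tr ^ 2` -/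
theorem four_det_le {A : Matrix (Fin 2) (Fin 2) ℂ} (hA : A.PosSemidef) :
    0 ≤ (A.det).re ∧ 4 * (A.det).re ≤ (rtr A) ^ 2 := by
  rw [entb2_det hA.1, entb2_tr hA.1]
  refine ⟨mul_nonneg (hA.eigenvalues_nonneg 0) (hA.eigenvalues_nonneg 1), ?_⟩
  nlinarith [sq_nonneg (hA.1.eigenvalues 0 - hA.1.eigenvalues 1)]

end QA
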