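import Pool.Agent.H.MP_dd87f4_mp.EntB1
import Pool.Agent.H.MP_dd87f4_mp.EntB2
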