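import Pool.Agent.H.MP_dd87f4_mp.Defs

set_option autoImplicit false
open Matrix
open scoped ComplexOrder

namespace QA

variable {ι κ : Type*} [Fintype ι] [DecidableEq ι] [Fintype κ] [DecidableEq κ]

/-- Hermitian case: `ent` is the sum over the eigenvalues
(`Matrix.IsHermitian.roots_charpoly_eq_eigenvalues`). -/
theorem ent_eq {A : Matrix ι ι ℂ} (hA : A.IsHermitian) :
    ent A = ∑ i, Real.negMulLog (hA.eigenvalues i) := by
  unfold ent
  rw [hA.roots_charpoly_eq_eigenvalues, Multiset.map_map]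
  rfl

/-- unitary invariance (the characteristic polynomials agree) -/
theorem ent_unitary (U A : Matrix ι ι ℂ) (hU : Uᴴ * U = 1) : ent (U * A * Uᴴ) = ent A := by
  unfold ent
  have h : (U * A * Uᴴ).charpoly = A.charpoly := by
    rw [Matrix.charpoly_mul_comm, ← Matrix.mul_assoc, hU, Matrix.one_mul]
  rw [h]

/-- relabelling -/
theorem ent_reindex (e : ι ≃ κ) (A : Matrix ι ι ℂ) : ent (A.submatrix e.symm e.symm) = ent A := by
  unfold ent
  have h : (A.submatrix e.symm e.symm).charpoly = A.charpoly := Matrix.charpoly_reindex e A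
  rw [h]

theorem det_eig {A : Matrix ι ι ℂ} (hA : A.IsHermitian) (t : ℝ) :
    (((t : ℂ) • (1 : Matrix ι ι ℂ) + A).det).re = ∏ i, (t + hA.eigenvalues i) := by
  have h1 : ((t : ℂ) • (1 : Matrix ι ι ℂ) + A) = -(Matrix.scalar ι (-(t : ℂ)) - A) := by
    ext i j
    simp [Matrix.scalar_apply, Matrix.diagonal_apply, Matrix.one_apply]
    split_ifs <;> ring
  have h2 : (Matrix.scalar ι (-(t : ℂ)) - A).det = ∏ i, (-(t : ℂ) - (hA.eigenvalues i : ℂ)) := by
    rw [← Matrix.eval_charpoly, hA.charpoly_eq, Polynomial.eval_prod]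
    refine Finset.prod_congr rfl fun i _ => ?_
    simp
  rw [h1, Matrix.det_neg, h2, ← Finset.card_univ, ← Finset.prod_const, ← Finset.prod_mul_distrib]
  have h3 : ∏ i, ((-1 : ℂ) * (-(t : ℂ) - (hA.eigenvalues i : ℂ))) =
      ((∏ i, (t + hA.eigenvalues i) : ℝ) : ℂ) := by
    push_cast
    refine Finset.prod_congr rfl fun i _ => ?_
    ring
  rw [h3, Complex.ofReal_re]

theorem sum_eig {A : Matrix ι ι ℂ} (hA : A.IsHermitian) : ∑ i, hA.eigenvalues i = rtr A := by
  unfold rtr
  rw [hA.trace_eq_sum_eigenvalues]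
  simp

end QA
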