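import Pool.Agent.H.MP_dd87f4_mp.Defs

set_option autoImplicit false
open Matrix
open scoped ComplexOrder

namespace QA

variable {ι : Type*} [Fintype ι] [DecidableEq ι]

private theorem entc_eq {A : Matrix ι ι ℂ} (hA : A.IsHermitian) :
    ent A = ∑ i, Real.negMulLog (hA.eigenvalues i) := by
  unfold ent
  rw [hA.roots_charpoly_eq_eigenvalues, Multiset.map_map]
  rfl

private theorem entc_spec {A : Matrix ι ι ℂ} (hA : A.IsHermitian) :
    A = (hA.eigenvectorUnitary : Matrix ι ι ℂ) * diagonal (fun i => (hA.eigenvalues i : ℂ)) *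
      (hA.eigenvectorUnitary : Matrix ι ι ℂ)ᴴ := by
  have h := hA.spectral_theorem
  rw [Unitary.conjStarAlgAut_apply] at h
  exact h

private theorem entc_peierls {X : Matrix ι ι ℂ} (hX : X.PosSemidef) (V : Matrix ι ι ℂ)
    (hV : Vᴴ * V = 1) :
    ent X ≤ ∑ i, Real.negMulLog ((Vᴴ * X * V) i i).re := by
  have hH := hX.isHermitian
  set W : Matrix ι ι ℂ := (hH.eigenvectorUnitary : Matrix ι ι ℂ) with hW
  have hW1 : Wᴴ * W = 1 := Unitary.coe_star_mul_self hH.eigenvectorUnitary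
  have hW2 : W * Wᴴ = 1 := Unitary.coe_mul_star_self hH.eigenvectorUnitary
  have hV2 : V * Vᴴ = 1 := mul_eq_one_comm.1 hV
  set Z : Matrix ι ι ℂ := Vᴴ * W with hZ
  have hZ1 : Z * Zᴴ = 1 := by
    rw [hZ, conjTranspose_mul, conjTranspose_conjTranspose]
    calc Vᴴ * W * (Wᴴ * V) = Vᴴ * (W * Wᴴ) * V := by simp only [Matrix.mul_assoc]
      _ = 1 := by rw [hW2, Matrix.mul_one, hV]
  have hZ2 : Zᴴ * Z = 1 := mul_eq_one_comm.1 hZ1
  have hdiag : Vᴴ * X * V = Z * diagonal (fun i => (hH.eigenvalues i : ℂ)) * Zᴴ := by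
    conv_lhs => rw [entc_spec hH]
    rw [hZ, conjTranspose_mul, conjTranspose_conjTranspose]
    simp only [Matrix.mul_assoc]
    rfl
  have hent : ∀ i, ((Vᴴ * X * V) i i).re = ∑ j, Complex.normSq (Z i j) • hH.eigenvalues j := by
    intro i
    rw [hdiag, Matrix.mul_apply, Complex.re_sum]
    refine Finset.sum_congr rfl fun j _ => ?_
    rw [Matrix.mul_diagonal, conjTranspose_apply]
    have : Z i j * (hH.eigenvalues j : ℂ) * star (Z i j) =
        ((Complex.normSq (Z i j) * hH.eigenvalues j : ℝ) : ℂ) := by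
      rw [Complex.ofReal_mul, ← Complex.mul_conj]
      change Z i j * (hH.eigenvalues j : ℂ) * (starRingEnd ℂ) (Z i j) = _
      ring
    rw [this, Complex.ofReal_re, smul_eq_mul]
  have hrow : ∀ i, ∑ j, Complex.normSq (Z i j) = 1 := by
    intro i
    have h := congrFun (congrFun hZ1 i) i
    rw [Matrix.mul_apply, Matrix.one_apply_eq] at h
    have h2 : ((∑ j, Complex.normSq (Z i j) : ℝ) : ℂ) = 1 := by
      rw [← h, Complex.ofReal_sum]
      refine Finset.sum_congr rfl fun j _ => ?_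
      rw [conjTranspose_apply, ← Complex.mul_conj]
      rfl
    exact_mod_cast h2
  have hcol : ∀ j, ∑ i, Complex.normSq (Z i j) = 1 := by
    intro j
    have h := congrFun (congrFun hZ2 j) j
    rw [Matrix.mul_apply, Matrix.one_apply_eq] at h
    have h2 : ((∑ i, Complex.normSq (Z i j) : ℝ) : ℂ) = 1 := by
      rw [← h, Complex.ofReal_sum]
      refine Finset.sum_congr rfl fun i _ => ?_
      rw [conjTranspose_apply, ← Complex.mul_conj, mul_comm]
      rfl
    exact_mod_cast h2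
  have hJ : ∀ i, ∑ j, Complex.normSq (Z i j) • Real.negMulLog (hH.eigenvalues j) ≤
      Real.negMulLog ((Vᴴ * X * V) i i).re := by
    intro i
    rw [hent i]
    exact Real.concaveOn_negMulLog.le_map_sum (fun j _ => Complex.normSq_nonneg _) (hrow i)
      (fun j _ => hX.eigenvalues_nonneg j)
  calc ent X = ∑ j, Real.negMulLog (hH.eigenvalues j) := entc_eq hH
    _ = ∑ j, (∑ i, Complex.normSq (Z i j)) * Real.negMulLog (hH.eigenvalues j) := by
        refine Finset.sum_congr rfl fun j _ => ?_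
        rw [hcol j, one_mul]
    _ = ∑ i, ∑ j, Complex.normSq (Z i j) • Real.negMulLog (hH.eigenvalues j) := by
        rw [Finset.sum_comm]
        refine Finset.sum_congr rfl fun j _ => ?_
        rw [Finset.sum_mul]
        rfl
    _ ≤ ∑ i, Real.negMulLog ((Vᴴ * X * V) i i).re := Finset.sum_le_sum fun i _ => hJ i

/-- Midpoint concavity of the entropy.  Proof (Peierls / Jensen): let `C = (A + B) / 2`,
`C = V diag(c) Vᴴ` (spectral theorem).  For PSD `X` and the unitary `V`,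
`ent X ≤ ∑ i η ((Vᴴ X V) i i)` because `(Vᴴ X V) i i = ∑ j |<v_i, w_j>|² x_j` (`x_j`, `w_j` the eigenpairs of `X`),
`∑ j |<v_i, w_j>|² = 1 = ∑ i |<v_i, w_j>|²` and `η = Real.negMulLog` is concave on `[0, ∞)`
(`Real.concaveOn_negMulLog`, `ConcaveOn.le_map_sum`).  Then
`ent C = ∑ i η (c i) = ∑ i η (((Vᴴ A V) i i + (Vᴴ B V) i i) / 2) ≥ (1/2) ∑ i η ((Vᴴ A V) i i) + (1/2) ∑ i η ((Vᴴ B V) i i)`. -/
theorem ent_concave {A B : Matrix ι ι ℂ} (hA : A.PosSemidef) (hB : B.PosSemidef) :
    (ent A + ent B) / 2 ≤ ent ((1 / 2 : ℂ) • (A + B)) := by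
  have hC : ((1 / 2 : ℂ) • (A + B)).IsHermitian := by
    have h := (hA.isHermitian).add hB.isHermitian
    unfold Matrix.IsHermitian at h ⊢
    rw [conjTranspose_smul, h]
    congr 1
    simp
  set V : Matrix ι ι ℂ := (hC.eigenvectorUnitary : Matrix ι ι ℂ) with hV
  have hV1 : Vᴴ * V = 1 := Unitary.coe_star_mul_self hC.eigenvectorUnitary
  have hdiag : Vᴴ * ((1 / 2 : ℂ) • (A + B)) * V = diagonal (fun i => (hC.eigenvalues i : ℂ)) := by
    conv_lhs => rw [entc_spec hC]
    calc Vᴴ * (V * diagonal (fun i => (hC.eigenvalues i : ℂ)) * Vᴴ) * V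
        = (Vᴴ * V) * diagonal (fun i => (hC.eigenvalues i : ℂ)) * (Vᴴ * V) := by
          simp only [Matrix.mul_assoc]
      _ = _ := by rw [hV1, Matrix.one_mul, Matrix.mul_one]
  have hA0 : ∀ i, 0 ≤ ((Vᴴ * A * V) i i).re := by
    intro i
    have h := (hA.conjTranspose_mul_mul_same V).diag_nonneg (i := i)
    exact (Complex.le_def.1 h).1
  have hB0 : ∀ i, 0 ≤ ((Vᴴ * B * V) i i).re := by
    intro i
    have h := (hB.conjTranspose_mul_mul_same V).diag_nonneg (i := i)
    exact (Complex.le_def.1 h).1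
  have heig : ∀ i, hC.eigenvalues i =
      (1 / 2 : ℝ) * ((Vᴴ * A * V) i i).re + (1 / 2 : ℝ) * ((Vᴴ * B * V) i i).re := by
    intro i
    have h := congrFun (congrFun hdiag i) i
    rw [diagonal_apply_eq] at h
    have h2 : Vᴴ * ((1 / 2 : ℂ) • (A + B)) * V =
        (1 / 2 : ℂ) • (Vᴴ * A * V) + (1 / 2 : ℂ) • (Vᴴ * B * V) := by
      rw [Matrix.mul_smul, Matrix.smul_mul, Matrix.mul_add, Matrix.add_mul, smul_add]
    rw [h2] at h
    have h3 := congrArg Complex.re h
    rw [Complex.ofReal_re] at h3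
    rw [← h3]
    simp
  rw [entc_eq hC]
  have hc : ∀ i, (1 / 2 : ℝ) * Real.negMulLog ((Vᴴ * A * V) i i).re +
      (1 / 2 : ℝ) * Real.negMulLog ((Vᴴ * B * V) i i).re ≤
      Real.negMulLog (hC.eigenvalues i) := by
    intro i
    rw [heig i]
    exact Real.concaveOn_negMulLog.2 (hA0 i) (hB0 i) (by norm_num) (by norm_num) (by norm_num)
  have h1 := entc_peierls hA V hV1
  have h2 := entc_peierls hB V hV1
  have h3 := Finset.sum_le_sum fun i (_ : i ∈ Finset.univ) => hc i
  rw [Finset.sum_add_distrib, ← Finset.mul_sum, ← Finset.mul_sum] at h3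
  linarith

end QA
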