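import Pool.Agent.H.MP_dd87f4_mp.Defs

set_option autoImplicit false
open Matrix
open scoped ComplexOrder

namespace QA

private theorem Fin1_kron (A B : Matrix (Fin 2) (Fin 2) ℂ) :
    Matrix.kronecker A B =
      Matrix.kronecker (1 : Matrix (Fin 2) (Fin 2) ℂ) B *
        Matrix.kronecker A (1 : Matrix (Fin 2) (Fin 2) ℂ) := by
  have h := Matrix.mul_kronecker_mul (1 : Matrix (Fin 2) (Fin 2) ℂ) A B
    (1 : Matrix (Fin 2) (Fin 2) ℂ)
  rw [Matrix.one_mul, Matrix.mul_one] at h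
  exact h

private theorem Fin1_blk (ω : Matrix (Fin 2 × Fin 2) (Fin 2 × Fin 2) ℂ) (j a b : Fin 2) :
    blk ω j a b = ω (a, j) (b, j) := rfl

theorem joint_eq {m n : ℕ} (K : Fin m → Matrix (Fin 2) (Fin 2) ℂ) (M : Fin n → Matrix (Fin 2) (Fin 2) ℂ)
    (ρ : Matrix (Fin 2 × Fin 2) (Fin 2 × Fin 2) ℂ) :
    (∑ p : Fin m × Fin n, Matrix.kronecker (K p.1) (M p.2) * ρ * (Matrix.kronecker (K p.1) (M p.2))ᴴ) =
      outR M (outL K ρ) := by
  unfold outR outL
  rw [Fintype.sum_prod_type, Finset.sum_comm]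
  refine Finset.sum_congr rfl fun j _ => ?_
  rw [Matrix.mul_sum, Matrix.sum_mul]
  refine Finset.sum_congr rfl fun i _ => ?_
  rw [Fin1_kron (K i) (M j), Matrix.conjTranspose_mul]
  simp only [Matrix.mul_assoc]

theorem outL_psd {m : ℕ} (K : Fin m → Matrix (Fin 2) (Fin 2) ℂ)
    {ρ : Matrix (Fin 2 × Fin 2) (Fin 2 × Fin 2) ℂ} (hρ : ρ.PosSemidef) : (outL K ρ).PosSemidef := by
  unfold outL
  exact Matrix.posSemidef_sum _ fun i _ => hρ.mul_mul_conjTranspose_same _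

theorem blk_outL {m : ℕ} (K : Fin m → Matrix (Fin 2) (Fin 2) ℂ)
    (ρ : Matrix (Fin 2 × Fin 2) (Fin 2 × Fin 2) ℂ) (j : Fin 2) :
    blk (outL K ρ) j = out K (blk ρ j) := by
  ext a b
  rw [Fin1_blk]
  unfold outL out
  simp only [Matrix.sum_apply]
  refine Finset.sum_congr rfl fun i _ => ?_
  fin_cases j <;>
    simp [Matrix.mul_apply, Fintype.sum_prod_type, Fin.sum_univ_two, Matrix.kronecker,
      Matrix.kroneckerMap_apply, Matrix.conjTranspose_apply, Fin1_blk]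

end QA
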