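import Pool.Agent.H.MP_dd87f4_mp.Main
import Pool.Agent.H.MP_dd87f4_mp.Fin1

set_option autoImplicit false
open Matrix
open scoped ComplexOrder

namespace QA

theorem blk_psd {ρ : Matrix (Fin 2 × Fin 2) (Fin 2 × Fin 2) ℂ} (hρ : ρ.PosSemidef) (j : Fin 2) :
    (blk ρ j).PosSemidef := by
  have h := hρ.submatrix (fun i : Fin 2 => (i, j))
  exact h

theorem blk_trace (ρ : Matrix (Fin 2 × Fin 2) (Fin 2 × Fin 2) ℂ) : ∑ j, (blk ρ j).trace = ρ.trace := by
  simp only [Matrix.trace, Matrix.diag, blk]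
  rw [Fintype.sum_prod_type, Finset.sum_comm]

theorem final :
    ∀ (m n : ℕ) (K : Fin m → Matrix (Fin 2) (Fin 2) ℂ) (M : Fin n → Matrix (Fin 2) (Fin 2) ℂ),
      ∑ i, (K i)ᴴ * K i = 1 → ∑ j, (M j)ᴴ * M j = 1 →
      ∀ ρ : Matrix (Fin 2 × Fin 2) (Fin 2 × Fin 2) ℂ, ρ.PosSemidef → ρ.trace = 1 →
        ∃ σ τ : Matrix (Fin 2) (Fin 2) ℂ,
          σ.PosSemidef ∧ σ.trace = 1 ∧ τ.PosSemidef ∧ τ.trace = 1 ∧
          ent (out K σ) + ent (out M τ) ≤ ent (outR M (outL K ρ)) := by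
  intro m n K M hK hM ρ hρ htr
  obtain ⟨σ, hσ, hσt, hσm⟩ := exists_min K
  obtain ⟨τ, hτ, hτt, hτm⟩ := exists_min M
  refine ⟨σ, τ, hσ, hσt, hτ, hτt, ?_⟩
  have e1 : ent (out K σ) = hh ((out K σ).det).re := by
    rw [ent_two (out_psd K hσ)]
    simp [rtr, out_trace K hK, hσt, hh]
  have e2 : ent (out M τ) = hh ((out M τ).det).re := by
    rw [ent_two (out_psd M hτ)]
    simp [rtr, out_trace M hM, hτt, hh]
  rw [e1, e2, add_comm]
  refine main_ineq M hM (outL_psd K hρ) (four_det_le (out_psd M hτ)).1 (four_det_le (out_psd K hσ)).1 hτm ?_ ?_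
  · have h1 : ∀ j, rtr (blk (outL K ρ) j) = ((blk ρ j).trace).re := by
      intro j
      rw [blk_outL, rtr, out_trace K hK]
    simp only [h1]
    rw [← Complex.re_sum, blk_trace, htr]
    simp
  · intro j
    have h2 : rtr (blk (outL K ρ) j) = rtr (blk ρ j) := by
      rw [blk_outL, rtr, out_trace K hK, rtr]
    rw [h2, blk_outL]
    exact out_det_lower K hσm (blk_psd hρ j)

end QA
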