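import Pool.Agent.H.MP_dd87f4_mp.Defs

set_option autoImplicit false

namespace QA

theorem Hmono_scale {p d : ℝ} (hp : 0 < p) : ee p d =
    Real.negMulLog p + p * Real.binEntropy ((1 - √(1 - 4 * (d / p ^ 2))) / 2) := by
  have h1 : √(p ^ 2 - 4 * d) = p * √(1 - 4 * (d / p ^ 2)) := by
    have h2 : p ^ 2 - 4 * d = p ^ 2 * (1 - 4 * (d / p ^ 2)) := by
      field_simp
    rw [h2, Real.sqrt_mul (sq_nonneg p), Real.sqrt_sq hp.le]
  have h3 : mup p d = p * (1 - (1 - √(1 - 4 * (d / p ^ 2))) / 2) := by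
    rw [mup, h1]
    ring
  have h4 : mum p d = p * ((1 - √(1 - 4 * (d / p ^ 2))) / 2) := by
    rw [mum, h1]
    ring
  rw [ee, h3, h4, Real.negMulLog_mul, Real.negMulLog_mul,
    Real.binEntropy_eq_negMulLog_add_negMulLog_one_sub]
  ring

theorem Hmono_one {d : ℝ} : hh d = Real.binEntropy ((1 - √(1 - 4 * d)) / 2) := by
  rw [hh, Hmono_scale one_pos, Real.negMulLog_one, zero_add, one_mul, one_pow, div_one]

theorem Hmono_bin {D e : ℝ} (hD : 0 ≤ D) (h1 : D ≤ e) :
    Real.binEntropy ((1 - √(1 - 4 * D)) / 2) ≤ Real.binEntropy ((1 - √(1 - 4 * e)) / 2) := by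
  have a1 : √(1 - 4 * D) ≤ 1 := by
    rw [Real.sqrt_le_one]
    linarith
  have a2 : √(1 - 4 * e) ≤ √(1 - 4 * D) := Real.sqrt_le_sqrt (by linarith)
  have a3 : 0 ≤ √(1 - 4 * e) := Real.sqrt_nonneg _
  have a4 : 0 ≤ √(1 - 4 * D) := Real.sqrt_nonneg _
  apply Real.binEntropy_strictMonoOn.monotoneOn
  · constructor
    · linarith
    · rw [inv_eq_one_div]
      linarith
  · constructor
    · linarith
    · rw [inv_eq_one_div]
      linarith
  · linarith

/-- `ee p d = η p + p * hh (d / p²)` for `p > 0` (scaling) and `hh` is increasing on `[0, 1/4]`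
(`hh d = binEntropy ((1 - √(1 - 4 d)) / 2)`, `Real.binEntropy_strictMonoOn`-type lemma on `[0, 1/2]`). -/
theorem ee_lower {p d D : ℝ} (hp : 0 ≤ p) (hD : 0 ≤ D) (h1 : p ^ 2 * D ≤ d) (h2 : 4 * d ≤ p ^ 2) :
    Real.negMulLog p + p * hh D ≤ ee p d := by
  rcases hp.eq_or_lt with h0 | h0
  · subst h0
    have hd : d = 0 := by
      have a1 : (0 : ℝ) ^ 2 * D = 0 := by ring
      have a2 : (0 : ℝ) ^ 2 = 0 := by ring
      rw [a1] at h1
      rw [a2] at h2
      linarith
    subst hd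
    simp [ee, mup, mum]
  · have hp2 : 0 < p ^ 2 := by positivity
    rw [Hmono_scale h0, Hmono_one]
    have b1 : D ≤ d / p ^ 2 := by
      rw [le_div_iff₀ hp2]
      linarith
    have b3 := mul_le_mul_of_nonneg_left (Hmono_bin hD b1) h0.le
    linarith

theorem hh_mono {D d : ℝ} (hD : 0 ≤ D) (h1 : D ≤ d) (h2 : 4 * d ≤ 1) : hh D ≤ hh d := by
  have h := ee_lower (p := 1) (d := d) (D := D) (by norm_num) hD (by linarith) (by linarith)
  simpa [hh, Real.negMulLog_one] using h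

end QA
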