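import Pool.Agent.H.MP_dd87f4_mp.EntConc

/-!
MP_dd87f4 (helper50, for the proof of helper25): Kronecker bookkeeping.
`om K rho` = first channel on the first factor, `psi M w` = second channel on the second factor.
-/

set_option autoImplicit false

open Matrix
open scoped ComplexOrder

namespace Pool.Agent.H.MP_dd87f4_mp

/-- first channel applied to the first factor -/
noncomputable def om {m : ℕ} (K : Fin m → Matrix (Fin 2) (Fin 2) ℂ)
    (ρ : Matrix (Fin 2 × Fin 2) (Fin 2 × Fin 2) ℂ) : Matrix (Fin 2 × Fin 2) (Fin 2 × Fin 2) ℂ :=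
  ∑ i, kronecker (K i) (1 : Matrix (Fin 2) (Fin 2) ℂ) * ρ
    * (kronecker (K i) (1 : Matrix (Fin 2) (Fin 2) ℂ))ᴴ

/-- second channel applied to the second factor -/
noncomputable def psi {n : ℕ} (M : Fin n → Matrix (Fin 2) (Fin 2) ℂ)
    (w : Matrix (Fin 2 × Fin 2) (Fin 2 × Fin 2) ℂ) : Matrix (Fin 2 × Fin 2) (Fin 2 × Fin 2) ℂ :=
  ∑ j, kronecker (1 : Matrix (Fin 2) (Fin 2) ℂ) (M j) * w
    * (kronecker (1 : Matrix (Fin 2) (Fin 2) ℂ) (M j))ᴴ

/-- diagonal block -/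
noncomputable def blk (w : Matrix (Fin 2 × Fin 2) (Fin 2 × Fin 2) ℂ) (j : Fin 2) :
    Matrix (Fin 2) (Fin 2) ℂ :=
  w.submatrix (fun i => (i, j)) (fun i => (i, j))

theorem kmul (A B C D : Matrix (Fin 2) (Fin 2) ℂ) :
    kronecker (A * B) (C * D) = kronecker A C * kronecker B D :=
  Matrix.mul_kronecker_mul A B C D

theorem kct (A B : Matrix (Fin 2) (Fin 2) ℂ) : (kronecker A B)ᴴ = kronecker Aᴴ Bᴴ :=
  Matrix.conjTranspose_kronecker A B

theorem kone : kronecker (1 : Matrix (Fin 2) (Fin 2) ℂ) (1 : Matrix (Fin 2) (Fin 2) ℂ) = 1 :=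
  Matrix.one_kronecker_one

theorem kapply (A B : Matrix (Fin 2) (Fin 2) ℂ) (i j k l : Fin 2) :
    kronecker A B (i, j) (k, l) = A i k * B j l := rfl

theorem kron_split (A B : Matrix (Fin 2) (Fin 2) ℂ) :
    kronecker A B = kronecker (1 : Matrix (Fin 2) (Fin 2) ℂ) B
      * kronecker A (1 : Matrix (Fin 2) (Fin 2) ℂ) := by
  rw [← kmul, one_mul, mul_one]

theorem kron_split' (A B : Matrix (Fin 2) (Fin 2) ℂ) :
    kronecker A B = kronecker A (1 : Matrix (Fin 2) (Fin 2) ℂ)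
      * kronecker (1 : Matrix (Fin 2) (Fin 2) ℂ) B := by
  rw [← kmul, one_mul, mul_one]

theorem joint_eq {m n : ℕ} (K : Fin m → Matrix (Fin 2) (Fin 2) ℂ)
    (M : Fin n → Matrix (Fin 2) (Fin 2) ℂ) (ρ : Matrix (Fin 2 × Fin 2) (Fin 2 × Fin 2) ℂ) :
    ∑ p : Fin m × Fin n, kronecker (K p.1) (M p.2) * ρ * (kronecker (K p.1) (M p.2))ᴴ
      = psi M (om K ρ) := by
  unfold psi om
  rw [Fintype.sum_prod_type, Finset.sum_comm]
  apply Finset.sum_congr rfl
  intro j _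
  rw [Finset.mul_sum, Finset.sum_mul]
  apply Finset.sum_congr rfl
  intro i _
  rw [kron_split (K i) (M j), Matrix.conjTranspose_mul]
  simp only [mul_assoc]

theorem om_psd {m : ℕ} (K : Fin m → Matrix (Fin 2) (Fin 2) ℂ)
    {ρ : Matrix (Fin 2 × Fin 2) (Fin 2 × Fin 2) ℂ} (hρ : ρ.PosSemidef) : (om K ρ).PosSemidef :=
  Matrix.posSemidef_sum _ fun _ _ => hρ.mul_mul_conjTranspose_same _

theorem psi_psd {n : ℕ} (M : Fin n → Matrix (Fin 2) (Fin 2) ℂ)
    {w : Matrix (Fin 2 × Fin 2) (Fin 2 × Fin 2) ℂ} (hw : w.PosSemidef) : (psi M w).PosSemidef :=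
  Matrix.posSemidef_sum _ fun _ _ => hw.mul_mul_conjTranspose_same _

theorem kraus_psd {m : ℕ} (K : Fin m → Matrix (Fin 2) (Fin 2) ℂ)
    {σ : Matrix (Fin 2) (Fin 2) ℂ} (hσ : σ.PosSemidef) :
    (∑ i, K i * σ * (K i)ᴴ).PosSemidef :=
  Matrix.posSemidef_sum _ fun _ _ => hσ.mul_mul_conjTranspose_same _

theorem kraus_trace {m : ℕ} {N : Type*} [Fintype N] [DecidableEq N] (K : Fin m → Matrix N N ℂ)
    (hK : ∑ i, (K i)ᴴ * K i = 1) (σ : Matrix N N ℂ) :
    (∑ i, K i * σ * (K i)ᴴ).trace = σ.trace := by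
  have h1 : ∀ i, (K i * σ * (K i)ᴴ).trace = (((K i)ᴴ * K i) * σ).trace := by
    intro i
    rw [Matrix.trace_mul_cycle]
  rw [Matrix.trace_sum, Finset.sum_congr rfl fun i _ => h1 i, ← Matrix.trace_sum,
    ← Finset.sum_mul, hK, one_mul]

theorem om_trace {m : ℕ} (K : Fin m → Matrix (Fin 2) (Fin 2) ℂ) (hK : ∑ i, (K i)ᴴ * K i = 1)
    (ρ : Matrix (Fin 2 × Fin 2) (Fin 2 × Fin 2) ℂ) : (om K ρ).trace = ρ.trace := by
  apply kraus_trace
  have h1 : ∀ i, (kronecker (K i) (1 : Matrix (Fin 2) (Fin 2) ℂ))ᴴ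
      * kronecker (K i) (1 : Matrix (Fin 2) (Fin 2) ℂ)
      = kronecker ((K i)ᴴ * K i) (1 : Matrix (Fin 2) (Fin 2) ℂ) := by
    intro i
    rw [kct, ← kmul, Matrix.conjTranspose_one,
      one_mul]
  rw [Finset.sum_congr rfl fun i _ => h1 i]
  have h2 : ∑ i, kronecker ((K i)ᴴ * K i) (1 : Matrix (Fin 2) (Fin 2) ℂ)
      = kronecker (∑ i, (K i)ᴴ * K i) (1 : Matrix (Fin 2) (Fin 2) ℂ) := by
    ext ⟨a, b⟩ ⟨c, d⟩
    simp only [Matrix.sum_apply, kapply, Finset.sum_mul]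
  rw [h2, hK, kone]

theorem psi_trace {n : ℕ} (M : Fin n → Matrix (Fin 2) (Fin 2) ℂ) (hM : ∑ j, (M j)ᴴ * M j = 1)
    (w : Matrix (Fin 2 × Fin 2) (Fin 2 × Fin 2) ℂ) : (psi M w).trace = w.trace := by
  apply kraus_trace
  have h1 : ∀ i, (kronecker (1 : Matrix (Fin 2) (Fin 2) ℂ) (M i))ᴴ
      * kronecker (1 : Matrix (Fin 2) (Fin 2) ℂ) (M i)
      = kronecker (1 : Matrix (Fin 2) (Fin 2) ℂ) ((M i)ᴴ * M i) := by
    intro i
    rw [kct, ← kmul, Matrix.conjTranspose_one,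
      one_mul]
  rw [Finset.sum_congr rfl fun i _ => h1 i]
  have h2 : ∑ i, kronecker (1 : Matrix (Fin 2) (Fin 2) ℂ) ((M i)ᴴ * M i)
      = kronecker (1 : Matrix (Fin 2) (Fin 2) ℂ) (∑ i, (M i)ᴴ * M i) := by
    ext ⟨a, b⟩ ⟨c, d⟩
    simp only [Matrix.sum_apply, kapply, Finset.mul_sum]
  rw [h2, hM, kone]

theorem blk_psd {w : Matrix (Fin 2 × Fin 2) (Fin 2 × Fin 2) ℂ} (hw : w.PosSemidef) (j : Fin 2) :
    (blk w j).PosSemidef :=
  hw.submatrix _

theorem blk_trace (w : Matrix (Fin 2 × Fin 2) (Fin 2 × Fin 2) ℂ) :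
    (blk w 0).trace + (blk w 1).trace = w.trace := by
  simp [blk, Matrix.trace, Fintype.sum_prod_type, Fin.sum_univ_two]
  ring

theorem blk_om {m : ℕ} (K : Fin m → Matrix (Fin 2) (Fin 2) ℂ)
    (ρ : Matrix (Fin 2 × Fin 2) (Fin 2 × Fin 2) ℂ) (j : Fin 2) :
    blk (om K ρ) j = ∑ i, K i * blk ρ j * (K i)ᴴ := by
  ext a c
  simp only [blk, om, Matrix.submatrix_apply, Matrix.sum_apply]
  apply Finset.sum_congr rfl
  intro i _
  fin_cases j <;>
  simp [Matrix.mul_apply, Fintype.sum_prod_type, Fin.sum_univ_two, kapply,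
    Matrix.conjTranspose_apply]

/-- the blocks of `om K rho` have determinant at least `D * trace^2` -/
theorem blk_det {m : ℕ} (K : Fin m → Matrix (Fin 2) (Fin 2) ℂ) (hK : ∑ i, (K i)ᴴ * K i = 1)
    {D : ℝ} (hD : ∀ σ : Matrix (Fin 2) (Fin 2) ℂ, σ.PosSemidef → σ.trace = 1 →
      D ≤ (∑ i, K i * σ * (K i)ᴴ).det.re)
    {ρ : Matrix (Fin 2 × Fin 2) (Fin 2 × Fin 2) ℂ} (hρ : ρ.PosSemidef) (j : Fin 2) :
    D * (blk (om K ρ) j).trace.re ^ 2 ≤ (blk (om K ρ) j).det.re := by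
  have hb := blk_psd hρ j
  rw [blk_om]
  rw [kraus_trace K hK]
  have htr := hb.trace_nonneg
  obtain ⟨ht1, ht2⟩ := Complex.le_def.mp htr
  rw [Complex.zero_re] at ht1
  rw [Complex.zero_im] at ht2
  obtain ⟨t, ht⟩ : ∃ t : ℝ, t = (blk ρ j).trace.re := ⟨_, rfl⟩
  rw [← ht] at ht1 ⊢
  have htc : (blk ρ j).trace = (t : ℂ) := by
    apply Complex.ext
    · rw [ht, Complex.ofReal_re]
    · rw [← ht2, Complex.ofReal_im]
  rcases ht1.eq_or_lt with h0 | h0
  · have h1 : blk ρ j = 0 := by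
      apply (Matrix.PosSemidef.trace_eq_zero_iff hb).mp
      rw [htc, ← h0, Complex.ofReal_zero]
    rw [h1, ← h0]
    simp
  · obtain ⟨σ, hσ⟩ : ∃ σ : Matrix (Fin 2) (Fin 2) ℂ, σ = ((t⁻¹ : ℝ) : ℂ) • blk ρ j := ⟨_, rfl⟩
    have hσp : σ.PosSemidef := by
      rw [hσ]
      apply hb.smul
      rw [Complex.zero_le_real]
      positivity
    have hσt : σ.trace = 1 := by
      rw [hσ, Matrix.trace_smul, htc, smul_eq_mul, ← Complex.ofReal_mul,
        inv_mul_cancel₀ h0.ne', Complex.ofReal_one]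
    have h2 : blk ρ j = (t : ℂ) • σ := by
      rw [hσ, smul_smul, ← Complex.ofReal_mul, mul_inv_cancel₀ h0.ne', Complex.ofReal_one,
        one_smul]
    have h3 : ∑ i, K i * blk ρ j * (K i)ᴴ = (t : ℂ) • ∑ i, K i * σ * (K i)ᴴ := by
      rw [h2, Finset.smul_sum]
      apply Finset.sum_congr rfl
      intro i _
      rw [mul_smul_comm, smul_mul_assoc]
    rw [h3, Matrix.det_smul, Fintype.card_fin, ← Complex.ofReal_pow, Complex.re_ofReal_mul]
    have h4 := hD σ hσp hσt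
    nlinarith [sq_nonneg t]

theorem psi_add {n : ℕ} (M : Fin n → Matrix (Fin 2) (Fin 2) ℂ)
    (w v : Matrix (Fin 2 × Fin 2) (Fin 2 × Fin 2) ℂ) : psi M (w + v) = psi M w + psi M v := by
  unfold psi
  rw [← Finset.sum_add_distrib]
  apply Finset.sum_congr rfl
  intro j _
  rw [mul_add, add_mul]

theorem psi_smul {n : ℕ} (M : Fin n → Matrix (Fin 2) (Fin 2) ℂ) (c : ℂ)
    (w : Matrix (Fin 2 × Fin 2) (Fin 2 × Fin 2) ℂ) : psi M (c • w) = c • psi M w := by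
  unfold psi
  rw [Finset.smul_sum]
  apply Finset.sum_congr rfl
  intro j _
  rw [mul_smul_comm, smul_mul_assoc]

theorem psi_conj {n : ℕ} (M : Fin n → Matrix (Fin 2) (Fin 2) ℂ) (V : Matrix (Fin 2) (Fin 2) ℂ)
    (w : Matrix (Fin 2 × Fin 2) (Fin 2 × Fin 2) ℂ) :
    psi M (kronecker V (1 : Matrix (Fin 2) (Fin 2) ℂ) * w
      * (kronecker V (1 : Matrix (Fin 2) (Fin 2) ℂ))ᴴ)
      = kronecker V (1 : Matrix (Fin 2) (Fin 2) ℂ) * psi M w
        * (kronecker V (1 : Matrix (Fin 2) (Fin 2) ℂ))ᴴ := by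
  unfold psi
  rw [Finset.mul_sum, Finset.sum_mul]
  apply Finset.sum_congr rfl
  intro j _
  have h1 : kronecker (1 : Matrix (Fin 2) (Fin 2) ℂ) (M j)
      * kronecker V (1 : Matrix (Fin 2) (Fin 2) ℂ)
      = kronecker V (1 : Matrix (Fin 2) (Fin 2) ℂ)
        * kronecker (1 : Matrix (Fin 2) (Fin 2) ℂ) (M j) := by
    rw [← kron_split, ← kron_split']
  have h2 := congrArg Matrix.conjTranspose h1
  rw [Matrix.conjTranspose_mul, Matrix.conjTranspose_mul] at h2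
  calc kronecker (1 : Matrix (Fin 2) (Fin 2) ℂ) (M j)
        * (kronecker V (1 : Matrix (Fin 2) (Fin 2) ℂ) * w
          * (kronecker V (1 : Matrix (Fin 2) (Fin 2) ℂ))ᴴ)
        * (kronecker (1 : Matrix (Fin 2) (Fin 2) ℂ) (M j))ᴴ
      = (kronecker (1 : Matrix (Fin 2) (Fin 2) ℂ) (M j)
        * kronecker V (1 : Matrix (Fin 2) (Fin 2) ℂ)) * w
          * ((kronecker V (1 : Matrix (Fin 2) (Fin 2) ℂ))ᴴ
            * (kronecker (1 : Matrix (Fin 2) (Fin 2) ℂ) (M j))ᴴ) := by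
        simp only [mul_assoc]
    _ = _ := by
        rw [h1, h2]
        simp only [mul_assoc]

theorem kron_unitary {V : Matrix (Fin 2) (Fin 2) ℂ} (hV : Vᴴ * V = 1) :
    (kronecker V (1 : Matrix (Fin 2) (Fin 2) ℂ))ᴴ
      * kronecker V (1 : Matrix (Fin 2) (Fin 2) ℂ) = 1 := by
  rw [kct, ← kmul, Matrix.conjTranspose_one,
    one_mul, hV, kone]

theorem Ent_psi_conj {n : ℕ} (M : Fin n → Matrix (Fin 2) (Fin 2) ℂ)
    {V : Matrix (Fin 2) (Fin 2) ℂ} (hV : Vᴴ * V = 1)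
    (w : Matrix (Fin 2 × Fin 2) (Fin 2 × Fin 2) ℂ) :
    Ent (psi M (kronecker V (1 : Matrix (Fin 2) (Fin 2) ℂ) * w
      * (kronecker V (1 : Matrix (Fin 2) (Fin 2) ℂ))ᴴ)) = Ent (psi M w) := by
  rw [psi_conj, Ent_unitary_conj (kron_unitary hV)]

/-- `Fin 2 × Fin 2 ≃ Fin 2 ⊕ Fin 2`, first coordinate selects the summand -/
def e4 : Fin 2 × Fin 2 ≃ Fin 2 ⊕ Fin 2 where
  toFun p := if p.1 = 0 then Sum.inl p.2 else Sum.inr p.2
  invFun := Sum.elim (fun j => (0, j)) (fun j => (1, j))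
  left_inv := by decide
  right_inv := by decide

/-- matrix with columns `M l a` -/
def colM {n : ℕ} (M : Fin n → Matrix (Fin 2) (Fin 2) ℂ) (a : Fin 2 → ℂ) :
    Matrix (Fin 2) (Fin n) ℂ :=
  Matrix.of fun j l => (M l *ᵥ a) j

theorem psi_apply {n : ℕ} (M : Fin n → Matrix (Fin 2) (Fin 2) ℂ)
    (w : Matrix (Fin 2 × Fin 2) (Fin 2 × Fin 2) ℂ) (i j i' j' : Fin 2) :
    psi M w (i, j) (i', j')
      = ∑ l, ∑ s, ∑ t, M l j s * w (i, s) (i', t) * star (M l j' t) := by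
  unfold psi
  rw [Matrix.sum_apply]
  apply Finset.sum_congr rfl
  intro l _
  fin_cases i <;> fin_cases i' <;>
  simp [Matrix.mul_apply, Fintype.sum_prod_type, Fin.sum_univ_two, kapply,
    Matrix.conjTranspose_apply] <;> ring

theorem colM_mul_apply {n : ℕ} (M : Fin n → Matrix (Fin 2) (Fin 2) ℂ) (a b : Fin 2 → ℂ)
    (j j' : Fin 2) :
    (colM M a * (colM M b)ᴴ) j j'
      = ∑ l, ∑ s, ∑ t, M l j s * (a s * star (b t)) * star (M l j' t) := by
  rw [Matrix.mul_apply]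
  apply Finset.sum_congr rfl
  intro l _
  simp [colM, Matrix.mulVec, dotProduct, Fin.sum_univ_two, Matrix.conjTranspose_apply]
  ring

theorem psi_block {n : ℕ} (M : Fin n → Matrix (Fin 2) (Fin 2) ℂ) (a b c : Fin 2 → ℂ)
    (Z : Matrix (Fin 2 × Fin 2) (Fin 2 × Fin 2) ℂ)
    (h00 : ∀ j k, Z (0, j) (0, k) = a j * star (a k) + b j * star (b k))
    (h01 : ∀ j k, Z (0, j) (1, k) = b j * star (c k))
    (h10 : ∀ j k, Z (1, j) (0, k) = c j * star (b k))
    (h11 : ∀ j k, Z (1, j) (1, k) = c j * star (c k)) :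
    Matrix.reindex e4 e4 (psi M Z)
      = fromBlocks (colM M a * (colM M a)ᴴ + colM M b * (colM M b)ᴴ) (colM M b * (colM M c)ᴴ)
          (colM M c * (colM M b)ᴴ) (colM M c * (colM M c)ᴴ) := by
  ext x y
  rw [Matrix.reindex_apply, Matrix.submatrix_apply]
  rcases x with j | j <;> rcases y with k | k
  · rw [Matrix.fromBlocks_apply₁₁, Matrix.add_apply, colM_mul_apply, colM_mul_apply,
      ← Finset.sum_add_distrib]
    change psi M Z (0, j) (0, k) = _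
    rw [psi_apply]
    apply Finset.sum_congr rfl
    intro l _
    rw [← Finset.sum_add_distrib]
    apply Finset.sum_congr rfl
    intro s _
    rw [← Finset.sum_add_distrib]
    apply Finset.sum_congr rfl
    intro t _
    rw [h00]
    ring
  · rw [Matrix.fromBlocks_apply₁₂, colM_mul_apply]
    change psi M Z (0, j) (1, k) = _
    rw [psi_apply]
    simp only [h01]
  · rw [Matrix.fromBlocks_apply₂₁, colM_mul_apply]
    change psi M Z (1, j) (0, k) = _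
    rw [psi_apply]
    simp only [h10]
  · rw [Matrix.fromBlocks_apply₂₂, colM_mul_apply]
    change psi M Z (1, j) (1, k) = _
    rw [psi_apply]
    simp only [h11]

theorem Ent_psi_block {n : ℕ} (M : Fin n → Matrix (Fin 2) (Fin 2) ℂ) (a b c : Fin 2 → ℂ)
    (Z : Matrix (Fin 2 × Fin 2) (Fin 2 × Fin 2) ℂ)
    (h00 : ∀ j k, Z (0, j) (0, k) = a j * star (a k) + b j * star (b k))
    (h01 : ∀ j k, Z (0, j) (1, k) = b j * star (c k))
    (h10 : ∀ j k, Z (1, j) (0, k) = c j * star (b k))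
    (h11 : ∀ j k, Z (1, j) (1, k) = c j * star (c k)) :
    Ent (psi M Z)
      = Ent (fromBlocks (colM M a * (colM M a)ᴴ + colM M b * (colM M b)ᴴ)
          (colM M b * (colM M c)ᴴ) (colM M c * (colM M b)ᴴ) (colM M c * (colM M c)ᴴ)) := by
  rw [← psi_block M a b c Z h00 h01 h10 h11, Ent_reindex]

theorem colM_mul_eq {n : ℕ} (M : Fin n → Matrix (Fin 2) (Fin 2) ℂ) (a : Fin 2 → ℂ) :
    colM M a * (colM M a)ᴴ = ∑ l, M l * vecMulVec a (star a) * (M l)ᴴ := by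
  ext j k
  rw [colM_mul_apply, Matrix.sum_apply]
  apply Finset.sum_congr rfl
  intro l _
  simp [Matrix.mul_apply, Fin.sum_univ_two, Matrix.vecMulVec_apply, Matrix.conjTranspose_apply]
  ring

theorem colM_trace {n : ℕ} (M : Fin n → Matrix (Fin 2) (Fin 2) ℂ) (hM : ∑ j, (M j)ᴴ * M j = 1)
    (a : Fin 2 → ℂ) :
    (colM M a * (colM M a)ᴴ).trace = ((Complex.normSq (a 0) + Complex.normSq (a 1) : ℝ) : ℂ) := by
  rw [colM_mul_eq, kraus_trace M hM, Matrix.trace_fin_two]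
  simp only [Matrix.vecMulVec_apply, Pi.star_apply]
  rw [← starRingEnd_apply, ← starRingEnd_apply, Complex.mul_conj, Complex.mul_conj]
  push_cast
  rfl

/-- the output of a (not normalised) pure state: determinant at least `D * trace^2` -/
theorem colM_det {n : ℕ} (M : Fin n → Matrix (Fin 2) (Fin 2) ℂ) (hM : ∑ j, (M j)ᴴ * M j = 1)
    {D : ℝ} (hD : ∀ σ : Matrix (Fin 2) (Fin 2) ℂ, σ.PosSemidef → σ.trace = 1 →
      D ≤ (∑ i, M i * σ * (M i)ᴴ).det.re) (a : Fin 2 → ℂ) :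
    D * (colM M a * (colM M a)ᴴ).trace.re ^ 2 ≤ (colM M a * (colM M a)ᴴ).det.re := by
  have hb : (vecMulVec a (star a)).PosSemidef := Matrix.posSemidef_vecMulVec_self_star a
  obtain ⟨t, ht⟩ : ∃ t : ℝ, t = Complex.normSq (a 0) + Complex.normSq (a 1) := ⟨_, rfl⟩
  have ht1 : 0 ≤ t := by
    rw [ht]
    exact add_nonneg (Complex.normSq_nonneg _) (Complex.normSq_nonneg _)
  have htr : (colM M a * (colM M a)ᴴ).trace = (t : ℂ) := by rw [colM_trace M hM, ht]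
  have htc : (vecMulVec a (star a)).trace = (t : ℂ) := by
    rw [colM_mul_eq, kraus_trace M hM] at htr
    exact htr
  rw [htr, Complex.ofReal_re, colM_mul_eq]
  rcases ht1.eq_or_lt with h0 | h0
  · have h1 : vecMulVec a (star a) = 0 := by
      apply (Matrix.PosSemidef.trace_eq_zero_iff hb).mp
      rw [htc, ← h0, Complex.ofReal_zero]
    rw [h1, ← h0]
    simp
  · obtain ⟨σ, hσ⟩ : ∃ σ : Matrix (Fin 2) (Fin 2) ℂ,
        σ = ((t⁻¹ : ℝ) : ℂ) • vecMulVec a (star a) := ⟨_, rfl⟩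
    have hσp : σ.PosSemidef := by
      rw [hσ]
      apply hb.smul
      rw [Complex.zero_le_real]
      positivity
    have hσt : σ.trace = 1 := by
      rw [hσ, Matrix.trace_smul, htc, smul_eq_mul, ← Complex.ofReal_mul,
        inv_mul_cancel₀ h0.ne', Complex.ofReal_one]
    have h2 : vecMulVec a (star a) = (t : ℂ) • σ := by
      rw [hσ, smul_smul, ← Complex.ofReal_mul, mul_inv_cancel₀ h0.ne', Complex.ofReal_one,
        one_smul]
    have h3 : ∑ i, M i * vecMulVec a (star a) * (M i)ᴴ = (t : ℂ) • ∑ i, M i * σ * (M i)ᴴ := by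
      rw [h2, Finset.smul_sum]
      apply Finset.sum_congr rfl
      intro i _
      rw [mul_smul_comm, smul_mul_assoc]
    rw [h3, Matrix.det_smul, Fintype.card_fin, ← Complex.ofReal_pow, Complex.re_ofReal_mul]
    have h4 := hD σ hσp hσt
    nlinarith [sq_nonneg t]

end Pool.Agent.H.MP_dd87f4_mp
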