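import Pool.Agent.H.MP_dd87f4_mp.TriB
import Pool.Agent.H.MP_dd87f4_mp.EntC
import Pool.Agent.H.MP_dd87f4_mp.Decomp

set_option autoImplicit false
open Matrix
open scoped ComplexOrder

namespace QA

theorem main_ineq {n : ℕ} (M : Fin n → Matrix (Fin 2) (Fin 2) ℂ) (hM : ∑ j, (M j)ᴴ * M j = 1)
    {ω : Matrix (Fin 2 × Fin 2) (Fin 2 × Fin 2) ℂ} (hω : ω.PosSemidef) {D d : ℝ} (hD : 0 ≤ D) (hd : 0 ≤ d)
    (hDM : ∀ τ : Matrix (Fin 2) (Fin 2) ℂ, τ.PosSemidef → τ.trace = 1 → D ≤ ((out M τ).det).re)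
    (htr : ∑ j, rtr (blk ω j) = 1)
    (hblk : ∀ j, d * (rtr (blk ω j)) ^ 2 ≤ ((blk ω j).det).re) :
    hh D + hh d ≤ ent (outR M ω) := by
  obtain ⟨U₁, U₂, a₁, b₁, c₁, a₂, b₂, c₂, hU₁, hU₂, he, hb₁, hb₂⟩ := decomp hω
  have k₁ := tri_bound M hM hU₁ a₁ b₁ c₁ hD hd hDM (by simpa [hb₁] using htr) (by simpa [hb₁] using hblk)
  have k₂ := tri_bound M hM hU₂ a₂ b₂ c₂ hD hd hDM (by simpa [hb₂] using htr) (by simpa [hb₂] using hblk)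
  have hc := ent_concave (outR_psd M (tri_psd U₁ a₁ b₁ c₁)) (outR_psd M (tri_psd U₂ a₂ b₂ c₂))
  have e1 : outR M ω = (1 / 2 : ℂ) • (outR M (tri U₁ a₁ b₁ c₁) + outR M (tri U₂ a₂ b₂ c₂)) := by
    rw [he]
    simp only [outR, Matrix.mul_smul, Matrix.smul_mul, Matrix.mul_add, Matrix.add_mul,
      Finset.smul_sum, Finset.sum_add_distrib, smul_add]
  rw [e1]
  linarith

end QA
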