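import Pool.Agent.H.MP_dd87f4_mp.Defs

set_option autoImplicit false
open Matrix
open scoped ComplexOrder

namespace QA

theorem out_psd {n : ℕ} (M : Fin n → Matrix (Fin 2) (Fin 2) ℂ) {X : Matrix (Fin 2) (Fin 2) ℂ}
    (hX : X.PosSemidef) : (out M X).PosSemidef := by
  unfold out
  exact Matrix.posSemidef_sum _ fun j _ => hX.mul_mul_conjTranspose_same _

theorem out_trace {n : ℕ} (M : Fin n → Matrix (Fin 2) (Fin 2) ℂ) (hM : ∑ j, (M j)ᴴ * M j = 1)
    (X : Matrix (Fin 2) (Fin 2) ℂ) : (out M X).trace = X.trace := by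
  unfold out
  rw [Matrix.trace_sum]
  have h : ∀ j, (M j * X * (M j)ᴴ).trace = ((M j)ᴴ * M j * X).trace := fun j =>
    Matrix.trace_mul_cycle _ _ _
  rw [Finset.sum_congr rfl fun j _ => h j, ← Matrix.trace_sum, ← Finset.sum_mul, hM, one_mul]

theorem minDet_smul {n : ℕ} (M : Fin n → Matrix (Fin 2) (Fin 2) ℂ) (c : ℂ)
    (X : Matrix (Fin 2) (Fin 2) ℂ) : out M (c • X) = c • out M X := by
  unfold out
  rw [Finset.smul_sum]
  refine Finset.sum_congr rfl fun j _ => ?_
  rw [Matrix.mul_smul, Matrix.smul_mul]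

/-- `det` is homogeneous of degree two: lower bound for all PSD inputs from the one on density matrices
(trace zero PSD matrices: the determinant of the output is `≥ 0`). -/
theorem out_det_lower {n : ℕ} (M : Fin n → Matrix (Fin 2) (Fin 2) ℂ) {D : ℝ}
    (hDM : ∀ τ : Matrix (Fin 2) (Fin 2) ℂ, τ.PosSemidef → τ.trace = 1 → D ≤ ((out M τ).det).re)
    {X : Matrix (Fin 2) (Fin 2) ℂ} (hX : X.PosSemidef) : D * (rtr X) ^ 2 ≤ ((out M X).det).re := by
  have htr : 0 ≤ X.trace := hX.trace_nonneg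
  rw [Complex.le_def] at htr
  have h1 : X.trace = ((rtr X : ℝ) : ℂ) := by
    apply Complex.ext
    · rfl
    · simpa using htr.2.symm
  have h0 : 0 ≤ rtr X := by
    have h2 := htr.1
    rw [Complex.zero_re] at h2
    exact h2
  rcases h0.lt_or_eq with hp | hp
  · set p := rtr X with hpdef
    have hpc : (p : ℂ) ≠ 0 := by exact_mod_cast hp.ne'
    set τ : Matrix (Fin 2) (Fin 2) ℂ := ((p : ℂ)⁻¹) • X with hτ
    have hτ1 : τ.trace = 1 := by
      rw [hτ, Matrix.trace_smul, h1, smul_eq_mul, inv_mul_cancel₀ hpc]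
    have hcn : (0 : ℂ) ≤ (p : ℂ)⁻¹ := by
      rw [← Complex.ofReal_inv]
      exact_mod_cast (inv_nonneg.mpr hp.le)
    have hτ2 : τ.PosSemidef := hX.smul hcn
    have hX2 : X = (p : ℂ) • τ := by
      rw [hτ, smul_smul, mul_inv_cancel₀ hpc, one_smul]
    have h3 := hDM τ hτ2 hτ1
    have h4 : (out M X).det = ((p ^ 2 : ℝ) : ℂ) * (out M τ).det := by
      rw [hX2, minDet_smul, Matrix.det_smul]
      simp
    rw [h4, Complex.re_ofReal_mul]
    nlinarith [sq_nonneg p]
  · rw [← hp]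
    have h3 : 0 ≤ (out M X).det := (out_psd M hX).det_nonneg
    rw [Complex.le_def] at h3
    simpa using h3.1

theorem minDet_trace (K : Matrix (Fin 2) (Fin 2) ℂ) :
    (Kᴴ * K).trace = ((∑ i, ∑ j, ‖K i j‖ ^ 2 : ℝ) : ℂ) := by
  simp only [Matrix.trace, Matrix.diag_apply, Matrix.mul_apply, Matrix.conjTranspose_apply,
    Fin.sum_univ_two]
  have h : ∀ z : ℂ, star z * z = ((‖z‖ ^ 2 : ℝ) : ℂ) := by
    intro z
    rw [Complex.star_def, Complex.conj_mul']
    push_cast
    rfl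
  rw [h, h, h, h]
  push_cast
  ring

section

open scoped MatrixOrder Norms.L2Operator

theorem minDet_fac {τ : Matrix (Fin 2) (Fin 2) ℂ} (h : τ.PosSemidef) :
    ∃ K : Matrix (Fin 2) (Fin 2) ℂ, τ = Kᴴ * K := by
  obtain ⟨B, hB⟩ := CStarAlgebra.nonneg_iff_eq_star_mul_self.mp h.nonneg
  exact ⟨B, hB⟩

end

/-- compactness of the set of density matrices (closed, entries bounded by one) -/
theorem exists_min {n : ℕ} (M : Fin n → Matrix (Fin 2) (Fin 2) ℂ) :
    ∃ σ : Matrix (Fin 2) (Fin 2) ℂ, σ.PosSemidef ∧ σ.trace = 1 ∧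
      ∀ τ : Matrix (Fin 2) (Fin 2) ℂ, τ.PosSemidef → τ.trace = 1 →
        ((out M σ).det).re ≤ ((out M τ).det).re := by
  set S : Set (Fin 2 → Fin 2 → ℂ) := {k | ∑ i, ∑ j, ‖k i j‖ ^ 2 = (1 : ℝ)} with hS
  have hcl : IsClosed S := by
    apply isClosed_eq
    · fun_prop
    · fun_prop
  have hsub : S ⊆ Set.pi Set.univ (fun _ => Set.pi Set.univ (fun _ => Metric.closedBall (0 : ℂ) 1)) := by
    intro k hk i _ j _
    rw [Metric.mem_closedBall, dist_zero_right]
    have h1 : ‖k i j‖ ^ 2 ≤ ∑ j', ‖k i j'‖ ^ 2 :=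
      Finset.single_le_sum (f := fun j' => ‖k i j'‖ ^ 2) (fun _ _ => sq_nonneg _) (Finset.mem_univ j)
    have h2 : ∑ j', ‖k i j'‖ ^ 2 ≤ ∑ i', ∑ j', ‖k i' j'‖ ^ 2 :=
      Finset.single_le_sum (f := fun i' => ∑ j', ‖k i' j'‖ ^ 2)
        (fun _ _ => Finset.sum_nonneg fun _ _ => sq_nonneg _) (Finset.mem_univ i)
    have h3 : ‖k i j‖ ^ 2 ≤ 1 := by
      rw [hS, Set.mem_ofPred_eq] at hk
      linarith
    nlinarith [norm_nonneg (k i j)]
  have hcomp : IsCompact S := by
    refine IsCompact.of_isClosed_subset ?_ hcl hsub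
    exact isCompact_univ_pi fun _ => isCompact_univ_pi fun _ => isCompact_closedBall _ _
  have hne : S.Nonempty := by
    refine ⟨fun i j => if i = 0 ∧ j = 0 then 1 else 0, ?_⟩
    rw [hS, Set.mem_ofPred_eq]
    simp [Fin.sum_univ_two]
  set f : (Fin 2 → Fin 2 → ℂ) → ℝ := fun k =>
    ((out M ((Matrix.of k)ᴴ * Matrix.of k)).det).re with hf
  have hcont : Continuous f := by
    rw [hf]
    have h1 : Continuous fun k : Fin 2 → Fin 2 → ℂ => (Matrix.of k : Matrix (Fin 2) (Fin 2) ℂ) :=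
      continuous_id
    have h2 : Continuous fun k : Fin 2 → Fin 2 → ℂ =>
        ((Matrix.of k : Matrix (Fin 2) (Fin 2) ℂ)ᴴ * Matrix.of k) :=
      h1.matrix_conjTranspose.matrix_mul h1
    have h3 : Continuous fun k : Fin 2 → Fin 2 → ℂ =>
        out M ((Matrix.of k : Matrix (Fin 2) (Fin 2) ℂ)ᴴ * Matrix.of k) := by
      unfold out
      refine continuous_finsetSum _ fun j _ => ?_
      exact (continuous_const.matrix_mul h2).matrix_mul continuous_const
    exact Complex.continuous_re.comp h3.matrix_det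
  obtain ⟨k, hk, hmin⟩ := hcomp.exists_isMinOn hne hcont.continuousOn
  refine ⟨(Matrix.of k)ᴴ * Matrix.of k, Matrix.posSemidef_conjTranspose_mul_self _, ?_, ?_⟩
  · rw [minDet_trace]
    rw [hS, Set.mem_ofPred_eq] at hk
    simp only [Matrix.of_apply]
    rw [hk]
    simp
  · intro τ hτ hτ1
    obtain ⟨K, hK⟩ := minDet_fac hτ
    have hKS : (fun i j => K i j) ∈ S := by
      rw [hS, Set.mem_ofPred_eq]
      rw [hK, minDet_trace] at hτ1
      exact_mod_cast hτ1
    have h := hmin hKS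
    rw [Set.mem_ofPred_eq] at h
    rw [hK]
    exact h

end QA
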