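import Mathlib

set_option autoImplicit false

namespace QA

private theorem psil_upper {x t : ℝ} (hx : 0 ≤ x) (ht : 0 < t) :
    -Real.negMulLog (x + t) ≤ (x + t) * Real.log t + (x + x ^ 2 / t) := by
  have hxt : 0 < x + t := by linarith
  have h1 : Real.log (x + t) = Real.log t + Real.log (1 + x / t) := by
    rw [← Real.log_mul ht.ne' (by positivity)]
    congr 1
    field_simp
    ring
  have h2 : Real.log (1 + x / t) ≤ x / t := by
    have := Real.log_le_sub_one_of_pos (show 0 < 1 + x / t by positivity)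
    linarith
  have h3 : (x + t) * Real.log (1 + x / t) ≤ (x + t) * (x / t) :=
    mul_le_mul_of_nonneg_left h2 hxt.le
  have h4 : (x + t) * (x / t) = x + x ^ 2 / t := by
    field_simp
    ring
  rw [Real.negMulLog, h1]
  linarith

private theorem psil_lower {x t : ℝ} (hx : 0 ≤ x) (ht : 0 < t) :
    (x + t) * Real.log t + x ≤ -Real.negMulLog (x + t) := by
  have hxt : 0 < x + t := by linarith
  have h1 : Real.log (x + t) = Real.log t + Real.log (1 + x / t) := by
    rw [← Real.log_mul ht.ne' (by positivity)]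
    congr 1
    field_simp
    ring
  have h2 : x / (x + t) ≤ Real.log (1 + x / t) := by
    have := Real.one_sub_inv_le_log_of_pos (show 0 < 1 + x / t by positivity)
    have h5 : 1 - (1 + x / t)⁻¹ = x / (x + t) := by
      field_simp
      ring
    rw [h5] at this
    exact this
  have h3 : (x + t) * (x / (x + t)) ≤ (x + t) * Real.log (1 + x / t) :=
    mul_le_mul_of_nonneg_left h2 hxt.le
  have h4 : (x + t) * (x / (x + t)) = x := by
    field_simp
  rw [Real.negMulLog, h1]
  linarith

/-- Let `f x = x log x`, `ψ t = ∑ f (p i + t) - ∑ f (n k + t)` for `t ≥ 0`.  For `t > 0`,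
`ψ' t = ∑ (log (p i + t) + 1) - ∑ (log (n k + t) + 1) = log ∏ (p i + t) - log ∏ (n k + t) ≥ 0` (equal cardinalities), so
`ψ` is monotone on `[0, ∞)` (it is continuous, `f` being continuous).
Also `ψ t ≤ (∑ (p i) ^ 2) / t` for `t > 0`: `f (x + t) = (x + t) log t + (x + t) log (1 + x / t)` and
`x ≤ (x + t) log (1 + x / t) ≤ x + x ^ 2 / t` (from `y / (1 + y) ≤ log (1 + y) ≤ y`), with the sums of the `p`s and `n`s equal.
Hence `ψ 0 ≤ ψ t ≤ (∑ (p i) ^ 2) / t` for every `t > 0`, so `ψ 0 ≤ 0`. -/
theorem psi_lemma {ι κ : Type*} [Fintype ι] [Fintype κ] (hc : Fintype.card ι = Fintype.card κ)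
    (p : ι → ℝ) (n : κ → ℝ) (hp : ∀ i, 0 ≤ p i) (hn : ∀ k, 0 ≤ n k) (hs : ∑ i, p i = ∑ k, n k)
    (h : ∀ t : ℝ, 0 < t → ∏ k, (t + n k) ≤ ∏ i, (t + p i)) :
    ∑ k, Real.negMulLog (n k) ≤ ∑ i, Real.negMulLog (p i) := by
  have hcr : (Fintype.card ι : ℝ) = Fintype.card κ := by exact_mod_cast hc
  have hder : ∀ t : ℝ, 0 < t → HasDerivAt
      (fun t : ℝ => ∑ k, Real.negMulLog (n k + t) - ∑ i, Real.negMulLog (p i + t))
      (∑ k, (-Real.log (n k + t) - 1) - ∑ i, (-Real.log (p i + t) - 1)) t := by
    intro t ht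
    have key : ∀ x : ℝ, 0 ≤ x → HasDerivAt (fun t : ℝ => Real.negMulLog (x + t))
        (-Real.log (x + t) - 1) t := by
      intro x hx
      exact HasDerivAt.comp_const_add x t
        (Real.hasDerivAt_negMulLog (show x + t ≠ 0 by positivity))
    exact (HasDerivAt.fun_sum fun k _ => key (n k) (hn k)).sub
      (HasDerivAt.fun_sum fun i _ => key (p i) (hp i))
  have hmono : MonotoneOn
      (fun t : ℝ => ∑ k, Real.negMulLog (n k + t) - ∑ i, Real.negMulLog (p i + t))
      (Set.Ici 0) := by
    apply monotoneOn_of_deriv_nonneg (convex_Ici 0)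
    · apply Continuous.continuousOn
      have hcont := Real.continuous_negMulLog
      fun_prop
    · intro t ht
      rw [interior_Ici] at ht
      exact (hder t ht).differentiableAt.differentiableWithinAt
    · intro t ht
      rw [interior_Ici] at ht
      have ht' : 0 < t := ht
      rw [(hder t ht').deriv]
      have hpos1 : ∀ k, 0 < t + n k := fun k => by have := hn k; linarith
      have hpos2 : ∀ i, 0 < t + p i := fun i => by have := hp i; linarith
      have h1 : Real.log (∏ k, (t + n k)) ≤ Real.log (∏ i, (t + p i)) :=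
        Real.log_le_log (Finset.prod_pos fun k _ => hpos1 k) (h t ht')
      rw [Real.log_prod (fun k _ => (hpos1 k).ne'), Real.log_prod (fun i _ => (hpos2 i).ne')] at h1
      simp only [Finset.sum_sub_distrib, Finset.sum_neg_distrib, Finset.sum_const,
        Finset.card_univ, nsmul_eq_mul, mul_one]
      rw [hcr]
      have h2 : ∑ k, Real.log (n k + t) = ∑ k, Real.log (t + n k) :=
        Finset.sum_congr rfl fun k _ => by rw [add_comm]
      have h3 : ∑ i, Real.log (p i + t) = ∑ i, Real.log (t + p i) :=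
        Finset.sum_congr rfl fun i _ => by rw [add_comm]
      rw [h2, h3]
      linarith
  have hup : ∀ t : ℝ, 0 < t →
      ∑ k, Real.negMulLog (n k + t) - ∑ i, Real.negMulLog (p i + t) ≤ (∑ i, p i ^ 2) / t := by
    intro t ht
    have h1 : ∑ i, -Real.negMulLog (p i + t) ≤
        ∑ i, ((p i + t) * Real.log t + (p i + p i ^ 2 / t)) :=
      Finset.sum_le_sum fun i _ => psil_upper (hp i) ht
    have h2 : ∑ k, ((n k + t) * Real.log t + n k) ≤ ∑ k, -Real.negMulLog (n k + t) :=
      Finset.sum_le_sum fun k _ => psil_lower (hn k) ht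
    simp only [Finset.sum_add_distrib, ← Finset.sum_mul, Finset.sum_neg_distrib,
      Finset.sum_const, Finset.card_univ, nsmul_eq_mul, ← Finset.sum_div] at h1 h2
    rw [hs, hcr] at h1
    linarith
  have h0 : ∑ k, Real.negMulLog (n k + 0) - ∑ i, Real.negMulLog (p i + 0) ≤ 0 := by
    apply le_of_forall_pos_le_add
    intro ε hε
    have hS : 0 ≤ ∑ i, p i ^ 2 := Finset.sum_nonneg fun i _ => sq_nonneg _
    have ht : 0 < (∑ i, p i ^ 2 + 1) / ε := by positivity
    have h1 := hmono (Set.mem_Ici.2 le_rfl) (Set.mem_Ici.2 ht.le) ht.le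
    have h2 := hup _ ht
    have h3 : (∑ i, p i ^ 2) / ((∑ i, p i ^ 2 + 1) / ε) ≤ ε := by
      rw [div_div_eq_mul_div, div_le_iff₀ (by positivity)]
      nlinarith
    simp only at h1
    linarith
  simp only [add_zero] at h0
  linarith

end QA
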