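import Pool.Agent.H.MP_dd87f4_mp.EntB
import Pool.Agent.H.MP_dd87f4_mp.PsiL
import Pool.Agent.H.MP_dd87f4_mp.DetI
import Pool.Agent.H.MP_dd87f4_mp.Calc

set_option autoImplicit false
open Matrix
open scoped ComplexOrder

namespace QA

private theorem NCd_disc {r q m : ℝ} (hr : 0 ≤ r) (hq : 0 ≤ q) (hm : 0 ≤ m) :
    0 ≤ (r + q + m) ^ 2 - 4 * (r * q) := by
  nlinarith [sq_nonneg (r - q), mul_nonneg hr hm, mul_nonneg hq hm, sq_nonneg m]

private theorem NCd_mup {r q m : ℝ} (hr : 0 ≤ r) (hq : 0 ≤ q) (hm : 0 ≤ m) :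
    0 ≤ mup (r + q + m) (r * q) := by
  unfold mup
  have := Real.sqrt_nonneg ((r + q + m) ^ 2 - 4 * (r * q))
  linarith

private theorem NCd_mum {r q m : ℝ} (hr : 0 ≤ r) (hq : 0 ≤ q) (hm : 0 ≤ m) :
    0 ≤ mum (r + q + m) (r * q) := by
  unfold mum
  have h : √((r + q + m) ^ 2 - 4 * (r * q)) ≤ r + q + m := by
    apply Real.sqrt_le_iff.2
    refine ⟨by linarith, ?_⟩
    nlinarith [mul_nonneg hr hq]
  linarith

private theorem NCd_prod {r q m : ℝ} (hr : 0 ≤ r) (hq : 0 ≤ q) (hm : 0 ≤ m) (t : ℝ) :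
    (t + mup (r + q + m) (r * q)) * (t + mum (r + q + m) (r * q)) =
      (r + t) * (q + t) + t * m := by
  unfold mup mum
  have h := Real.sq_sqrt (NCd_disc hr hq hm)
  nlinarith [h]

private theorem NCd_psd {n : ℕ} (A B C : Matrix (Fin 2) (Fin n) ℂ) : (Om A B C).PosSemidef := by
  have h : Om A B C = (Matrix.fromBlocks A B 0 C) * (Matrix.fromBlocks A B 0 C)ᴴ := by
    rw [Matrix.fromBlocks_conjTranspose, Matrix.fromBlocks_multiply]
    unfold Om
    simp
  rw [h]
  exact Matrix.posSemidef_self_mul_conjTranspose _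

private theorem NCd_rtr {n : ℕ} (A B C : Matrix (Fin 2) (Fin n) ℂ) :
    rtr (Om A B C) = rtr (A * Aᴴ) + rtr (B * Bᴴ) + rtr (C * Cᴴ) := by
  unfold rtr Om
  simp only [Matrix.trace, Fintype.sum_sum_type, Matrix.diag_apply, Matrix.fromBlocks_apply₁₁,
    Matrix.fromBlocks_apply₂₂, Matrix.add_apply, Complex.add_re, Fin.sum_univ_two]
  ring

private theorem NCd_ee {a b : ℝ} : ee (a + b) (a * b) = Real.negMulLog a + Real.negMulLog b := by
  have h : (a + b) ^ 2 - 4 * (a * b) = (a - b) ^ 2 := by ring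
  unfold ee mup mum
  rw [h, Real.sqrt_sq_eq_abs]
  rcases le_total b a with hab | hab
  · rw [abs_of_nonneg (by linarith)]
    have e1 : (a + b + (a - b)) / 2 = a := by ring
    have e2 : (a + b - (a - b)) / 2 = b := by ring
    rw [e1, e2]
  · rw [abs_of_nonpos (by linarith)]
    have e1 : (a + b + -(a - b)) / 2 = b := by ring
    have e2 : (a + b - -(a - b)) / 2 = a := by ring
    rw [e1, e2, add_comm]

private theorem NCd_entB {n : ℕ} (B : Matrix (Fin 2) (Fin n) ℂ) (hB : (B * Bᴴ) 0 1 = 0) :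
    ent (B * Bᴴ) = Real.negMulLog (rr B 0) + Real.negMulLog (rr B 1) := by
  have hp : (B * Bᴴ).PosSemidef := Matrix.posSemidef_self_mul_conjTranspose _
  have him : ∀ i, ((B * Bᴴ) i i).im = 0 := by
    intro i
    have h := hp.isHermitian.apply i i
    have h2 := congrArg Complex.im h
    rw [Complex.star_def, Complex.conj_im] at h2
    linarith
  rw [ent_two hp]
  have h1 : rtr (B * Bᴴ) = rr B 0 + rr B 1 := by
    rw [← rr_sum, Fin.sum_univ_two]
  have h2 : ((B * Bᴴ).det).re = rr B 0 * rr B 1 := by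
    rw [Matrix.det_fin_two, hB, zero_mul, sub_zero, Complex.mul_re, him 0, him 1]
    unfold rr
    ring
  rw [h1, h2, NCd_ee]

theorem nc_diag {n : ℕ} (A B C : Matrix (Fin 2) (Fin n) ℂ) (hB : (B * Bᴴ) 0 1 = 0) :
    ent (A * Aᴴ) + ent (B * Bᴴ) + ent (C * Cᴴ) - GG (rtr (A * Aᴴ)) (rtr (C * Cᴴ)) (rtr (B * Bᴴ)) ≤
      ent (Om A B C) := by
  have hAp : (A * Aᴴ).PosSemidef := Matrix.posSemidef_self_mul_conjTranspose _
  have hCp : (C * Cᴴ).PosSemidef := Matrix.posSemidef_self_mul_conjTranspose _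
  have hOp := NCd_psd A B C
  have hm : ∀ i, 0 ≤ rr B i := rr_nonneg B
  have hq : ∀ i, 0 ≤ qq B C i := qq_nonneg B C
  have hr : ∀ i, 0 ≤ rr A i := rr_nonneg A
  have hmain := psi_lemma (ι := (Fin 2 ⊕ Fin 2) ⊕ (Fin 2 ⊕ Fin 2))
    (κ := (Fin 2 ⊕ Fin 2) ⊕ (Fin 2 ⊕ Fin 2)) rfl
    (Sum.elim hOp.isHermitian.eigenvalues (Sum.elim (rr A) (qq B C)))
    (Sum.elim (Sum.elim hAp.isHermitian.eigenvalues hCp.isHermitian.eigenvalues)
      (Sum.elim (fun i => mup (rr A i + qq B C i + rr B i) (rr A i * qq B C i))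
        (fun i => mum (rr A i + qq B C i + rr B i) (rr A i * qq B C i))))
    (by
      rintro (i | i | i)
      · exact hOp.eigenvalues_nonneg i
      · exact hr i
      · exact hq i)
    (by
      rintro ((i | i) | (i | i))
      · exact hAp.eigenvalues_nonneg i
      · exact hCp.eigenvalues_nonneg i
      · exact NCd_mup (hr i) (hq i) (hm i)
      · exact NCd_mum (hr i) (hq i) (hm i))
    (by
      rw [Fintype.sum_sum_type, Fintype.sum_sum_type (f := Sum.elim
        (Sum.elim hAp.isHermitian.eigenvalues hCp.isHermitian.eigenvalues) _)]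
      simp only [Sum.elim_inl, Sum.elim_inr]
      have e1 : ∑ x : Fin 2 ⊕ Fin 2, Sum.elim (rr A) (qq B C) x = ∑ i, rr A i + ∑ i, qq B C i := by
        rw [Fintype.sum_sum_type]
        rfl
      have e2 : ∑ x : Fin 2 ⊕ Fin 2, Sum.elim hAp.isHermitian.eigenvalues
          hCp.isHermitian.eigenvalues x = ∑ i, hAp.isHermitian.eigenvalues i +
            ∑ i, hCp.isHermitian.eigenvalues i := by
        rw [Fintype.sum_sum_type]
        rfl
      have e3 : ∑ x : Fin 2 ⊕ Fin 2, Sum.elim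
          (fun i => mup (rr A i + qq B C i + rr B i) (rr A i * qq B C i))
          (fun i => mum (rr A i + qq B C i + rr B i) (rr A i * qq B C i)) x =
          ∑ i, rr A i + ∑ i, qq B C i + ∑ i, rr B i := by
        rw [Fintype.sum_sum_type, ← Finset.sum_add_distrib, ← Finset.sum_add_distrib,
          ← Finset.sum_add_distrib]
        refine Finset.sum_congr rfl fun i _ => ?_
        simp only [Sum.elim_inl, Sum.elim_inr]
        unfold mup mum
        ring
      rw [e1, e2, e3, sum_eig, sum_eig, sum_eig, NCd_rtr, ← rr_sum B]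
      ring)
    (by
      intro t ht
      rw [Fintype.prod_sum_type, Fintype.prod_sum_type (f := fun i => t + Sum.elim
        hOp.isHermitian.eigenvalues _ i)]
      simp only [Sum.elim_inl, Sum.elim_inr]
      have e1 : ∏ x : Fin 2 ⊕ Fin 2, (t + Sum.elim (rr A) (qq B C) x) =
          ∏ i, ((rr A i + t) * (qq B C i + t)) := by
        rw [Fintype.prod_sum_type, Finset.prod_mul_distrib]
        simp only [Sum.elim_inl, Sum.elim_inr, add_comm t]
      have e2 : ∏ x : Fin 2 ⊕ Fin 2, (t + Sum.elim hAp.isHermitian.eigenvalues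
          hCp.isHermitian.eigenvalues x) =
          (((t : ℂ) • (1 : Matrix (Fin 2) (Fin 2) ℂ) + A * Aᴴ).det).re *
            (((t : ℂ) • (1 : Matrix (Fin 2) (Fin 2) ℂ) + C * Cᴴ).det).re := by
        rw [Fintype.prod_sum_type, det_eig hAp.isHermitian, det_eig hCp.isHermitian]
        rfl
      have e3 : ∏ x : Fin 2 ⊕ Fin 2, (t + Sum.elim
          (fun i => mup (rr A i + qq B C i + rr B i) (rr A i * qq B C i))
          (fun i => mum (rr A i + qq B C i + rr B i) (rr A i * qq B C i)) x) =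
          ∏ i, ((rr A i + t) * (qq B C i + t) + t * rr B i) := by
        rw [Fintype.prod_sum_type, ← Finset.prod_mul_distrib]
        refine Finset.prod_congr rfl fun i _ => ?_
        simp only [Sum.elim_inl, Sum.elim_inr]
        exact NCd_prod (hr i) (hq i) (hm i) t
      rw [e1, e2, e3, ← det_eig hOp.isHermitian]
      exact det_ineq A B C hB t ht)
  rw [Fintype.sum_sum_type, Fintype.sum_sum_type (f := fun i => Real.negMulLog (Sum.elim
        hOp.isHermitian.eigenvalues _ i))] at hmain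
  simp only [Sum.elim_inl, Sum.elim_inr, Fintype.sum_sum_type] at hmain
  have hOe := ent_eq hOp.isHermitian
  rw [Fintype.sum_sum_type] at hOe
  rw [← ent_eq hAp.isHermitian, ← ent_eq hCp.isHermitian, ← hOe] at hmain
  simp only [Fin.sum_univ_two] at hmain
  have hg1 := GG_super (hr 0) (hq 0) (hm 0) (hr 1) (hq 1) (hm 1)
  have hδ : 0 ≤ rtr (C * Cᴴ) - (qq B C 0 + qq B C 1) := by
    have := qq_sum B C hB
    rw [Fin.sum_univ_two] at this
    linarith
  have hg2 := GG_super (add_nonneg (hr 0) (hr 1)) (add_nonneg (hq 0) (hq 1))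
    (add_nonneg (hm 0) (hm 1)) le_rfl hδ le_rfl
  rw [GG_zero hδ, add_zero, add_zero] at hg2
  have hA' := rr_sum A
  have hB' := rr_sum B
  rw [Fin.sum_univ_two] at hA' hB'
  have e5 : qq B C 0 + qq B C 1 + (rtr (C * Cᴴ) - (qq B C 0 + qq B C 1)) = rtr (C * Cᴴ) := by
    ring
  rw [hA', hB', e5] at hg2
  rw [hA', hB'] at hg1
  rw [NCd_entB B hB]
  simp only [add_zero] at hg2
  have hg4 := hg1.trans hg2
  generalize GG (rtr (A * Aᴴ)) (rtr (C * Cᴴ)) (rtr (B * Bᴴ)) = g at hg4 ⊢
  unfold GG ee at hg4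
  linarith

end QA
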