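import Pool.Agent.H.MP_dd87f4_mp.NC

/-!
The entropic norm compression inequality `QA.nc` is proved in `NC.lean`; this file only imports it.
-/
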