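import Pool.Agent.H.MP_dd87f4_mp.RedU

set_option autoImplicit false

open Matrix
open scoped ComplexOrder

namespace Pool.Agent.H.MP_dd87f4_mp

/-- spectral decomposition of a positive semidefinite matrix -/
theorem red_spec {n : Type*} [Fintype n] [DecidableEq n] {A : Matrix n n ℂ}
    (h : A.PosSemidef) :
    ∃ (Q : Matrix n n ℂ) (l : n → ℝ), Q * Qᴴ = 1 ∧ Qᴴ * Q = 1 ∧ (∀ i, 0 ≤ l i) ∧
      A = Q * diagonal (fun i => (l i : ℂ)) * Qᴴ := by
  have h1 := h.isHermitian.spectral_theorem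
  rw [Unitary.conjStarAlgAut_apply] at h1
  refine ⟨(h.isHermitian.eigenvectorUnitary : Matrix n n ℂ), h.isHermitian.eigenvalues, ?_, ?_,
    h.eigenvalues_nonneg, ?_⟩
  · exact Unitary.coe_mul_star_self _
  · exact Unitary.coe_star_mul_self _
  · exact h1

theorem red_diag_mul {n : Type*} [Fintype n] [DecidableEq n] (z : n → ℂ) :
    diagonal z * (diagonal z)ᴴ = diagonal (fun i => z i * star (z i)) := by
  rw [diagonal_conjTranspose, diagonal_mul_diagonal]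
  rfl

/-- a positive semidefinite matrix is `N Nᴴ` -/
theorem red_factor {n : Type*} [Fintype n] [DecidableEq n] {A : Matrix n n ℂ}
    (h : A.PosSemidef) : ∃ N : Matrix n n ℂ, A = N * Nᴴ := by
  obtain ⟨Q, l, hQ, hQ', hl, hA⟩ := red_spec h
  refine ⟨Q * diagonal (fun i => ((√(l i) : ℝ) : ℂ)), ?_⟩
  rw [conjTranspose_mul]
  calc A = Q * diagonal (fun i => (l i : ℂ)) * Qᴴ := hA
    _ = Q * (diagonal (fun i => ((√(l i) : ℝ) : ℂ)) *
        (diagonal (fun i => ((√(l i) : ℝ) : ℂ)))ᴴ) * Qᴴ := by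
        rw [red_diag_mul]
        congr 3
        funext i
        have h1 : star ((√(l i) : ℝ) : ℂ) = ((√(l i) : ℝ) : ℂ) := Complex.conj_ofReal _
        rw [h1, ← Complex.ofReal_mul, Real.mul_self_sqrt (hl i)]
    _ = _ := by simp only [Matrix.mul_assoc]

/-- a contraction is the average of two unitaries -/
theorem red_contraction {n : Type*} [Fintype n] [DecidableEq n] (W : Matrix n n ℂ)
    (h : (1 - W * Wᴴ).PosSemidef) :
    ∃ P M : Matrix n n ℂ, P * Pᴴ = 1 ∧ M * Mᴴ = 1 ∧ W = (1 / 2 : ℂ) • (P + M) := by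
  obtain ⟨Q, l, hQ, hQ', hl, hA⟩ := red_spec (Matrix.posSemidef_self_mul_conjTranspose W)
  have hl1 : ∀ i, l i ≤ 1 := by
    intro i
    have h1 : (Qᴴ * (1 - W * Wᴴ) * Q).PosSemidef := h.conjTranspose_mul_mul_same Q
    have h2 : Qᴴ * (1 - W * Wᴴ) * Q = 1 - diagonal (fun i => (l i : ℂ)) := by
      rw [hA, Matrix.mul_sub, Matrix.sub_mul, Matrix.mul_one, hQ']
      congr 1
      calc Qᴴ * (Q * diagonal (fun i => (l i : ℂ)) * Qᴴ) * Q
          = (Qᴴ * Q) * diagonal (fun i => (l i : ℂ)) * (Qᴴ * Q) := by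
            simp only [Matrix.mul_assoc]
        _ = _ := by rw [hQ', Matrix.one_mul, Matrix.mul_one]
    rw [h2] at h1
    have h3 := h1.diag_nonneg (i := i)
    rw [Matrix.sub_apply, Matrix.one_apply_eq, diagonal_apply_eq] at h3
    have h4 := (Complex.le_def.1 h3).1
    simp at h4
    exact h4
  have hW : W * Wᴴ = (Q * diagonal (fun i => ((√(l i) : ℝ) : ℂ))) *
      (Q * diagonal (fun i => ((√(l i) : ℝ) : ℂ)))ᴴ := by
    rw [conjTranspose_mul]
    calc W * Wᴴ = Q * diagonal (fun i => (l i : ℂ)) * Qᴴ := hA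
      _ = Q * (diagonal (fun i => ((√(l i) : ℝ) : ℂ)) *
          (diagonal (fun i => ((√(l i) : ℝ) : ℂ)))ᴴ) * Qᴴ := by
          rw [red_diag_mul]
          congr 3
          funext i
          have h1 : star ((√(l i) : ℝ) : ℂ) = ((√(l i) : ℝ) : ℂ) := Complex.conj_ofReal _
          rw [h1, ← Complex.ofReal_mul, Real.mul_self_sqrt (hl i)]
      _ = _ := by simp only [Matrix.mul_assoc]
  obtain ⟨U, hU, hU', hWU⟩ := red_unitary W (Q * diagonal (fun i => ((√(l i) : ℝ) : ℂ))) hW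
  have key : ∀ z : n → ℂ, (∀ i, z i * star (z i) = 1) →
      (Q * diagonal z * U) * (Q * diagonal z * U)ᴴ = 1 := by
    intro z hz
    rw [conjTranspose_mul, conjTranspose_mul]
    calc Q * diagonal z * U * (Uᴴ * ((diagonal z)ᴴ * Qᴴ))
        = Q * (diagonal z * ((U * Uᴴ) * (diagonal z)ᴴ)) * Qᴴ := by
          simp only [Matrix.mul_assoc]
      _ = 1 := by
          rw [hU, Matrix.one_mul, red_diag_mul]
          have h1 : (fun i => z i * star (z i)) = fun _ => (1 : ℂ) := funext hz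
          rw [h1, diagonal_one, Matrix.mul_one, hQ]
  have hz : ∀ (e : ℝ), e * e = 1 → ∀ i : n, (((√(l i) : ℝ) : ℂ) + (e * √(1 - l i) : ℝ) * Complex.I) *
      star (((√(l i) : ℝ) : ℂ) + (e * √(1 - l i) : ℝ) * Complex.I) = 1 := by
    intro e he i
    have h1 : ∀ z : ℂ, z * star z = (Complex.normSq z : ℂ) := fun z => Complex.mul_conj z
    rw [h1, Complex.normSq_add_mul_I, mul_pow, Real.sq_sqrt (hl i),
      Real.sq_sqrt (sub_nonneg.2 (hl1 i)), sq e, he]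
    norm_num
  refine ⟨Q * diagonal (fun i => ((√(l i) : ℝ) : ℂ) + ((1 : ℝ) * √(1 - l i) : ℝ) * Complex.I) * U,
    Q * diagonal (fun i => ((√(l i) : ℝ) : ℂ) + ((-1 : ℝ) * √(1 - l i) : ℝ) * Complex.I) * U,
    key _ (hz 1 (by norm_num)), key _ (hz (-1) (by norm_num)), ?_⟩
  rw [← Matrix.add_mul, ← Matrix.mul_add, diagonal_add, ← Matrix.smul_mul, ← Matrix.mul_smul,
    ← diagonal_smul, hWU]
  congr 3
  funext i
  simp only [Pi.smul_apply, smul_eq_mul]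
  push_cast
  ring

/-- a 2 by 4 matrix is a square matrix times a coisometry -/
theorem red_coiso (N : Matrix (Fin 2) (Fin 2 × Fin 2) ℂ) :
    ∃ (S : Matrix (Fin 2) (Fin 2) ℂ) (V : Matrix (Fin 2) (Fin 2 × Fin 2) ℂ),
      V * Vᴴ = 1 ∧ N = S * V := by
  obtain ⟨S, hS⟩ := red_factor (Matrix.posSemidef_self_mul_conjTranspose N)
  let E : Matrix (Fin 2) (Fin 2 × Fin 2) ℂ := fun k p => if p.2 = 0 ∧ k = p.1 then 1 else 0
  have hE : E * Eᴴ = 1 := by
    ext i j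
    rw [Matrix.mul_apply, Fintype.sum_prod_type]
    fin_cases i <;> fin_cases j <;>
      simp [E, Fin.sum_univ_two, conjTranspose_apply]
  have h1 : N * Nᴴ = (S * E) * (S * E)ᴴ := by
    rw [conjTranspose_mul]
    calc N * Nᴴ = S * Sᴴ := hS
      _ = S * ((E * Eᴴ) * Sᴴ) := by rw [hE, Matrix.one_mul]
      _ = _ := by simp only [Matrix.mul_assoc]
  obtain ⟨U, hU, hU', hN⟩ := red_unitary N (S * E) h1
  refine ⟨S, E * U, ?_, by rw [hN, Matrix.mul_assoc]⟩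
  rw [conjTranspose_mul]
  calc E * U * (Uᴴ * Eᴴ) = E * ((U * Uᴴ) * Eᴴ) := by simp only [Matrix.mul_assoc]
    _ = 1 := by rw [hU, Matrix.one_mul, hE]

/-- ω is the average of two rank two matrices with the same diagonal blocks -/
theorem red_halves (ω : Matrix (Fin 2 × Fin 2) (Fin 2 × Fin 2) ℂ) (hω : ω.PosSemidef) :
    ∃ X Y : Matrix (Fin 2 × Fin 2) (Fin 2) ℂ, ω = (1 / 2 : ℂ) • (X * Xᴴ + Y * Yᴴ) ∧
      ∀ i i' j, (X * Xᴴ) (i, j) (i', j) = ω (i, j) (i', j) ∧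
        (Y * Yᴴ) (i, j) (i', j) = ω (i, j) (i', j) := by
  obtain ⟨N, hN⟩ := red_factor hω
  obtain ⟨S0, V0, hV0, hN0⟩ := red_coiso (N.submatrix (fun i => (i, 0)) id)
  obtain ⟨S1, V1, hV1, hN1⟩ := red_coiso (N.submatrix (fun i => (i, 1)) id)
  have hPSD : (1 - (V0 * V1ᴴ) * (V0 * V1ᴴ)ᴴ).PosSemidef := by
    have h1 : 1 - (V0 * V1ᴴ) * (V0 * V1ᴴ)ᴴ
        = (V0 * (1 - V1ᴴ * V1)) * (V0 * (1 - V1ᴴ * V1))ᴴ := by
      rw [conjTranspose_mul, conjTranspose_mul, conjTranspose_conjTranspose, conjTranspose_sub,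
        conjTranspose_one, conjTranspose_mul, conjTranspose_conjTranspose]
      have h2 : (1 - V1ᴴ * V1) * (1 - V1ᴴ * V1) = 1 - V1ᴴ * V1 := by
        rw [Matrix.mul_sub, Matrix.mul_one, Matrix.sub_mul, Matrix.one_mul]
        have h3 : V1ᴴ * V1 * (V1ᴴ * V1) = V1ᴴ * V1 := by
          calc V1ᴴ * V1 * (V1ᴴ * V1) = V1ᴴ * ((V1 * V1ᴴ) * V1) := by
                simp only [Matrix.mul_assoc]
            _ = _ := by rw [hV1, Matrix.one_mul]
        rw [h3]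
        simp
      calc 1 - V0 * V1ᴴ * (V1 * V0ᴴ) = V0 * (1 - V1ᴴ * V1) * V0ᴴ := by
            rw [Matrix.mul_sub, Matrix.sub_mul, Matrix.mul_one, hV0]
            simp only [Matrix.mul_assoc]
        _ = V0 * ((1 - V1ᴴ * V1) * (1 - V1ᴴ * V1)) * V0ᴴ := by rw [h2]
        _ = _ := by simp only [Matrix.mul_assoc]
    rw [h1]
    exact Matrix.posSemidef_self_mul_conjTranspose _
  obtain ⟨P, M, hP, hM, hW⟩ := red_contraction (V0 * V1ᴴ) hPSD
  -- entries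
  have e00 : ∀ i i', ω (i, 0) (i', 0) = (S0 * S0ᴴ) i i' := by
    intro i i'
    have h1 : ω (i, 0) (i', 0) = ((N.submatrix (fun i => (i, 0)) id) *
        (N.submatrix (fun i => (i, 0)) id)ᴴ) i i' := by
      rw [hN]; rfl
    rw [h1, hN0, conjTranspose_mul]
    calc (S0 * V0 * (V0ᴴ * S0ᴴ)) i i' = (S0 * ((V0 * V0ᴴ) * S0ᴴ)) i i' := by
          simp only [Matrix.mul_assoc]
      _ = _ := by rw [hV0, Matrix.one_mul]
  have e11 : ∀ i i', ω (i, 1) (i', 1) = (S1 * S1ᴴ) i i' := by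
    intro i i'
    have h1 : ω (i, 1) (i', 1) = ((N.submatrix (fun i => (i, 1)) id) *
        (N.submatrix (fun i => (i, 1)) id)ᴴ) i i' := by
      rw [hN]; rfl
    rw [h1, hN1, conjTranspose_mul]
    calc (S1 * V1 * (V1ᴴ * S1ᴴ)) i i' = (S1 * ((V1 * V1ᴴ) * S1ᴴ)) i i' := by
          simp only [Matrix.mul_assoc]
      _ = _ := by rw [hV1, Matrix.one_mul]
  have e01 : ∀ i i', ω (i, 0) (i', 1) = (1 / 2 : ℂ) * ((S0 * P * S1ᴴ) i i' + (S0 * M * S1ᴴ) i i') := by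
    intro i i'
    have h1 : ω (i, 0) (i', 1) = ((N.submatrix (fun i => (i, 0)) id) *
        (N.submatrix (fun i => (i, 1)) id)ᴴ) i i' := by
      rw [hN]; rfl
    rw [h1, hN0, hN1, conjTranspose_mul]
    calc (S0 * V0 * (V1ᴴ * S1ᴴ)) i i' = (S0 * (V0 * V1ᴴ) * S1ᴴ) i i' := by
          simp only [Matrix.mul_assoc]
      _ = _ := by
          rw [hW, Matrix.mul_smul, Matrix.smul_mul, Matrix.mul_add, Matrix.add_mul,
            Matrix.smul_apply, Matrix.add_apply, smul_eq_mul]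
  have e10 : ∀ i i', ω (i, 1) (i', 0) = (1 / 2 : ℂ) * ((S1 * Pᴴ * S0ᴴ) i i' + (S1 * Mᴴ * S0ᴴ) i i') := by
    intro i i'
    have h1 : ω (i, 1) (i', 0) = ((N.submatrix (fun i => (i, 1)) id) *
        (N.submatrix (fun i => (i, 0)) id)ᴴ) i i' := by
      rw [hN]; rfl
    have hW' : V1 * V0ᴴ = (1 / 2 : ℂ) • (Pᴴ + Mᴴ) := by
      have h2 := congrArg conjTranspose hW
      rw [conjTranspose_mul, conjTranspose_conjTranspose, conjTranspose_smul,
        conjTranspose_add] at h2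
      rw [h2]
      congr 1
      simp
    rw [h1, hN0, hN1, conjTranspose_mul]
    calc (S1 * V1 * (V0ᴴ * S0ᴴ)) i i' = (S1 * (V1 * V0ᴴ) * S0ᴴ) i i' := by
          simp only [Matrix.mul_assoc]
      _ = _ := by
          rw [hW', Matrix.mul_smul, Matrix.smul_mul, Matrix.mul_add, Matrix.add_mul,
            Matrix.smul_apply, Matrix.add_apply, smul_eq_mul]
  -- the rank two matrices
  let Xo : Matrix (Fin 2) (Fin 2) ℂ → Matrix (Fin 2 × Fin 2) (Fin 2) ℂ := fun T p k =>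
    if p.2 = 0 then S0 p.1 k else (S1 * Tᴴ) p.1 k
  have x00 : ∀ T i i', (Xo T * (Xo T)ᴴ) (i, 0) (i', 0) = (S0 * S0ᴴ) i i' := by
    intro T i i'
    simp only [Matrix.mul_apply, conjTranspose_apply, Xo, if_true]
  have x11 : ∀ T : Matrix (Fin 2) (Fin 2) ℂ, T * Tᴴ = 1 → ∀ i i',
      (Xo T * (Xo T)ᴴ) (i, 1) (i', 1) = (S1 * S1ᴴ) i i' := by
    intro T hT i i'
    have hT' : Tᴴ * T = 1 := mul_eq_one_comm.1 hT
    have h1 : (Xo T * (Xo T)ᴴ) (i, 1) (i', 1) = ((S1 * Tᴴ) * (S1 * Tᴴ)ᴴ) i i' := by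
      rw [Matrix.mul_apply, Matrix.mul_apply]
      refine Finset.sum_congr rfl fun k _ => ?_
      rw [conjTranspose_apply, conjTranspose_apply]
      rfl
    rw [h1, conjTranspose_mul, conjTranspose_conjTranspose]
    calc (S1 * Tᴴ * (T * S1ᴴ)) i i' = (S1 * ((Tᴴ * T) * S1ᴴ)) i i' := by
          simp only [Matrix.mul_assoc]
      _ = _ := by rw [hT', Matrix.one_mul]
  have x01 : ∀ (T : Matrix (Fin 2) (Fin 2) ℂ) (i i' : Fin 2),
      (Xo T * (Xo T)ᴴ) (i, 0) (i', 1) = (S0 * T * S1ᴴ) i i' := by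
    intro T i i'
    have h1 : (Xo T * (Xo T)ᴴ) (i, 0) (i', 1) = (S0 * (S1 * Tᴴ)ᴴ) i i' := by
      rw [Matrix.mul_apply, Matrix.mul_apply]
      refine Finset.sum_congr rfl fun k _ => ?_
      rw [conjTranspose_apply, conjTranspose_apply]
      rfl
    rw [h1, conjTranspose_mul, conjTranspose_conjTranspose, Matrix.mul_assoc]
  have x10 : ∀ (T : Matrix (Fin 2) (Fin 2) ℂ) (i i' : Fin 2),
      (Xo T * (Xo T)ᴴ) (i, 1) (i', 0) = (S1 * Tᴴ * S0ᴴ) i i' := by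
    intro T i i'
    rw [Matrix.mul_apply, Matrix.mul_apply]
    refine Finset.sum_congr rfl fun k _ => ?_
    rw [conjTranspose_apply, conjTranspose_apply]
    rfl
  refine ⟨Xo P, Xo M, ?_, ?_⟩
  · ext ⟨i, j⟩ ⟨i', j'⟩
    rw [Matrix.smul_apply, Matrix.add_apply, smul_eq_mul]
    fin_cases j <;> fin_cases j'
    · show ω (i, 0) (i', 0) = (1 / 2 : ℂ) * ((Xo P * (Xo P)ᴴ) (i, 0) (i', 0) +
        (Xo M * (Xo M)ᴴ) (i, 0) (i', 0))
      rw [e00, x00, x00]; ring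
    · show ω (i, 0) (i', 1) = (1 / 2 : ℂ) * ((Xo P * (Xo P)ᴴ) (i, 0) (i', 1) +
        (Xo M * (Xo M)ᴴ) (i, 0) (i', 1))
      rw [e01, x01, x01]
    · show ω (i, 1) (i', 0) = (1 / 2 : ℂ) * ((Xo P * (Xo P)ᴴ) (i, 1) (i', 0) +
        (Xo M * (Xo M)ᴴ) (i, 1) (i', 0))
      rw [e10, x10, x10]
    · show ω (i, 1) (i', 1) = (1 / 2 : ℂ) * ((Xo P * (Xo P)ᴴ) (i, 1) (i', 1) +
        (Xo M * (Xo M)ᴴ) (i, 1) (i', 1))
      rw [e11, x11 P hP, x11 M hM]; ring
  · intro i i' j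
    fin_cases j
    · exact ⟨(x00 P i i').trans (e00 i i').symm, (x00 M i i').trans (e00 i i').symm⟩
    · exact ⟨(x11 P hP i i').trans (e11 i i').symm, (x11 M hM i i').trans (e11 i i').symm⟩

end Pool.Agent.H.MP_dd87f4_mp
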