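import Mathlib

open Matrix
open scoped ComplexOrder

namespace Pool.Agent.H.MP_dd87f4_mp

/-- `N Nᴴ = M Mᴴ` implies `N = M U` with `U` unitary. -/
theorem red_unitary {m n : Type*} [Fintype m] [Fintype n] [DecidableEq m] [DecidableEq n]
    (N M : Matrix m n ℂ) (h : N * Nᴴ = M * Mᴴ) :
    ∃ U : Matrix n n ℂ, U * Uᴴ = 1 ∧ Uᴴ * U = 1 ∧ N = M * U := by
  -- the maps x ↦ Nᴴ x, Mᴴ x
  let f : EuclideanSpace ℂ m →ₗ[ℂ] EuclideanSpace ℂ n := Matrix.toEuclideanLin Nᴴ
  let g : EuclideanSpace ℂ m →ₗ[ℂ] EuclideanSpace ℂ n := Matrix.toEuclideanLin Mᴴ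
  have hin : ∀ (A : Matrix m n ℂ) (x y : EuclideanSpace ℂ m),
      inner ℂ (Matrix.toEuclideanLin Aᴴ x) (Matrix.toEuclideanLin Aᴴ y) =
        ((A * Aᴴ) *ᵥ y.ofLp) ⬝ᵥ star x.ofLp := by
    intro A x y
    rw [EuclideanSpace.inner_eq_star_dotProduct]
    show (Aᴴ *ᵥ y.ofLp) ⬝ᵥ star (Aᴴ *ᵥ x.ofLp) = ((A * Aᴴ) *ᵥ y.ofLp) ⬝ᵥ star x.ofLp
    rw [Matrix.star_mulVec, conjTranspose_conjTranspose, ← Matrix.mulVec_mulVec,
      dotProduct_comm, ← Matrix.dotProduct_mulVec, dotProduct_comm]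
  have hfg : ∀ x y, inner ℂ (f x) (f y) = inner ℂ (g x) (g y) := by
    intro x y
    show inner ℂ (Matrix.toEuclideanLin Nᴴ x) (Matrix.toEuclideanLin Nᴴ y) = inner ℂ (Matrix.toEuclideanLin Mᴴ x) (Matrix.toEuclideanLin Mᴴ y)
    rw [hin, hin, h]
  have hnorm : ∀ x, ‖f x‖ = ‖g x‖ := by
    intro x
    have h1 := hfg x x
    rw [inner_self_eq_norm_sq_to_K, inner_self_eq_norm_sq_to_K] at h1
    have h2 : ‖f x‖ ^ 2 = ‖g x‖ ^ 2 := by exact_mod_cast h1
    exact (sq_eq_sq₀ (norm_nonneg _) (norm_nonneg _)).1 h2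
  obtain ⟨r, hr⟩ := LinearMap.exists_rightInverse_of_surjective f.rangeRestrict
    (LinearMap.range_eq_top.2 f.surjective_rangeRestrict)
  have hr' : ∀ s : LinearMap.range f, f (r s) = (s : EuclideanSpace ℂ n) := by
    intro s
    have := congrArg (fun φ : _ →ₗ[ℂ] _ => ((φ s : LinearMap.range f) : EuclideanSpace ℂ n)) hr
    simpa using this
  let L : LinearMap.range f →ₗᵢ[ℂ] EuclideanSpace ℂ n :=
    { toLinearMap := g ∘ₗ r
      norm_map' := by
        intro s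
        show ‖g (r s)‖ = ‖s‖
        rw [← hnorm, hr' s]
        rfl }
  have hL : ∀ x, L.extend (f x) = g x := by
    intro x
    have h1 : L.extend (f x) = L ⟨f x, x, rfl⟩ := LinearIsometry.extend_apply L ⟨f x, x, rfl⟩
    rw [h1]
    show g (r ⟨f x, x, rfl⟩) = g x
    have h2 : ‖g (r ⟨f x, x, rfl⟩ - x)‖ = 0 := by
      rw [← hnorm, map_sub, hr', sub_self, norm_zero]
    rw [norm_eq_zero, map_sub, sub_eq_zero] at h2
    exact h2
  -- the matrix of the extension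
  let A : Matrix n n ℂ := Matrix.toEuclideanLin.symm L.extend.toLinearMap
  have hA : Matrix.toEuclideanLin A = L.extend.toLinearMap :=
    Matrix.toEuclideanLin.apply_symm_apply _
  have hAv : ∀ v : EuclideanSpace ℂ n, (L.extend v).ofLp = A *ᵥ v.ofLp := by
    intro v
    have h1 : L.extend v = Matrix.toEuclideanLin A v := by rw [hA]; rfl
    rw [h1]
    rfl
  have hAA : Aᴴ * A = 1 := by
    ext i j
    have h1 := L.extend.inner_map_map (EuclideanSpace.single i (1 : ℂ)) (EuclideanSpace.single j (1 : ℂ))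
    rw [EuclideanSpace.inner_eq_star_dotProduct, EuclideanSpace.inner_eq_star_dotProduct, hAv, hAv] at h1
    have h2 : ∀ k, (EuclideanSpace.single k (1 : ℂ) : EuclideanSpace ℂ n).ofLp = Pi.single k 1 := fun k => rfl
    rw [h2, h2] at h1
    simp only [Matrix.mulVec_single_one] at h1
    rw [Matrix.mul_apply, Matrix.one_apply]
    have h3 : ∑ k, Aᴴ i k * A k j = A.col j ⬝ᵥ star (A.col i) := by
      rw [dotProduct]
      refine Finset.sum_congr rfl fun k _ => ?_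
      rw [conjTranspose_apply, mul_comm]
      rfl
    rw [h3, h1]
    simp [dotProduct, Pi.single_apply, eq_comm]
  have hAN : A * Nᴴ = Mᴴ := by
    ext i j
    have h1 := hL (EuclideanSpace.single j (1 : ℂ))
    have h2 := congrArg (fun v : EuclideanSpace ℂ n => v.ofLp i) h1
    simp only [hAv] at h2
    have h3 : (f (EuclideanSpace.single j (1 : ℂ))).ofLp = Nᴴ *ᵥ Pi.single j 1 := rfl
    have h4 : (g (EuclideanSpace.single j (1 : ℂ))).ofLp = Mᴴ *ᵥ Pi.single j 1 := rfl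
    rw [h3, h4, Matrix.mulVec_mulVec] at h2
    simpa using h2
  have hAA' : A * Aᴴ = 1 := mul_eq_one_comm.1 hAA
  refine ⟨A, hAA', hAA, ?_⟩
  have h5 := congrArg conjTranspose hAN
  rw [conjTranspose_mul, conjTranspose_conjTranspose, conjTranspose_conjTranspose] at h5
  rw [← h5, Matrix.mul_assoc, hAA, Matrix.mul_one]

end Pool.Agent.H.MP_dd87f4_mp
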