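import Pool.Agent.H.MP_dd87f4_mp.EntB1

set_option autoImplicit false
open Matrix
open scoped ComplexOrder

namespace QA

/-- relabelling of the two blocks -/
private def Tri1_e : Fin 2 ⊕ Fin 2 ≃ Fin 2 × Fin 2 where
  toFun := Sum.elim (fun i => (0, i)) (fun i => (1, i))
  invFun p := if p.1 = 0 then Sum.inl p.2 else Sum.inr p.2
  left_inv := by
    rintro (i | i) <;> simp
  right_inv := by
    rintro ⟨k, i⟩
    fin_cases k <;> simp

private theorem Tri1_e0 (i : Fin 2) : Tri1_e.symm (0, i) = Sum.inl i := rfl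

private theorem Tri1_e1 (i : Fin 2) : Tri1_e.symm (1, i) = Sum.inr i := rfl

private theorem Tri1_cases (i : Fin 2) : i = 0 ∨ i = 1 := by
  fin_cases i <;> simp

private theorem Tri1_unit {U : Matrix (Fin 2) (Fin 2) ℂ} (hU : Uᴴ * U = 1) :
    (Matrix.kronecker U (1 : Matrix (Fin 2) (Fin 2) ℂ))ᴴ *
      Matrix.kronecker U (1 : Matrix (Fin 2) (Fin 2) ℂ) = 1 := by
  unfold Matrix.kronecker
  rw [Matrix.conjTranspose_kronecker, ← Matrix.mul_kronecker_mul, hU, Matrix.conjTranspose_one,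
    Matrix.one_mul, Matrix.one_kronecker_one]

private theorem Tri1_left {n : ℕ} (M : Fin n → Matrix (Fin 2) (Fin 2) ℂ)
    (ω : Matrix (Fin 2 × Fin 2) (Fin 2 × Fin 2) ℂ) (i i' r r' : Fin 2) :
    outR M ω (i, r) (i', r') =
      ∑ j, ∑ s, ∑ s', M j r s * ω (i, s) (i', s') * star (M j r' s') := by
  unfold outR
  rw [Matrix.sum_apply]
  refine Finset.sum_congr rfl fun j _ => ?_
  simp only [Matrix.mul_apply, Fintype.sum_prod_type, Fin.sum_univ_two,
    Matrix.conjTranspose_apply, Matrix.kronecker, Matrix.kroneckerMap_apply, Matrix.one_apply]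
  rcases Tri1_cases i with rfl | rfl <;> rcases Tri1_cases i' with rfl | rfl <;> simp <;> ring

private theorem Tri1_right (U : Matrix (Fin 2) (Fin 2) ℂ)
    (W : Matrix (Fin 2 × Fin 2) (Fin 2 × Fin 2) ℂ) (i i' r r' : Fin 2) :
    (Matrix.kronecker U (1 : Matrix (Fin 2) (Fin 2) ℂ) * W *
      (Matrix.kronecker U (1 : Matrix (Fin 2) (Fin 2) ℂ))ᴴ) (i, r) (i', r') =
      ∑ k, ∑ k', U i k * W (k, r) (k', r') * star (U i' k') := by
  simp only [Matrix.mul_apply, Fintype.sum_prod_type, Fin.sum_univ_two,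
    Matrix.conjTranspose_apply, Matrix.kronecker, Matrix.kroneckerMap_apply, Matrix.one_apply]
  rcases Tri1_cases r with rfl | rfl <;> rcases Tri1_cases r' with rfl | rfl <;> simp <;> ring

private theorem Tri1_main {n : ℕ} (M : Fin n → Matrix (Fin 2) (Fin 2) ℂ)
    (U : Matrix (Fin 2) (Fin 2) ℂ) (a b c : Fin 2 → ℂ) :
    outR M (tri U a b c) = Matrix.kronecker U (1 : Matrix (Fin 2) (Fin 2) ℂ) *
      (Om (TT M a) (TT M b) (TT M c)).submatrix Tri1_e.symm Tri1_e.symm *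
      (Matrix.kronecker U (1 : Matrix (Fin 2) (Fin 2) ℂ))ᴴ := by
  ext ⟨i, r⟩ ⟨i', r'⟩
  rw [Tri1_left, Tri1_right]
  simp only [Fin.sum_univ_two, Matrix.submatrix_apply, Tri1_e0, Tri1_e1, Om,
    Matrix.fromBlocks_apply₁₁, Matrix.fromBlocks_apply₁₂, Matrix.fromBlocks_apply₂₁,
    Matrix.fromBlocks_apply₂₂, Matrix.add_apply, Matrix.mul_apply, Matrix.conjTranspose_apply,
    TT, Matrix.mulVec, dotProduct, tri]
  simp only [Finset.mul_sum, Finset.sum_mul, mul_add, add_mul, ← Finset.sum_add_distrib]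
  refine Finset.sum_congr rfl fun j _ => ?_
  simp only [star_add, star_mul']
  ring

/-- `outR M (tri U a b c) = (U ⊗ 1) Om' (U ⊗ 1)ᴴ` with `Om'` the relabelled `Om (TT M a) (TT M b) (TT M c)`
along `Fin 2 ⊕ Fin 2 ≃ Fin 2 × Fin 2`, `inl i ↦ (0, i)`, `inr i ↦ (1, i)`; `ent_unitary`, `ent_reindex`. -/
theorem ent_tri {n : ℕ} (M : Fin n → Matrix (Fin 2) (Fin 2) ℂ) {U : Matrix (Fin 2) (Fin 2) ℂ}
    (hU : Uᴴ * U = 1) (a b c : Fin 2 → ℂ) :
    ent (outR M (tri U a b c)) = ent (Om (TT M a) (TT M b) (TT M c)) := by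
  rw [Tri1_main, ent_unitary _ _ (Tri1_unit hU), ent_reindex]

end QA
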