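import Pool.Agent.H.MP_dd87f4_mp.Defs

set_option autoImplicit false
open Matrix
open scoped ComplexOrder

namespace QA

theorem tri_psd (U : Matrix (Fin 2) (Fin 2) ℂ) (a b c : Fin 2 → ℂ) : (tri U a b c).PosSemidef := by
  have h : tri U a b c =
      Matrix.vecMulVec (fun p : Fin 2 × Fin 2 => U p.1 0 * a p.2)
        (star (fun p : Fin 2 × Fin 2 => U p.1 0 * a p.2)) +
      Matrix.vecMulVec (fun p : Fin 2 × Fin 2 => U p.1 0 * b p.2 + U p.1 1 * c p.2)
        (star (fun p : Fin 2 × Fin 2 => U p.1 0 * b p.2 + U p.1 1 * c p.2)) := by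
    ext p p'
    rfl
  rw [h]
  exact (Matrix.posSemidef_vecMulVec_self_star _).add (Matrix.posSemidef_vecMulVec_self_star _)

theorem outR_psd {n : ℕ} (M : Fin n → Matrix (Fin 2) (Fin 2) ℂ)
    {ω : Matrix (Fin 2 × Fin 2) (Fin 2 × Fin 2) ℂ} (hω : ω.PosSemidef) : (outR M ω).PosSemidef := by
  unfold outR
  apply Matrix.posSemidef_sum
  intro j _
  exact hω.mul_mul_conjTranspose_same _

private theorem tri2_blk (U : Matrix (Fin 2) (Fin 2) ℂ) (a b c : Fin 2 → ℂ) (j : Fin 2) :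
    blk (tri U a b c) j = U * !![a j * star (a j) + b j * star (b j), b j * star (c j);
      c j * star (b j), c j * star (c j)] * Uᴴ := by
  ext i i'
  simp only [blk, tri, Matrix.mul_apply, Fin.sum_univ_two, Matrix.conjTranspose_apply,
    Matrix.of_apply, Matrix.cons_val', Matrix.cons_val_zero, Matrix.cons_val_one,
    Matrix.cons_val_fin_one, star_mul', star_add]
  ring

theorem tri_blk_rtr {U : Matrix (Fin 2) (Fin 2) ℂ} (hU : Uᴴ * U = 1) (a b c : Fin 2 → ℂ) (j : Fin 2) :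
    rtr (blk (tri U a b c) j) = ‖a j‖ ^ 2 + ‖b j‖ ^ 2 + ‖c j‖ ^ 2 := by
  rw [rtr, tri2_blk, Matrix.trace_mul_comm, ← Matrix.mul_assoc, hU, Matrix.one_mul]
  rw [Matrix.trace_fin_two]
  simp only [Matrix.of_apply, Matrix.cons_val', Matrix.cons_val_zero, Matrix.cons_val_one,
    Matrix.cons_val_fin_one, Complex.star_def, Complex.mul_conj', Complex.add_re]
  norm_cast

/-- `blk (tri U a b c) j = U [[|a|²+|b|², b c̄], [c b̄, |c|²]] Uᴴ` (entries at `j`) -/
theorem tri_blk_det {U : Matrix (Fin 2) (Fin 2) ℂ} (hU : Uᴴ * U = 1) (a b c : Fin 2 → ℂ) (j : Fin 2) :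
    ((blk (tri U a b c) j).det).re = (‖a j‖ * ‖c j‖) ^ 2 := by
  have h1 : (blk (tri U a b c) j).det = (a j * star (a j)) * (c j * star (c j)) := by
    rw [tri2_blk, Matrix.det_mul, Matrix.det_mul, mul_comm, ← mul_assoc, ← Matrix.det_mul, hU,
      Matrix.det_one, one_mul, Matrix.det_fin_two]
    simp only [Matrix.of_apply, Matrix.cons_val', Matrix.cons_val_zero, Matrix.cons_val_one,
      Matrix.cons_val_fin_one]
    ring
  rw [h1]
  simp only [Complex.star_def, Complex.mul_conj']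
  rw [mul_pow]
  norm_cast

/-- `A Aᴴ = out M (a aᴴ)` for `A = TT M a` -/
theorem TT_mul {n : ℕ} (M : Fin n → Matrix (Fin 2) (Fin 2) ℂ) (a : Fin 2 → ℂ) :
    TT M a * (TT M a)ᴴ = out M (Matrix.vecMulVec a (star a)) := by
  ext r r'
  simp only [out, Matrix.mul_apply, Matrix.sum_apply, TT, Matrix.conjTranspose_apply,
    Matrix.mulVec, dotProduct, Fin.sum_univ_two, Matrix.vecMulVec_apply, Pi.star_apply,
    star_add, star_mul']
  refine Finset.sum_congr rfl fun j _ => ?_
  ring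

end QA
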