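import Mathlib
import Pool.Agent.H.MP_dd87f4_mp.Asm

/-!
# MP_dd87f4_mp: block triangular form (helper69), proof of helper25
-/

set_option autoImplicit false

open Matrix
open scoped ComplexOrder Kronecker

namespace Pool.Agent.H.MP_dd87f4_mp.Asm

open Pool.Agent.H.MP_dd87f4_mp

/-- a nontrivial zero of a quadratic form, normalised -/
theorem unit_zero (α β γ : ℂ) : ∃ w0 w1 : ℂ, ‖w0‖ ^ 2 + ‖w1‖ ^ 2 = 1 ∧
    α * w0 ^ 2 + β * (w0 * w1) + γ * w1 ^ 2 = 0 := by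
  by_cases hα : α = 0
  · exact ⟨1, 0, by simp, by simp [hα]⟩
  · have hs : ∃ s : ℂ, discrim α β γ = s * s := by
      obtain ⟨s, hs⟩ := IsAlgClosed.exists_pow_nat_eq (discrim α β γ) (n := 2) (by norm_num)
      exact ⟨s, by rw [← hs]; ring⟩
    obtain ⟨z, hz⟩ := exists_quadratic_eq_zero hα hs
    set r : ℝ := √(‖z‖ ^ 2 + 1) with hr
    have hr2 : r ^ 2 = ‖z‖ ^ 2 + 1 := Real.sq_sqrt (by positivity)
    have hr0 : 0 < r := Real.sqrt_pos.2 (by positivity)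
    refine ⟨z / r, 1 / r, ?_, ?_⟩
    · rw [norm_div, norm_div, Complex.norm_real, Real.norm_of_nonneg hr0.le, div_pow, div_pow, hr2]
      simp only [norm_one, one_pow]
      field_simp
    · have hrc : (r : ℂ) ≠ 0 := by exact_mod_cast hr0.ne'
      field_simp
      linear_combination hz

/-- a common direction of two parallel vectors, normalised -/
theorem unit_dir (u0 u1 v0 v1 : ℂ) (h : u0 * v1 - u1 * v0 = 0) : ∃ f0 f1 : ℂ,
    ‖f0‖ ^ 2 + ‖f1‖ ^ 2 = 1 ∧ f0 * u1 = f1 * u0 ∧ f0 * v1 = f1 * v0 := by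
  by_cases hu : ‖u0‖ ^ 2 + ‖u1‖ ^ 2 = 0
  · have h0 : ‖u0‖ ^ 2 = 0 := by nlinarith [sq_nonneg ‖u0‖, sq_nonneg ‖u1‖]
    have h1 : ‖u1‖ ^ 2 = 0 := by nlinarith [sq_nonneg ‖u0‖, sq_nonneg ‖u1‖]
    have h0' : u0 = 0 := by simpa using h0
    have h1' : u1 = 0 := by simpa using h1
    by_cases hv : ‖v0‖ ^ 2 + ‖v1‖ ^ 2 = 0
    · have k0 : ‖v0‖ ^ 2 = 0 := by nlinarith [sq_nonneg ‖v0‖, sq_nonneg ‖v1‖]
      have k1 : ‖v1‖ ^ 2 = 0 := by nlinarith [sq_nonneg ‖v0‖, sq_nonneg ‖v1‖]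
      have k0' : v0 = 0 := by simpa using k0
      have k1' : v1 = 0 := by simpa using k1
      exact ⟨1, 0, by simp, by simp [h0', h1'], by simp [k0', k1']⟩
    · set r : ℝ := √(‖v0‖ ^ 2 + ‖v1‖ ^ 2) with hr
      have hp : 0 < ‖v0‖ ^ 2 + ‖v1‖ ^ 2 := lt_of_le_of_ne (by positivity) (Ne.symm hv)
      have hr2 : r ^ 2 = ‖v0‖ ^ 2 + ‖v1‖ ^ 2 := Real.sq_sqrt hp.le
      have hr0 : 0 < r := Real.sqrt_pos.2 hp
      refine ⟨v0 / r, v1 / r, ?_, by simp [h0', h1'], by ring⟩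
      rw [norm_div, norm_div, Complex.norm_real, Real.norm_of_nonneg hr0.le, div_pow, div_pow,
        ← add_div, ← hr2, div_self (by positivity)]
  · set r : ℝ := √(‖u0‖ ^ 2 + ‖u1‖ ^ 2) with hr
    have hp : 0 < ‖u0‖ ^ 2 + ‖u1‖ ^ 2 := lt_of_le_of_ne (by positivity) (Ne.symm hu)
    have hr2 : r ^ 2 = ‖u0‖ ^ 2 + ‖u1‖ ^ 2 := Real.sq_sqrt hp.le
    have hr0 : 0 < r := Real.sqrt_pos.2 hp
    have hrc : (r : ℂ) ≠ 0 := by exact_mod_cast hr0.ne'
    refine ⟨u0 / r, u1 / r, ?_, by ring, ?_⟩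
    · rw [norm_div, norm_div, Complex.norm_real, Real.norm_of_nonneg hr0.le, div_pow, div_pow,
        ← add_div, ← hr2, div_self (by positivity)]
    · field_simp
      linear_combination h

/-- the rotation with first column `(w0, w1)` -/
def rot (w0 w1 : ℂ) : Matrix (Fin 2) (Fin 2) ℂ := !![w0, -star w1; w1, star w0]

theorem rot_unitary {w0 w1 : ℂ} (h : ‖w0‖ ^ 2 + ‖w1‖ ^ 2 = 1) : (rot w0 w1)ᴴ * rot w0 w1 = 1 := by
  have h0 : star w0 * w0 + star w1 * w1 = 1 := by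
    have e0 : star w0 * w0 = ((‖w0‖ ^ 2 : ℝ) : ℂ) := by
      rw [← Complex.normSq_eq_norm_sq, mul_comm]; exact Complex.mul_conj _
    have e1 : star w1 * w1 = ((‖w1‖ ^ 2 : ℝ) : ℂ) := by
      rw [← Complex.normSq_eq_norm_sq, mul_comm]; exact Complex.mul_conj _
    rw [e0, e1, ← Complex.ofReal_add, h, Complex.ofReal_one]
  ext i j
  fin_cases i <;> fin_cases j
  · simp only [rot, Matrix.mul_apply, Fin.sum_univ_two, Matrix.conjTranspose_apply]
    simpa using h0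
  · simp only [rot, Matrix.mul_apply, Fin.sum_univ_two, Matrix.conjTranspose_apply]
    simp
    ring
  · simp only [rot, Matrix.mul_apply, Fin.sum_univ_two, Matrix.conjTranspose_apply]
    simp
    ring
  · simp only [rot, Matrix.mul_apply, Fin.sum_univ_two, Matrix.conjTranspose_apply]
    simp
    have h0' : (starRingEnd ℂ) w0 * w0 + (starRingEnd ℂ) w1 * w1 = 1 := h0
    linear_combination h0'

theorem rot_unitary' {w0 w1 : ℂ} (h : ‖w0‖ ^ 2 + ‖w1‖ ^ 2 = 1) : rot w0 w1 * (rot w0 w1)ᴴ = 1 :=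
  mul_eq_one_comm.1 (rot_unitary h)

theorem triprop : TriProp := by
  intro X
  -- the quadratic form det [X_0 w | X_1 w]
  obtain ⟨w0, w1, hw, hq⟩ := unit_zero
    (X (0, 0) 0 * X (1, 1) 0 - X (1, 0) 0 * X (0, 1) 0)
    (X (0, 0) 0 * X (1, 1) 1 + X (0, 0) 1 * X (1, 1) 0 - X (1, 0) 0 * X (0, 1) 1
      - X (1, 0) 1 * X (0, 1) 0)
    (X (0, 0) 1 * X (1, 1) 1 - X (1, 0) 1 * X (0, 1) 1)
  obtain ⟨f0, f1, hf, hf0, hf1⟩ := unit_dir
    (X (0, 0) 0 * w0 + X (0, 0) 1 * w1) (X (1, 0) 0 * w0 + X (1, 0) 1 * w1)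
    (X (0, 1) 0 * w0 + X (0, 1) 1 * w1) (X (1, 1) 0 * w0 + X (1, 1) 1 * w1)
    (by linear_combination hq)
  set V := rot f0 f1 with hV
  set W := rot w0 w1 with hW
  have hVV : Vᴴ * V = 1 := rot_unitary hf
  have hVV' : V * Vᴴ = 1 := rot_unitary' hf
  have hWW' : W * Wᴴ = 1 := rot_unitary' hw
  set V1 : Matrix (Fin 2 × Fin 2) (Fin 2 × Fin 2) ℂ := V ⊗ₖ (1 : Matrix (Fin 2) (Fin 2) ℂ) with hV1
  have hV1' : V1 * V1ᴴ = 1 := by
    rw [hV1, Matrix.conjTranspose_kronecker, ← Matrix.mul_kronecker_mul, hVV']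
    simp
  set X' : Matrix (Fin 2 × Fin 2) (Fin 2) ℂ := V1ᴴ * X * W with hX'
  have hXX : X * Xᴴ = V1 * (X' * X'ᴴ) * V1ᴴ := by
    rw [hX', Matrix.conjTranspose_mul, Matrix.conjTranspose_mul, Matrix.conjTranspose_conjTranspose]
    calc X * Xᴴ = (V1 * V1ᴴ) * X * (W * Wᴴ) * Xᴴ * (V1 * V1ᴴ) := by
          rw [hV1', hWW']; simp
      _ = _ := by simp only [Matrix.mul_assoc]
  have hz : ∀ j, X' (1, j) 0 = 0 := by
    intro j
    have e : X' (1, j) 0 = -f1 * (X (0, j) 0 * w0 + X (0, j) 1 * w1)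
        + f0 * (X (1, j) 0 * w0 + X (1, j) 1 * w1) := by
      rw [hX', hV1, hV, hW]
      fin_cases j <;>
      · simp [Matrix.mul_apply, Fintype.sum_prod_type, Fin.sum_univ_two,
          Matrix.conjTranspose_apply, Matrix.kroneckerMap_apply, rot, Matrix.one_apply]
        ring
    rw [e]
    have hj : j = 0 ∨ j = 1 := by fin_cases j <;> simp
    rcases hj with rfl | rfl
    · linear_combination hf0
    · linear_combination hf1
  have hZ : ∀ i j i' k, (X' * X'ᴴ) (i, j) (i', k)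
      = X' (i, j) 0 * star (X' (i', k) 0) + X' (i, j) 1 * star (X' (i', k) 1) := by
    intro i j i' k
    rw [Matrix.mul_apply, Fin.sum_univ_two, Matrix.conjTranspose_apply, Matrix.conjTranspose_apply]
  have hblk : ∀ j, blk j (X * Xᴴ) = V * blk j (X' * X'ᴴ) * Vᴴ := by
    intro j
    rw [hXX, hV1]
    ext x y
    generalize X' * X'ᴴ = Z
    fin_cases j <;>
    · simp [blk, Matrix.mul_apply, Matrix.conjTranspose_apply, Matrix.kroneckerMap_apply,
        Fintype.sum_prod_type, Fin.sum_univ_two, Matrix.one_apply]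
  have hns : ∀ z : ℂ, z * star z = ((‖z‖ ^ 2 : ℝ) : ℂ) := by
    intro z
    rw [← Complex.normSq_eq_norm_sq]; exact Complex.mul_conj _
  refine ⟨V, fun j => X' (0, j) 0, fun j => X' (0, j) 1, fun j => X' (1, j) 1, X' * X'ᴴ, hVV, hXX,
    fun j k => hZ 0 j 0 k, ?_, ?_, ?_, ?_, ?_⟩
  · intro j k
    rw [hZ, hz k]; simp
  · intro j k
    rw [hZ, hz j]; simp
  · intro j k
    rw [hZ, hz j]; simp
  · intro j
    rw [hblk j, Matrix.det_mul, Matrix.det_mul, mul_comm V.det, mul_assoc, ← Matrix.det_mul, hVV',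
      Matrix.det_one, mul_one, Matrix.det_fin_two]
    simp only [blk, Matrix.submatrix_apply, hZ, hz j]
    push_cast
    have h1 := hns (X' (0, j) 0)
    have h2 := hns (X' (1, j) 1)
    push_cast at h1 h2
    rw [← h1, ← h2]
    simp
    ring
  · rw [hXX, Matrix.trace_mul_comm, ← Matrix.mul_assoc]
    have : V1ᴴ * V1 = 1 := mul_eq_one_comm.1 hV1'
    rw [this, one_mul, Matrix.trace, Fintype.sum_prod_type]
    simp only [Fin.sum_univ_two, Matrix.diag_apply, hZ, hz]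
    push_cast
    have h1 := hns (X' (0, 0) 0)
    have h2 := hns (X' (0, 1) 0)
    have h3 := hns (X' (0, 0) 1)
    have h4 := hns (X' (0, 1) 1)
    have h5 := hns (X' (1, 0) 1)
    have h6 := hns (X' (1, 1) 1)
    push_cast at h1 h2 h3 h4 h5 h6
    rw [← h1, ← h2, ← h3, ← h4, ← h5, ← h6]
    simp
    ring

end Pool.Agent.H.MP_dd87f4_mp.Asm
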