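import Pool.Agent.H.MP_dd87f4_mp.NC
import Pool.Agent.H.MP_dd87f4_mp.Hmono
import Pool.Agent.H.MP_dd87f4_mp.MinDet
import Pool.Agent.H.MP_dd87f4_mp.Tri1
import Pool.Agent.H.MP_dd87f4_mp.Tri2
import Pool.Agent.H.MP_dd87f4_mp.EntB2

set_option autoImplicit false
open Matrix
open scoped ComplexOrder

namespace QA

private theorem TriB_nrm_nonneg (x : Fin 2 → ℂ) : 0 ≤ nrm x :=
  Finset.sum_nonneg fun _ _ => by positivity

private theorem TriB_psd (x : Fin 2 → ℂ) : (Matrix.vecMulVec x (star x)).PosSemidef :=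
  Matrix.posSemidef_vecMulVec_self_star x

private theorem TriB_rtr (x : Fin 2 → ℂ) : rtr (Matrix.vecMulVec x (star x)) = nrm x := by
  unfold rtr nrm
  rw [Matrix.trace, Complex.re_sum]
  refine Finset.sum_congr rfl fun j _ => ?_
  rw [Matrix.diag_apply, Matrix.vecMulVec_apply, Pi.star_apply, Complex.star_def,
    Complex.mul_conj, Complex.ofReal_re, Complex.normSq_eq_norm_sq]

private theorem TriB_lower {n : ℕ} (M : Fin n → Matrix (Fin 2) (Fin 2) ℂ)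
    (hM : ∑ j, (M j)ᴴ * M j = 1) {D : ℝ} (hD : 0 ≤ D)
    (hDM : ∀ τ : Matrix (Fin 2) (Fin 2) ℂ, τ.PosSemidef → τ.trace = 1 → D ≤ ((out M τ).det).re)
    (x : Fin 2 → ℂ) : rtr (TT M x * (TT M x)ᴴ) = nrm x ∧
      Real.negMulLog (nrm x) + nrm x * hh D ≤ ent (TT M x * (TT M x)ᴴ) := by
  rw [TT_mul]
  have hX := TriB_psd x
  have hO := out_psd M hX
  have h1 : rtr (out M (Matrix.vecMulVec x (star x))) = nrm x := by
    unfold rtr
    rw [out_trace M hM]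
    exact TriB_rtr x
  refine ⟨h1, ?_⟩
  rw [ent_two hO, h1]
  have h2 := out_det_lower M hDM hX
  rw [TriB_rtr] at h2
  have h3 := (four_det_le hO).2
  rw [h1] at h3
  exact ee_lower (TriB_nrm_nonneg x) hD (by linarith) h3

theorem tri_bound {n : ℕ} (M : Fin n → Matrix (Fin 2) (Fin 2) ℂ) (hM : ∑ j, (M j)ᴴ * M j = 1)
    {U : Matrix (Fin 2) (Fin 2) ℂ} (hU : Uᴴ * U = 1) (a b c : Fin 2 → ℂ) {D d : ℝ} (hD : 0 ≤ D) (hd : 0 ≤ d)
    (hDM : ∀ τ : Matrix (Fin 2) (Fin 2) ℂ, τ.PosSemidef → τ.trace = 1 → D ≤ ((out M τ).det).re)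
    (htr : ∑ j, rtr (blk (tri U a b c) j) = 1)
    (hblk : ∀ j, d * (rtr (blk (tri U a b c) j)) ^ 2 ≤ ((blk (tri U a b c) j).det).re) :
    hh D + hh d ≤ ent (outR M (tri U a b c)) := by
  have hsum : nrm a + nrm b + nrm c = 1 := by
    rw [← htr]
    unfold nrm
    rw [← Finset.sum_add_distrib, ← Finset.sum_add_distrib]
    exact Finset.sum_congr rfl fun j _ => (tri_blk_rtr hU a b c j).symm
  have hj : ∀ j, √d * rtr (blk (tri U a b c) j) ≤ ‖a j‖ * ‖c j‖ := by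
    intro j
    have h1 := hblk j
    rw [tri_blk_det hU] at h1
    have h2 : (√d * rtr (blk (tri U a b c) j)) ^ 2 ≤ (‖a j‖ * ‖c j‖) ^ 2 := by
      rw [mul_pow, Real.sq_sqrt hd]
      exact h1
    exact le_of_sq_le_sq h2 (by positivity)
  have hs : √d ≤ ∑ j, ‖a j‖ * ‖c j‖ := by
    calc √d = ∑ j, √d * rtr (blk (tri U a b c) j) := by rw [← Finset.mul_sum, htr, mul_one]
      _ ≤ _ := Finset.sum_le_sum fun j _ => hj j
  have hcs : (∑ j, ‖a j‖ * ‖c j‖) ^ 2 ≤ nrm a * nrm c :=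
    Finset.sum_mul_sq_le_sq_mul_sq _ _ _
  have hdle : d ≤ nrm a * nrm c := by
    calc d = √d ^ 2 := (Real.sq_sqrt hd).symm
      _ ≤ (∑ j, ‖a j‖ * ‖c j‖) ^ 2 := pow_le_pow_left₀ (Real.sqrt_nonneg d) hs 2
      _ ≤ _ := hcs
  have ha := TriB_nrm_nonneg a
  have hb := TriB_nrm_nonneg b
  have hc := TriB_nrm_nonneg c
  have h4 : 4 * (nrm a * nrm c) ≤ 1 := by
    have h5 : nrm a + nrm c ≤ 1 := by linarith
    have h6 : (nrm a + nrm c) ^ 2 ≤ 1 := by
      have : (nrm a + nrm c) ^ 2 ≤ 1 ^ 2 := pow_le_pow_left₀ (by linarith) h5 2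
      simpa using this
    nlinarith [sq_nonneg (nrm a - nrm c)]
  obtain ⟨ra, la⟩ := TriB_lower M hM hD hDM a
  obtain ⟨rb, lb⟩ := TriB_lower M hM hD hDM b
  obtain ⟨rc, lc⟩ := TriB_lower M hM hD hDM c
  have hnc := nc (TT M a) (TT M b) (TT M c)
  rw [ra, rb, rc] at hnc
  rw [ent_tri M hU]
  have hhm := hh_mono hd hdle h4
  have hee : ee (nrm a + nrm c + nrm b) (nrm a * nrm c) = hh (nrm a * nrm c) := by
    unfold hh
    rw [show nrm a + nrm c + nrm b = 1 by linarith]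
  unfold GG at hnc
  rw [hee] at hnc
  have hfin : nrm a * hh D + nrm b * hh D + nrm c * hh D = hh D := by
    rw [← add_mul, ← add_mul, hsum, one_mul]
  linarith

end QA
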